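import Pool.Agent.Work.MP_d5331a_gt.OO.Lin

/-!
Bumps, centres and twists. Port of the file `Bump` of the parent directory.

Plan. `band_unique`: for one slab the difference is a lattice vector of norm `< 1`; for adjacent
slabs `tm (j + 1)` of the difference lies in `1 / 2 + ℤ` (`β_succ`, `tm_lam`, `nn_self`, `tm_vec`)
while `tm_small` bounds it by `1 / 16`. Only equal or adjacent slabs are separated, so local
models are taken slab by slab (`loc_model`: for `tw i` use the slabs `i - 1` and `i`).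
`floor_ph_eq`: far from the bands of the slabs `i - 1`, `i` use `L_change` (and
`L i (β i - β r) = 0`). A band of slab `r ± 1` has time in `1 / 2 + ℤ`, so it is not within `ε` of a
point of integer time (`nn_odd`, `tm_small`). Near a band `β` of slab `r` the time of `β` is `m`
(`tm_small`), so `ζ - β = t * ω r` with `t` real (`eq_zero_of_tm_L`, `L_ω_pos`, `tm_ω`); the twisted
vector is `t * dir r (∓ bump)`, and `L_dir_outer`, `L_dir_inner` show that `lin i ζ - ind i β` and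
`L r (ζ - β)` are small (`L_small`) and have the sign of `t` (if the bump is `1 / 2` then `lin i ζ`
is an integer by `Good.start`, `Good.stop`, which is excluded in a gap).
-/

set_option autoImplicit false

open Complex Set

namespace OneOne

open Neuwirth

namespace Lev

variable {M : Lev} (hM : M.Good)
include hM
omit hM in
theorem Bump_half (n : ℤ) : ¬ |(n : ℝ) + 1 / 2| ≤ 1 / 16 := by
  intro h
  rw [abs_le] at h
  have h1 : (-1 : ℤ) < n := by exact_mod_cast (by linarith : (-1 : ℝ) < n)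
  have h2 : n < (0 : ℤ) := by exact_mod_cast (by linarith : (n : ℝ) < 0)
  omega

omit hM in
theorem Bump_int {n : ℤ} (h : |(n : ℝ)| < 1) : n = 0 :=
  Int.abs_lt_one_iff.1 (by exact_mod_cast h)

theorem Bump_adj {j : ℕ} {β β' : ℂ} (hβ : β ∈ M.B j) (hβ' : β' ∈ M.B (j + 1))
    (h : ‖β' - β‖ < 4 * M.ε) : False := by
  obtain ⟨-, -, k, m, rfl⟩ := hβ
  obtain ⟨-, h2, k', m', rfl⟩ := hβ'
  have h3 := tm_small hM h2.le h.le
  have e : M.β (j + 1) + (k' + m' * I) - (M.β j + (k + m * I)) =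
      (((k' - k : ℤ) : ℂ) + (m' - m : ℤ) * I) + M.lam (j + 1) / 2 := by
    rw [β_succ]
    push_cast
    ring
  rw [e, tm_add, tm_vec, tm_half, tm_lam, nn_self hM, Int.cast_one] at h3
  exact Bump_half _ h3


theorem band_unique {j j' : ℕ} {β β' : ℂ} (hβ : β ∈ M.B j) (hβ' : β' ∈ M.B j')
    (h1 : j ≤ j' + 1) (h2 : j' ≤ j + 1) (h : ‖β - β'‖ < 4 * M.ε) : j = j' ∧ β = β' := by
  rcases (by omega : j = j' ∨ j' = j + 1 ∨ j = j' + 1) with rfl | rfl | rfl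
  · obtain ⟨k, m, rfl⟩ := band_diff hβ hβ'
    rw [sub_add_cancel_left, norm_neg] at h
    have h3 : ‖(k : ℂ) + m * I‖ < 1 := by linarith [eps_le hM, hM.ε_pos]
    have h4 : k = 0 := Bump_int (by simpa using (abs_re_le_norm _).trans_lt h3)
    have h5 : m = 0 := Bump_int (by simpa using (abs_im_le_norm _).trans_lt h3)
    exact ⟨rfl, by simp [h4, h5]⟩
  · exact (Bump_adj hM hβ hβ' (by rwa [norm_sub_rev])).elim
  · exact (Bump_adj hM hβ' hβ h).elim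
theorem Bump_close {j j' : ℕ} {β β' ζ : ℂ} (hβ : β ∈ M.B j) (hβ' : β' ∈ M.B j')
    (h1 : j ≤ j' + 1) (h2 : j' ≤ j + 1) (h : ‖ζ - β‖ < 2 * M.ε) (h' : ‖ζ - β'‖ < M.ε) :
    j = j' ∧ β = β' := by
  refine band_unique hM hβ hβ' h1 h2 ?_
  have h3 := norm_sub_le_norm_sub_add_norm_sub β ζ β'
  rw [norm_sub_rev β ζ] at h3
  linarith [hM.ε_pos]


theorem bump_near {j : ℕ} {β ζ : ℂ} (hβ : β ∈ M.B j) (h : ‖ζ - β‖ < 2 * M.ε) :
    M.bump j ζ = max 0 (1 - ‖ζ - β‖ / M.ε) := by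
  unfold bump
  split_ifs with h'
  · have h0 := (Bump_close hM hβ h'.choose_spec.1 (by omega) (by omega) h h'.choose_spec.2).2
    have h1 := h'.choose_spec.2
    rw [← h0] at h1
    rw [← h0, max_eq_right]
    exact sub_nonneg.2 ((div_le_one hM.ε_pos).2 h1.le)
  · rw [max_eq_left]
    exact sub_nonpos.2 ((one_le_div hM.ε_pos).2 (not_lt.1 fun h1 => h' ⟨β, hβ, h1⟩))

theorem bump_other {j j' : ℕ} {β ζ : ℂ} (hβ : β ∈ M.B j) (h : ‖ζ - β‖ < 2 * M.ε)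
    (hj : j' = j + 1 ∨ j = j' + 1) : M.bump j' ζ = 0 := by
  refine dif_neg ?_
  rintro ⟨β', hβ', h'⟩
  have := (Bump_close hM hβ hβ' (by omega) (by omega) h h').1
  omega
omit hM in
theorem Bump_mem {i : ℕ} {β : ℂ} :
    β ∈ M.B (i - 1) ∪ M.B i ↔ ∃ j, β ∈ M.B j ∧ (i = j ∨ i = j + 1) := by
  refine ⟨?_, ?_⟩
  · rintro (h | h)
    exacts [⟨i - 1, h, by omega⟩, ⟨i, h, Or.inl rfl⟩]
  · rintro ⟨j, h, rfl | rfl⟩
    exacts [Or.inr h, Or.inl h]


theorem ctr_near {i j : ℕ} {β ζ : ℂ} (hβ : β ∈ M.B j) (hi : i = j ∨ i = j + 1)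
    (h : ‖ζ - β‖ < M.ε) : M.ctr i ζ = β := by
  have h' : ∃ β, β ∈ M.B (i - 1) ∪ M.B i ∧ ‖ζ - β‖ < M.ε := ⟨β, Bump_mem.2 ⟨j, hβ, hi⟩, h⟩
  obtain ⟨h1, h2⟩ := h'.choose_spec
  obtain ⟨j', h3, h4⟩ := Bump_mem.1 h1
  rw [ctr, dif_pos h']
  exact (Bump_close hM hβ h3 (by omega) (by omega) (by linarith [hM.ε_pos]) h2).2.symm

theorem tw_near {i j : ℕ} {β ζ : ℂ} (hβ : β ∈ M.B j) (hi : i = j ∨ i = j + 1)
    (h : ‖ζ - β‖ < 2 * M.ε) (s : ℝ) : M.tw i s ζ = β + (ζ - β) *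
      exp (((2 * s * (M.b (i - 1) * M.bump (i - 1) ζ - M.a i * M.bump i ζ) : ℝ) : ℂ) * I) := by
  rcases lt_or_ge ‖ζ - β‖ M.ε with h1 | h1
  · rw [tw, ctr_near hM hβ hi h1]
  · have h2 : ∀ j', j' ≤ j + 1 → j ≤ j' + 1 → M.bump j' ζ = 0 := by
      intro j' h3 h4
      rcases eq_or_ne j' j with rfl | hj
      · rw [bump_near hM hβ h]
        exact max_eq_left (sub_nonpos.2 ((one_le_div hM.ε_pos).2 h1))
      · exact bump_other hM hβ h (by omega)
    simp [tw, h2 (i - 1) (by omega) (by omega), h2 i (by omega) (by omega)]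

omit hM in
theorem bump_far {j : ℕ} {ζ : ℂ} (h : ∀ β ∈ M.B j, M.ε ≤ ‖ζ - β‖) : M.bump j ζ = 0 := by
  refine dif_neg ?_
  rintro ⟨β, hβ, h'⟩
  exact h'.not_ge (h β hβ)

omit hM in
theorem ctr_far {i : ℕ} {ζ : ℂ} (h : ∀ β ∈ M.B (i - 1) ∪ M.B i, M.ε ≤ ‖ζ - β‖) :
    M.ctr i ζ = ζ := by
  refine dif_neg ?_
  rintro ⟨β, hβ, h'⟩
  exact h'.not_ge (h β hβ)

omit hM in
theorem tw_far {i : ℕ} {ζ : ℂ} (h : M.bump (i - 1) ζ = 0) (h' : M.bump i ζ = 0) (s : ℝ) :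
    M.tw i s ζ = ζ := by
  simp [tw, h, h']

omit hM in
theorem exists_of_bump_ne {j : ℕ} {ζ : ℂ} (h : M.bump j ζ ≠ 0) :
    ∃ β ∈ M.B j, ‖ζ - β‖ < M.ε := by
  by_contra h'
  exact h (bump_far fun β hβ => not_lt.1 fun h1 => h' ⟨β, hβ, h1⟩)

theorem bump_nonneg (j : ℕ) (ζ : ℂ) : 0 ≤ M.bump j ζ := by
  unfold bump
  split_ifs with h
  · exact sub_nonneg.2 ((div_le_one hM.ε_pos).2 h.choose_spec.2.le)
  · exact le_rfl

theorem bump_le_one (j : ℕ) (ζ : ℂ) : M.bump j ζ ≤ 1 := by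
  unfold bump
  split_ifs with h
  · exact sub_le_self _ (div_nonneg (norm_nonneg _) hM.ε_pos.le)
  · exact zero_le_one

omit hM in
theorem bump_zero (ζ : ℂ) : M.bump 0 ζ = 0 := by
  exact bump_far fun β hβ => absurd (band_range hβ).1 (by omega)

omit hM in
theorem bump_of_le {j : ℕ} (hj : M.l ≤ j) (ζ : ℂ) : M.bump j ζ = 0 := by
  exact bump_far fun β hβ => absurd (band_range hβ).2 (by omega)

/-- Bumps of adjacent slabs have disjoint supports. -/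
theorem bump_eq_zero_or {j j' : ℕ} (hj : j' = j + 1 ∨ j = j' + 1) (ζ : ℂ) :
    M.bump j ζ = 0 ∨ M.bump j' ζ = 0 := by
  refine or_iff_not_imp_left.2 fun h => ?_
  obtain ⟨β, hβ, h1⟩ := exists_of_bump_ne h
  exact bump_other hM hβ (by linarith [hM.ε_pos]) hj

theorem bump_le_half {j : ℕ} {ζ : ℂ} :
    M.bump j ζ ≤ 1 / 2 ↔ ∀ β ∈ M.B j, M.ε / 2 ≤ ‖ζ - β‖ := by
  have h0 := hM.ε_pos
  refine ⟨fun h β hβ => not_lt.1 fun h1 => ?_, fun h => ?_⟩
  · rw [bump_near hM hβ (by linarith)] at h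
    have h2 := (le_max_right _ _).trans h
    have h3 : ‖ζ - β‖ / M.ε < 1 / 2 := (div_lt_iff₀ h0).2 (by linarith)
    linarith
  · unfold bump
    split_ifs with h'
    · have h3 : 1 / 2 ≤ ‖ζ - h'.choose‖ / M.ε :=
        (le_div_iff₀ h0).2 (by linarith [h _ h'.choose_spec.1])
      linarith
    · norm_num
omit hM in
theorem Bump_loc (S : Set ℂ) (ζ₀ : ℂ) : (∃ β ∈ S, ‖ζ₀ - β‖ < 2 * M.ε) ∨
    ∀ ζ, ‖ζ - ζ₀‖ < M.ε → ∀ β ∈ S, M.ε ≤ ‖ζ - β‖ := by
  refine or_iff_not_imp_left.2 fun h ζ hζ β hβ => ?_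
  have h1 : 2 * M.ε ≤ ‖ζ₀ - β‖ := not_lt.1 fun h1 => h ⟨β, hβ, h1⟩
  have h2 := norm_sub_le_norm_sub_add_norm_sub ζ₀ ζ β
  rw [norm_sub_rev ζ₀ ζ] at h2
  linarith

theorem Bump_cases (S : Set ℂ) (ζ : ℂ) : (∃ β ∈ S, ‖ζ - β‖ < 2 * M.ε) ∨
    ∀ β ∈ S, M.ε ≤ ‖ζ - β‖ :=
  (Bump_loc S ζ).imp_right fun h => h ζ (by simpa using hM.ε_pos)

omit hM in
theorem Bump_ev {β ζ₀ : ℂ} {r : ℝ} (h : ‖ζ₀ - β‖ < r) : ∀ᶠ ζ in nhds ζ₀, ‖ζ - β‖ < r :=
  (isOpen_lt (by fun_prop) continuous_const).mem_nhds h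

omit hM in
theorem Bump_tw_far {i : ℕ} {ζ : ℂ} (h : ∀ β ∈ M.B (i - 1) ∪ M.B i, M.ε ≤ ‖ζ - β‖) (s : ℝ) :
    M.tw i s ζ = ζ :=
  tw_far (bump_far fun β hβ => h β (Or.inl hβ)) (bump_far fun β hβ => h β (Or.inr hβ)) s

theorem Bump_norm_tw {i j : ℕ} {β ζ : ℂ} (hβ : β ∈ M.B j) (hi : i = j ∨ i = j + 1)
    (h : ‖ζ - β‖ < 2 * M.ε) (s : ℝ) : ‖M.tw i s ζ - β‖ = ‖ζ - β‖ := by
  rw [tw_near hM hβ hi h, add_sub_cancel_left, norm_mul, norm_exp_ofReal_mul_I, mul_one]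


theorem continuous_bump (j : ℕ) : Continuous (M.bump j) := by
  refine continuous_iff_continuousAt.2 fun ζ₀ => ?_
  rcases Bump_loc (M := M) (M.B j) ζ₀ with ⟨β, hβ, h⟩ | h
  · have h1 : Continuous fun ζ : ℂ => max 0 (1 - ‖ζ - β‖ / M.ε) := by fun_prop
    exact h1.continuousAt.congr ((Bump_ev h).mono fun ζ hζ => (bump_near hM hβ hζ).symm)
  · exact continuousAt_const.congr ((Bump_ev (β := ζ₀) (by simpa using hM.ε_pos)).mono
      fun ζ hζ => (bump_far (h ζ hζ)).symm)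

theorem continuous_tw (i : ℕ) (s : ℝ) : Continuous (M.tw i s) := by
  refine continuous_iff_continuousAt.2 fun ζ₀ => ?_
  rcases Bump_loc (M := M) (M.B (i - 1) ∪ M.B i) ζ₀ with ⟨β, hβ, h⟩ | h
  · obtain ⟨j, hβ, hi⟩ := Bump_mem.1 hβ
    have h2 := continuous_bump hM (i - 1)
    have h3 := continuous_bump hM i
    have h1 : Continuous fun ζ : ℂ => β + (ζ - β) * exp (((2 * s *
      (M.b (i - 1) * M.bump (i - 1) ζ - M.a i * M.bump i ζ) : ℝ) : ℂ) * I) := by fun_prop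
    exact h1.continuousAt.congr ((Bump_ev h).mono fun ζ hζ => (tw_near hM hβ hi hζ s).symm)
  · exact continuousAt_id.congr ((Bump_ev (β := ζ₀) (by simpa using hM.ε_pos)).mono
      fun ζ hζ => (Bump_tw_far (h ζ hζ) s).symm)

theorem continuous_lin (i : ℕ) : Continuous (M.lin i) := by
  exact (continuous_L i).comp ((continuous_tw hM i 1).sub continuous_const)

theorem continuous_hgt (i : ℕ) : Continuous (M.hgt i) := by
  have h2 := continuous_bump hM (i - 1)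
  have h3 := continuous_bump hM i
  unfold hgt
  fun_prop

theorem bump_tw {i j : ℕ} (hi : i = j ∨ i = j + 1) (s : ℝ) (ζ : ℂ) :
    M.bump j (M.tw i s ζ) = M.bump j ζ := by
  rcases Bump_cases hM (M.B (i - 1) ∪ M.B i) ζ with ⟨β, hβ, h⟩ | h
  · obtain ⟨j', hβ, hi'⟩ := Bump_mem.1 hβ
    have h1 := Bump_norm_tw hM hβ hi' h s
    rcases eq_or_ne j j' with rfl | hj
    · rw [bump_near hM hβ h, bump_near hM hβ (h1.trans_lt h), h1]
    · rw [bump_other hM hβ h (by omega), bump_other hM hβ (h1.trans_lt h) (by omega)]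
  · rw [Bump_tw_far h]

theorem hgt_tw (i : ℕ) (s : ℝ) (ζ : ℂ) : M.hgt i (M.tw i s ζ) = M.hgt i ζ := by
  rw [hgt, hgt, bump_tw hM (Or.inl rfl), bump_tw hM (j := i - 1) (by omega)]

theorem tw_tw (i : ℕ) (s : ℝ) (ζ : ℂ) : M.tw i (-s) (M.tw i s ζ) = ζ := by
  rcases Bump_cases hM (M.B (i - 1) ∪ M.B i) ζ with ⟨β, hβ, h⟩ | h
  · obtain ⟨j, hβ, hi⟩ := Bump_mem.1 hβ
    rw [tw_near hM hβ hi ((Bump_norm_tw hM hβ hi h s).trans_lt h), bump_tw hM (Or.inl rfl),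
      bump_tw hM (j := i - 1) (by omega), tw_near hM hβ hi h, add_sub_cancel_left,
      mul_assoc (ζ - β), ← exp_add, ← add_mul, ← ofReal_add, mul_neg, neg_mul, add_neg_cancel]
    simp
  · rw [Bump_tw_far h s, Bump_tw_far h]

theorem tw_tw' (i : ℕ) (ζ : ℂ) : M.tw i 1 (M.tw i (-1) ζ) = ζ := by
  simpa using tw_tw hM i (-1) ζ
omit hM in
theorem Bump_far_add {j : ℕ} {ζ : ℂ} (h : ∀ β ∈ M.B j, M.ε ≤ ‖ζ - β‖) (k m : ℤ) :
    ∀ β ∈ M.B j, M.ε ≤ ‖ζ + (k + m * I) - β‖ := by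
  intro β hβ
  have h1 := h (β - (k + m * I)) ((band_add k m).1 (by rwa [sub_add_cancel]))
  rwa [← sub_add, ← add_sub_right_comm] at h1


theorem bump_add (j : ℕ) (ζ : ℂ) (k m : ℤ) : M.bump j (ζ + (k + m * I)) = M.bump j ζ := by
  rcases Bump_cases hM (M.B j) ζ with ⟨β, hβ, h⟩ | h
  · have h1 := (band_add k m).2 hβ
    have h2 := congrArg norm (add_sub_add_right_eq_sub ζ β (k + m * I))
    rw [bump_near hM hβ h, bump_near hM h1 (h2.trans_lt h), h2]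
  · rw [bump_far h, bump_far (Bump_far_add h k m)]

theorem ctr_add (i : ℕ) (ζ : ℂ) (k m : ℤ) :
    M.ctr i (ζ + (k + m * I)) = M.ctr i ζ + (k + m * I) := by
  by_cases h : ∃ β ∈ M.B (i - 1) ∪ M.B i, ‖ζ - β‖ < M.ε
  · obtain ⟨β, hβ, h⟩ := h
    obtain ⟨j, hβ, hi⟩ := Bump_mem.1 hβ
    rw [ctr_near hM hβ hi h,
      ctr_near hM ((band_add k m).2 hβ) hi (by rwa [add_sub_add_right_eq_sub])]
  · have h' : ∀ β ∈ M.B (i - 1) ∪ M.B i, M.ε ≤ ‖ζ - β‖ :=
      fun β hβ => not_lt.1 fun h1 => h ⟨β, hβ, h1⟩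
    rw [ctr_far h', ctr_far]
    rintro β (hβ | hβ)
    exacts [Bump_far_add (fun β hβ => h' β (Or.inl hβ)) k m β hβ,
      Bump_far_add (fun β hβ => h' β (Or.inr hβ)) k m β hβ]

theorem tw_add (i : ℕ) (s : ℝ) (ζ : ℂ) (k m : ℤ) :
    M.tw i s (ζ + (k + m * I)) = M.tw i s ζ + (k + m * I) := by
  rw [tw, tw, ctr_add hM, bump_add hM, bump_add hM]
  ring

theorem lin_add (i : ℕ) (ζ : ℂ) (k m : ℤ) :
    M.lin i (ζ + (k + m * I)) = M.lin i ζ + ((M.q i * k - M.p i * m : ℤ) : ℝ) := by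
  rw [lin, lin, tw_add hM, add_sub_right_comm, L_add, L_vec]

theorem hgt_add (i : ℕ) (ζ : ℂ) (k m : ℤ) : M.hgt i (ζ + (k + m * I)) = M.hgt i ζ := by
  simp only [hgt, bump_add hM]

omit hM in
theorem ind_add (i : ℕ) (β : ℂ) (k m : ℤ) :
    M.ind i (β + (k + m * I)) = M.ind i β + (M.q i * k - M.p i * m) := by
  rw [ind, ind, add_sub_right_comm, L_add, L_vec, Int.floor_add_intCast]

omit hM in
theorem Bump_L_shift {i j : ℕ} (hi : i = j ∨ i = j + 1) (ζ : ℂ) :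
    M.L i (ζ - M.β i) = M.L i (ζ - M.β j) := by
  rcases hi with rfl | rfl
  · rfl
  · rw [β_succ, ← sub_sub, L_sub _ _ (_ / 2), L_half, L_lam, qq_self]
    simp

omit hM in
theorem ind_eq {i j : ℕ} {β : ℂ} (hβ : β ∈ M.B j) (hi : i = j ∨ i = j + 1) :
    (M.ind i β : ℝ) = M.L i (β - M.β i) := by
  obtain ⟨-, -, k, m, rfl⟩ := hβ
  rw [ind, Bump_L_shift hi, add_sub_cancel_left, L_vec, Int.floor_intCast]

theorem lin_near {i j : ℕ} {β ζ : ℂ} (hβ : β ∈ M.B j) (hi : i = j ∨ i = j + 1)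
    (h : ‖ζ - β‖ < 2 * M.ε) :
    M.lin i ζ = M.ind i β + M.L i ((ζ - β) *
      exp (((2 * (M.b (i - 1) * M.bump (i - 1) ζ - M.a i * M.bump i ζ) : ℝ) : ℂ) * I)) := by
  rw [lin, ind_eq hβ hi, tw_near hM hβ hi h, add_sub_right_comm, L_add, mul_one]

/-- The time of a band of an adjacent slab is half an odd integer. -/
theorem tm_band_adj {r j : ℕ} {β : ℂ} (hβ : β ∈ M.B j) (h1 : 1 ≤ r) (h2 : r < M.l)
    (hr : r = j + 1 ∨ j = r + 1) : ∃ m : ℤ, M.tm r (β - M.β r) = m + 1 / 2 := by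
  obtain ⟨-, -, k, m, rfl⟩ := hβ
  rcases hr with rfl | rfl
  · refine ⟨M.C (j + 1) * k + M.D (j + 1) * m - 1, ?_⟩
    rw [β_succ, ← sub_sub, add_sub_cancel_left, tm_sub, tm_vec, tm_half, tm_lam, nn_self hM]
    push_cast
    ring
  · obtain ⟨c, hc⟩ := hM.nn_odd r h1 h2
    refine ⟨M.C r * k + M.D r * m + c, ?_⟩
    rw [β_succ, add_assoc, add_sub_cancel_left, tm_add, tm_vec, tm_half, tm_lam, hc]
    push_cast
    ring

theorem Bump_L_u (i : ℕ) : M.L i (M.u i) = 0 := by simpa using L_u_mul hM i 1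

/-- the twisted direction of a band on a sheet -/
theorem Bump_dir {r i : ℕ} (hi : i = r ∨ i = r + 1) {β ζ : ℂ} (hβ : β ∈ M.B r)
    (h : ‖ζ - β‖ < 2 * M.ε) (h1 : M.bump i ζ ≤ 1 / 2) (h2 : M.bump (i - 1) ζ ≤ 1 / 2) :
    0 ≤ M.L i (M.ω r *
      exp (((2 * (M.b (i - 1) * M.bump (i - 1) ζ - M.a i * M.bump i ζ) : ℝ) : ℂ) * I)) := by
  obtain ⟨r1, r2⟩ := band_range hβ
  have h0 := bump_nonneg hM r ζ
  rcases hi with rfl | rfl
  · have e : 2 * (M.b (i - 1) * M.bump (i - 1) ζ - M.a i * M.bump i ζ) = M.ang i (-M.bump i ζ) := by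
      rw [bump_other hM hβ h (j' := i - 1) (by omega), ang_nonpos i (by linarith)]
      ring
    rw [e, ← dir]
    rcases h1.eq_or_lt with h3 | h3
    · rw [h3, hM.start i r1 r2, ← ofReal_neg, L_real_mul, Bump_L_u hM, mul_zero]
    · exact (L_dir_outer hM r1 r2 (by linarith) (by linarith)).le
  · rw [Nat.add_sub_cancel] at h2 ⊢
    have e : 2 * (M.b r * M.bump r ζ - M.a (r + 1) * M.bump (r + 1) ζ) = M.ang r (M.bump r ζ) := by
      rw [bump_other hM hβ h (j' := r + 1) (Or.inl rfl), ang_nonneg r h0]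
      ring
    rw [e, ← dir]
    rcases h2.eq_or_lt with h3 | h3
    · rw [h3, hM.stop r r1 r2, L_real_mul, Bump_L_u hM, mul_zero]
    · exact (L_dir_inner hM r1 r2 h0 h3).le

/-- On a wall, the gap of a point determines its position between the bands. -/
theorem floor_ph_eq {r i : ℕ} (h1 : 1 ≤ r) (h2 : r < M.l) (hi : i = r ∨ i = r + 1) {a m : ℤ}
    {x : ℂ × ℝ} (hx : x ∈ M.Gap i a) (ht : M.tm r (x.1 - M.β r) = m) :
    ⌊M.L r (x.1 - M.β r)⌋ = M.kap r i a m := by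
  obtain ⟨⟨hb1, hb2, -⟩, g1, g2⟩ := hx
  have hn' : (0 : ℤ) < M.nn r i := nn_pos' hM h1 h2 hi
  have hn : (1 : ℝ) ≤ M.nn r i := by exact_mod_cast hn'
  have hK1 := Int.floor_le (M.L r (x.1 - M.β r))
  have hK2 := Int.lt_floor_add_one (M.L r (x.1 - M.β r))
  generalize ⌊M.L r (x.1 - M.β r)⌋ = K at hK1 hK2 ⊢
  have hε := hM.ε_pos
  obtain ⟨v, h3, h4, h5⟩ : ∃ v : ℝ, M.lin i x.1 = v - M.qq r i * m ∧ K * M.nn r i ≤ v ∧
      v ≤ (K + 1) * M.nn r i := by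
    rcases Bump_cases hM (M.B (i - 1) ∪ M.B i) x.1 with ⟨β, hβ, h⟩ | h
    · obtain ⟨j, hβ, hj⟩ := Bump_mem.1 hβ
      have t1 := tm_small hM h2.le (ζ := x.1 - β) (by linarith)
      have t2 : M.tm r (x.1 - β) = m - M.tm r (β - M.β r) := by
        rw [← ht, ← tm_sub, sub_sub_sub_cancel_right]
      obtain rfl : r = j := by
        by_contra hne
        obtain ⟨m', hm'⟩ := tm_band_adj hM hβ h1 h2 (by omega)
        rw [t2, hm', abs_sub_comm] at t1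
        exact Bump_half (m' - m) (by push_cast; rwa [sub_add_eq_add_sub])
      have t3 : M.tm r (β - M.β r) = m := by
        obtain ⟨-, -, k, m', rfl⟩ := hβ
        rw [add_sub_cancel_left, tm_vec] at t2 ⊢
        rw [t2, ← Int.cast_sub] at t1
        rw [← sub_eq_zero.1 (Bump_int (t1.trans_lt (by norm_num)))]
      rw [t3, sub_self] at t2
      have w0 := L_ω_pos hM h1 h2
      obtain ⟨t, ht'⟩ : ∃ t : ℝ, x.1 - β = t * M.ω r := by
        refine ⟨M.L r (x.1 - β) / M.L r (M.ω r), sub_eq_zero.1 (eq_zero_of_tm_L hM r ?_ ?_)⟩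
        · rw [tm_sub, tm_real_mul, hM.tm_ω, t2, mul_zero, sub_zero]
        · rw [L_sub, L_real_mul, div_mul_cancel₀ _ w0.ne', sub_self]
      have l1 := lin_near hM hβ hi h
      have l2 := Bump_dir hM hi hβ h hb1 hb2
      have l3 := L_small hM (i := i) (by omega) (ζ := (x.1 - β) *
        exp (((2 * (M.b (i - 1) * M.bump (i - 1) x.1 - M.a i * M.bump i x.1) : ℝ) : ℂ) * I))
        (by rw [norm_mul, norm_exp_ofReal_mul_I]; linarith)
      have l4 := L_small hM h2.le (ζ := x.1 - β) (by linarith)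
      have l5 : M.L r (x.1 - M.β r) = M.ind r β + M.L r (x.1 - β) := by
        rw [ind_eq hβ (Or.inl rfl), ← L_add]
        congr 1
        ring
      rw [ind_eq hβ hi, Bump_L_shift hi, L_change hM r, t3, ← ind_eq hβ (Or.inl rfl)] at l1
      rw [l5] at hK1 hK2
      rw [ht', mul_assoc, L_real_mul] at l1 l3
      rw [ht', L_real_mul] at l4 hK1 hK2
      generalize M.L i (M.ω r * _) = c at l1 l2 l3
      generalize M.L r (M.ω r) = w at w0 l4 hK1 hK2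
      generalize M.ind r β = k0 at l1 hK1 hK2
      rw [abs_le] at l3 l4
      refine ⟨M.nn r i * k0 + t * c, by rw [l1]; ring, ?_⟩
      rcases le_or_gt 0 t with t0 | t0
      · have a1 := mul_nonneg t0 w0.le
        have a2 := mul_nonneg t0 l2
        have a3 : K < k0 + 1 := by exact_mod_cast (by linarith : (K : ℝ) < k0 + 1)
        have a4 : k0 < K + 1 := by exact_mod_cast (by linarith : (k0 : ℝ) < K + 1)
        obtain rfl : K = k0 := by omega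
        constructor <;> linarith
      · have a1 := mul_neg_of_neg_of_pos t0 w0
        have a2 := mul_nonpos_of_nonpos_of_nonneg t0.le l2
        have a3 : K < k0 := by exact_mod_cast (by linarith : (K : ℝ) < k0)
        have a4 : k0 < K + 1 + 1 := by exact_mod_cast (by linarith : (k0 : ℝ) < K + 1 + 1)
        obtain rfl : k0 = K + 1 := by omega
        push_cast
        constructor <;> linarith
    · refine ⟨M.nn r i * M.L r (x.1 - M.β r), ?_, ?_, ?_⟩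
      · rw [lin, Bump_tw_far h, Bump_L_shift hi, L_change hM r, ht]
      · rw [mul_comm]
        exact mul_le_mul_of_nonneg_left hK1 (by linarith)
      · rw [mul_comm]
        exact mul_le_mul_of_nonneg_right hK2.le (by linarith)
  have h6 : ((K * M.nn r i : ℤ) : ℝ) < ((a + M.qq r i * m + 1 : ℤ) : ℝ) := by
    push_cast
    linarith
  have h7 : ((a + M.qq r i * m : ℤ) : ℝ) < (((K + 1) * M.nn r i : ℤ) : ℝ) := by
    push_cast
    linarith
  have h8 := (Int.le_ediv_iff_mul_le hn').2 (Int.lt_add_one_iff.1 (Int.cast_lt.1 h6))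
  have h9 := (Int.ediv_lt_iff_lt_mul hn').2 (Int.cast_lt.1 h7)
  rw [kap]
  omega

end Lev

end OneOne
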