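import Pool.Agent.Work.MP_d5331a_gt.OO.Regions
import Pool.Agent.Work.MP_d5331a_gt.Chart

/-!
Local flatness. Port of the file `Chart` of the parent directory.
-/

set_option autoImplicit false

open Complex Set Filter Topology

namespace OneOne

open Neuwirth

namespace Lev

variable {M : Lev} (hM : M.Good)
include hM

/-- Coordinates that untwist a band. -/
noncomputable def chartNeck (j : ℕ) (β : ℂ) {σ : ℝ} (hσ : σ = 1 ∨ σ = -1) : ℂ × ℝ ≃ₜ ℝ × ℂ where
  toFun y := (y.2 - j - 1 / 2, σ * M.unt j β y)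
  invFun z := (β + σ * z.2 * M.dir j z.1, z.1 + j + 1 / 2)
  left_inv y := by
    have h1 : (σ : ℂ) * σ = 1 := by rcases hσ with rfl | rfl <;> simp
    have h2 := unt_mul_dir hM j β y
    refine Prod.ext ?_ (by ring)
    dsimp only
    linear_combination (σ * σ) * h2 + (y.1 - β) * h1
  right_inv z := by
    have h1 : (σ : ℂ) * σ = 1 := by rcases hσ with rfl | rfl <;> simp
    have h2 := dir_mul_conj hM j z.1
    have h3 : z.1 + j + 1 / 2 - j - 1 / 2 = z.1 := by ring
    refine Prod.ext h3 ?_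
    dsimp only [unt]
    rw [h3]
    linear_combination z.2 * (σ * σ) * h2 + z.2 * h1
  continuous_toFun := by
    have := continuous_unt (M := M) j β
    fun_prop
  continuous_invFun := by
    have := continuous_dir (M := M) j
    fun_prop

/-- The point with given coordinates for level `i`. -/
noncomputable def chartPt (M : Lev) (i : ℕ) (t y : ℝ) : ℂ :=
  M.β i + (t * M.lam i + y * ((M.D i : ℂ) + (-M.C i : ℤ) * I))

theorem chartPt_tm (i : ℕ) (t y : ℝ) : M.tm i (M.chartPt i t y - M.β i) = t := by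
  rw [chartPt, add_sub_cancel_left, tm_add, tm_real_mul, tm_real_mul, tm_lam, nn_self hM, tm_vec]
  push_cast
  ring

theorem chartPt_L (i : ℕ) (t y : ℝ) : M.L i (M.chartPt i t y - M.β i) = y := by
  have h : (M.C i : ℝ) * M.p i + M.D i * M.q i = 1 := by exact_mod_cast hM.bez i
  rw [chartPt, add_sub_cancel_left, L_add, L_real_mul, L_real_mul, L_lam, qq_self, L_vec]
  push_cast
  linear_combination y * h

/-- Coordinates that flatten sheet `i`. -/
noncomputable def chartPlain (i : ℕ) (m : ℤ) : ℂ × ℝ ≃ₜ ℝ × ℝ × ℝ where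
  toFun y := (M.tm i (M.tw i 1 y.1 - M.β i), M.lin i y.1 - m, y.2 - M.hgt i y.1)
  invFun z := (M.tw i (-1) (M.chartPt i z.1 (z.2.1 + m)),
    z.2.2 + M.hgt i (M.tw i (-1) (M.chartPt i z.1 (z.2.1 + m))))
  left_inv y := by
    dsimp only
    rw [sub_add_cancel, lin, chartPt, ← eq_coord hM, add_sub_cancel, tw_tw hM i 1, sub_add_cancel]
  right_inv z := by
    dsimp only
    rw [lin, tw_tw' hM, chartPt_tm hM, chartPt_L hM]
    simp
  continuous_toFun := by
    have c1 := continuous_tw hM i 1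
    have c2 := continuous_lin hM i
    have c3 := continuous_hgt hM i
    exact ((continuous_tm i).comp ((c1.comp continuous_fst).sub continuous_const)).prodMk
      (((c2.comp continuous_fst).sub continuous_const).prodMk
        (continuous_snd.sub (c3.comp continuous_fst)))
  continuous_invFun := by
    have c1 := continuous_tw hM i (-1)
    have c3 := continuous_hgt hM i
    unfold chartPt
    fun_prop

theorem flat_up {x : ℂ × ℝ} (hx : x ∈ M.FUp) :
    ∃ φ : OpenPartialHomeomorph (ℂ × ℝ) (ℝ × ℝ × ℝ), x ∈ φ.source ∧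
      ∀ y ∈ φ.source, (y ∈ M.FUp ↔ (φ y).2.2 = 0) ∧ (y ∈ M.knotUp ↔ (φ y).2 = 0) := by
  by_cases h : x.2 + 1 / 2 = sh x.2
  · obtain ⟨j, β, hβ, h1, h2⟩ := exists_neck hM hx h
    have hε := hM.ε_pos
    have h0 : M.unt j β x ≠ 0 := fun e => by
      rw [← norm_unt hM j, e, norm_zero] at h2
      linarith
    obtain ⟨σ, hσ, hs⟩ : ∃ σ : ℝ, (σ = 1 ∨ σ = -1) ∧ (σ : ℂ) * M.unt j β x ∈ slitPlane := by
      rcases mem_slitPlane_or_neg_mem_slitPlane h0 with h3 | h3
      · exact ⟨1, Or.inl rfl, by simpa using h3⟩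
      · exact ⟨-1, Or.inr rfl, by simpa using h3⟩
    have hO : IsOpen {y : ℂ × ℝ | ‖y.1 - β‖ < M.ε ∧ |y.2 - j - 1 / 2| < 1 / 2} :=
      IsOpen.and (isOpen_lt (by fun_prop) continuous_const)
        (isOpen_lt (by fun_prop) continuous_const)
    refine ⟨(((chartNeck hM j β hσ).transOpenPartialHomeomorph
      ((OpenPartialHomeomorph.refl ℝ).prod Complex.polarCoord)).transHomeomorph
        (chartShear M.ε)).restrOpen _ hO, ⟨⟨mem_univ _, hs⟩, ?_, ?_⟩, ?_⟩
    · rw [h2]; linarith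
    · rw [h1]; norm_num
    · rintro y ⟨⟨-, hy⟩, y1, y2⟩
      obtain ⟨t1, t2⟩ := mem_FUp_tube hM hβ y1 y2
      set w := M.unt j β y with hw
      have hy' : (σ : ℂ) * w ∈ slitPlane := hy
      have hn : ‖(σ : ℂ) * w‖ = ‖y.1 - β‖ := by
        rw [norm_mul, hw, norm_unt hM]
        rcases hσ with rfl | rfl <;> simp
      have ha : arg ((σ : ℂ) * w) = 0 ↔ w.im = 0 := by
        have h3 : ((σ : ℂ) * w).im = 0 ↔ w.im = 0 := by
          rcases hσ with rfl | rfl <;> simp
        rw [arg_eq_zero_iff, ← h3]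
        exact ⟨fun h4 => h4.2, fun h4 =>
          ⟨((mem_slitPlane_iff.1 hy').resolve_right (not_not.2 h4)).le, h4⟩⟩
      change (y ∈ M.FUp ↔ (Complex.polarCoord ((σ : ℂ) * w)).1
          - (M.ε / 2 + M.ε * |y.2 - j - 1 / 2|) = 0) ∧
        (y ∈ M.knotUp ↔ ((Complex.polarCoord ((σ : ℂ) * w)).2, (Complex.polarCoord ((σ : ℂ) * w)).1
          - (M.ε / 2 + M.ε * |y.2 - j - 1 / 2|)) = 0)
      rw [Complex.polarCoord_apply, Prod.mk_eq_zero, hn, ha, sub_eq_zero, and_comm (a := w.im = 0)]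
      exact ⟨t1, t2⟩
  · obtain ⟨i1, i2, -⟩ := mem_sheet_sh hM hx
    obtain ⟨p1, p2, p3⟩ := plain_of_ne hM hx h
    generalize sh x.2 = i at i1 i2 p1 p2 p3
    have c1 := continuous_bump hM i
    have c2 := continuous_bump hM (i - 1)
    have c3 := continuous_lin hM i
    obtain ⟨m, hm⟩ : ∃ m : ℤ, |M.lin i x.1 - m| < 1 := ⟨⌊M.lin i x.1⌋, by
      rw [abs_lt]
      constructor <;> linarith [Int.floor_le (M.lin i x.1), Int.lt_floor_add_one (M.lin i x.1)]⟩
    have hO : IsOpen {y : ℂ × ℝ | M.bump i y.1 < 1 / 2 ∧ M.bump (i - 1) y.1 < 1 / 2 ∧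
        |y.2 - i| < 1 / 2 ∧ |M.lin i y.1 - m| < 1} :=
      IsOpen.and (isOpen_lt (c1.comp continuous_fst) continuous_const)
        (IsOpen.and (isOpen_lt (c2.comp continuous_fst) continuous_const)
          (IsOpen.and (isOpen_lt (by fun_prop) continuous_const)
            (isOpen_lt ((c3.comp continuous_fst).sub continuous_const).abs continuous_const)))
    refine ⟨(chartPlain hM i m).toOpenPartialHomeomorph.restrOpen _ hO,
      ⟨mem_univ _, p1, p2, p3, hm⟩, ?_⟩
    · rintro y ⟨-, y1, y2, y3, y4⟩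
      have hsh : sh y.2 = i := by
        rw [abs_lt] at y3
        have : (0 : ℝ) ≤ i := Nat.cast_nonneg i
        rw [sh, Nat.floor_eq_iff (by linarith)]
        constructor <;> linarith
      have hS : y ∈ M.FUp → y ∈ M.Sheet i := fun hy => hsh ▸ (mem_sheet_sh hM hy).2.2
      have hS' : y ∈ M.Sheet i ↔ y.2 - M.hgt i y.1 = 0 := by
        rw [sub_eq_zero]
        exact ⟨fun hy => hy.2.2, fun hy => ⟨y1.le, y2.le, hy⟩⟩
      change (y ∈ M.FUp ↔ y.2 - M.hgt i y.1 = 0) ∧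
        (y ∈ M.knotUp ↔ (M.lin i y.1 - m, y.2 - M.hgt i y.1) = 0)
      rw [Prod.mk_eq_zero, ← hS']
      refine ⟨⟨hS, fun hy => ⟨i, i1, i2, hy⟩⟩, fun hy => ?_, fun hy => ?_⟩
      · have h1 := hS (knot_sub hM hy)
        obtain ⟨k, hk⟩ := (mem_knot_iff hM i1 i2 h1).1 hy
        refine ⟨?_, h1⟩
        rw [hk] at y4 ⊢
        have h2 : |k - m| < 1 := by exact_mod_cast y4
        have h3 : k - m = 0 := Int.abs_lt_one_iff.1 h2
        exact_mod_cast h3
      · exact (mem_knot_iff hM i1 i2 hy.2).2 ⟨m, sub_eq_zero.1 hy.1⟩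

theorem flat {p : S3} (hp : p ∈ M.surf) : Flat M.surf M.knot p := by
  obtain ⟨x, hx, rfl⟩ := hp
  have hr : ∀ y ∈ M.FUp, 0 ≤ y.2 ∧ y.2 ≤ M.l + 1 := fun y hy => by
    have := depth_of_mem hM hy
    constructor <;> linarith [this.1, this.2]
  obtain ⟨d1, d2⟩ := depth_of_mem hM hx
  obtain ⟨ψ, hψ, hE, hd⟩ := Dt.exists_Eloc (det M) (x := x) (by linarith)
    (by rw [nest_l]; linarith)
  obtain ⟨φ, hφ, H⟩ := flat_up hM hx
  refine ⟨ψ.symm.trans φ, ?_, ?_⟩
  · rw [E, ← hE]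
    refine ⟨ψ.map_source hψ, ?_⟩
    change ψ.symm (ψ x) ∈ φ.source
    rwa [ψ.left_inv hψ]
  · rintro y ⟨y1, y2⟩
    have h1 : ψ.symm y ∈ ψ.source := ψ.map_target y1
    have h2 : M.nest.E (ψ.symm y) = y := (hE _).symm.trans (ψ.right_inv y1)
    have h3 := Dt.E_mem_image (det M) (fun z k m hz => (FUp_add hM z k m).2 hz) hr (hd _ h1).1 (hd _ h1).2
    have h4 := Dt.E_mem_image (det M) (fun z k m hz => (knotUp_add hM z k m).2 hz)
      (fun z hz => hr z (knot_sub hM hz)) (hd _ h1).1 (hd _ h1).2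
    rw [h2] at h3 h4
    exact ⟨h3.trans (H _ y2).1, h4.trans (H _ y2).2⟩

end Lev

end OneOne
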