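import Pool.Agent.Work.MP_d5331a_gt.OO.Tm
import Pool.Agent.Work.MP_d5331a_gt.Comb

/-!
Reduced walks have non-trivial labels.
-/

set_option autoImplicit false

open Complex Set

namespace OneOne

open Neuwirth

namespace Lev

/-- The position of the gap of a cell on the wall of time `m` of region `r`. -/
def mu (M : Lev) (r : ℕ) (m : ℤ) (u : ℕ × ℤ × ℤ) : ℤ := M.kap r u.1 u.2.1 m

/-- The sign by which the position changes along a dart through a neck. -/
noncomputable def wt (M : Lev) : Arc × Bool → ℝ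
  | (.tm _ _ _, _) => 0
  | (.nk j _ σ, b) => if b then -(σ * M.e j) else σ * M.e j

/-- Darts through a neck of the parity of the side. -/
def Inner (M : Lev) (c : ℕ) (d : Arc × Bool) : Prop :=
  ∃ j β σ, d.1 = .nk j β σ ∧ β ∈ M.B j ∧ (σ = 1 ∨ σ = -1) ∧ j % 2 = c

/-- The letter of an arc. -/
noncomputable def ltr (c : ℕ) : Arc → ℕ × ℝ
  | .tm i _ _ => (J c i, 0)
  | .nk j _ _ => (j, 0)

/-- The exponents on the two sides of the letter of an arc. -/
noncomputable def ex (M : Lev) (c : ℕ) : Arc → Bool → ℤ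
  | .tm i a m, _ => M.kap (J c i) i a m
  | .nk j β _, b => if b then ⌊M.ph (j - 1) β⌋ else ⌊M.ph (j + 1) β⌋

/-- The conditions at the two ends. -/
def EndsBig (M : Lev) : Prop := 2 ≤ |M.q 1| ∧ 2 ≤ |M.p M.l|

variable {M : Lev} (hM : M.Good)
include hM

theorem se_cases (j : ℕ) {σ : ℝ} (hσ : σ = 1 ∨ σ = -1) : σ * M.e j = 1 ∨ σ * M.e j = -1 := by
  rcases hσ with rfl | rfl <;> rcases hM.sign j with h | h <;> simp [h]

theorem ind_succ {j : ℕ} {β : ℂ} (hβ : β ∈ M.B j) :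
    M.ind (j + 1) β = M.nn j (j + 1) * M.ind j β - M.qq j (j + 1) * M.ti j β := by
  have h1 := ind_eq hβ (Or.inr rfl)
  have h2 := ind_eq hβ (Or.inl rfl)
  have h3 := tm_band hβ
  have h4 : M.L (j + 1) (β - M.β (j + 1)) = M.L (j + 1) (β - M.β j) := by
    rw [β_succ, ← sub_sub, L_sub (j + 1) (β - M.β j), L_half, L_lam, qq_self]
    simp
  rw [h4, L_change hM j, ← h2, h3] at h1
  exact_mod_cast h1

theorem tin_self (j : ℕ) (β : ℂ) {σ : ℝ} (hσ : σ = 1 ∨ σ = -1) :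
    (σ = 1 ∧ M.tin j j β σ = M.ti j β) ∨ (σ = -1 ∧ M.tin j j β σ = M.ti j β - 1) := by
  rcases hσ with rfl | rfl
  · exact Or.inl ⟨rfl, by simp [tin]⟩
  · exact Or.inr ⟨rfl, by rw [tin, if_pos ⟨rfl, by norm_num⟩]⟩

theorem neck_mu {j : ℕ} {β : ℂ} {σ : ℝ} (hβ : β ∈ M.B j) (hσ : σ = 1 ∨ σ = -1) {m : ℤ}
    (hm : m = M.tin j j β σ ∨ m = M.tin j j β σ + 1) (τ τ' : ℤ) :
    1 ≤ -(σ * M.e j) *
      ((M.mu j m (j + 1, M.gi j β σ, τ') - M.mu j m (j, M.go j β σ, τ) : ℤ) : ℝ) := by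
  obtain ⟨r1, r2⟩ := band_range hβ
  have p2 := hM.nn_pos j r1 r2
  have ht := hM.taut j r1 r2
  have hi := ind_succ hM hβ
  have ne : ¬ (-1 : ℝ) = 1 := by norm_num
  have k0 : ∀ a : ℤ, M.kap j j a m = a := fun a => by simp [kap, qq_self, nn_self hM]
  have hq : (M.e j = 1 ∧ M.qq j (j + 1) ≤ 0) ∨ (M.e j = -1 ∧ 0 ≤ M.qq j (j + 1)) := by
    rcases hM.sign j with h | h <;> rw [h] at ht
    · exact Or.inl ⟨h, by exact_mod_cast (by linarith : (M.qq j (j + 1) : ℝ) ≤ 0)⟩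
    · exact Or.inr ⟨h, by exact_mod_cast (by linarith : (0 : ℝ) ≤ M.qq j (j + 1))⟩
  rcases se_cases hM j hσ with e | e
  · have h1 : M.qq j (j + 1) * (m - M.ti j β) ≤ 0 := by
      rcases tin_self hM j β hσ with ⟨rfl, h⟩ | ⟨rfl, h⟩ <;> rcases hq with ⟨h2, h3⟩ | ⟨h2, h3⟩ <;>
        rw [h2] at e <;> norm_num at e <;> rw [h] at hm <;> rcases hm with rfl | rfl <;> simp [h3]
    have h2 : M.kap j (j + 1) (M.gi j β σ) m < M.ind j β :=
      Int.ediv_lt_of_lt_mul p2 (by rw [gi, if_pos e, hi]; linarith)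
    simp only [mu, k0, go, e, if_true]
    rw [neg_one_mul, ← Int.cast_neg]
    exact_mod_cast (by omega)
  · have h1 : 0 ≤ M.qq j (j + 1) * (m - M.ti j β) := by
      rcases tin_self hM j β hσ with ⟨rfl, h⟩ | ⟨rfl, h⟩ <;> rcases hq with ⟨h2, h3⟩ | ⟨h2, h3⟩ <;>
        rw [h2] at e <;> norm_num at e <;> rw [h] at hm <;> rcases hm with rfl | rfl <;> simp [h3]
    have h2 : M.ind j β ≤ M.kap j (j + 1) (M.gi j β σ) m :=
      Int.le_ediv_of_mul_le p2 (by rw [gi, e, if_neg ne, hi]; linarith)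
    simp only [mu, k0, go, e, ne, if_false]
    rw [neg_neg, one_mul]
    exact_mod_cast (by omega)

theorem inner_dart {c : ℕ} {d : Arc × Bool} (hd : M.Inner c d) :
    J c (dtgt (M.src c) (M.tgt c) d).1 = J c (dsrc (M.src c) (M.tgt c) d).1 ∧
    (dtgt (M.src c) (M.tgt c) d).2.2 = (dsrc (M.src c) (M.tgt c) d).2.2 ∧
    (dsrc (M.src c) (M.tgt c) d).1 ≠ (dtgt (M.src c) (M.tgt c) d).1 ∧
    (1 ≤ J c (dsrc (M.src c) (M.tgt c) d).1 ∧ J c (dsrc (M.src c) (M.tgt c) d).1 < M.l) ∧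
    (M.wt d = 1 ∨ M.wt d = -1) ∧
    ∀ m, (m = (dsrc (M.src c) (M.tgt c) d).2.2 ∨ m = (dsrc (M.src c) (M.tgt c) d).2.2 + 1) →
      1 ≤ M.wt d * ((M.mu (J c (dsrc (M.src c) (M.tgt c) d).1) m (dtgt (M.src c) (M.tgt c) d) -
        M.mu (J c (dsrc (M.src c) (M.tgt c) d).1) m (dsrc (M.src c) (M.tgt c) d) : ℤ) : ℝ) := by
  obtain ⟨A, b⟩ := d
  obtain ⟨j, β, σ, rfl, hβ, hσ, hj⟩ := hd
  have hs := se_cases hM j hσ
  cases b
  · simp only [dsrc, dtgt, src, tgt, wt, J_self hj, J_succ hj, Bool.false_eq_true, if_false]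
    refine ⟨trivial, trivial, by omega, band_range hβ, hs, fun m hm => ?_⟩
    have := neck_mu hM hβ hσ hm (M.tin j j β σ) (M.tin j j β σ)
    push_cast at this ⊢
    linarith
  · simp only [dsrc, dtgt, src, tgt, wt, J_self hj, J_succ hj, if_true]
    refine ⟨trivial, trivial, by omega, band_range hβ, ?_, fun m hm => ?_⟩
    · rcases hs with h | h <;> simp [h]
    · exact neck_mu hM hβ hσ hm _ _

theorem band_eq_of {j i : ℕ} {β β' : ℂ} {σ : ℝ} (hβ : β ∈ M.B j) (hβ' : β' ∈ M.B j)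
    (hij : i = j ∨ i = j + 1) (h : M.tin j j β σ = M.tin j j β' σ)
    (hi : M.ind i β = M.ind i β') : β = β' := by
  obtain ⟨r1, r2⟩ := band_range hβ
  have h1 : M.ti j β = M.ti j β' := by simpa [tin] using h
  have h2 : M.ind j β = M.ind j β' := by
    rcases hij with rfl | rfl
    · exact hi
    · rw [ind_succ hM hβ, ind_succ hM hβ', h1, sub_left_inj] at hi
      exact mul_left_cancel₀ (hM.nn_pos j r1 r2).ne' hi
  obtain ⟨k, m, rfl⟩ := band_diff hβ hβ'
  rw [ti_add] at h1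
  rw [ind_add] at h2
  obtain ⟨rfl, rfl⟩ := vec_zero hM r1 r2 (k := k) (m := m) (by rw [phZ_mid r1 r2]; omega) (by omega)
  simp

theorem inner_pair {c : ℕ} {d d' : Arc × Bool} (hd : M.Inner c d) (hd' : M.Inner c d')
    (h : dtgt (M.src c) (M.tgt c) d = dsrc (M.src c) (M.tgt c) d') (hr : d' ≠ (d.1, !d.2)) :
    M.wt d' = M.wt d := by
  obtain ⟨A, b⟩ := d
  obtain ⟨A', b'⟩ := d'
  obtain ⟨j, β, σ, rfl, hβ, hσ, hj⟩ := hd
  obtain ⟨j', β', σ', rfl, hβ', hσ', hj'⟩ := hd'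
  have hσσ : σ' = σ ∨ σ' = -σ := by
    rcases hσ with rfl | rfl <;> rcases hσ' with rfl | rfl <;> simp
  cases b <;> cases b' <;>
    simp only [dsrc, dtgt, src, tgt, wt, J_self hj, J_succ hj, J_self hj', J_succ hj',
      Bool.false_eq_true, if_false, if_true, Prod.mk.injEq] at h ⊢
  · omega
  · obtain ⟨rfl, h2, h3⟩ := h
    rcases hσσ with rfl | rfl
    · have := band_eq_of hM (i := j) hβ hβ' (Or.inl rfl) h3 (by simpa [go] using h2)
      subst this
      exact absurd rfl hr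
    · ring
  · obtain ⟨h1, h2, h3⟩ := h
    obtain rfl : j = j' := by omega
    rcases hσσ with rfl | rfl
    · have := band_eq_of hM (i := j + 1) hβ hβ' (Or.inr rfl) h3 (by simpa [gi] using h2)
      subst this
      exact absurd rfl hr
    · ring
  · omega

theorem inner_walk {c : ℕ} {u v : ℕ × ℤ × ℤ} {L : List (Arc × Bool)}
    (hw : Walk (M.src c) (M.tgt c) u L v) (hr : Reduced L) (hi : ∀ d ∈ L, M.Inner c d) :
    J c v.1 = J c u.1 ∧ v.2.2 = u.2.2 ∧ ((L = [] ∧ u = v) ∨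
      ((1 ≤ J c u.1 ∧ J c u.1 < M.l) ∧ ∃ d L', L = d :: L' ∧ (M.wt d = 1 ∨ M.wt d = -1) ∧
        (u.1 = v.1 → 2 ≤ L.length) ∧ ∀ m, (m = u.2.2 ∨ m = u.2.2 + 1) →
          (L.length : ℝ) ≤ M.wt d * ((M.mu (J c u.1) m v - M.mu (J c u.1) m u : ℤ) : ℝ))) := by
  induction hw with
  | nil u => exact ⟨rfl, rfl, Or.inl ⟨rfl, rfl⟩⟩
  | @cons d L v hw ih =>
    have hd := hi d List.mem_cons_self
    obtain ⟨a1, a2, a3, a4, a5, a6⟩ := inner_dart hM hd
    obtain ⟨b1, b2, b3⟩ := ih (List.IsChain.tail hr) fun e he => hi e (List.mem_cons_of_mem _ he)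
    refine ⟨b1.trans a1, b2.trans a2, Or.inr ⟨a4, d, L, rfl, a5, ?_⟩⟩
    rcases b3 with ⟨rfl, rfl⟩ | ⟨-, d', L', rfl, -, -, b4⟩
    · exact ⟨fun h => absurd h a3, fun x hx => by simpa using a6 x hx⟩
    · refine ⟨fun _ => by simp, fun x hx => ?_⟩
      have e := inner_pair hM hd (hi d' (by simp)) (walk_inv _ _ hw).1
        (List.isChain_cons_cons.1 hr).1
      have c1 := a6 x hx
      have c2 := b4 x (by rwa [a2])
      rw [e, a1] at c2
      rw [List.length_cons]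
      push_cast at c1 c2 ⊢
      linarith

omit hM in
theorem Comb_two {a k : ℤ} (ha : 2 ≤ |a|) (h : |a * k| ≤ 1) : k = 0 := by
  by_contra h0
  have := Int.one_le_abs h0
  rw [abs_mul] at h
  nlinarith

theorem end_zero (hE : M.EndsBig) {c i : ℕ} (h1 : 1 ≤ i) (h2 : i ≤ M.l)
    (he : ¬ (1 ≤ J c i ∧ J c i < M.l)) {k m : ℤ} (h0 : M.phZ (J c i) k m = 0)
    (h : |M.q i * k - M.p i * m| ≤ 1) : k = 0 ∧ m = 0 := by
  have h3 := hM.one_le
  have h4 : (i = 1 ∧ J c i = 0) ∨ (i = M.l ∧ J c i = M.l) := by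
    unfold J at he ⊢; split_ifs at he ⊢ <;> omega
  rcases h4 with ⟨rfl, e⟩ | ⟨e', e⟩
  · rw [e] at h0
    obtain rfl : m = 0 := by simpa [phZ] using h0
    exact ⟨Comb_two hE.1 (by simpa using h), rfl⟩
  · rw [e] at h0
    rw [e'] at h
    have h5 : M.l ≠ 0 := by omega
    obtain rfl : k = 0 := by simpa [phZ, h5] using h0
    exact ⟨rfl, Comb_two hE.2 (by simpa using h)⟩

omit hM in
theorem J_cases {c i : ℕ} (h1 : 1 ≤ i) : i = J c i ∨ i = J c i + 1 := by
  unfold J; split_ifs <;> omega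

/-- Two neck darts with the same letter. -/
theorem neck_pinch (hE : M.EndsBig) {c i j : ℕ} {β β' : ℂ} {σ σ' : ℝ} {δ δ' : ℤ} (h1 : 1 ≤ i)
    (h2 : i ≤ M.l) (hj : J c i ≠ j) (hβ : β ∈ M.B j) (hβ' : β' ∈ M.B j)
    (hδ : δ = 0 ∨ δ = 1) (hδ' : δ' = 0 ∨ δ' = 1)
    (hp : ⌊M.ph (J c i) β⌋ = ⌊M.ph (J c i) β'⌋) {L : List (Arc × Bool)}
    (hw : Walk (M.src c) (M.tgt c) (i, M.ind i β - δ, M.tin (J c i) j β σ) L
      (i, M.ind i β' - δ', M.tin (J c i) j β' σ'))
    (hr : Reduced L) (hi : ∀ d ∈ L, M.Inner c d) : L = [] ∧ β = β' ∧ δ = δ' := by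
  obtain ⟨k, m, rfl⟩ := band_diff hβ hβ'
  rw [ph_add, Int.floor_add_intCast] at hp
  have h0 : M.phZ (J c i) k m = 0 := by omega
  obtain ⟨-, b2, b3⟩ := inner_walk hM hw hr hi
  have key : ∀ (x : ℂ) (s : ℝ), M.tin (J c i) j x s = M.ti (J c i) x := fun x s => by
    rw [tin, if_neg fun h => hj h.1, sub_zero]
  have hkm : k = 0 ∧ m = 0 := by
    by_cases he : 1 ≤ J c i ∧ J c i < M.l
    · simp only [key, ti_add] at b2
      exact vec_zero hM he.1 he.2 h0 (by omega)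
    · rcases b3 with ⟨-, e⟩ | ⟨h, -⟩
      · refine end_zero hM hE h1 h2 he h0 ?_
        have e1 := congrArg (fun u => u.2.1) e
        simp only [ind_add] at e1
        rw [abs_le]
        omega
      · exact absurd h he
  obtain ⟨rfl, rfl⟩ := hkm
  simp only [Int.cast_zero, zero_mul, add_zero] at b2 b3 ⊢
  rcases b3 with ⟨e, e'⟩ | ⟨he, d, L', -, hs, h3, h4⟩
  · refine ⟨e, trivial, ?_⟩
    have e1 := congrArg (fun u => u.2.1) e'
    simp only at e1
    omega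
  · exfalso
    have h5 := h4 _ (Or.inl rfl)
    have h6 : (2 : ℝ) ≤ L.length := by exact_mod_cast h3 trivial
    have hn := nn_pos' hM he.1 he.2 (J_cases h1)
    simp only [mu, kap] at h5
    generalize M.qq (J c i) i * M.tin (J c i) j β σ = x at h5
    have n1 := Comb_div_near (A := M.ind i β - δ + x) (B := M.ind i β - δ' + x) hn (by omega)
    have n2 := Comb_div_near (B := M.ind i β - δ + x) (A := M.ind i β - δ' + x) hn (by omega)
    have n1' : (((M.ind i β - δ + x) / M.nn (J c i) i : ℤ) : ℝ) ≤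
      ((M.ind i β - δ' + x) / M.nn (J c i) i : ℤ) + 1 := by exact_mod_cast n1
    have n2' : (((M.ind i β - δ' + x) / M.nn (J c i) i : ℤ) : ℝ) ≤
      ((M.ind i β - δ + x) / M.nn (J c i) i : ℤ) + 1 := by exact_mod_cast n2
    rw [Int.cast_sub] at h5
    rcases hs with e | e <;> rw [e] at h5 <;> linarith

theorem sigma_eq {j : ℕ} {σ σ' : ℝ} (hσ : σ = 1 ∨ σ = -1) (hσ' : σ' = 1 ∨ σ' = -1) {p q : ℤ}
    (hpq : p ≠ q) (h : (if σ * M.e j = 1 then p else q) = if σ' * M.e j = 1 then p else q) :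
    σ = σ' := by
  have ne : ¬ (-1 : ℝ) = 1 := by norm_num
  rcases hσ with rfl | rfl <;> rcases hσ' with rfl | rfl <;> rcases hM.sign j with e | e <;>
    simp [e, ne, hpq, hpq.symm] at h ⊢

theorem no_pinch (hE : M.EndsBig) {c : ℕ} (hc : c < 2) {A A' : Arc} {b : Bool} (hv : M.valid c A)
    (hv' : M.valid c A') (ho : ¬ M.Inner c (A, b)) (ho' : ¬ M.Inner c (A', !b))
    {L : List (Arc × Bool)}
    (hw : Walk (M.src c) (M.tgt c) (dtgt (M.src c) (M.tgt c) (A, b)) L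
      (dsrc (M.src c) (M.tgt c) (A', !b)))
    (hr : Reduced L) (hi : ∀ d ∈ L, M.Inner c d) (hl : ltr c A = ltr c A')
    (he : M.ex c A (!b) = M.ex c A' (!b)) : L = [] ∧ A' = A := by
  cases A with
  | tm i a τ =>
    cases A' with
    | tm i' a' τ' =>
      have hJ : J c i = J c i' := congrArg Prod.fst hl
      obtain ⟨-, b2, b3⟩ := inner_walk hM hw hr hi
      obtain rfl : τ = τ' := by
        cases b <;> simpa [dsrc, dtgt, src, tgt] using b2.symm
      simp only [ex, ← hJ] at he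
      rcases b3 with ⟨e, e'⟩ | ⟨-, d, L', e, hs, -, h4⟩
      · refine ⟨e, ?_⟩
        cases b <;> simp [dsrc, dtgt, src, tgt] at e' <;> simp [e']
      · exfalso
        have h5 := h4 τ (by cases b <;> simp [dtgt, src, tgt])
        have h6 : M.mu (J c (dtgt (M.src c) (M.tgt c) (Arc.tm i a τ, b)).1) τ
            (dsrc (M.src c) (M.tgt c) (Arc.tm i' a' τ, !b)) =
            M.mu (J c (dtgt (M.src c) (M.tgt c) (Arc.tm i a τ, b)).1) τ
              (dtgt (M.src c) (M.tgt c) (Arc.tm i a τ, b)) := by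
          cases b <;> exact he.symm
        rw [h6, e] at h5
        simp only [List.length_cons, sub_self, Int.cast_zero, mul_zero] at h5
        push_cast at h5
        linarith [(Nat.cast_nonneg L'.length : (0 : ℝ) ≤ L'.length)]
    | nk j' β' σ' =>
      have hJ : J c i = j' := congrArg Prod.fst hl
      exact absurd ⟨j', β', σ', rfl, hv'.1, hv'.2, hJ ▸ J_mod hc hv.1⟩ ho'
  | nk j β σ =>
    have hj : j % 2 ≠ c := fun h => ho ⟨j, β, σ, rfl, hv.1, hv.2, h⟩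
    cases A' with
    | tm i' a' τ' =>
      have hJ : j = J c i' := congrArg Prod.fst hl
      exact absurd (hJ ▸ J_mod hc hv'.1) hj
    | nk j' β' σ' =>
      obtain rfl : j = j' := congrArg Prod.fst hl
      obtain ⟨r1, r2⟩ := band_range hv.1
      cases b
      · obtain ⟨e1, e2, e3⟩ := neck_pinch hM hE (c := c) (i := j) r1 r2.le
          (by rw [J_self' hj]; omega) hv.1 hv'.1
          (δ := if σ * M.e j = 1 then 0 else 1) (δ' := if σ' * M.e j = 1 then 0 else 1)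
          (by split_ifs <;> simp) (by split_ifs <;> simp)
          (by rw [J_self' hj]; exact he) hw hr hi
        rw [e2, sigma_eq hM hv.2 hv'.2 zero_ne_one e3]
        exact ⟨e1, rfl⟩
      · obtain ⟨e1, e2, e3⟩ := neck_pinch hM hE (c := c) (i := j + 1) (by omega) r2
          (by rw [J_succ' hc hj]; omega) hv.1 hv'.1
          (δ := if σ * M.e j = 1 then 1 else 0) (δ' := if σ' * M.e j = 1 then 1 else 0)
          (by split_ifs <;> simp) (by split_ifs <;> simp)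
          (by rw [J_succ' hc hj]; exact he) hw hr hi
        rw [e2, sigma_eq hM hv.2 hv'.2 one_ne_zero e3]
        exact ⟨e1, rfl⟩

omit hM in
theorem dval_inner {c : ℕ} {d : Arc × Bool} (hd : M.Inner c d) : dval (M.lab c) d = 1 := by
  obtain ⟨A, b⟩ := d
  obtain ⟨j, β, σ, rfl, -, -, hj⟩ := hd
  cases b <;> simp [dval, lab, hj]

omit hM in
theorem lab_outer {c : ℕ} {A : Arc} {b : Bool} (hv : M.valid c A) (ho : ¬ M.Inner c (A, b)) :
    M.lab c A = T (M.ex c A true) * S (ltr c A) * T (-M.ex c A false) := by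
  cases A with
  | tm i a τ => rfl
  | nk j β σ =>
    have hj : j % 2 ≠ c := fun h => ho ⟨j, β, σ, rfl, hv.1, hv.2, h⟩
    simp [lab, hj, labE, ex, ltr]

omit hM in
theorem dval_outer {c : ℕ} {A : Arc} {b : Bool} (hv : M.valid c A) (ho : ¬ M.Inner c (A, b))
    (x : NF) (h : ¬ (x.1.1 = M.ex c A (!b) ∧ ∃ k L, x.1.2 = (ltr c A, !b, k) :: L)) :
    (dval (M.lab c) (A, b) x).1 =
      (M.ex c A b, (ltr c A, b, -M.ex c A (!b) + x.1.1) :: x.1.2) := by
  cases b
  · simp only [dval, lab_outer hv ho, Bool.false_eq_true, if_false, mul_inv_rev, ← T_neg, neg_neg,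
      Equiv.Perm.mul_apply, T_apply]
    rw [S_inv_apply]
    · simp [T_apply]
    · rintro ⟨h1, h2⟩
      exact h ⟨by simp only [T_apply] at h1; simp only [Bool.not_false]; omega, h2⟩
  · simp only [dval, lab_outer hv ho, if_true, Equiv.Perm.mul_apply, T_apply]
    rw [S_apply]
    · simp [T_apply]
    · rintro ⟨h1, h2⟩
      exact h ⟨by simp only [T_apply] at h1; simp only [Bool.not_true]; omega, h2⟩

theorem walk_state (hE : M.EndsBig) {c : ℕ} (hc : c < 2) {u v : ℕ × ℤ × ℤ} {L : List (Arc × Bool)}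
    (hw : Walk (M.src c) (M.tgt c) u L v) (hr : Reduced L) (hv : ∀ d ∈ L, M.valid c d.1) :
    ((∀ d ∈ L, M.Inner c d) ∧ (L.map (dval (M.lab c))).prod = 1) ∨
    ∃ L₁ d L₂ k R, L = L₁ ++ d :: L₂ ∧
      Walk (M.src c) (M.tgt c) u L₁ (dsrc (M.src c) (M.tgt c) d) ∧ (∀ e ∈ L₁, M.Inner c e) ∧
      ¬ M.Inner c d ∧ ((L.map (dval (M.lab c))).prod NF.one).1 =
        (M.ex c d.1 d.2, (ltr c d.1, d.2, k) :: R) := by
  induction hw with
  | nil u => exact Or.inl ⟨by simp, by simp⟩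
  | @cons d L v hw ih =>
    have ih' := ih (List.IsChain.tail hr) fun e he => hv e (List.mem_cons_of_mem _ he)
    rw [List.map_cons, List.prod_cons]
    by_cases hd : M.Inner c d
    · rw [dval_inner hd, one_mul]
      rcases ih' with ⟨h1, h2⟩ | ⟨L₁, e, L₂, k, R, rfl, h1, h2, h3, h4⟩
      · exact Or.inl ⟨List.forall_mem_cons.2 ⟨hd, h1⟩, h2⟩
      · exact Or.inr ⟨d :: L₁, e, L₂, k, R, rfl, Walk.cons d h1,
          List.forall_mem_cons.2 ⟨hd, h2⟩, h3, h4⟩
    · obtain ⟨A, b⟩ := d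
      have hA : M.valid c A := hv _ List.mem_cons_self
      refine Or.inr ⟨[], (A, b), L, _, _, rfl, Walk.nil _, by simp, hd,
        dval_outer hA hd _ ?_⟩
      rintro ⟨g1, k', R', g2⟩
      rcases ih' with ⟨-, h2⟩ | ⟨L₁, ⟨A', b'⟩, L₂, k, R, rfl, h1, h2, h3, h4⟩
      · rw [h2] at g2
        exact (List.cons_ne_nil _ _ g2.symm).elim
      · rw [h4] at g1 g2
        simp only [List.cons.injEq, Prod.mk.injEq] at g1 g2
        obtain ⟨⟨g2, rfl, -⟩, -⟩ := g2
        obtain ⟨rfl, rfl⟩ := no_pinch hM hE hc hA (hv (A', !b) (by simp)) hd h3 h1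
          (List.IsChain.left_of_append (List.IsChain.tail hr)) h2 g2.symm g1.symm
        exact (List.isChain_cons_cons.1 hr).1 rfl

theorem walk_end (hE : M.EndsBig) {c : ℕ} (hc : c < 2) {i : ℕ} (h1 : 1 ≤ i) (h2 : i ≤ M.l)
    (a t k m : ℤ) (L : List (Arc × Bool))
    (hw : Walk (M.src c) (M.tgt c) (i, a, t) L
      (i, a + (M.q i * k - M.p i * m), t + M.tiZ (J c i) k m))
    (hr : Reduced L) (hv : ∀ d ∈ L, M.valid c d.1)
    (hp : (L.map (dval (M.lab c))).prod = T (-M.phZ (J c i) k m)) :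
    L = [] ∧ k = 0 ∧ m = 0 := by
  rcases walk_state hM hE hc hw hr hv with ⟨hi, g⟩ | ⟨L₁, d, L₂, k', R, -, -, -, -, g⟩
  · have h0 : M.phZ (J c i) k m = 0 := by
      have := congrArg (fun g : Grp => (g NF.one).1.1) (g.symm.trans hp)
      have h' : (0 : ℤ) = -M.phZ (J c i) k m + 0 := this
      omega
    obtain ⟨-, b2, b3⟩ := inner_walk hM hw hr hi
    by_cases he : 1 ≤ J c i ∧ J c i < M.l
    · obtain ⟨rfl, rfl⟩ := vec_zero hM he.1 he.2 h0 (by simpa using b2)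
      rcases b3 with ⟨e, -⟩ | ⟨-, d, L', e, -, -, h4⟩
      · exact ⟨e, rfl, rfl⟩
      · exfalso
        have h5 := h4 t (Or.inl rfl)
        rw [e] at h5
        simp only [mu, List.length_cons, mul_zero, sub_self, add_zero, Int.cast_zero] at h5
        push_cast at h5
        linarith [(Nat.cast_nonneg L'.length : (0 : ℝ) ≤ L'.length)]
    · rcases b3 with ⟨e, e'⟩ | ⟨h, -⟩
      · refine ⟨e, end_zero hM hE h1 h2 he h0 ?_⟩
        have e1 := congrArg (fun u => u.2.1) e'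
        simp only at e1
        rw [abs_le]
        omega
      · exact absurd h he
  · rw [hp, T_apply] at g
    exact absurd (congrArg Prod.snd g) (by simp [NF.one])

end Lev

end OneOne
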