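import Pool.Agent.Work.MP_d5331a_gt.OO.Sheets
import Pool.Agent.Work.MP_d5331a_gt.Simply

/-!
Gaps and strips are simply connected. Port of the file `Simply` of the parent directory.
-/

set_option autoImplicit false

open Complex Set Filter Topology

namespace OneOne

open Neuwirth

namespace Lev

/-- The point at position `τ` along level `i` with `L i = y`. -/
noncomputable def simplyQ (M : Lev) (i : ℕ) (τ y : ℝ) : ℂ :=
  M.β i + M.u i * (τ - ((y / ‖M.lam i‖ : ℝ) : ℂ) * I)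

/-- The point at position `τ` and offset `e` from the middle of the gap. -/
noncomputable def simplyPt (M : Lev) (i : ℕ) (a : ℤ) (τ e : ℝ) : ℂ :=
  M.simplyQ i τ (a + 1 / 2 + e)

/-- The position along level `i`. -/
noncomputable def simplyT (M : Lev) (i : ℕ) (ζ : ℂ) : ℝ :=
  ((starRingEnd ℂ) (M.u i) * (ζ - M.β i)).re

/-- The point of a tube with direction `w` and depth `ρ`. -/
noncomputable def simplyF (M : Lev) (j : ℕ) (β : ℂ) (w : ℂ) (ρ : ℝ) : ℂ × ℝ :=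
  (β + (((M.ε / 2 + M.ε * |ρ - j - 1 / 2|) / ‖w‖ : ℝ) : ℂ) * w * M.dir j (ρ - j - 1 / 2), ρ)

/-- The segment between two points of a strip. -/
noncomputable def simplySeg (M : Lev) (j : ℕ) (β : ℂ) (y : ℂ × ℝ) (u : ℝ × (ℂ × ℝ)) : ℂ × ℝ :=
  M.simplyF j β (((1 - u.1 : ℝ) : ℂ) * M.unt j β u.2 + (u.1 : ℂ) * M.unt j β y)
    ((1 - u.1) * u.2.2 + u.1 * y.2)

variable {M : Lev} (hM : M.Good)
include hM

lemma simplyQ_L (i : ℕ) (τ y : ℝ) : M.L i (M.simplyQ i τ y - M.β i) = y := by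
  have := norm_lam_pos hM i
  rw [simplyQ, add_sub_cancel_left, L_u_mul hM]
  simp only [sub_im, ofReal_im, mul_I_im, ofReal_re]
  field_simp
  ring

lemma simplyQ_eq (i : ℕ) (ζ : ℂ) : M.simplyQ i (M.simplyT i ζ) (M.L i (ζ - M.β i)) = ζ := by
  have h0 := norm_lam_pos hM i
  have h1 : M.u i * (starRingEnd ℂ) (M.u i) = 1 := by
    rw [mul_conj', norm_u hM]; simp
  have h2 : ζ - M.β i = M.u i * ((starRingEnd ℂ) (M.u i) * (ζ - M.β i)) := by
    rw [← mul_assoc, h1, one_mul]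
  have h3 : M.L i (ζ - M.β i) / ‖M.lam i‖ = -((starRingEnd ℂ) (M.u i) * (ζ - M.β i)).im := by
    conv_lhs => rw [h2, L_u_mul hM]
    field_simp
  rw [simplyQ, h3, simplyT, ofReal_neg, neg_mul, sub_neg_eq_add, re_add_im, ← h2, add_sub_cancel]

lemma simplyQ_norm (i : ℕ) (τ y τ' y' : ℝ) : ‖M.simplyQ i τ y - M.simplyQ i τ' y'‖ =
    √((τ - τ') ^ 2 + ((y - y') / ‖M.lam i‖) ^ 2) := by
  rw [simplyQ, simplyQ, add_sub_add_left_eq_sub, ← mul_sub, norm_mul, norm_u hM, one_mul,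
    norm_eq_sqrt_sq_add_sq]
  congr 1
  simp only [sub_re, sub_im, ofReal_re, ofReal_im, mul_I_re, mul_I_im]
  ring

lemma simply_move {i j : ℕ} (h2 : i ≤ M.l) (hi : i = j ∨ i = j + 1) (a : ℤ) {τ e l : ℝ}
    (he : |e| < 1 / 2) (h0 : 0 ≤ l) (h1 : l ≤ 1)
    (h : l = 0 ∨ M.bump j (M.simplyPt i a τ e) ≤ 1 / 2) :
    M.bump j (M.simplyPt i a τ (l * e)) ≤ 1 / 2 := by
  have hε := hM.ε_pos
  have hn := norm_lam_pos hM i
  rw [bump_le_half hM]
  intro β hβ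
  have key : ∀ e', ‖M.simplyPt i a τ e' - β‖ = √((τ - M.simplyT i β) ^ 2 +
      ((((a - M.ind i β : ℤ) : ℝ) + 1 / 2 + e') / ‖M.lam i‖) ^ 2) := fun e' => by
    conv_lhs => rw [← simplyQ_eq hM i β, ← ind_eq hβ hi, simplyPt, simplyQ_norm hM]
    congr 3
    push_cast
    ring
  have hbig : 1 / 2 ≤ |((a - M.ind i β : ℤ) : ℝ) + 1 / 2 + l * e| →
      M.ε / 2 ≤ ‖M.simplyPt i a τ (l * e) - β‖ := fun hb => by
    rw [key]
    refine le_trans ?_ (Real.abs_le_sqrt (le_add_of_nonneg_left (sq_nonneg _)))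
    rw [abs_div, abs_of_pos hn, le_div_iff₀ hn]
    nlinarith [norm_lam_small hM h2]
  rcases h with h | h
  · exact hbig (by rw [h, zero_mul, add_zero]; exact simply_half _)
  rcases simply_abs (simply_half (a - M.ind i β)) he h0 h1 with h3 | h3
  · exact hbig h3
  refine ((bump_le_half hM).1 h β hβ).trans ?_
  rw [key, key]
  refine Real.sqrt_le_sqrt (add_le_add_right (sq_le_sq.2 ?_) _)
  rw [abs_div, abs_div]
  exact div_le_div_of_nonneg_right h3 (abs_nonneg _)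

lemma simply_mem {i : ℕ} {a : ℤ} {τ e : ℝ} (he : |e| < 1 / 2)
    (h : M.bump i (M.simplyPt i a τ e) ≤ 1 / 2)
    (h' : M.bump (i - 1) (M.simplyPt i a τ e) ≤ 1 / 2) :
    (M.tw i (-1) (M.simplyPt i a τ e), M.hgt i (M.simplyPt i a τ e)) ∈ M.Gap i a := by
  have h1 : M.lin i (M.tw i (-1) (M.simplyPt i a τ e)) = a + 1 / 2 + e := by
    rw [lin, tw_tw' hM, simplyPt, simplyQ_L hM]
  rw [abs_lt] at he
  refine ⟨⟨?_, ?_, ?_⟩, ?_, ?_⟩
  · rwa [bump_tw hM (Or.inl rfl)]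
  · rwa [bump_tw hM (by omega)]
  · exact (hgt_tw hM _ _ _).symm
  · rw [h1]; linarith
  · rw [h1]; linarith

lemma simply_pt (i : ℕ) (a : ℤ) (ζ : ℂ) :
    M.simplyPt i a (M.simplyT i (M.tw i 1 ζ)) (M.lin i ζ - a - 1 / 2) = M.tw i 1 ζ := by
  rw [simplyPt, show a + 1 / 2 + (M.lin i ζ - a - 1 / 2) = M.lin i ζ by ring, lin, simplyQ_eq hM]

lemma simplyF_W {j : ℕ} {β : ℂ} {σ : ℝ} {x : ℂ × ℝ} (hx : x ∈ M.Strip j β σ) :
    M.simplyF j β (M.unt j β x) x.2 = x := by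
  have hε := hM.ε_pos
  refine Prod.ext ?_ rfl
  have h2 : 0 < M.ε / 2 + M.ε * |x.2 - j - 1 / 2| := by positivity
  simp only [simplyF]
  rw [norm_unt hM, hx.2.1, div_self h2.ne', ofReal_one, one_mul, unt_mul_dir hM]
  ring

lemma simplyF_mem {j : ℕ} {β : ℂ} {σ : ℝ} {w : ℂ} {ρ : ℝ} (hw : 0 < σ * w.im)
    (hρ : |ρ - j - 1 / 2| < 1 / 2) : M.simplyF j β w ρ ∈ M.Strip j β σ := by
  have hε := hM.ε_pos
  have hw0 : 0 < ‖w‖ := norm_pos_iff.2 fun h => by simp [h] at hw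
  have h2 : 0 < M.ε / 2 + M.ε * |ρ - j - 1 / 2| := by positivity
  refine ⟨hρ, ?_, ?_⟩
  · simp only [simplyF]
    rw [add_sub_cancel_left, norm_mul, norm_mul, norm_dir hM, norm_real,
      Real.norm_of_nonneg (by positivity)]
    field_simp
  · simp only [simplyF, unt]
    rw [add_sub_cancel_left, mul_assoc, dir_mul_conj hM, mul_one, im_ofReal_mul, mul_left_comm]
    positivity

omit hM in
lemma simply_im {j : ℕ} {β : ℂ} {σ : ℝ} {x y : ℂ × ℝ} (hx : x ∈ M.Strip j β σ)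
    (hy : y ∈ M.Strip j β σ) {t : ℝ} (ht : t ∈ Icc (0 : ℝ) 1) :
    0 < σ * (((1 - t : ℝ) : ℂ) * M.unt j β x + (t : ℂ) * M.unt j β y).im := by
  have h1 : 0 < σ * (M.unt j β x).im := hx.2.2
  have h2 : 0 < σ * (M.unt j β y).im := hy.2.2
  rw [add_im, im_ofReal_mul, im_ofReal_mul]
  rcases ht.1.eq_or_lt with h | h
  · rw [← h]; linarith
  · nlinarith [mul_nonneg (sub_nonneg.2 ht.2) h1.le, mul_pos h h2]

lemma simplySeg_mem {j : ℕ} {β : ℂ} {σ : ℝ} {x y : ℂ × ℝ} (hx : x ∈ M.Strip j β σ)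
    (hy : y ∈ M.Strip j β σ) {t : ℝ} (ht : t ∈ Icc (0 : ℝ) 1) :
    M.simplySeg j β y (t, x) ∈ M.Strip j β σ := by
  refine simplyF_mem hM (simply_im hx hy ht) ?_
  have h1 := abs_lt.1 hx.1
  have h2 := abs_lt.1 hy.1
  have h3 := sub_nonneg.2 ht.2
  rw [abs_lt]
  rcases ht.1.eq_or_lt with h | h
  · rw [← h]; constructor <;> simp only <;> linarith [h1.1, h1.2]
  · constructor <;> simp only
    · nlinarith [mul_nonneg h3 (sub_pos.2 h1.1).le, mul_pos h (sub_pos.2 h2.1)]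
    · nlinarith [mul_nonneg h3 (sub_pos.2 h1.2).le, mul_pos h (sub_pos.2 h2.2)]

omit hM in
lemma simplySeg_cont {j : ℕ} {β : ℂ} {σ : ℝ} {y : ℂ × ℝ} (hy : y ∈ M.Strip j β σ) :
    ContinuousOn (M.simplySeg j β y) (Icc 0 1 ×ˢ M.Strip j β σ) := by
  have h1 : Continuous fun u : ℝ × (ℂ × ℝ) =>
      ((1 - u.1 : ℝ) : ℂ) * M.unt j β u.2 + (u.1 : ℂ) * M.unt j β y := by
    have := continuous_unt (M := M) j β
    fun_prop
  have h2 := continuous_dir (M := M) j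
  unfold simplySeg simplyF
  refine ContinuousOn.prodMk (continuousOn_const.add (ContinuousOn.mul (ContinuousOn.mul
    (continuous_ofReal.comp_continuousOn (ContinuousOn.div (by fun_prop) h1.norm.continuousOn ?_))
    h1.continuousOn) (by fun_prop))) (by fun_prop)
  intro u hu h
  have := simply_im hu.2 hy hu.1
  rw [norm_eq_zero.1 h] at this
  simp at this

lemma simplySeg_zero {j : ℕ} {β : ℂ} {σ : ℝ} {x : ℂ × ℝ} (hx : x ∈ M.Strip j β σ) (y : ℂ × ℝ) :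
    M.simplySeg j β y (0, x) = x := by
  simpa [simplySeg] using simplyF_W hM hx

lemma simplySeg_one {j : ℕ} {β : ℂ} {σ : ℝ} {y : ℂ × ℝ} (hy : y ∈ M.Strip j β σ) (x : ℂ × ℝ) :
    M.simplySeg j β y (1, x) = y := by
  simpa [simplySeg] using simplyF_W hM hy

lemma simply_join {j : ℕ} {β : ℂ} {σ : ℝ} {x y : ℂ × ℝ} (hx : x ∈ M.Strip j β σ)
    (hy : y ∈ M.Strip j β σ) {T : Set (ℂ × ℝ)}
    (hT : ∀ t ∈ Icc (0 : ℝ) 1, ∀ z : ℂ × ℝ, z.2 = (1 - t) * x.2 + t * y.2 → z ∈ T) :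
    JoinedIn (M.Strip j β σ ∩ T) x y := by
  refine JoinedIn.ofLine (f := fun t => M.simplySeg j β y (t, x))
    ((simplySeg_cont hy).comp (by fun_prop) fun t ht => ⟨ht, hx⟩) (simplySeg_zero hM hx y)
    (simplySeg_one hM hy x) ?_
  rintro _ ⟨t, ht, rfl⟩
  exact ⟨simplySeg_mem hM hx hy ht, hT t ht _ rfl⟩

theorem gap_simply {i : ℕ} (h1 : 1 ≤ i) (h2 : i ≤ M.l) (a : ℤ) :
    IsSimplyConnected (M.Gap i a) := by
  have hi : i = i - 1 ∨ i = i - 1 + 1 := Or.inr (by omega)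
  have hz : |(0 : ℝ)| < 1 / 2 := by norm_num
  have hmid : ∀ τ, (M.tw i (-1) (M.simplyPt i a τ 0), M.hgt i (M.simplyPt i a τ 0)) ∈ M.Gap i a :=
    fun τ => simply_mem hM hz
      (by simpa using simply_move hM h2 (Or.inl rfl) a hz le_rfl zero_le_one (Or.inl rfl))
      (by simpa using simply_move hM h2 hi a hz le_rfl zero_le_one (Or.inl rfl))
  let p : ℝ × (ℂ × ℝ) → ℂ := fun u => M.simplyPt i a
    ((1 - max (2 * u.1 - 1) 0) * M.simplyT i (M.tw i 1 u.2.1))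
    ((1 - min (2 * u.1) 1) * (M.lin i u.2.1 - a - 1 / 2))
  have hp : Continuous p := by
    have c1 := continuous_tw hM i 1
    have c2 := continuous_lin hM i
    simp only [p, simplyPt, simplyQ, simplyT]
    generalize M.tw i 1 = f at c1 ⊢
    generalize M.lin i = g at c2 ⊢
    fun_prop
  refine isSimplyConnected_of_contraction _ _ (hmid 0)
    (fun u => (M.tw i (-1) (p u), M.hgt i (p u)))
    (((continuous_tw hM i (-1)).comp hp).prodMk ((continuous_hgt hM i).comp hp)).continuousOn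
    (fun t ht x hx => ?_) (fun x hx => ?_) (fun x _ => ?_)
  · simp only [p]
    rcases le_total (2 * t) 1 with h | h
    · have he : |M.lin i x.1 - a - 1 / 2| < 1 / 2 :=
        abs_lt.2 ⟨by linarith [hx.2.1], by linarith [hx.2.2]⟩
      have h0 : 0 ≤ 1 - 2 * t := by linarith
      have h3 : 1 - 2 * t ≤ 1 := by linarith [ht.1]
      rw [max_eq_right (by linarith), min_eq_left h, sub_zero, one_mul]
      refine simply_mem hM ?_ (simply_move hM h2 (Or.inl rfl) a he h0 h3 (Or.inr ?_))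
        (simply_move hM h2 hi a he h0 h3 (Or.inr ?_))
      · rw [abs_mul, abs_of_nonneg h0]
        exact (mul_le_of_le_one_left (abs_nonneg _) h3).trans_lt he
      · rw [simply_pt hM, bump_tw hM (Or.inl rfl)]; exact hx.1.1
      · rw [simply_pt hM, bump_tw hM hi]; exact hx.1.2.1
    · rw [min_eq_right h, sub_self, zero_mul]
      exact hmid _
  · simp only [p]
    rw [max_eq_right (by norm_num), min_eq_left (by norm_num), mul_zero, sub_zero, one_mul,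
      one_mul, simply_pt hM, tw_tw hM, hgt_tw hM]
    exact Prod.ext rfl hx.1.2.2.symm
  · simp only [p]
    rw [max_eq_left (by norm_num), min_eq_right (by norm_num)]
    norm_num

theorem strip_simply (j : ℕ) (β : ℂ) {σ : ℝ} (hσ : σ = 1 ∨ σ = -1) :
    IsSimplyConnected (M.Strip j β σ) := by
  have hy := mid_mem_strip hM j β hσ
  exact isSimplyConnected_of_contraction _ _ hy _ (simplySeg_cont hy)
    (fun t ht x hx => simplySeg_mem hM hx hy ht) (fun x hx => simplySeg_zero hM hx _)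
    fun x _ => simplySeg_one hM hy x

theorem strip_join_outer {j : ℕ} {β : ℂ} {σ : ℝ} {x y : ℂ × ℝ} (hx : x ∈ M.Strip j β σ)
    (hy : y ∈ M.Strip j β σ) (h1 : x.2 ≤ j + 1 / 2) (h2 : y.2 ≤ j + 1 / 2) :
    JoinedIn (M.Strip j β σ ∩ {z | z.2 ≤ j + 1 / 2}) x y := by
  refine simply_join hM hx hy fun t ht z hz => ?_
  rw [mem_ofPred_eq, hz]
  nlinarith [mul_nonneg (sub_nonneg.2 ht.2) (sub_nonneg.2 h1), mul_nonneg ht.1 (sub_nonneg.2 h2)]

theorem strip_join_inner {j : ℕ} {β : ℂ} {σ : ℝ} {x y : ℂ × ℝ} (hx : x ∈ M.Strip j β σ)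
    (hy : y ∈ M.Strip j β σ) (h1 : j + 1 / 2 ≤ x.2) (h2 : j + 1 / 2 ≤ y.2) :
    JoinedIn (M.Strip j β σ ∩ {z | j + 1 / 2 ≤ z.2}) x y := by
  refine simply_join hM hx hy fun t ht z hz => ?_
  rw [mem_ofPred_eq, hz]
  nlinarith [mul_nonneg (sub_nonneg.2 ht.2) (sub_nonneg.2 h1), mul_nonneg ht.1 (sub_nonneg.2 h2)]

end Lev

end OneOne
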