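import Pool.Agent.Work.MP_d5331a_gt.OO.Side
import Pool.Agent.Work.MP_d5331a_gt.OO.Simply

/-!
The knot does not separate the surface: the gaps of a sheet are translates of each other, and
consecutive sheets are joined by neck arcs.
-/

set_option autoImplicit false

open Complex Set Filter Topology

namespace OneOne

open Neuwirth

namespace Lev

/-- Every point of the gap is joined to `y₀`. -/
def ConnP (M : Lev) (y₀ : S3) (i : ℕ) (a : ℤ) : Prop :=
  ∀ x ∈ M.Gap i a, JoinedIn (M.surf \ M.knot) y₀ (M.E x)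

variable {M : Lev} (hM : M.Good)
include hM

theorem ConnP_of {y₀ : S3} {i : ℕ} (h1 : 1 ≤ i) (h2 : i ≤ M.l) {a : ℤ} {x : ℂ × ℝ}
    (hx : x ∈ M.Gap i a) (h : JoinedIn (M.surf \ M.knot) y₀ (M.E x)) : M.ConnP y₀ i a := by
  intro z hz
  have h3 := ((gap_simply hM h1 h2 a).isPathConnected.joinedIn x hx z hz).map
    (Nest.continuous_E (N := M.nest))
  refine h.trans (h3.mono ?_)
  rw [← image_YUp hM]
  exact image_mono (gap_sub hM h1 h2 a)

theorem ConnP_all {y₀ : S3} {i : ℕ} {a : ℤ} (h : M.ConnP y₀ i a) (a' : ℤ) : M.ConnP y₀ i a' := by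
  intro x hx
  have h1 := (gap_add hM i a' x ((a - a') * M.D i) (-((a - a') * M.C i))).2 hx
  rw [show a' + (M.q i * ((a - a') * M.D i) - M.p i * -((a - a') * M.C i)) = a by
    linear_combination (a - a') * hM.bez i] at h1
  have h2 := h _ h1
  rwa [E, Nest.E_add] at h2

theorem isPathConnected_diff : IsPathConnected (M.surf \ M.knot) := by
  have hl := hM.one_le
  obtain ⟨x₀, hx₀⟩ := (gap_simply hM le_rfl hl 0).nonempty
  have hy₀ : M.E x₀ ∈ M.surf \ M.knot := by
    rw [← image_YUp hM]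
    exact mem_image_of_mem _ (gap_sub hM le_rfl hl 0 hx₀)
  have key : ∀ i, 1 ≤ i → i ≤ M.l → ∀ a, M.ConnP (M.E x₀) i a := by
    intro i h1
    induction i, h1 using Nat.le_induction with
    | base => exact fun _ => ConnP_all hM (ConnP_of hM le_rfl hl hx₀ (JoinedIn.refl hy₀))
    | succ j h1 ih =>
      intro h2
      have hβ := β_mem (M := M) h1 h2
      have hm := mid_mem_strip hM j (M.β j) (σ := 1) (Or.inl rfl)
      exact ConnP_all hM (ConnP_of hM (by omega) h2 (strip_inner hM hβ (Or.inl rfl) hm le_rfl)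
        (ih (by omega) _ _ (strip_outer hM hβ (Or.inl rfl) hm le_rfl)))
  refine ⟨M.E x₀, hy₀, fun y hy => ?_⟩
  rw [← image_YUp hM] at hy
  obtain ⟨x, hx, rfl⟩ := hy
  obtain ⟨h2, h3, -⟩ := mem_sheet_sh hM hx.1
  exact key _ h2 h3 _ x (mem_gap hM hx)

end Lev

end OneOne
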