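import Pool.Agent.Work.MP_d5331a_gt.OO.Side
import Pool.Agent.Work.MP_d5331a_gt.OO.Simply
import Pool.Agent.Work.MP_d5331a_gt.NonComm

/-!
The fundamental group of the surface minus the knot is not commutative. Port of the file `NonComm`
of the parent directory, with the time `tm 1`.
-/

set_option autoImplicit false

open Complex Set Filter Topology

namespace OneOne

open Neuwirth

namespace Lev

/-- The local gauge at `x`. -/
noncomputable def NonComm_u (M : Lev) {G : Type*} [Group G] (A B : G) (x z : ℂ × ℝ) : G :=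
  if 3 / 2 ≤ z.2 then A ^ ⌊M.tm 1 (M.ctr 1 x.1)⌋ * B ^ (⌊M.tm 1 z.1⌋ - ⌊M.tm 1 (M.ctr 1 x.1)⌋) else A ^ ⌊M.tm 1 z.1⌋

/-- The cocycle. -/
noncomputable def NonComm_L (M : Lev) {G : Type*} [Group G] (A B : G) (x z : ℂ × ℝ) : G :=
  (M.NonComm_u A B x x)⁻¹ * M.NonComm_u A B x z

variable {M : Lev} (hM : M.Good)
include hM

theorem NonComm_ctr {x : ℂ × ℝ} (hx : x ∈ M.FUp) (h : x.2 = 3 / 2) :
    ∀ᶠ z in 𝓝 x, M.ctr 1 z.1 = M.ctr 1 x.1 := by
  obtain ⟨j, β, hβ, h1, h2⟩ := exists_neck hM hx (by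
    rw [sh, h, show (3 / 2 + 1 / 2 : ℝ) = (2 : ℕ) by norm_num, Nat.floor_natCast])
  obtain rfl : j = 1 := by exact_mod_cast (by linarith : (j : ℝ) = 1)
  have h3 : ‖x.1 - β‖ < M.ε := by linarith [hM.ε_pos]
  have h4 : ContinuousAt (fun z : ℂ × ℝ => ‖z.1 - β‖) x := by fun_prop
  filter_upwards [h4.eventually (gt_mem_nhds h3)] with z hz
  rw [ctr_near hM hβ (Or.inl rfl) hz, ctr_near hM hβ (Or.inl rfl) h3]

section

variable {G : Type*} [Group G] (A B : G)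

theorem NonComm_u_add (x z : ℂ × ℝ) (k m : ℤ) :
    M.NonComm_u A B (x + vec k m) (z + vec k m) =
      A ^ (M.C 1 * k + M.D 1 * m) * M.NonComm_u A B x z := by
  have h : ∀ ζ : ℂ, ⌊M.tm 1 (ζ + (k + m * I))⌋ = ⌊M.tm 1 ζ⌋ + (M.C 1 * k + M.D 1 * m) :=
    fun ζ => by rw [tm_add, tm_vec, Int.floor_add_intCast]
  simp only [NonComm_u, vec_add, ctr_add hM, h]
  split_ifs <;> group

theorem NonComm_L_add (x z : ℂ × ℝ) (k m : ℤ) :
    M.NonComm_L A B (x + vec k m) (z + vec k m) = M.NonComm_L A B x z := by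
  simp only [NonComm_L, NonComm_u_add hM]
  group

theorem NonComm_cocy : CocyOn M.YUp (M.NonComm_L A B) := by
  refine ⟨fun x => inv_mul_cancel _, fun x hx => nhdsWithin_le_nhds ?_⟩
  by_cases h : x.2 = 3 / 2
  · filter_upwards [NonComm_ctr hM hx.1 h] with z hz
    refine Eventually.of_forall fun w => ?_
    simp only [NonComm_L, NonComm_u, hz]
    group
  · filter_upwards [continuous_snd.continuousAt.eventually (isOpen_ne.mem_nhds h)] with z hz
    refine nhdsWithin_le_nhds ?_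
    rcases lt_or_gt_of_ne (show z.2 ≠ 3 / 2 from hz) with h1 | h1
    · filter_upwards [continuous_snd.continuousAt.eventually (gt_mem_nhds h1)] with w hw
      simp only [NonComm_L, NonComm_u, if_neg h1.not_ge, if_neg hw.not_ge]
      group
    · filter_upwards [continuous_snd.continuousAt.eventually (lt_mem_nhds h1)] with w hw
      simp only [NonComm_L, NonComm_u, if_pos h1.le, if_pos hw.le]
      group

theorem NonComm_hol : ∃ Φ : Hol ↥(M.surf \ M.knot) G,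
    Φ.Loc fun p z => M.nest.down (M.NonComm_L A B) p z := by
  have hd : ∀ x ∈ M.YUp, 1 ≤ x.2 ∧ x.2 ≤ M.l := fun x hx => depth_of_mem hM hx.1
  have h := Dt.down_cocy (det M) M.YUp (M.NonComm_L A B) (fun x k m hx => (YUp_add hM x k m).2 hx)
    (fun x hx => ⟨by linarith [hd x hx], by rw [nest_l]; linarith [hd x hx]⟩) (NonComm_L_add hM A B)
    (NonComm_cocy hM A B) (fun _ => 1) (fun _ _ => (mul_one _).symm)
    (fun ⟨x, hx, e⟩ => absurd (hd x hx).1 (by rw [e]; norm_num))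
    (fun ⟨x, hx, e⟩ => absurd (hd x hx).2 (by rw [e, nest_l]; linarith))
  exact (image_YUp hM ▸ h : CocyOn (M.surf \ M.knot) _).exists_hol

theorem NonComm_loop {A B : G} {Φ : Hol ↥(M.surf \ M.knot) G}
    (hΦ : Φ.Loc fun p z => M.nest.down (M.NonComm_L A B) p z) {i : ℕ} (h1 : 1 ≤ i) (h2 : i ≤ M.l)
    {a : ℤ} {y : ↥M.YUp} (hy : y.1 ∈ M.Gap i a) (v : ℂ × ℝ → G)
    (hv : ∀ x ∈ M.Gap i a, ∃ c, ∀ᶠ z in 𝓝[M.Gap i a] x, M.NonComm_u A B x z = c * v z) :
    ∃ γ : Path (pr hM y) (pr hM y), Φ.H γ = (v y)⁻¹ * v (y + vec (M.p i) (M.q i)) := by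
  have hy' : y.1 + vec (M.p i) (M.q i) ∈ M.Gap i a := by
    have := (gap_add hM i a y (M.p i) (M.q i)).2 hy
    rwa [mul_comm, sub_self, add_zero] at this
  have hs := gap_sub hM h1 h2 a
  let f : C(↥(M.Gap i a), ↥(M.surf \ M.knot)) :=
    (pr hM).comp ⟨Set.inclusion hs, continuous_inclusion hs⟩
  have hf := Dt.hol_up (det M) _ (NonComm_L_add hM A B) Φ hΦ (Z := M.Gap i a) (fun x hx => by
    have := depth_of_mem hM (hs hx).1
    exact ⟨by linarith, by rw [nest_l]; linarith⟩) f fun _ => rfl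
  have := isPathConnected_iff_pathConnectedSpace.1 (gap_simply hM h1 h2 a).isPathConnected
  let p : Path (⟨y, hy⟩ : M.Gap i a) ⟨_, hy'⟩ := PathConnectedSpace.somePath _ _
  refine ⟨(p.map f.continuous).cast rfl (Subtype.ext (Nest.E_add y _ _).symm), ?_⟩
  rw [Hol.cast]
  refine (Φ.comap f).eq_of_loc (fun x => v x) (fun x => ?_) p
  obtain ⟨U, hU, h3⟩ := hf x
  obtain ⟨c, hc⟩ := hv x x.2
  rw [← map_nhds_subtype_val, eventually_map] at hc
  refine ⟨_, inter_mem hU hc, fun z w r hr => ?_⟩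
  have e1 : M.NonComm_u A B x z = c * v z := r.source ▸ (hr 0).2
  have e2 : M.NonComm_u A B x w = c * v w := r.target ▸ (hr 1).2
  rw [h3 z w r fun s => (hr s).1]
  simp only [NonComm_L, e1, e2]
  group

end

theorem exists_not_comm (hl : 2 ≤ M.l) : ∃ (x : ↥(M.surf \ M.knot))
    (g h : FundamentalGroup ↥(M.surf \ M.knot) x), g * h ≠ h * g := by
  obtain ⟨A, B, hAB⟩ := NonComm_grp
  obtain ⟨Φ, hΦ⟩ := NonComm_hol hM A B
  obtain ⟨β, hβ⟩ : ∃ β, β ∈ M.B 1 := ⟨_, β_mem le_rfl hl⟩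
  have hm := mid_mem_strip hM 1 β (σ := 1) (Or.inl rfl)
  have g1 := strip_outer hM hβ (Or.inl rfl) hm le_rfl
  have g2 := strip_inner hM hβ (Or.inl rfl) hm le_rfl
  generalize hy : (β + ((1 * (M.ε / 2) : ℝ) : ℂ) * (M.ω 1 * I), ((1 : ℕ) : ℝ) + 1 / 2) = y at g1 g2
  have hy2 : 3 / 2 ≤ y.2 := by rw [← hy]; norm_num
  have hY := gap_sub hM le_rfl (by omega) _ g1
  obtain ⟨γ, hγ⟩ := NonComm_loop hM hΦ le_rfl (by omega) (y := ⟨y, hY⟩) g1
    (fun z => M.NonComm_u A B z z) fun x hx => ⟨1, nhdsWithin_le_nhds (by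
      have h1 : x.2 ≤ 3 / 2 := by
        rw [hx.1.2.2, hgt, Nat.sub_self, bump_zero, min_eq_left (by norm_num : (0 : ℝ) ≤ 1 / 2)]
        have := min_le_right (M.bump 1 x.1) (1 / 2)
        push_cast
        linarith
      rcases h1.eq_or_lt with h | h
      · filter_upwards [NonComm_ctr hM (gap_sub hM le_rfl (by omega) _ hx).1 h] with z hz
        simp only [NonComm_u, hz, one_mul]
      · filter_upwards [continuous_snd.continuousAt.eventually (gt_mem_nhds h)] with z hz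
        simp only [NonComm_u, if_neg hz.not_ge, one_mul])⟩
  obtain ⟨δ, hδ⟩ := NonComm_loop hM hΦ (by omega) hl (y := ⟨y, hY⟩) g2
    (fun z => B ^ ⌊M.tm 1 z.1⌋) fun x hx => ⟨A ^ ⌊M.tm 1 (M.ctr 1 x.1)⌋ * B ^ (-⌊M.tm 1 (M.ctr 1 x.1)⌋), by
      filter_upwards [self_mem_nhdsWithin] with z hz
      have h1 : 3 / 2 ≤ z.2 := by
        rw [hz.1.2.2, hgt]
        have h2 := min_le_right (M.bump (1 + 1 - 1) z.1) (1 / 2)
        have h3 : 0 ≤ min (M.bump (1 + 1) z.1) (1 / 2) := le_min (bump_nonneg hM _ _) (by norm_num)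
        push_cast at h2 h3 ⊢
        linarith
      simp only [NonComm_u, if_pos h1]
      group⟩
  obtain ⟨n2, hn⟩ := Int.eq_ofNat_of_zero_le (hM.nn_pos 1 le_rfl hl).le
  have hn0 : 0 < n2 := by have := hM.nn_pos 1 le_rfl hl; omega
  refine ⟨_, NonComm_comm Φ γ δ fun e => hAB 1 n2 one_pos hn0 ?_⟩
  have h : ∀ (k m : ℤ) (ζ : ℂ),
      ⌊M.tm 1 (ζ + (k + m * I))⌋ = ⌊M.tm 1 ζ⌋ + (M.C 1 * k + M.D 1 * m) :=
    fun k m ζ => by rw [tm_add, tm_vec, Int.floor_add_intCast]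
  rw [hγ, hδ] at e
  simp only [NonComm_u_add hM] at e
  simp only [vec_add, h, NonComm_u, if_pos hy2] at e
  rw [hM.bez 1, show M.C 1 * M.p (1 + 1) + M.D 1 * M.q (1 + 1) = n2 from hn] at e
  rw [← zpow_natCast, ← zpow_natCast, Nat.cast_one]
  generalize (n2 : ℤ) = n2, ⌊M.tm 1 (M.ctr 1 y.1)⌋ = s, ⌊M.tm 1 y.1⌋ = t at e
  calc A ^ (1 : ℤ) * B ^ n2 = B ^ (t - s) * ((A ^ s * B ^ (t - s))⁻¹ *
        (A ^ (1 : ℤ) * (A ^ s * B ^ (t - s))) * ((B ^ t)⁻¹ * B ^ (t + n2))) * B ^ (s - t) := by group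
    _ = _ := by rw [e]; group

end Lev

end OneOne
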