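import Pool.Agent.Work.MP_d5331a_gt.OO.Detect
import Pool.Agent.Work.MP_d5331a_gt.OO.Chart
import Pool.Agent.Work.MP_d5331a_gt.OO.Conn
import Pool.Agent.Work.MP_d5331a_gt.OO.NonComm
import Pool.Agent.Work.MP_d5331a_gt.OO.Red

set_option autoImplicit false

open Set

namespace OneOne

open Neuwirth

theorem core (M : Lev) (hM : M.Good) (hl : 2 ≤ M.l) (hE : M.EndsBig) : Neu M.knot := by
  have hpc := Lev.isPathConnected_diff hM
  have hflat : ∀ x ∈ M.surf, Flat M.surf M.knot x := fun x hx => Lev.flat hM hx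
  haveI : PathConnectedSpace ↥(M.surf \ M.knot) := isPathConnected_iff_pathConnectedSpace.1 hpc
  haveI := locPath_of_flat hflat
  have h0 : M.surf \ M.knot ⊆ M.side 0 := fun x hx =>
    ((Lev.side_inter_side hM).symm ▸ hx.1 : x ∈ M.side 0 ∩ M.side 1).1
  have h1 : M.surf \ M.knot ⊆ M.side 1 := fun x hx =>
    ((Lev.side_inter_side hM).symm ▸ hx.1 : x ∈ M.side 0 ∩ M.side 1).2
  have c0 := Lev.side_cocy hM (c := 0) (by norm_num)
  have c1 := Lev.side_cocy hM (c := 1) (by norm_num)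
  obtain ⟨Φ0, l0⟩ := c0.exists_hol
  obtain ⟨Φ1, l1⟩ := c1.exists_hol
  refine ⟨M.surf, Lev.isCompact_surf hM, image_mono (Lev.knot_sub hM), hflat,
    hpc.isConnected, fun x => ?_, Lev.exists_not_comm hM hl⟩
  exact glue (M.side 0) (M.side 1) M.knot (M.surf \ M.knot) (Lev.isClosed_side hM 0)
    (Lev.isClosed_side hM 1) (Lev.side_union hM) (by rw [Lev.side_inter_side hM]) h0 h1
    (fun _ h => h.2) _ _ c0 c1 Φ0 Φ1 l0 l1
    (Lev.detect hM hE (by norm_num) h0 Φ0 l0) (Lev.detect hM hE (by norm_num) h1 Φ1 l1) x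

end OneOne
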