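import Pool.Agent.Work.MP_d5331a_gt.OO.Side
import Pool.Agent.Work.MP_d5331a_gt.OO.Simply
import Pool.Agent.Work.MP_d5331a_gt.OO.Comb
import Pool.Agent.Work.MP_d5331a_gt.Detect

/-!
The holonomy of a side detects the fundamental group of the surface minus the knot.
-/

set_option autoImplicit false

open Complex Set Filter Topology

namespace OneOne

open Neuwirth

namespace Lev

variable {M : Lev} (hM : M.Good)
include hM

omit hM in
theorem floor_of_gap {i : ℕ} {a : ℤ} {x : ℂ × ℝ} (h : x ∈ M.Gap i a) : ⌊M.lin i x.1⌋ = a :=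
  Int.floor_eq_iff.2 ⟨h.2.1.le, h.2.2⟩

omit hM in
theorem sh_outer {j : ℕ} {β : ℂ} {σ : ℝ} {x : ℂ × ℝ} (h : x ∈ M.Strip j β σ)
    (h' : ¬ (j : ℝ) + 1 / 2 ≤ x.2) : sh x.2 = j :=
  sh_eq (by linarith [(abs_lt.1 h.1).1]) (by linarith [not_le.1 h'])

omit hM in
theorem sh_inner {j : ℕ} {β : ℂ} {σ : ℝ} {x : ℂ × ℝ} (h : x ∈ M.Strip j β σ)
    (h' : (j : ℝ) + 1 / 2 ≤ x.2) : sh x.2 = j + 1 :=
  sh_eq (by push_cast; linarith) (by push_cast; linarith [(abs_lt.1 h.1).2])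

theorem strip_sub {j : ℕ} {β : ℂ} (hβ : β ∈ M.B j) {σ : ℝ} (hσ : σ = 1 ∨ σ = -1) :
    M.Strip j β σ ⊆ M.YUp := fun x hx => by
  obtain ⟨r1, r2⟩ := band_range hβ
  rcases le_total x.2 (j + 1 / 2) with h | h
  · exact gap_sub hM r1 r2.le _ (strip_outer hM hβ hσ hx h)
  · exact gap_sub hM (by omega) r2 _ (strip_inner hM hβ hσ hx h)

theorem strip_norm {j : ℕ} {β : ℂ} {σ : ℝ} {x : ℂ × ℝ} (h : x ∈ M.Strip j β σ) :
    ‖x.1 - β‖ < M.ε := by
  have := mul_lt_mul_of_pos_left h.1 hM.ε_pos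
  rw [h.2.1]; linarith

theorem lt_strip {j : ℕ} {β : ℂ} (hβ : β ∈ M.B j) {σ : ℝ} (hσ : σ = 1 ∨ σ = -1) {ζ : ℂ}
    (h : ‖ζ - β‖ < M.ε) (h' : 0 < σ * M.tm j (ζ - β)) (c i : ℕ) (hi : i = j ∨ i = j + 1) :
    M.ti (J c i) ζ = M.tin (J c i) j β σ :=
  ti_strip hM hβ hσ (by unfold J; split_ifs <;> omega) (by unfold J; split_ifs <;> omega)
    (by linarith [hM.ε_pos]) h'

theorem exists_G {A : Type} [Group A] (Ψ : Hol ↥M.YUp A) :
    ∃ (G : ↥M.YUp → A) (c₁ c₂ : ℕ → ℂ → ℝ → A),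
      (∀ (i : ℕ) (m : ℤ) (a b : ↥M.YUp) (p : Path a b),
        (∀ s, sh (p s).1.2 = i ∧ ⌊M.lin i (p s).1.1⌋ = m) → G a * Ψ.H p * (G b)⁻¹ = 1) ∧
      ∀ j, ∀ β ∈ M.B j, ∀ σ : ℝ, (σ = 1 ∨ σ = -1) → ∃ W : ↥M.YUp → A,
        (∀ a, a.1 ∈ M.Strip j β σ → ((j : ℝ) + 1 / 2 ≤ a.1.2 → W a = c₂ j β σ) ∧
          (¬ (j : ℝ) + 1 / 2 ≤ a.1.2 → W a = c₁ j β σ)) ∧
        ∀ (a b : ↥M.YUp) (p : Path a b), (∀ s, (p s).1 ∈ M.Strip j β σ) →
          G a * Ψ.H p * (G b)⁻¹ = W a * (W b)⁻¹ := by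
  have hg : ∀ (i : ℕ) (m : ℤ), ∃ g : ↥M.YUp → A, 1 ≤ i → i ≤ M.l →
      ∀ (a b : ↥M.YUp) (p : Path a b), (∀ s, (p s).1 ∈ M.Gap i m) → Ψ.H p = (g a)⁻¹ * g b := by
    intro i m
    by_cases h : 1 ≤ i ∧ i ≤ M.l
    · obtain ⟨g, hg⟩ := Ψ.exists_gauge (S := Subtype.val ⁻¹' M.Gap i m) fun _ =>
        isSimplyConnected_preimage_val (gap_sub hM h.1 h.2 m) (gap_simply hM h.1 h.2 m)
      exact ⟨g, fun _ _ => hg⟩
    · exact ⟨fun _ => 1, fun h1 h2 => absurd ⟨h1, h2⟩ h⟩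
  choose g hg using hg
  let G : ↥M.YUp → A := fun z => g (sh z.1.2) ⌊M.lin (sh z.1.2) z.1.1⌋ z
  have hc : ∀ (j : ℕ) (β : ℂ) (σ : ℝ), ∃ c₁ c₂ : A, β ∈ M.B j → (σ = 1 ∨ σ = -1) →
      ∃ W : ↥M.YUp → A,
        (∀ a, a.1 ∈ M.Strip j β σ → ((j : ℝ) + 1 / 2 ≤ a.1.2 → W a = c₂) ∧
          (¬ (j : ℝ) + 1 / 2 ≤ a.1.2 → W a = c₁)) ∧
        ∀ (a b : ↥M.YUp) (p : Path a b), (∀ s, (p s).1 ∈ M.Strip j β σ) →
          G a * Ψ.H p * (G b)⁻¹ = W a * (W b)⁻¹ := by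
    intro j β σ
    by_cases h : β ∈ M.B j ∧ (σ = 1 ∨ σ = -1)
    · obtain ⟨hβ, hσ⟩ := h
      obtain ⟨r1, r2⟩ := band_range hβ
      have hsub := strip_sub hM hβ hσ
      obtain ⟨h, hh⟩ := Ψ.exists_gauge (S := Subtype.val ⁻¹' M.Strip j β σ) fun _ =>
        isSimplyConnected_preimage_val hsub (strip_simply hM j β hσ)
      have hm := mid_mem_strip hM j β hσ
      let z : ↥M.YUp := ⟨_, hsub hm⟩
      refine ⟨g j (M.go j β σ) z * (h z)⁻¹, g (j + 1) (M.gi j β σ) z * (h z)⁻¹, fun _ _ =>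
        ⟨fun a => G a * (h a)⁻¹, fun a ha => ⟨fun e => ?_, fun e => ?_⟩, fun a b p hp => ?_⟩⟩
      · obtain ⟨q, hq⟩ := exists_path_val (inter_subset_left.trans hsub) (a := a) (b := z)
          (strip_join_inner hM ha hm e le_rfl)
        have e1 := hg (j + 1) (M.gi j β σ) (by omega) r2 a z q fun s =>
          strip_inner hM hβ hσ (hq s).1 (hq s).2
        have e2 := hh a z q fun s => (hq s).1
        simp only [G, sh_inner ha e, floor_of_gap (strip_inner hM hβ hσ ha e)]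
        rw [← mul_inv_cancel_left (g (j + 1) (M.gi j β σ) a) (g (j + 1) (M.gi j β σ) z), ← e1, e2]
        group
      · obtain ⟨q, hq⟩ := exists_path_val (inter_subset_left.trans hsub) (a := a) (b := z)
          (strip_join_outer hM ha hm (not_le.1 e).le le_rfl)
        have e1 := hg j (M.go j β σ) r1 r2.le a z q fun s =>
          strip_outer hM hβ hσ (hq s).1 (hq s).2
        have e2 := hh a z q fun s => (hq s).1
        simp only [G, sh_outer ha e, floor_of_gap (strip_outer hM hβ hσ ha (not_le.1 e).le)]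
        rw [← mul_inv_cancel_left (g j (M.go j β σ) a) (g j (M.go j β σ) z), ← e1, e2]
        group
      · rw [hh a b p hp]
        group
    · exact ⟨1, 1, fun h1 h2 => absurd ⟨h1, h2⟩ h⟩
  choose c₁ c₂ hc using hc
  refine ⟨G, c₁, c₂, fun i m a b p hp => ?_, fun j β hβ σ hσ => hc j β σ hβ hσ⟩
  have ha := hp 0
  have hb := hp 1
  rw [p.source] at ha
  rw [p.target] at hb
  obtain ⟨r1, r2, -⟩ := mem_sheet_sh hM a.2.1
  rw [ha.1] at r1 r2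
  have e := hg i m r1 r2 a b p fun s => by
    have := mem_gap hM (p s).2
    rwa [(hp s).1, (hp s).2] at this
  simp only [G, ha.1, ha.2, hb.1, hb.2, e]
  group

omit hM in
theorem V_same {c : ℕ} {x a : ℂ × ℝ} (h : M.ch c a = M.ch c x) :
    M.pot c a * (M.Lt c x a)⁻¹ = M.pot c x := by
  rw [Lt, if_pos h]; group

omit hM in
theorem V_other {c : ℕ} {x a : ℂ × ℝ} (h : M.ch c a ≠ M.ch c x) (h' : J c (sh a.2) = Nest.Jm c x) :
    M.pot c a * (M.Lt c x a)⁻¹ = M.wl c x * M.pot c x := by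
  rw [Lt, if_neg h, if_pos h']; group

theorem detect_loc {c : ℕ} (hc : c < 2) {A : Type} [Group A] (Ξ : Hol ↥M.YUp (A × Grp))
    (c₁ c₂ : ℕ → ℂ → ℝ → A) (val : Arc → A × Grp)
    (v1 : ∀ i a τ, val (.tm i a τ) = (1, M.lab c (.tm i a τ)))
    (v2 : ∀ j β σ, val (.nk j β σ) = (c₁ j β σ * (c₂ j β σ)⁻¹, M.lab c (.nk j β σ)))
    (h1 : ∀ (i : ℕ) (m : ℤ) (a b : ↥M.YUp) (p : Path a b),
      (∀ s, sh (p s).1.2 = i ∧ ⌊M.lin i (p s).1.1⌋ = m) → (Ξ.H p).1 = 1)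
    (h2 : ∀ j, ∀ β ∈ M.B j, ∀ σ : ℝ, (σ = 1 ∨ σ = -1) → ∃ W : ↥M.YUp → A,
      (∀ a, a.1 ∈ M.Strip j β σ → ((j : ℝ) + 1 / 2 ≤ a.1.2 → W a = c₂ j β σ) ∧
        (¬ (j : ℝ) + 1 / 2 ≤ a.1.2 → W a = c₁ j β σ)) ∧
      ∀ (a b : ↥M.YUp) (p : Path a b), (∀ s, (p s).1 ∈ M.Strip j β σ) →
        (Ξ.H p).1 = W a * (W b)⁻¹)
    (x : ↥M.YUp) (U₀ : Set ↥M.YUp) (hU₀ : U₀ ∈ 𝓝 x)
    (h3 : ∀ (a b : ↥M.YUp) (p : Path a b), (∀ s, p s ∈ U₀) →
      (Ξ.H p).2 = M.pot c a * (M.Lt c x a)⁻¹ * (M.pot c b * (M.Lt c x b)⁻¹)⁻¹) :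
    ∃ U ∈ 𝓝 x, ((∀ a ∈ U, M.cell c a.1 = M.cell c x.1) ∧
        ∀ (a b : ↥M.YUp) (p : Path a b), (∀ s, p s ∈ U) → Ξ.H p = 1) ∨
      ∃ r, M.valid c r ∧ ∃ pos : ↥M.YUp → Prop, (∀ a ∈ U, pos a → M.cell c a.1 = M.tgt c r) ∧
        (∀ a ∈ U, ¬ pos a → M.cell c a.1 = M.src c r) ∧
        ∀ (a b : ↥M.YUp) (p : Path a b), (∀ s, p s ∈ U) →
          ((pos a ↔ pos b) → Ξ.H p = 1) ∧ (¬ pos a → pos b → Ξ.H p = val r) ∧
          (pos a → ¬ pos b → Ξ.H p = (val r)⁻¹) := by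
  have hε := hM.ε_pos
  have tr : ∀ {P : ℂ × ℝ → Prop}, (∀ᶠ z in 𝓝[M.YUp] x.1, P z) → ∀ᶠ z : ↥M.YUp in 𝓝 x, P z.1 :=
    fun h => by rwa [← map_nhds_subtype_val, eventually_map] at h
  have s0 : ∀ {U : Set ↥M.YUp} {a b : ↥M.YUp} (p : Path a b), (∀ s, p s ∈ U) → a ∈ U ∧ b ∈ U :=
    fun p hp => ⟨p.source ▸ hp 0, p.target ▸ hp 1⟩
  by_cases hn : x.1.2 + 1 / 2 = sh x.1.2
  · obtain ⟨j, β, hβ, σ, hσ, e, hx, ev⟩ := loc_neck hM x.2 hn
    obtain ⟨r1, r2⟩ := band_range hβ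
    obtain ⟨W, w1, w2⟩ := h2 j β hβ σ hσ
    have ev' := tr ev
    have hx' := ev'.self_of_nhds
    have sx : sh x.1.2 = j + 1 := sh_inner hx e.ge
    have cx : M.ch c x = (J c (j + 1), M.tin (J c (j + 1)) j β σ) := by
      rw [ch, sx, lt_strip hM hβ hσ (strip_norm hM hx) hx'.2 c _ (Or.inr rfl)]
    refine ⟨_, inter_mem hU₀ ev', Or.inr ⟨.nk j β σ, ⟨hβ, hσ⟩,
      fun a => (j : ℝ) + 1 / 2 ≤ a.1.2, fun a ha pa => ?_, fun a ha pa => ?_, fun a b p hp => ?_⟩⟩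
    · rw [cell, sh_inner ha.2.1 pa, floor_of_gap (strip_inner hM hβ hσ ha.2.1 pa),
        lt_strip hM hβ hσ (strip_norm hM ha.2.1) ha.2.2 c _ (Or.inr rfl)]
      rfl
    · rw [cell, sh_outer ha.2.1 pa,
        floor_of_gap (strip_outer hM hβ hσ ha.2.1 (not_le.1 pa).le),
        lt_strip hM hβ hσ (strip_norm hM ha.2.1) ha.2.2 c _ (Or.inl rfl)]
      rfl
    · have k : ∀ a : ↥M.YUp, a.1 ∈ M.Strip j β σ → 0 < σ * M.tm j (a.1.1 - β) →
          ((j : ℝ) + 1 / 2 ≤ a.1.2 → (W a, M.pot c a * (M.Lt c x a)⁻¹) =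
            (c₂ j β σ, M.pot c x)) ∧
          (¬ (j : ℝ) + 1 / 2 ≤ a.1.2 → (W a, M.pot c a * (M.Lt c x a)⁻¹) =
            (c₁ j β σ, M.lab c (.nk j β σ) * M.pot c x)) := by
        intro a ha ha'
        refine ⟨fun pa => Prod.ext ((w1 a ha).1 pa) (V_same ?_),
          fun pa => Prod.ext ((w1 a ha).2 pa) ?_⟩
        · rw [cx, ch, sh_inner ha pa, lt_strip hM hβ hσ (strip_norm hM ha) ha' c _ (Or.inr rfl)]
        · have ca : M.ch c a = (J c j, M.tin (J c j) j β σ) := by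
            rw [ch, sh_outer ha pa, lt_strip hM hβ hσ (strip_norm hM ha) ha' c _ (Or.inl rfl)]
          by_cases hj : j % 2 = c
          · simp only [lab, hj, if_true, one_mul]
            exact V_same (by rw [ca, cx, J_self hj, J_succ hj])
          · have cond : x.1.2 + 1 / 2 = sh x.1.2 ∧ sh x.1.2 % 2 = c := ⟨hn, by omega⟩
            simp only [lab, hj, if_false]
            rw [V_other]
            · rw [wl, if_pos cond, sx, ctr_near hM hβ (Or.inr rfl) (strip_norm hM hx)]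
              rfl
            · rw [ca, cx, J_self' hj, J_succ' hc hj]
              intro h
              have := congrArg Prod.fst h
              simp only at this
              omega
            · rw [Nest.Jm, if_pos cond, sx, sh_outer ha pa, J_self' hj]
              rfl
      obtain ⟨ha, hb⟩ := s0 p hp
      have e1 : val (.nk j β σ) = (c₁ j β σ, M.lab c (.nk j β σ) * M.pot c x) *
          (c₂ j β σ, M.pot c x)⁻¹ := by
        rw [v2]; simp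
      rw [e1]
      exact two_sided (Prod.ext (w2 a b p fun s => (hp s).2.1) (h3 a b p fun s => (hp s).1))
        (k a ha.2.1 ha.2.2).1 (k a ha.2.1 ha.2.2).2 (k b hb.2.1 hb.2.2).1 (k b hb.2.1 hb.2.2).2
  · have ev := tr (loc_plain hM x.2 hn)
    obtain ⟨r1, r2, -⟩ := mem_sheet_sh hM x.2.1
    generalize hr : J c (sh x.1.2) = r
    have ct : Continuous fun z : ↥M.YUp => M.tm r (z.1.1 - M.β r) :=
      (continuous_tm r).comp (by fun_prop)
    by_cases hb : (1 ≤ r ∧ r < M.l) ∧ ∃ m : ℤ, M.tm r (x.1.1 - M.β r) = m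
    · obtain ⟨⟨q1, q2⟩, m, e⟩ := hb
      have ev2 : ∀ᶠ z : ↥M.YUp in 𝓝 x, |M.tm r (z.1.1 - M.β r) - m| < 1 :=
        (ct.sub continuous_const).abs.continuousAt.eventually_lt continuousAt_const (by simp [e])
      have l1 : ∀ ζ, |M.tm r (ζ - M.β r) - m| < 1 → m ≤ M.tm r (ζ - M.β r) → M.ti r ζ = m :=
        fun t h h' => by
          rw [ti_mid q1 q2, Int.floor_eq_iff.2 ⟨h', by linarith [(abs_lt.1 h).2]⟩]
      have l2 : ∀ ζ, |M.tm r (ζ - M.β r) - m| < 1 → ¬ m ≤ M.tm r (ζ - M.β r) →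
          M.ti r ζ = m - 1 := fun t h h' => by
        rw [ti_mid q1 q2, Int.floor_eq_iff]
        push_cast
        constructor <;> linarith [(abs_lt.1 h).1, not_le.1 h']
      have cx : M.ch c x = (r, m) := by
        rw [ch, hr, l1 _ ev2.self_of_nhds e.ge]
      have cond : ¬ (x.1.2 + 1 / 2 = sh x.1.2 ∧ sh x.1.2 % 2 = c) := fun h => hn h.1
      refine ⟨_, inter_mem hU₀ (ev.and ev2), Or.inr
        ⟨.tm (sh x.1.2) ⌊M.lin (sh x.1.2) x.1.1⌋ m, ⟨r1, r2, hr ▸ q1, hr ▸ q2⟩,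
        fun a => m ≤ M.tm r (a.1.1 - M.β r), fun a ha pa => ?_, fun a ha pa => ?_,
        fun a b p hp => ?_⟩⟩
      · rw [cell, ha.2.1.1, ha.2.1.2, hr, l1 _ ha.2.2 pa]
        rfl
      · rw [cell, ha.2.1.1, ha.2.1.2, hr, l2 _ ha.2.2 pa]
        rfl
      · have k : ∀ a : ↥M.YUp, sh a.1.2 = sh x.1.2 → |M.tm r (a.1.1 - M.β r) - m| < 1 →
            (m ≤ M.tm r (a.1.1 - M.β r) →
              ((1 : A), M.pot c a * (M.Lt c x a)⁻¹) = (1, M.pot c x)) ∧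
            (¬ m ≤ M.tm r (a.1.1 - M.β r) → ((1 : A), M.pot c a * (M.Lt c x a)⁻¹) =
              (1, M.wl c x * M.pot c x)) := by
          intro a ha ha'
          refine ⟨fun pa => Prod.ext rfl (V_same ?_), fun pa => Prod.ext rfl (V_other ?_ ?_)⟩
          · rw [cx, ch, ha, hr, l1 _ ha' pa]
          · rw [cx, ch, ha, hr, l2 _ ha' pa]
            intro h
            have : m - 1 = m := congrArg Prod.snd h
            omega
          · rw [Nest.Jm, if_neg cond, ha]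
        obtain ⟨ha, hb⟩ := s0 p hp
        have e1 : val (.tm (sh x.1.2) ⌊M.lin (sh x.1.2) x.1.1⌋ m) =
            (1, M.wl c x * M.pot c x) * (1, M.pot c x)⁻¹ := by
          rw [v1, wl, if_neg cond, hr, ph_mid q1 q2, floor_ph_eq hM q1 q2 (i := sh x.1.2)
            (hr ▸ J_cases r1) (mem_gap hM x.2) e]
          simp [lab, hr]
        rw [e1]
        exact two_sided (xa := (1, M.pot c a * (M.Lt c x a)⁻¹))
          (xb := (1, M.pot c b * (M.Lt c x b)⁻¹))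
          (Prod.ext ((h1 _ _ a b p fun s => (hp s).2.1).trans (by simp))
            (h3 a b p fun s => (hp s).1))
          (k a ha.2.1.1 ha.2.2).1 (k a ha.2.1.1 ha.2.2).2 (k b hb.2.1.1 hb.2.2).1
          (k b hb.2.1.1 hb.2.2).2
    · have ev2 : ∀ᶠ z : ↥M.YUp in 𝓝 x, M.ti r z.1.1 = M.ti r x.1.1 := by
        by_cases hq : 1 ≤ r ∧ r < M.l
        · filter_upwards [ct.continuousAt.eventually (Ioo_mem_nhds
            ((Int.floor_le _).lt_of_ne fun h => hb ⟨hq, _, h.symm⟩) (Int.lt_floor_add_one _))]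
            with z hz
          rw [ti_mid hq.1 hq.2, ti_mid hq.1 hq.2, Int.floor_eq_iff.2 ⟨hz.1.le, hz.2⟩]
        · exact Eventually.of_forall fun z => by rw [ti_end hq, ti_end hq]
      rw [← hr] at ev2
      refine ⟨_, inter_mem hU₀ (ev.and ev2), Or.inl ⟨fun a ha => ?_, fun a b p hp => ?_⟩⟩
      · rw [cell, ha.2.1.1, ha.2.1.2, ha.2.2]
        rfl
      · obtain ⟨ha, hb⟩ := s0 p hp
        refine Prod.ext (h1 _ _ a b p fun s => (hp s).2.1) ?_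
        rw [h3 a b p fun s => (hp s).1, V_same (by rw [ch, ha.2.1.1, ha.2.2]; rfl),
          V_same (by rw [ch, hb.2.1.1, hb.2.2]; rfl)]
        simp

theorem detect (hE : M.EndsBig) {c : ℕ} (hc : c < 2) [PathConnectedSpace ↥(M.surf \ M.knot)]
    (hs : M.surf \ M.knot ⊆ M.side c) (Φ : Hol ↥(M.side c) Grp)
    (hΦ : Φ.Loc fun p z => M.nest.down (M.Lt c) p z) (y : ↥(M.surf \ M.knot)) (γ : Path y y)
    (hγ : (Φ.comap (inc hs)).H γ = 1) : γ.Homotopic (Path.refl y) := by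
  obtain ⟨A, _, Ψ, hΨ⟩ := exists_univ ↥(M.surf \ M.knot) y
  have hd : ∀ x ∈ M.YUp, 0 < x.2 ∧ x.2 < M.l + 1 := fun x hx =>
    ⟨by linarith [(depth_of_mem hM hx.1).1], by linarith [(depth_of_mem hM hx.1).2]⟩
  have hΦ' := Dt.hol_up (det M) (M.Lt c) (Lt_add hM c) Φ hΦ hd ((inc hs).comp (pr hM)) fun _ => rfl
  obtain ⟨G, c₁, c₂, g1, g2⟩ := exists_G hM (Ψ.comap (pr hM))
  let Ξ := (Ψ.comap (pr hM)).pair (Φ.comap ((inc hs).comp (pr hM))) G fun z => M.pot c z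
  let val : Arc → A × Grp := fun r => (match r with
    | .tm _ _ _ => 1
    | .nk j β σ => c₁ j β σ * (c₂ j β σ)⁻¹, M.lab c r)
  obtain ⟨z, rfl⟩ := pr_surjective hM y
  obtain ⟨z', hz', p, hp⟩ := exists_lift (pr hM) (pr_sections hM) γ z rfl
  obtain ⟨L, w1, w2, w3, w4⟩ := exists_walk (M.src c) (M.tgt c) Ξ (fun x => M.cell c x.1)
    (M.valid c) val (fun x => by
      obtain ⟨U, hU, h3⟩ := hΦ' x
      refine detect_loc hM hc Ξ c₁ c₂ val (fun _ _ _ => rfl) (fun _ _ _ => rfl) g1 g2 x U hU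
        fun a b q hq => ?_
      change M.pot c a * (Φ.comap ((inc hs).comp (pr hM))).H q * (M.pot c b)⁻¹ = _
      rw [h3 a b q hq]
      group) p
  obtain ⟨k, m, e⟩ := Dt.E_eq (det M) (hd _ z.2).1 (hd _ z.2).2 (hd _ z'.2).1.le (hd _ z'.2).2.le
    (congrArg Subtype.val hz')
  have f1 : (Φ.comap ((inc hs).comp (pr hM))).H p = 1 := by
    rw [← hγ, ← (Φ.comap (inc hs)).homot _ _ hp, Hol.cast]
    rfl
  have f2 : (L.map (dval (M.lab c))).prod = T (-M.phZ (J c (sh z.1.2)) k m) := by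
    have := congrArg (MonoidHom.snd A Grp) w4
    rw [map_list_prod, List.map_map] at this
    have e2 : (MonoidHom.snd A Grp) ∘ dval val = dval (M.lab c) := by
      funext d
      simp only [Function.comp, dval]
      split_ifs <;> rfl
    rw [e2] at this
    rw [this]
    change M.pot c z * (Φ.comap ((inc hs).comp (pr hM))).H p * (M.pot c z')⁻¹ = _
    rw [f1, e, pot_add, T_neg]
    group
  obtain ⟨r1, r2, -⟩ := mem_sheet_sh hM z.2.1
  have f3 : M.cell c z' = (sh z.1.2, ⌊M.lin (sh z.1.2) z.1.1⌋ +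
      (M.q (sh z.1.2) * k - M.p (sh z.1.2) * m),
      M.ti (J c (sh z.1.2)) z.1.1 + M.tiZ (J c (sh z.1.2)) k m) := by
    rw [e, vec_add, cell, lin_add hM, Int.floor_add_intCast, ti_add]
  rw [f3] at w1
  obtain ⟨rfl, rfl, rfl⟩ := walk_end hM hE hc r1 r2 _ _ k m L w1 w2 w3 f2
  obtain rfl : z' = z := Subtype.ext (by rw [e, vec_add]; simp)
  have f4 : G z' * (Ψ.comap (pr hM)).H p * (G z')⁻¹ = 1 := (congrArg Prod.fst w4).symm
  have f5 : Ψ.H (p.map (pr hM).continuous) = 1 := by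
    rw [mul_inv_eq_one, mul_eq_left] at f4
    exact f4
  exact hp.symm.trans (hΨ _ _ f5)

end Lev

end OneOne
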