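import Pool.Agent.Work.MP_d5331a_gt.OO.Path
import Pool.Agent.Work.MP_d5331a_gt.OO.Move

/-!
Comparison of the path of the knot with a polygonal path that moves to the right.

Plan. Use `pieces`, `pth_level`, `pth_band`, `two_β`. On level `i + 1` both paths are
`2 * β i + t' * lam (i + 1)` with `0 < t' < 1` (`lam_eq`, `norm_lam_small`, `eps_le`); this is not a
lattice point because `tm (i + 1)` of `t' * lam (i + 1)` is `t'`. On the band `j` the point of the
straight homotopy is `2 * β j + 2 * y` with `y = (1 - t) * edK j s + t * edQ j s`, `‖y‖ ≤ 2 ε`, so it is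
enough to show `y ≠ 0`. For `s = ±1 / 2` both edges agree and are non-zero. For `-1 / 2 < s ≤ 0`
both `e j * L j (edK j s)` and `e j * L j (edQ j s)` are positive (`L_dir_outer`; `L j (u j) = 0`,
`L j (-I) = p j > 0`); for `0 ≤ s < 1 / 2` use `L (j + 1)` and `L_dir_inner`. The cases `t = 0`,
`t = 1` give admissibility: `gam ed 0 = 2 ε * u 1`, `gam ed 1 = 2 * β l - 2 ε * u l`.
`gam_Q_mono`: the real part is strictly increasing on each piece because `re (u i) > 0`; glue.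
`cols_Q`: a point of level `i + 1` is `(x i, y i) + t' * (p, q)` with `0 < t' < 1`; if its abscissa is
an integer `c` then `x i < c < x (i + 1)` and its ordinate is `y i + (c - x i) * q / p`. A point of
the band `j` has abscissa `x j + r`, `|r| ≤ 2 ε < 1`, and `r = 0` only for `s = 0`, where the
ordinate is `y j - 2 * e j * ε`.
-/

set_option autoImplicit false

open Complex Set

namespace OneOne

open Neuwirth

namespace Lev

variable {M : Lev} (hM : M.Good) (hp : ∀ i, 1 ≤ i → i ≤ M.l → 0 < M.p i)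
include hM hp

omit hp in
theorem PathHom_level {i : ℕ} {t : ℝ} (ht : t ∈ Icc (0 : ℝ) 1) : ∃ t' : ℝ, 0 < t' ∧ t' < 1 ∧
    2 * (M.ε * M.u i + t * (M.lam i / 2 - 2 * M.ε * M.u i)) = t' * M.lam i := by
  have h1 := one_le_norm_lam hM i
  have h2 : 0 < M.ε / ‖M.lam i‖ := div_pos hM.ε_pos (norm_lam_pos hM i)
  have h3 : M.ε / ‖M.lam i‖ ≤ M.ε := div_le_self hM.ε_pos.le h1
  have h4 := eps_le hM
  have h5 : 0 ≤ 1 - 4 * (M.ε / ‖M.lam i‖) := by linarith
  refine ⟨2 * (M.ε / ‖M.lam i‖) + t * (1 - 4 * (M.ε / ‖M.lam i‖)),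
    by linarith [mul_nonneg ht.1 h5], by linarith [mul_le_of_le_one_left h5 ht.2], ?_⟩
  rw [u]
  push_cast
  ring

omit hp in
theorem PathHom_cases {s : ℝ} (hs : s ∈ Icc (0 : ℝ) 1) :
    (∃ i < M.l, ∃ t : ℝ, 0 < t ∧ t < 1 ∧
      ∀ ed, M.Ends ed → M.gam ed s = 2 * M.β i + t * M.lam (i + 1)) ∨
    ∃ j : ℕ, 1 ≤ j ∧ j < M.l ∧ ∃ r : ℝ, |r| ≤ 1 / 2 ∧
      ∀ ed, M.Ends ed → M.gam ed s = 2 * M.β j + 2 * ed j r := by
  have h1 : (1 : ℝ) ≤ M.l := by exact_mod_cast hM.one_le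
  have h2 : (0 : ℝ) ≤ 2 * M.l - 1 := by linarith
  rcases pieces hM.one_le ⟨mul_nonneg hs.1 h2, mul_le_of_le_one_left h2 hs.2⟩ with
    ⟨i, hi, t, ht, e⟩ | ⟨j, j1, j2, r, hr, e⟩
  · obtain ⟨t', a, b, c⟩ := PathHom_level hM (i := i + 1) ht
    exact Or.inl ⟨i, hi, t', a, b, fun ed h => by
      rw [gam, e, pth_level h hi ht, ← c, add_assoc, mul_add]⟩
  · exact Or.inr ⟨j, j1, j2, r, hr, fun ed h => by rw [gam, e, pth_band h j1 j2 hr, mul_add]⟩

omit hp in
theorem PathHom_e (j : ℕ) : M.e j * M.e j = 1 ∧ |M.e j| = 1 := by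
  rcases hM.sign j with h | h <;> simp [h]

omit hp in
theorem PathHom_normK (j : ℕ) {r : ℝ} (hr : |r| ≤ 1 / 2) : ‖M.edK j r‖ ≤ 3 * M.ε := by
  have := hM.ε_pos
  rw [edK, norm_mul, norm_dir hM, mul_one, norm_real, Real.norm_eq_abs, abs_mul, (PathHom_e hM j).2,
    one_mul, abs_of_nonneg (by positivity)]
  linarith [mul_le_mul_of_nonneg_left hr this.le]

omit hp in
theorem PathHom_normQ (j : ℕ) {r : ℝ} (hr : |r| ≤ 1 / 2) : ‖M.edQ j r‖ ≤ 3 * M.ε := by
  have h0 := hM.ε_pos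
  have h1 : |min r 0| ≤ 1 / 2 := by
    rcases min_choice r 0 with h | h <;> rw [h]
    exacts [hr, by norm_num]
  have h2 : |max r 0| ≤ 1 / 2 := by
    rcases max_choice r 0 with h | h <;> rw [h]
    exacts [hr, by norm_num]
  refine (norm_sub_le _ _).trans ((add_le_add_left (norm_add_le _ _) _).trans ?_)
  simp only [norm_mul, norm_u hM, norm_I, mul_one, norm_real, Real.norm_eq_abs, (PathHom_e hM j).2,
    abs_of_pos h0, abs_two, one_mul]
  rw [abs_of_nonneg (a := 1 - 2 * |r|) (by linarith)]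
  linarith [mul_le_mul_of_nonneg_left h1 h0.le, mul_le_mul_of_nonneg_left h2 h0.le,
    mul_nonneg h0.le (abs_nonneg r)]

omit hM hp in
theorem PathHom_int {k : ℤ} (h : |(k : ℝ)| < 1) : k = 0 := Int.abs_lt_one_iff.1 (by exact_mod_cast h)

omit hp in
theorem PathHom_Lu (i : ℕ) : M.L i (M.u i) = 0 := by simpa using L_u_mul hM i 1

omit hM hp in
theorem PathHom_LI (i : ℕ) : M.L i I = -M.p i := by simp [L]

omit hp in
theorem PathHom_pos {i j : ℕ} {r t : ℝ} (ht : t ∈ Icc (0 : ℝ) 1) (hr : |r| < 1 / 2)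
    (h1 : 0 < M.L i (M.dir j r)) (h2 : 0 < M.p i)
    (h3 : min r 0 * M.L i (M.u j) = 0) (h4 : max r 0 * M.L i (M.u (j + 1)) = 0) :
    ((1 - t : ℝ) : ℂ) * M.edK j r + (t : ℂ) * M.edQ j r ≠ 0 := fun h => by
  have h0 := hM.ε_pos
  have h5 := congrArg (M.L i) h
  have h6 : (0 : ℝ) < M.p i := by exact_mod_cast h2
  have h7 : 0 < (M.ε / 2 + M.ε * |r|) * M.L i (M.dir j r) := by positivity
  have h8 : 0 < M.ε * (1 - 2 * |r|) * M.p i := mul_pos (mul_pos h0 (by linarith)) h6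
  simp only [edK, edQ, L_add, L_sub, L_real_mul, L_zero, PathHom_LI] at h5
  have h9 : (1 - t) * ((M.ε / 2 + M.ε * |r|) * M.L i (M.dir j r)) +
      t * (M.ε * (1 - 2 * |r|) * M.p i) = 0 := by
    linear_combination M.e j * h5 - M.e j * t * 2 * M.ε * (h3 + h4) -
      ((1 - t) * ((M.ε / 2 + M.ε * |r|) * M.L i (M.dir j r)) +
        t * (M.ε * (1 - 2 * |r|) * M.p i)) * (PathHom_e hM j).1
  rcases ht.1.eq_or_lt with rfl | k
  · linarith
  · linarith [mul_pos k h8, mul_nonneg (sub_nonneg.2 ht.2) h7.le]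

omit hp in
theorem PathHom_u_ne (i : ℕ) : (M.ε : ℂ) * M.u i ≠ 0 :=
  mul_ne_zero (ofReal_ne_zero.2 hM.ε_pos.ne') fun h => by simpa [h] using norm_u hM i

theorem PathHom_ne {j : ℕ} (j1 : 1 ≤ j) (j2 : j < M.l) {r t : ℝ} (ht : t ∈ Icc (0 : ℝ) 1)
    (hr : |r| ≤ 1 / 2) : ((1 - t : ℝ) : ℂ) * M.edK j r + (t : ℂ) * M.edQ j r ≠ 0 := by
  have e : ∀ z : ℂ, ((1 - t : ℝ) : ℂ) * z + (t : ℂ) * z = z := fun z => by
    push_cast
    ring
  obtain ⟨a, b⟩ := abs_le.1 hr
  rcases a.eq_or_lt with rfl | a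
  · rw [(ends_K hM).start j j1 j2, ends_Q.start j j1 j2, e]
    exact neg_ne_zero.2 (PathHom_u_ne hM j)
  rcases b.eq_or_lt with rfl | b
  · rw [(ends_K hM).stop j j1 j2, ends_Q.stop j j1 j2, e]
    exact PathHom_u_ne hM _
  rcases le_total r 0 with c | c
  · exact PathHom_pos hM ht (abs_lt.2 ⟨a, b⟩) (L_dir_outer hM j1 j2 a c) (hp j j1 j2.le)
      (by rw [PathHom_Lu hM, mul_zero]) (by rw [max_eq_right c, zero_mul])
  · exact PathHom_pos hM ht (abs_lt.2 ⟨a, b⟩) (L_dir_inner hM j1 j2 c b) (hp _ (by omega) j2)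
      (by rw [min_eq_right c, zero_mul]) (by rw [PathHom_Lu hM, mul_zero])

theorem gam_leash : ∀ s ∈ Icc (0 : ℝ) 1, ∀ t ∈ Icc (0 : ℝ) 1, ∀ k m : ℤ,
    ((1 - t : ℝ) : ℂ) * M.gam M.edK s + (t : ℂ) * M.gam M.edQ s ≠ k + m * I := by
  intro s hs t ht k m h
  rcases PathHom_cases hM hs with ⟨i, -, t', a, b, e⟩ | ⟨j, j1, j2, r, hr, e⟩
  · obtain ⟨k', m', h1⟩ := two_β (M := M) i
    rw [e _ (ends_K hM), e _ ends_Q, h1] at h
    have h2 : (t' : ℂ) * M.lam (i + 1) = (k - k' : ℤ) + (m - m' : ℤ) * I := by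
      push_cast at h ⊢
      linear_combination h
    have h3 := congrArg (M.tm (i + 1)) h2
    rw [tm_real_mul, tm_lam, nn_self hM, tm_vec, Int.cast_one, mul_one] at h3
    rw [h3] at a b
    have a' := Int.cast_pos.1 a
    have b' := Int.cast_lt.1 (b.trans_eq Int.cast_one.symm)
    omega
  · obtain ⟨k', m', h1⟩ := two_β (M := M) j
    rw [e _ (ends_K hM), e _ ends_Q, h1] at h
    have h2 : 2 * (((1 - t : ℝ) : ℂ) * M.edK j r + (t : ℂ) * M.edQ j r) =
        (k - k' : ℤ) + (m - m' : ℤ) * I := by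
      push_cast at h ⊢
      linear_combination h
    have h3 : ‖((k - k' : ℤ) : ℂ) + (m - m' : ℤ) * I‖ < 1 := by
      have h4 := norm_add_le (((1 - t : ℝ) : ℂ) * M.edK j r) ((t : ℂ) * M.edQ j r)
      rw [norm_mul, norm_mul, norm_real, norm_real, Real.norm_of_nonneg ht.1,
        Real.norm_of_nonneg (sub_nonneg.2 ht.2)] at h4
      rw [← h2, norm_mul, norm_ofNat]
      linarith [mul_le_mul_of_nonneg_left (PathHom_normK hM j hr) (sub_nonneg.2 ht.2),
        mul_le_mul_of_nonneg_left (PathHom_normQ hM j hr) ht.1, eps_le hM, hM.ε_pos]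
    generalize k - k' = a, m - m' = b at h2 h3
    rw [PathHom_int (k := a) (by simpa using (abs_re_le_norm _).trans_lt h3),
      PathHom_int (k := b) (by simpa using (abs_im_le_norm _).trans_lt h3)] at h2
    exact PathHom_ne hM hp j1 j2 ht hr (by simpa using h2)

theorem PathHom_re {i : ℕ} (h1 : 1 ≤ i) (h2 : i ≤ M.l) : 0 < (M.u i).re ∧ (M.u i).re ≤ 1 :=
  ⟨by
    rw [u, div_ofReal_re]
    exact div_pos (by simpa [lam] using hp i h1 h2) (norm_lam_pos hM i),
    (re_le_norm _).trans (norm_u hM i).le⟩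

omit hp in
theorem PathHom_zero {ed : ℕ → ℝ → ℂ} (h : M.Ends ed) : M.gam ed 0 = (2 * M.ε : ℝ) * M.u 1 := by
  have := pth_level h hM.one_le (t := 0) ⟨le_rfl, zero_le_one⟩
  simp only [Nat.cast_zero, mul_zero, add_zero, β_zero, zero_add, ofReal_zero, zero_mul] at this
  rw [gam, zero_mul, this]
  push_cast
  ring

theorem PathHom_adm (hq : 0 < M.q 1) {w b : ℤ} (hv : 2 * M.β M.l = w + b * I) {ed : ℕ → ℝ → ℂ}
    (h : M.Ends ed) (ha : ∀ s ∈ Icc (0 : ℝ) 1, ∀ k m : ℤ, M.gam ed s ≠ k + m * I) :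
    Adm w (M.gam ed) := by
  have h0 : 0 < 2 * M.ε := by linarith [hM.ε_pos]
  have h1 := eps_le hM
  refine ⟨continuous_const.mul ((continuous_pth h).comp (continuous_id.mul continuous_const)), ha,
    ?_, ?_⟩
  · have h2 : 0 < (M.u 1).im := by
      rw [u, div_ofReal_im]
      exact div_pos (by simpa [lam] using hq) (norm_lam_pos hM 1)
    rw [PathHom_zero hM h, im_ofReal_mul]
    exact ⟨mul_pos h0 h2, by
      linarith [mul_le_of_le_one_right h0.le ((im_le_norm _).trans (norm_u hM 1).le)]⟩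
  · obtain ⟨i, hi⟩ := Nat.exists_eq_add_one_of_ne_zero (Nat.one_le_iff_ne_zero.1 hM.one_le)
    have h2 : M.gam ed 1 = w + b * I - (2 * M.ε : ℝ) * M.u M.l := by
      rw [gam, ← hv, show (1 : ℝ) * (2 * M.l - 1) = 2 * i + 1 by rw [hi]; push_cast; ring,
        pth_level h (hi ▸ i.lt_succ_self) ⟨zero_le_one, le_rfl⟩, hi, β_succ]
      push_cast
      ring
    obtain ⟨h3, h4⟩ := PathHom_re hM hp hM.one_le le_rfl
    rw [h2, sub_re, re_ofReal_mul, show ((w : ℂ) + b * I).re = w by simp]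
    exact ⟨by linarith [mul_le_of_le_one_right h0.le h4], by linarith [mul_pos h0 h3]⟩

theorem adm_K (hq : 0 < M.q 1) {w b : ℤ} (hv : 2 * M.β M.l = w + b * I) :
    Adm w (M.gam M.edK) := by
  exact PathHom_adm hM hp hq hv (ends_K hM) fun s hs k m => by
    simpa using gam_leash hM hp s hs 0 ⟨le_rfl, zero_le_one⟩ k m

theorem adm_Q (hq : 0 < M.q 1) {w b : ℤ} (hv : 2 * M.β M.l = w + b * I) :
    Adm w (M.gam M.edQ) := by
  exact PathHom_adm hM hp hq hv ends_Q fun s hs k m => by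
    simpa using gam_leash hM hp s hs 1 ⟨zero_le_one, le_rfl⟩ k m

omit hM hp in
theorem PathHom_glue (f : ℝ → ℝ) (n : ℕ) (h : ∀ k < n, StrictMonoOn f (Icc (k : ℝ) (k + 1))) :
    StrictMonoOn f (Icc 0 n) := by
  induction n with
  | zero => exact fun a ha b hb c => absurd (ha.1.trans_lt (c.trans_le hb.2)) (by simp)
  | succ n ih =>
    have h1 : (n : ℝ) ≤ n + 1 := le_add_of_nonneg_right zero_le_one
    rw [Nat.cast_succ, ← Icc_union_Icc_eq_Icc n.cast_nonneg h1]
    exact (ih fun k hk => h k (hk.trans n.lt_succ_self)).union (h n n.lt_succ_self)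
      (isGreatest_Icc n.cast_nonneg) (isLeast_Icc h1)

theorem PathHom_monoQ {j : ℕ} (j1 : 1 ≤ j) (j2 : j < M.l) :
    StrictMono fun r => (M.edQ j r).re := fun a b c => by
  have h0 : 0 < 2 * M.ε := by linarith [hM.ε_pos]
  have h1 := mul_pos h0 (PathHom_re hM hp j1 j2.le).1
  have h2 := mul_pos h0 (PathHom_re hM hp (i := j + 1) (by omega) j2).1
  have h3 := min_le_min_right 0 c.le
  have h4 := max_le_max_right 0 c.le
  simp only [edQ, sub_re, add_re, re_ofReal_mul, I_re, mul_zero]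
  rcases h3.eq_or_lt with e | e
  · have h5 : max a 0 < max b 0 := by linarith [min_add_max a 0, min_add_max b 0]
    rw [e]
    linarith [mul_lt_mul_of_pos_left h5 h2]
  · linarith [mul_lt_mul_of_pos_left e h1, mul_le_mul_of_nonneg_left h4 h2.le]

theorem gam_Q_mono : StrictMonoOn (fun s => (M.gam M.edQ s).re) (Icc 0 1) := by
  obtain ⟨n, hn⟩ := Nat.exists_eq_add_one_of_ne_zero (Nat.one_le_iff_ne_zero.1 hM.one_le)
  have h1 : (2 * M.l - 1 : ℝ) = (2 * n + 1 : ℕ) := by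
    rw [hn]
    push_cast
    ring
  have h2 : (0 : ℝ) < (2 * n + 1 : ℕ) := by positivity
  have h3 := PathHom_glue (fun τ => (M.pth M.edQ τ).re) (2 * n + 1) fun k hk a ha b hb c => ?_
  · intro a ha b hb c
    have := h3 ⟨mul_nonneg ha.1 h2.le, mul_le_of_le_one_left h2.le ha.2⟩
      ⟨mul_nonneg hb.1 h2.le, mul_le_of_le_one_left h2.le hb.2⟩ (mul_lt_mul_of_pos_right c h2)
    simpa [gam, h1] using this
  obtain ⟨i, rfl | rfl⟩ := k.even_or_odd'
  · have hi : i < M.l := by omega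
    push_cast at ha hb
    have e : ∀ τ ∈ Icc (2 * i : ℝ) (2 * i + 1), (M.pth M.edQ τ).re = (M.β i + M.ε * M.u (i + 1)).re +
        (τ - 2 * i) * ((‖M.lam (i + 1)‖ / 2 - 2 * M.ε) * (M.u (i + 1)).re) := fun τ hτ => by
      have := pth_level ends_Q hi (t := τ - 2 * i) ⟨by linarith [hτ.1], by linarith [hτ.2]⟩
      rw [add_sub_cancel] at this
      rw [this, add_re _ (_ * _), re_ofReal_mul, ← re_ofReal_mul (_ - _) (M.u _)]
      congr 3
      conv_lhs => rw [lam_eq hM]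
      push_cast
      ring
    simp only [e a ha, e b hb]
    exact add_lt_add_right (mul_lt_mul_of_pos_right (sub_lt_sub_right c _) (mul_pos
      (by linarith [one_le_norm_lam hM (i + 1), eps_le hM])
      (PathHom_re hM hp (by omega) hi).1)) _
  · have hi : i + 1 < M.l := by omega
    push_cast at ha hb
    have e : ∀ τ ∈ Icc (2 * i + 1 : ℝ) (2 * i + 1 + 1), M.pth M.edQ τ =
        M.β (i + 1) + M.edQ (i + 1) (τ - (2 * i + 3 / 2)) := fun τ hτ => by
      rw [← pth_band ends_Q (by omega) hi (abs_le.2 ⟨by linarith [hτ.1], by linarith [hτ.2]⟩)]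
      push_cast
      ring_nf
    simp only [e a ha, e b hb, add_re]
    exact add_lt_add_right (PathHom_monoQ hM hp (by omega) hi (sub_lt_sub_right c _)) _

theorem cols_Q {lo : ℤ → ℤ} {x y : ℕ → ℤ} (h0 : ∀ c ≤ x 0, lo c = 0)
    (hβ : ∀ i ≤ M.l, 2 * M.β i + x 0 = x i + y i * I)
    (hmid : ∀ i < M.l, ∀ c, x i < c → c < x (i + 1) →
      (lo c - y i) * (x (i + 1) - x i) < (c - x i) * (y (i + 1) - y i) ∧
      (c - x i) * (y (i + 1) - y i) < (lo c + 1 - y i) * (x (i + 1) - x i))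
    (hpeg : ∀ j, 1 ≤ j → j < M.l →
      (M.e j = 1 ∧ y j = lo (x j) + 1) ∨ (M.e j = -1 ∧ y j = lo (x j))) (w : ℤ) :
    Cols w lo fun s => M.gam M.edQ s + x 0 := by
  have e0 := hM.ε_pos
  have e1 := eps_le hM
  intro c _
  refine ⟨fun h => h0 c (Int.lt_add_one_iff.1 (Int.cast_lt (R := ℝ).1 ?_)), fun s hs h => ?_⟩
  · simp only [PathHom_zero hM ends_Q, add_re, re_ofReal_mul, intCast_re] at h
    push_cast
    linarith [mul_le_of_le_one_right (a := 2 * M.ε) (by linarith)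
      (PathHom_re hM hp le_rfl hM.one_le).2]
  rcases PathHom_cases hM hs with ⟨i, hi, t, a, b, e⟩ | ⟨j, j1, j2, r, hr, e⟩
  · have h1 := hβ (i + 1) hi
    have h2 : M.lam (i + 1) = (x (i + 1) - x i : ℤ) + (y (i + 1) - y i : ℤ) * I := by
      rw [β_succ] at h1
      push_cast
      linear_combination h1 - hβ i hi.le
    have h3 : ((x (i + 1) - x i : ℤ) : ℝ) = M.p (i + 1) := by simpa [lam] using congrArg re h2.symm
    have h4 : (0 : ℝ) < (x (i + 1) - x i : ℤ) := h3 ▸ Int.cast_pos.2 (hp _ (by omega) hi)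
    simp only [e _ ends_Q, add_right_comm, hβ i hi.le, h2, add_re, add_im, re_ofReal_mul,
      im_ofReal_mul, intCast_re, intCast_im, mul_I_re, mul_I_im, neg_zero, add_zero, zero_add] at h ⊢
    obtain ⟨h5, h6⟩ := hmid i hi c (Int.cast_lt (R := ℝ).1 (by linarith [mul_pos a h4]))
      (Int.cast_lt (R := ℝ).1 (by
        have := mul_lt_of_lt_one_left h4 b
        push_cast at this h
        linarith))
    have h7 := Int.cast_lt (R := ℝ).2 h5
    have h8 := Int.cast_lt (R := ℝ).2 h6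
    rw [Int.cast_mul, Int.cast_mul, Int.cast_sub c, ← h, add_sub_cancel_left, mul_right_comm,
      mul_lt_mul_iff_left₀ h4] at h7 h8
    push_cast at h7 h8 ⊢
    exact ⟨by linarith, by linarith⟩
  · simp only [e _ ends_Q, add_right_comm, hβ j j2.le, add_re, add_im, re_ofNat, im_ofNat, mul_re,
      mul_im, intCast_re, intCast_im, I_re, I_im, mul_zero, zero_mul, mul_one, sub_zero, add_zero,
      zero_add] at h ⊢
    have h1 := abs_le.1 ((abs_re_le_norm _).trans (PathHom_normQ hM j hr))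
    obtain rfl : c = x j := sub_eq_zero.1 (PathHom_int (by
      push_cast
      exact abs_lt.2 ⟨by linarith [h1.1], by linarith [h1.2]⟩))
    obtain rfl : r = 0 := (PathHom_monoQ hM hp j1 j2).injective
      (show (M.edQ j r).re = (M.edQ j 0).re by
        rw [show (M.edQ j 0).re = 0 by simp [edQ]]
        linarith)
    rw [show (M.edQ j 0).im = -(M.e j * M.ε) by simp [edQ]]
    rcases hpeg j j1 j2 with ⟨h2, h3⟩ | ⟨h2, h3⟩ <;> rw [h2, h3]
    · push_cast
      exact ⟨by linarith, by linarith⟩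
    · exact ⟨by linarith, by linarith⟩

end Lev

end OneOne
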