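import Pool.Agent.Work.MP_d5331a_gt.OO.TiltA
import Pool.Agent.Work.MP_d5331a_gt.OO.Braid
import Pool.Agent.Work.MP_d5331a_gt.OO.Mono

/-!
A knot in level position is the knot of the path `gam edK`.

Plan. Let `R = l + 1`, `n = 2 l - 1`. Apply `vert` to `δ (ζ, s) = tδ (ζ, R * s) / R`; by `E_eq_pt`
the homeomorphism sends `E (ζ, ρ)` to `E (ζ, ρ + tδ (ζ, ρ))` for `0 ≤ ρ ≤ R`. Let
`s₀ = dep' 0 / R`, `s₁ = dep' n / R` (values from `dep'_level`; `0 < s₀ < s₁ < 1`) and let `τ` be the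
continuous inverse of `σ ↦ dep' (σ * n) / R` given by `exists_graph` (applied to this real valued
path), `z s = pth edK (τ s * n)`. By `knot_eq`, `tδ_neg`, `tδ_bot`, `tδ_top`, `pth_level` the image of
`M.knot` is `symKnot z s₀ s₁ (β l)` (`z s₀ = ε * u 1`, `z s₁ = β l - ε * u l`; every `s ∈ [s₀, s₁]` is a
value by the intermediate value theorem). For `braid` choose `t₀ = 1 / (8 * ‖lam 1‖)`,
`t₁ = 1 / (8 * ‖lam l‖)` and `η` the minimum of `(dep' t₀ - dep' 0) / R` and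
`(dep' n - dep' (n - t₁)) / R`: on these parts the path is
`(ε + t * (‖lam 1‖ / 2 - 2 ε)) * u 1`, respectively `β l - (ε + t * (‖lam l‖ / 2 - 2 ε)) * u l`
(`lam_eq`), with `0 < im (u 1) ≤ 1`, `0 < re (u l) ≤ 1`, `ε ≤ 1 / 128`. Finally
`2 * z (s₀ + s * (s₁ - s₀)) = gam edK (τ (s₀ + s * (s₁ - s₀)))`, and `move_reparam` gives both the
admissibility and the last equivalence.
-/

set_option autoImplicit false

open Complex Set

namespace OneOne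

open Neuwirth

namespace Lev

variable {M : Lev} (hM : M.Good)
include hM

theorem Tilt_vert : ∃ h : S3 ≃ₜ S3, ∀ ζ ρ, 0 ≤ ρ → ρ ≤ (M.l : ℝ) + 1 →
    h (M.E (ζ, ρ)) = pt ζ ((ρ + M.tδ (ζ, ρ)) / (M.l + 1)) := by
  have hR : (0 : ℝ) < M.l + 1 := by positivity
  have hc := continuous_tδ (M := M)
  obtain ⟨h, hh⟩ := vert (fun x => M.tδ (x.1, (M.l + 1) * x.2) / (M.l + 1)) (by fun_prop)
    (fun ζ s k m => by simp only [tδ_add])
    (fun ζ s _ s' _ hs => by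
      have h1 := tδ_strict hM ζ (mul_lt_mul_of_pos_left hs hR)
      have h2 := div_lt_div_of_pos_right h1 hR
      simp only [add_div, mul_div_cancel_left₀ _ hR.ne'] at h2
      exact h2)
    (fun ζ => by simp only [tδ_out (M := M) ζ (ρ := (M.l + 1) * 0) (Or.inl (by norm_num)), zero_div])
    (fun ζ => by simp only [tδ_out (M := M) ζ (ρ := (M.l + 1) * 1) (Or.inr (by norm_num)), zero_div])
  refine ⟨h, fun ζ ρ h0 h1 => ?_⟩
  rw [E_eq_pt, hh _ _ ⟨div_nonneg h0 hR.le, (div_le_one hR).2 h1⟩]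
  simp only [mul_div_cancel₀ _ hR.ne', add_div]

theorem Tilt_dep {t : ℝ} (ht : t ∈ Icc (0 : ℝ) (2 * M.l - 1)) :
    0 ≤ M.dep t ∧ M.dep t ≤ (M.l : ℝ) + 1 := by
  rcases pieces hM.one_le ht with ⟨i, hi, r, hr, rfl⟩ | ⟨j, h1, h2, s, hs, rfl⟩
  · rw [dep_level hi hr]
    have : (i : ℝ) < M.l := by exact_mod_cast hi
    exact ⟨by positivity, by linarith⟩
  · rw [dep_band h1 h2 hs]
    have h3 : (j : ℝ) < M.l := by exact_mod_cast h2
    have h4 := abs_le.1 hs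
    have h5 : (0 : ℝ) ≤ j := Nat.cast_nonneg j
    exact ⟨by linarith [h4.1], by linarith [h4.2]⟩

theorem Tilt_c (i : ℕ) {r : ℝ} (h0 : 0 ≤ r) (h1 : r ≤ 1 / (8 * ‖M.lam i‖)) {y : ℝ} (hy : 0 < y)
    (hy' : y ≤ 1) : 0 < (M.ε + r * (‖M.lam i‖ / 2 - 2 * M.ε)) * y ∧
      (M.ε + r * (‖M.lam i‖ / 2 - 2 * M.ε)) * y ≤ 1 / 8 := by
  have h2 := one_le_norm_lam hM i
  have h3 := eps_le hM
  have h4 := hM.ε_pos
  rw [le_div_iff₀ (by positivity)] at h1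
  have h5 : 0 ≤ r * (‖M.lam i‖ / 2 - 2 * M.ε) := mul_nonneg h0 (by linarith)
  have h6 : 0 ≤ r * M.ε := mul_nonneg h0 h4.le
  have h7 : M.ε + r * (‖M.lam i‖ / 2 - 2 * M.ε) ≤ 1 / 8 := by linarith
  exact ⟨mul_pos (by linarith) hy, (mul_le_of_le_one_right (by linarith) hy').trans h7⟩

theorem Tilt_t (i : ℕ) : 0 < 1 / (8 * ‖M.lam i‖) ∧ 1 / (8 * ‖M.lam i‖) ≤ 1 := by
  have h2 := one_le_norm_lam hM i
  exact ⟨by positivity, (div_le_one (by positivity)).2 (by linarith)⟩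

theorem Tilt_bot {t : ℝ} (ht : t ∈ Icc (0 : ℝ) 1) :
    M.pth M.edK t = ((M.ε + t * (‖M.lam 1‖ / 2 - 2 * M.ε) : ℝ) : ℂ) * M.u 1 := by
  have h1 := pth_level (ends_K hM) (i := 0) hM.one_le ht
  have h2 := lam_eq hM 1
  simp only [Nat.cast_zero, mul_zero, zero_add, β_zero] at h1
  rw [h1]
  push_cast
  linear_combination (t / 2 : ℂ) * h2

theorem Tilt_top {t : ℝ} (ht : t ∈ Icc (0 : ℝ) 1) : M.β M.l - M.pth M.edK (2 * M.l - 1 - t) =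
    ((M.ε + t * (‖M.lam M.l‖ / 2 - 2 * M.ε) : ℝ) : ℂ) * M.u M.l := by
  obtain ⟨m, hm⟩ : ∃ m, M.l = m + 1 := ⟨M.l - 1, by have := hM.one_le; omega⟩
  have h1 := pth_level (ends_K hM) (i := m) (by omega) (t := 1 - t)
    ⟨by linarith [ht.2], by linarith [ht.1]⟩
  have h2 := lam_eq hM (m + 1)
  have h3 : 2 * ((m + 1 : ℕ) : ℝ) - 1 - t = 2 * m + (1 - t) := by
    push_cast
    ring
  rw [hm, h3, h1, β_succ]
  push_cast
  linear_combination (t / 2 : ℂ) * h2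

theorem Tilt_d0 : M.dep' 0 = 1 + M.ε / ‖M.lam 1‖ / 4 := by
  simpa using dep'_level hM (i := 0) hM.one_le (t := 0) ⟨le_rfl, zero_le_one⟩

theorem Tilt_d1 : M.dep' (2 * M.l - 1) = M.l + (1 / 2 - M.ε / ‖M.lam M.l‖) / 4 := by
  obtain ⟨m, hm⟩ : ∃ m, M.l = m + 1 := ⟨M.l - 1, by have := hM.one_le; omega⟩
  have h1 := dep'_level hM (i := m) (by omega) (t := 1) ⟨zero_le_one, le_rfl⟩
  have h3 : 2 * ((m + 1 : ℕ) : ℝ) - 1 = 2 * m + 1 := by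
    push_cast
    ring
  rw [hm, h3, h1]
  push_cast
  ring

/-- The inverse of the depth. -/
theorem Tilt_inv : ∃ τ : ℝ → ℝ, Continuous τ ∧ (∀ x, τ x ∈ Icc (0 : ℝ) 1) ∧
    (∀ t ∈ Icc (0 : ℝ) (2 * M.l - 1), τ (M.dep' t / (M.l + 1)) * (2 * M.l - 1) = t) ∧
    ∀ s ∈ Icc (M.dep' 0 / (M.l + 1)) (M.dep' (2 * M.l - 1) / (M.l + 1)),
      ∃ t ∈ Icc (0 : ℝ) (2 * M.l - 1), M.dep' t / (M.l + 1) = s := by
  have hR : (0 : ℝ) < M.l + 1 := by positivity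
  have hl : (1 : ℝ) ≤ M.l := by exact_mod_cast hM.one_le
  have hn : (0 : ℝ) < 2 * M.l - 1 := by linarith
  have hc := continuous_dep' hM
  obtain ⟨τ, h1, -, h2, h3, -⟩ := exists_graph
    (γ := fun σ => ((M.dep' (σ * (2 * M.l - 1)) / (M.l + 1) : ℝ) : ℂ)) (by fun_prop)
    (fun s hs s' hs' h => by
      simp only [ofReal_re]
      exact div_lt_div_of_pos_right (dep'_strict hM
        ⟨mul_nonneg hs.1 hn.le, mul_le_of_le_one_left hn.le hs.2⟩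
        ⟨mul_nonneg hs'.1 hn.le, mul_le_of_le_one_left hn.le hs'.2⟩
        (mul_lt_mul_of_pos_right h hn)) hR)
  refine ⟨τ, h1, h2, fun t ht => ?_, fun s hs => ?_⟩
  · have h4 := h3 (t / (2 * M.l - 1)) ⟨div_nonneg ht.1 hn.le, (div_le_one hn).2 ht.2⟩
    simp only [ofReal_re, div_mul_cancel₀ _ hn.ne'] at h4
    rw [h4, div_mul_cancel₀ _ hn.ne']
  · exact intermediate_value_Icc hn.le (f := fun t => M.dep' t / (M.l + 1)) (by fun_prop) hs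

theorem tilt (hq : 0 < M.q 1) (hp : 0 < M.p M.l) {w b : ℤ} (hv : 2 * M.β M.l = w + b * I)
    (hA : Adm w (M.gam M.edK)) : Eqv M.knot (OneOne.knot (M.gam M.edK)) := by
  have hR : (0 : ℝ) < M.l + 1 := by positivity
  have hl : (1 : ℝ) ≤ M.l := by exact_mod_cast hM.one_le
  have hn : (0 : ℝ) < 2 * M.l - 1 := by linarith
  have hε := hM.ε_pos
  have hε' : (M.ε : ℂ) ≠ 0 := ofReal_ne_zero.2 hε.ne'
  have hS := dep'_strict hM
  have hcp := continuous_pth (ends_K hM)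
  obtain ⟨h, hh⟩ := Tilt_vert hM
  obtain ⟨τ, hτ, hτ1, hτ2, hτ3⟩ := Tilt_inv hM
  obtain ⟨s₀, hs₀⟩ : ∃ s₀, s₀ = M.dep' 0 / (M.l + 1) := ⟨_, rfl⟩
  obtain ⟨s₁, hs₁⟩ : ∃ s₁, s₁ = M.dep' (2 * M.l - 1) / (M.l + 1) := ⟨_, rfl⟩
  rw [← hs₀, ← hs₁] at hτ3
  have m0 : (0 : ℝ) ∈ Icc (0 : ℝ) (2 * M.l - 1) := ⟨le_rfl, hn.le⟩
  have m1 : (2 * M.l - 1 : ℝ) ∈ Icc (0 : ℝ) (2 * M.l - 1) := ⟨hn.le, le_rfl⟩
  let z : ℝ → ℂ := fun s => M.pth M.edK (τ s * (2 * M.l - 1))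
  have hz : ∀ t ∈ Icc (0 : ℝ) (2 * M.l - 1), z (M.dep' t / (M.l + 1)) = M.pth M.edK t :=
    fun t ht => congrArg (M.pth M.edK) (hτ2 t ht)
  have hz0 : z s₀ = M.ε * M.u 1 := by
    rw [hs₀, hz 0 m0, Tilt_bot hM ⟨le_rfl, zero_le_one⟩]
    simp
  have hz1 : M.β M.l - z s₁ = M.ε * M.u M.l := by
    have h1 := Tilt_top hM (t := 0) ⟨le_rfl, zero_le_one⟩
    rw [hs₁, hz _ m1]
    simpa using h1
  have h01 : s₀ < s₁ := by
    rw [hs₀, hs₁]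
    exact div_lt_div_of_pos_right (hS m0 m1 hn) hR
  have hstr : ∀ F : ℂ → ℂ, (∀ ζ ρ, M.tδ (F ζ, ρ) = M.tδ (ζ, ρ)) →
      h '' ((fun t => M.E (F (M.pth M.edK t), M.dep t)) '' Icc 0 (2 * M.l - 1)) =
        (fun s => pt (F (z s)) s) '' Icc s₀ s₁ := fun F hF => by
    have h1 : ∀ t ∈ Icc (0 : ℝ) (2 * M.l - 1), h (M.E (F (M.pth M.edK t), M.dep t)) =
        pt (F (z (M.dep' t / (M.l + 1)))) (M.dep' t / (M.l + 1)) := fun t ht => by
      rw [hh _ _ (Tilt_dep hM ht).1 (Tilt_dep hM ht).2, hF, hz t ht]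
      rfl
    rw [image_image]
    refine Subset.antisymm ?_ ?_
    · rintro _ ⟨t, ht, rfl⟩
      refine ⟨_, ⟨?_, ?_⟩, (h1 t ht).symm⟩
      · rw [hs₀]
        exact div_le_div_of_nonneg_right (hS.monotoneOn m0 ht ht.1) hR.le
      · rw [hs₁]
        exact div_le_div_of_nonneg_right (hS.monotoneOn ht m1 ht.2) hR.le
    · rintro _ ⟨s, hs, rfl⟩
      obtain ⟨t, ht, rfl⟩ := hτ3 s hs
      exact ⟨t, ht, h1 t ht⟩
  have e1 : Eqv M.knot (symKnot z s₀ s₁ (M.β M.l)) := by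
    refine ⟨h, ?_⟩
    rw [knot_eq hM, image_union, image_union, image_union, symKnot,
      hstr (fun ζ => ζ) fun _ _ => rfl, hstr (fun ζ => -ζ) tδ_neg, image_image, image_image]
    congr 1
    · congr 1
      refine image_congr fun t ht => ?_
      rw [hh _ _ zero_le_one (by linarith), tδ_bot hM ht, hz0, hs₀, Tilt_d0 hM]
    · refine image_congr fun t ht => ?_
      rw [hh _ _ (by linarith) (by linarith), tδ_top hM ht, ← hz1, neg_sub, hs₁, Tilt_d1 hM]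
  obtain ⟨a0, a1⟩ := Tilt_t hM 1
  obtain ⟨b0, b1⟩ := Tilt_t hM M.l
  have m2 : 1 / (8 * ‖M.lam 1‖) ∈ Icc (0 : ℝ) (2 * M.l - 1) := ⟨a0.le, by linarith⟩
  have m3 : 2 * M.l - 1 - 1 / (8 * ‖M.lam M.l‖) ∈ Icc (0 : ℝ) (2 * M.l - 1) :=
    ⟨by linarith, by linarith⟩
  have t0 : τ s₀ = 0 := by
    have h1 := hτ2 0 m0
    rw [← hs₀] at h1
    exact (mul_eq_zero.1 h1).resolve_right hn.ne'
  have t1 : τ s₁ = 1 := by
    have h1 := hτ2 _ m1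
    rw [← hs₁] at h1
    exact mul_right_cancel₀ hn.ne' (h1.trans (one_mul _).symm)
  obtain ⟨e2, e3⟩ := move_reparam hA (σ := fun s => τ (s₀ + s * (s₁ - s₀))) (by fun_prop)
    (by simpa using t0) (by simpa using t1) fun s _ => hτ1 _
  refine e1.trans (Eqv.trans ?_ e3.symm)
  refine braid (z := z) (η := min (M.dep' (1 / (8 * ‖M.lam 1‖)) / (M.l + 1) - s₀)
    (s₁ - M.dep' (2 * M.l - 1 - 1 / (8 * ‖M.lam M.l‖)) / (M.l + 1))) (by fun_prop) ?_ h01 ?_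
    (lt_min ?_ ?_) hv (fun s hs hs' => ?_) (fun s hs hs' => ?_) e2
  · rw [hs₀, Tilt_d0 hM]
    positivity
  · rw [hs₁, Tilt_d1 hM, div_lt_one hR]
    have : 0 ≤ M.ε / ‖M.lam M.l‖ := by positivity
    linarith
  · rw [hs₀, sub_pos]
    exact div_lt_div_of_pos_right (hS m0 m2 a0) hR
  · rw [hs₁, sub_pos]
    exact div_lt_div_of_pos_right (hS m3 m1 (by linarith)) hR
  · obtain ⟨t, ht, rfl⟩ := hτ3 s ⟨hs.1, hs'⟩
    have h1 : M.dep' t / (M.l + 1) ≤ M.dep' (1 / (8 * ‖M.lam 1‖)) / (M.l + 1) := by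
      linarith [hs.2, min_le_left (M.dep' (1 / (8 * ‖M.lam 1‖)) / (M.l + 1) - s₀)
        (s₁ - M.dep' (2 * M.l - 1 - 1 / (8 * ‖M.lam M.l‖)) / (M.l + 1))]
    rw [div_le_div_iff_of_pos_right hR, hS.le_iff_le ht m2] at h1
    have h2 : 0 < (M.u 1).im := by
      rw [u, div_ofReal_im]
      exact div_pos (by simpa [lam] using hq) (norm_lam_pos hM 1)
    rw [hz t ht, hz0, Tilt_bot hM ⟨ht.1, h1.trans a1⟩, im_ofReal_mul]
    refine ⟨⟨(M.ε + t * (‖M.lam 1‖ / 2 - 2 * M.ε)) / M.ε, ?_⟩,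
      Tilt_c hM 1 ht.1 h1 h2 ((im_le_norm _).trans (norm_u hM 1).le)⟩
    rw [ofReal_div, ← mul_assoc, div_mul_cancel₀ _ hε']
  · obtain ⟨t, ht, rfl⟩ := hτ3 s ⟨hs', hs.2⟩
    have h1 : M.dep' (2 * M.l - 1 - 1 / (8 * ‖M.lam M.l‖)) / (M.l + 1) ≤ M.dep' t / (M.l + 1) := by
      linarith [hs.1, min_le_right (M.dep' (1 / (8 * ‖M.lam 1‖)) / (M.l + 1) - s₀)
        (s₁ - M.dep' (2 * M.l - 1 - 1 / (8 * ‖M.lam M.l‖)) / (M.l + 1))]
    rw [div_le_div_iff_of_pos_right hR, hS.le_iff_le m3 ht] at h1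
    have h2 : 0 < (M.u M.l).re := by
      rw [u, div_ofReal_re]
      exact div_pos (by simpa [lam] using hp) (norm_lam_pos hM M.l)
    have h3 := Tilt_top hM (t := 2 * M.l - 1 - t) ⟨by linarith [ht.2], by linarith⟩
    rw [sub_sub_cancel] at h3
    rw [hz t ht, hz1, h3, re_ofReal_mul]
    refine ⟨⟨(M.ε + (2 * M.l - 1 - t) * (‖M.lam M.l‖ / 2 - 2 * M.ε)) / M.ε, ?_⟩,
      Tilt_c hM M.l (by linarith [ht.2]) (by linarith) h2 ((re_le_norm _).trans (norm_u hM _).le)⟩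
    rw [ofReal_div, ← mul_assoc, div_mul_cancel₀ _ hε']

end Lev

end OneOne
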