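import Pool.Agent.Work.MP_d5331a_gt.OO.Core
import Pool.Agent.Work.MP_d5331a_gt.OO.Tilt
import Pool.Agent.Work.MP_d5331a_gt.OO.PathHom
import Pool.Agent.Work.MP_d5331a_gt.OO.Taut
import Pool.Agent.Work.MP_d5331a_gt.OO.Data
import Pool.Agent.Work.MP_d5331a_gt.OO.Transport

set_option autoImplicit false

open Complex Set

namespace OneOne

open Neuwirth

theorem coprime_of_between {p q : ℤ} (hp : 0 < p)
    (h : ∀ c, 0 < c → c < p → ∃ n : ℤ, n * p < c * q ∧ c * q < (n + 1) * p) : IsCoprime p q := by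
  rw [Int.isCoprime_iff_gcd_eq_one]
  by_contra hg
  have h0 : 0 < Int.gcd p q := Int.gcd_pos_of_ne_zero_left q hp.ne'
  obtain ⟨p', hp'⟩ := Int.gcd_dvd_left p q
  obtain ⟨q', hq'⟩ := Int.gcd_dvd_right p q
  have h2 : (2 : ℤ) ≤ Int.gcd p q := by exact_mod_cast (by omega : 2 ≤ Int.gcd p q)
  generalize (Int.gcd p q : ℤ) = g at hp' hq' h2
  have h3 : 0 < p' := by nlinarith
  obtain ⟨n, h4, h5⟩ := h p' h3 (by nlinarith)
  have h6 : p' * q = q' * p := by rw [hq', hp']; ring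
  rw [h6] at h4 h5
  have h7 := lt_of_mul_lt_mul_right h4 hp.le
  have h8 := lt_of_mul_lt_mul_right h5 hp.le
  omega

theorem exists_level {w : ℤ} {γ : ℝ → ℂ} (h : Adm w γ)
    (hre : MonotoneOn (fun s => (γ s).re) (Icc 0 1))
    (him : MonotoneOn (fun s => (γ s).im) (Icc 0 1)) :
    ∃ M : Lev, M.Good ∧ (M.l = 1 ∨ M.EndsBig) ∧ Eqv M.knot (knot γ) := by
  obtain ⟨γ', h', hre', him', e1⟩ := exists_strict h hre him
  obtain ⟨lo, hc, hm, A, hA⟩ := exists_cols h' hre' him'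
  obtain ⟨n, x, y, e, hn, y0, l0, xn, y1, hx, hmid, hpeg, hdet, hend⟩ := taut hm hA w
  obtain ⟨M, hM, hl, hpq, he⟩ := exists_lev hn (fun i => x i - x (i - 1)) (fun i => y i - y (i - 1)) e
    (fun i h1 h2 => by
      obtain ⟨j, rfl⟩ : ∃ j, i = j + 1 := ⟨i - 1, by omega⟩
      exact sub_pos.2 (hx j h2))
    (fun i h1 h2 => by
      obtain ⟨j, rfl⟩ : ∃ j, i = j + 1 := ⟨i - 1, by omega⟩
      refine coprime_of_between (sub_pos.2 (hx j h2)) fun c c0 c1 => ⟨lo (x j + c) - y j, ?_⟩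
      have := hmid j h2 (x j + c) (by omega) (by simp only [Nat.add_sub_cancel] at c1; omega)
      simp only [Nat.add_sub_cancel]
      constructor <;> linarith [this.1, this.2])
    (fun j h1 h2 => (hpeg j h1 h2).imp And.left And.left)
    (fun i h1 h2 => by
      obtain ⟨j, rfl⟩ : ∃ j, i = j + 1 := ⟨i - 1, by omega⟩
      exact hdet j h2)
  subst hl
  have hβ : ∀ i ≤ M.l, 2 * M.β i + x 0 = x i + y i * I := fun i hi => by
    induction i with
    | zero => simp [Lev.β_zero, y0]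
    | succ i ih =>
      have h1 := hpq (i + 1) (by omega) hi
      rw [Lev.β_succ, Lev.lam, h1.1, h1.2, Nat.add_sub_cancel]
      push_cast
      linear_combination ih (by omega)
  have hp : ∀ i, 1 ≤ i → i ≤ M.l → 0 < M.p i := fun i h1 h2 => by
    obtain ⟨j, rfl⟩ : ∃ j, i = j + 1 := ⟨i - 1, by omega⟩
    rw [(hpq _ h1 h2).1]
    exact sub_pos.2 (hx j h2)
  have hq1 : M.q 1 = y 1 := by rw [(hpq 1 le_rfl hn).2]; simp [y0]
  have hq : 0 < M.q 1 := hq1 ▸ y1
  have hv : 2 * M.β M.l = ((w - x 0 : ℤ) : ℂ) + y M.l * I := by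
    push_cast
    rw [← xn]
    linear_combination hβ _ le_rfl
  have aK := Lev.adm_K hM hp hq hv
  have aQ := Lev.adm_Q hM hp hq hv
  have aQ' := aQ.add_int (x 0)
  rw [sub_add_cancel] at aQ'
  have h0 : ∀ c ≤ x 0, lo c = 0 := fun c hc => by
    have h1 : lo c ≤ 0 := l0 ▸ hm hc
    have h2 := hm (min_le_left c A)
    rw [hA _ (min_le_right c A)] at h2
    omega
  have cQ := Lev.cols_Q hM hp h0 hβ hmid (fun j h1 h2 => by
    rw [he j h1 h2]
    exact (hpeg j h1 h2).imp (fun h => ⟨by rw [h.1]; simp, h.2⟩) fun h => ⟨by rw [h.1]; simp, h.2⟩) w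
  have e2 := mono_eqv aQ' h' (fun s hs t ht hst => by
    simpa using Lev.gam_Q_mono hM hp hs ht hst) hre' cQ hc
  rw [knot_add_int] at e2
  refine ⟨M, hM, hend.imp id fun hb => ⟨?_, ?_⟩, (Lev.tilt hM hq (hp _ hn le_rfl) hv aK).trans
    ((move_leash aK aQ (Lev.gam_leash hM hp)).trans (e2.trans e1.symm))⟩
  · rw [hq1]
    exact hb.1.trans (le_abs_self _)
  · rw [(hpq _ hn le_rfl).1, xn]
    exact le_trans (by linarith [hb.2]) (le_abs_self _)

theorem main (γ : ℝ → ℂ) (hc : ContinuousOn γ (Icc 0 1))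
    (hre : MonotoneOn (fun s => (γ s).re) (Icc 0 1))
    (him : MonotoneOn (fun s => (γ s).im) (Icc 0 1))
    (hav : ∀ s ∈ Icc (0 : ℝ) 1, ∀ k m : ℤ, γ s ≠ k + m * I)
    (h0 : 0 < (γ 0).im ∧ (γ 0).im < 1) (h1 : ∀ k : ℤ, (γ 1).re ≠ k) :
    (∃ (h : S3 ≃ₜ S3) (p q : ℤ), IsCoprime p q ∧ h '' knot γ = torusKnot p q) ∨ Neu (knot γ) := by
  let γ' : ℝ → ℂ := fun s => γ (projIcc 0 1 zero_le_one s)
  have he : EqOn γ' γ (Icc 0 1) := fun s hs => by simp only [γ', projIcc_of_mem _ hs]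
  have e0 := he (left_mem_Icc.2 zero_le_one)
  have e1 := he (right_mem_Icc.2 zero_le_one)
  have hA : Adm ⌈(γ 1).re⌉ γ' :=
    ⟨hc.comp_continuous (continuous_subtype_val.comp continuous_projIcc) fun s => Subtype.prop _,
      fun s hs => he hs ▸ hav s hs, e0 ▸ h0, by
        rw [e1]
        exact ⟨by linarith [Int.ceil_lt_add_one (γ 1).re], (Int.le_ceil _).lt_of_ne (h1 _)⟩⟩
  obtain ⟨M, hM, hE, e⟩ := exists_level hA
    (fun s hs t ht hst => by simpa only [he hs, he ht] using hre hs ht hst)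
    (fun s hs t ht hst => by simpa only [he hs, he ht] using him hs ht hst)
  rw [knot_congr he] at e
  by_cases hl : M.l = 1
  · obtain ⟨h, hh⟩ := e.symm
    exact Or.inl ⟨h, _, _, ⟨_, _, hM.bez 1⟩, hh.trans (Lev.knot_torus hM hl)⟩
  · exact Or.inr ((core M hM (by have := hM.one_le; omega) (hE.resolve_left hl)).of_eqv e)

end OneOne
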