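import Pool.Agent.Work.MP_d5331a_gt.OO.PathDef
import Pool.Agent.Work.MP_d5331a_gt.OO.Desc

/-!
The pieces of the path, and the knot as a union of four arcs.

Plan. `pth_level`, `pth_band`: all clamps are `0` or `1` except one; induction on the index with
`β_succ` (split the sums with `Finset.sum_range_succ`, `Finset.sum_Ico_succ_top`; it may be easier to
prove first the formulas for the truncated sums `∑ i ∈ range n`, `∑ j ∈ Ico 1 n` by induction on
`n ≤ l`). `pieces`: `⌊τ⌋` is even or odd.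
`knot_eq`: a point of level `i + 1` is `β i + t * lam (i + 1) + (lattice vector)` with
`-1 / 2 ≤ t ≤ 1 / 2` (`eq_coord`, `L_lam`, `qq_self`, `β_succ`); `2 * β i` is a lattice vector
(`two_β`), so the points with `t ≤ 0` are negatives of points with `t ≥ 0` modulo the lattice.
The distance condition says `ε ≤ t * ‖lam‖` (if `1 ≤ i`) and `ε ≤ (1 / 2 - t) * ‖lam‖` (if
`i + 1 < l`). Conversely a point `β i + t * lam` with these inequalities is at distance `≥ ε` from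
all bands of the slabs `i`, `i + 1`: the difference is `t' * lam - v`; if `L v ≠ 0` use `L_small`,
otherwise `v` is an integer multiple of `lam`. On bands, `σ = e j` gives the path and `σ = -e j`
its negative (`band_neg`). Use `E_eq_pt` and `pt_add`.
`knot_torus`: for `l = 1` there are no bands.
-/

set_option autoImplicit false

open Complex Set

namespace OneOne

open Neuwirth

namespace Lev

variable {M : Lev}

theorem Path_cl_cont : Continuous cl := by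
  unfold cl
  fun_prop

theorem Path_cl_zero {x : ℝ} (h : x ≤ 0) : cl x = 0 := max_eq_left ((min_le_left _ _).trans h)

theorem Path_cl_one {x : ℝ} (h : 1 ≤ x) : cl x = 1 := by
  rw [cl, min_eq_right h, max_eq_right zero_le_one]

theorem Path_cl_mem {x : ℝ} (h0 : 0 ≤ x) (h1 : x ≤ 1) : cl x = x := by
  rw [cl, min_eq_left h1, max_eq_right h0]

theorem Path_trunc {A : Type} [AddCommMonoid A] {f g : ℕ → A} {s t : Finset ℕ} (h : s ⊆ t)
    (h1 : ∀ i ∈ s, f i = g i) (h2 : ∀ i ∈ t, i ∉ s → f i = 0) :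
    ∑ i ∈ t, f i = ∑ i ∈ s, g i := by
  rw [← Finset.sum_subset h h2]
  exact Finset.sum_congr rfl h1

theorem Path_tel (M : Lev) (n : ℕ) : M.ε * M.u 1 +
    ∑ i ∈ Finset.range n, (M.lam (i + 1) / 2 - 2 * M.ε * M.u (i + 1)) +
    ∑ j ∈ Finset.Ico 1 (n + 1), (M.ε * M.u (j + 1) + M.ε * M.u j) =
      M.β n + M.ε * M.u (n + 1) := by
  induction n with
  | zero => simp [β_zero]
  | succ n ih =>
    rw [Finset.sum_range_succ, Finset.sum_Ico_succ_top (Nat.le_add_left 1 n), β_succ]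
    linear_combination ih

theorem Path_E_add (ζ : ℂ) (ρ : ℝ) (k m : ℤ) : M.E (ζ + (k + m * I), ρ) = M.E (ζ, ρ) := by
  rw [E_eq_pt, E_eq_pt]
  exact pt_add _ _ _ _

theorem Path_neg {ζ : ℂ} {ρ : ℝ} (h : (ζ, ρ) ∈ M.knotUp) : (-ζ, ρ) ∈ M.knotUp := by
  rcases h with ⟨i, i1, i2, hρ, ⟨k, hk⟩, hd⟩ | ⟨j, β, hβ, s, σ, hs, hσ, hx⟩
  · obtain ⟨a, b, h2⟩ := two_β (M := M) i
    refine Or.inl ⟨i, i1, i2, hρ, ⟨-k - (M.q i * a - M.p i * b), ?_⟩, fun β hβ => ?_⟩
    · have h3 : -ζ - M.β i = -(ζ - M.β i) - (a + b * I) := by linear_combination -h2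
      have hk' : M.L i (ζ - M.β i) = k := hk
      show M.L i (-ζ - M.β i) = _
      rw [h3, L_sub, L_neg, L_vec, hk']
      push_cast
      ring
    · have := hd (-β) (hβ.imp band_neg band_neg)
      show M.ε ≤ ‖-ζ - β‖
      rwa [← norm_neg, show -(ζ - -β) = -ζ - β by ring] at this
  · obtain ⟨h1, h2⟩ := Prod.mk.inj hx
    refine Or.inr ⟨j, -β, band_neg hβ, s, -σ, hs, ?_, Prod.ext ?_ h2⟩
    · rcases hσ with h | h <;> rw [h] <;> norm_num
    · show -ζ = _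
      rw [h1]
      push_cast
      ring

theorem continuous_pth {ed : ℕ → ℝ → ℂ} (h : M.Ends ed) : Continuous (M.pth ed) := by
  have h1 := h.cont
  have h2 := Path_cl_cont
  unfold pth
  fun_prop

theorem continuous_dep : Continuous M.dep := by
  have h2 := Path_cl_cont
  unfold dep
  fun_prop

theorem pth_level {ed : ℕ → ℝ → ℂ} (h : M.Ends ed) {i : ℕ} (hi : i < M.l) {t : ℝ}
    (ht : t ∈ Icc (0 : ℝ) 1) : M.pth ed (2 * i + t) = M.β i + M.ε * M.u (i + 1) +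
      t * (M.lam (i + 1) / 2 - 2 * M.ε * M.u (i + 1)) := by
  obtain ⟨t0, t1⟩ := ht
  rw [pth, Path_trunc (Finset.range_subset_range.2 (Nat.succ_le_of_lt hi)) (fun _ _ => rfl)
      (fun k _ hk => ?_), Finset.sum_range_succ,
    Path_trunc (s := Finset.range i) (g := fun k => M.lam (k + 1) / 2 - 2 * M.ε * M.u (k + 1))
      subset_rfl (fun k hk => ?_) (fun k h1 h2 => absurd h1 h2),
    Path_trunc (g := fun k => M.ε * M.u (k + 1) + M.ε * M.u k)
      (Finset.Ico_subset_Ico le_rfl (Nat.succ_le_of_lt hi)) (fun k hk => ?_) (fun k hk hk' => ?_),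
    add_sub_cancel_left, Path_cl_mem t0 t1]
  · linear_combination Path_tel M i
  · obtain ⟨k1, k2⟩ := Finset.mem_Ico.1 hk
    have : (k : ℝ) ≤ i := by exact_mod_cast Nat.lt_succ_iff.1 k2
    rw [Path_cl_one (by linarith), show (1 : ℝ) - 1 / 2 = 1 / 2 by norm_num,
      h.start k k1 (by omega), h.stop k k1 (by omega), sub_neg_eq_add]
  · have k1 : i + 1 ≤ k := by
      rw [Finset.mem_Ico] at hk hk'
      omega
    have : (i : ℝ) + 1 ≤ k := by exact_mod_cast k1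
    rw [Path_cl_zero (by linarith), zero_sub, sub_self]
  · have : (k : ℝ) + 1 ≤ i := by exact_mod_cast Finset.mem_range.1 hk
    rw [Path_cl_one (by linarith), ofReal_one, one_mul]
  · have k1 : i + 1 ≤ k := by
      rw [Finset.mem_range] at hk
      omega
    have : (i : ℝ) + 1 ≤ k := by exact_mod_cast k1
    rw [Path_cl_zero (by linarith), ofReal_zero, zero_mul]

theorem dep_level {i : ℕ} (hi : i < M.l) {t : ℝ} (ht : t ∈ Icc (0 : ℝ) 1) :
    M.dep (2 * i + t) = i + 1 := by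
  obtain ⟨t0, t1⟩ := ht
  rw [dep, Path_trunc (g := fun _ => (1 : ℝ))
      (Finset.Ico_subset_Ico le_rfl (Nat.succ_le_of_lt hi)) (fun k hk => ?_) (fun k hk hk' => ?_)]
  · simp [add_comm]
  · obtain ⟨k1, k2⟩ := Finset.mem_Ico.1 hk
    have : (k : ℝ) ≤ i := by exact_mod_cast Nat.lt_succ_iff.1 k2
    exact Path_cl_one (by linarith)
  · have k1 : i + 1 ≤ k := by
      rw [Finset.mem_Ico] at hk hk'
      omega
    have : (i : ℝ) + 1 ≤ k := by exact_mod_cast k1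
    exact Path_cl_zero (by linarith)

theorem pth_band {ed : ℕ → ℝ → ℂ} (h : M.Ends ed) {j : ℕ} (h1 : 1 ≤ j) (h2 : j < M.l) {s : ℝ}
    (hs : |s| ≤ 1 / 2) : M.pth ed (2 * j - 1 / 2 + s) = M.β j + ed j s := by
  obtain ⟨s0, s1⟩ := abs_le.1 hs
  have h3 := Path_tel M j
  rw [Finset.sum_Ico_succ_top h1] at h3
  rw [pth, Path_trunc (g := fun k => M.lam (k + 1) / 2 - 2 * M.ε * M.u (k + 1))
      (Finset.range_subset_range.2 h2.le) (fun k hk => ?_) (fun k _ hk => ?_),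
    Path_trunc (Finset.Ico_subset_Ico le_rfl (Nat.succ_le_of_lt h2)) (fun _ _ => rfl)
      (fun k hk hk' => ?_), Finset.sum_Ico_succ_top h1,
    Path_trunc (s := Finset.Ico 1 j) (g := fun k => M.ε * M.u (k + 1) + M.ε * M.u k)
      subset_rfl (fun k hk => ?_) (fun k h1 h2 => absurd h1 h2),
    Path_cl_mem (by linarith) (by linarith), h.start j h1 h2,
    show 2 * (j : ℝ) - 1 / 2 + s - (2 * j - 1) - 1 / 2 = s by ring]
  · linear_combination h3
  · obtain ⟨k1, k2⟩ := Finset.mem_Ico.1 hk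
    have : (k : ℝ) + 1 ≤ j := by exact_mod_cast k2
    rw [Path_cl_one (by linarith), show (1 : ℝ) - 1 / 2 = 1 / 2 by norm_num,
      h.start k k1 (by omega), h.stop k k1 (by omega), sub_neg_eq_add]
  · have k1 : j + 1 ≤ k := by
      rw [Finset.mem_Ico] at hk hk'
      omega
    have : (j : ℝ) + 1 ≤ k := by exact_mod_cast k1
    rw [Path_cl_zero (by linarith), zero_sub, sub_self]
  · have : (k : ℝ) + 1 ≤ j := by exact_mod_cast Finset.mem_range.1 hk
    rw [Path_cl_one (by linarith), ofReal_one, one_mul]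
  · have k1 : j ≤ k := by
      rw [Finset.mem_range] at hk
      omega
    have : (j : ℝ) ≤ k := by exact_mod_cast k1
    rw [Path_cl_zero (by linarith), ofReal_zero, zero_mul]

theorem dep_band {j : ℕ} (h1 : 1 ≤ j) (h2 : j < M.l) {s : ℝ} (hs : |s| ≤ 1 / 2) :
    M.dep (2 * j - 1 / 2 + s) = j + 1 / 2 + s := by
  obtain ⟨s0, s1⟩ := abs_le.1 hs
  rw [dep, Path_trunc (Finset.Ico_subset_Ico le_rfl (Nat.succ_le_of_lt h2)) (fun _ _ => rfl)
      (fun k hk hk' => ?_), Finset.sum_Ico_succ_top h1,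
    Path_trunc (s := Finset.Ico 1 j) (g := fun _ => (1 : ℝ))
      subset_rfl (fun k hk => ?_) (fun k h1 h2 => absurd h1 h2),
    Path_cl_mem (by linarith) (by linarith), Finset.sum_const, Nat.card_Ico, nsmul_eq_mul,
    Nat.cast_sub h1]
  · push_cast
    ring
  · obtain ⟨k1, k2⟩ := Finset.mem_Ico.1 hk
    have : (k : ℝ) + 1 ≤ j := by exact_mod_cast k2
    exact Path_cl_one (by linarith)
  · have k1 : j + 1 ≤ k := by
      rw [Finset.mem_Ico] at hk hk'
      omega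
    have : (j : ℝ) + 1 ≤ k := by exact_mod_cast k1
    exact Path_cl_zero (by linarith)

theorem pieces (hl : 1 ≤ M.l) {τ : ℝ} (hτ : τ ∈ Icc (0 : ℝ) (2 * M.l - 1)) :
    (∃ i < M.l, ∃ t ∈ Icc (0 : ℝ) 1, τ = 2 * i + t) ∨
    ∃ j : ℕ, 1 ≤ j ∧ j < M.l ∧ ∃ s : ℝ, |s| ≤ 1 / 2 ∧ τ = 2 * j - 1 / 2 + s := by
  obtain ⟨τ0, τ1⟩ := hτ
  have h1 := Nat.floor_le τ0
  have h2 := Nat.lt_floor_add_one τ
  obtain ⟨i, hi | hi⟩ := Nat.even_or_odd' ⌊τ⌋₊
  · rw [hi] at h1 h2
    push_cast at h1 h2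
    have h3 : i < M.l := by exact_mod_cast (by linarith : (i : ℝ) < M.l)
    exact Or.inl ⟨i, h3, τ - 2 * i, ⟨by linarith, by linarith⟩, by ring⟩
  · rw [hi] at h1 h2
    push_cast at h1 h2
    have h3 : i < M.l := by exact_mod_cast (by linarith : (i : ℝ) < M.l)
    rcases (Nat.succ_le_of_lt h3).eq_or_lt with h4 | h4
    · have h5 : (i : ℝ) + 1 = M.l := by exact_mod_cast h4
      exact Or.inl ⟨i, h3, 1, ⟨zero_le_one, le_rfl⟩, by linarith⟩
    · refine Or.inr ⟨i + 1, Nat.le_add_left 1 i, h4, τ - 2 * i - 3 / 2,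
        abs_le.2 ⟨by linarith, by linarith⟩, ?_⟩
      push_cast
      ring

variable (hM : M.Good)
include hM

theorem Path_far {i : ℕ} (hi : i ≤ M.l) {x : ℝ} (h1 : M.ε ≤ |x|) (h2 : |x| ≤ ‖M.lam i‖ - M.ε)
    (k m : ℤ) : M.ε ≤ ‖x * M.u i - (k + m * I)‖ := by
  have hε := hM.ε_pos
  have hu : M.L i (M.u i) = 0 := by simpa using L_u_mul hM i 1
  by_cases h : M.q i * k - M.p i * m = 0
  · have h3 := eq_coord hM i (k + m * I)
    rw [L_vec, tm_vec, h, Int.cast_zero, ofReal_zero, zero_mul, add_zero] at h3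
    generalize M.C i * k + M.D i * m = n at h3
    have h4 : x * M.u i - (k + m * I) = (x - n * ‖M.lam i‖ : ℝ) * M.u i := by
      have e3 := lam_eq hM i
      rw [h3]
      push_cast
      linear_combination -(n : ℂ) * e3
    rw [h4, norm_mul, norm_u hM, mul_one, norm_real, Real.norm_eq_abs]
    rcases eq_or_ne n 0 with rfl | hn
    · simpa using h1
    · have h5 : (1 : ℝ) ≤ |(n : ℝ)| := by exact_mod_cast Int.one_le_abs hn
      have h6 := abs_sub_abs_le_abs_sub (n * ‖M.lam i‖) x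
      rw [abs_mul, abs_norm, abs_sub_comm] at h6
      have h7 := mul_le_mul_of_nonneg_right h5 (norm_nonneg (M.lam i))
      linarith
  · by_contra h3
    have h4 := L_small hM hi (ζ := x * M.u i - (k + m * I)) (by linarith)
    rw [L_sub, L_real_mul, hu, L_vec, mul_zero, zero_sub, abs_neg] at h4
    have h5 : (1 : ℝ) ≤ |((M.q i * k - M.p i * m : ℤ) : ℝ)| := by exact_mod_cast Int.one_le_abs h
    linarith

theorem Path_lev_mem {i : ℕ} (hi : i < M.l) {r : ℝ}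
    (h1 : 1 ≤ i → M.ε ≤ |r| ∧ |r| ≤ ‖M.lam (i + 1)‖ - M.ε)
    (h2 : i + 1 < M.l → M.ε ≤ |r - ‖M.lam (i + 1)‖ / 2| ∧
      |r - ‖M.lam (i + 1)‖ / 2| ≤ ‖M.lam (i + 1)‖ - M.ε) :
    (M.β i + r * M.u (i + 1), (i : ℝ) + 1) ∈ M.knotUp := by
  have e3 := lam_eq hM (i + 1)
  have h3 : M.β i + r * M.u (i + 1) - M.β (i + 1) =
      (r - ‖M.lam (i + 1)‖ / 2 : ℝ) * M.u (i + 1) := by
    rw [β_succ]
    push_cast
    linear_combination -e3 / 2
  refine Or.inl ⟨i + 1, Nat.le_add_left 1 i, hi, by simp, ⟨0, ?_⟩, ?_⟩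
  · have hu : M.L (i + 1) (M.u (i + 1)) = 0 := by simpa using L_u_mul hM (i + 1) 1
    show M.L (i + 1) (M.β i + r * M.u (i + 1) - M.β (i + 1)) = _
    rw [h3, L_real_mul, hu, mul_zero, Int.cast_zero]
  · rintro _ (⟨j1, -, k, m, rfl⟩ | ⟨-, j2, k, m, rfl⟩)
    · show M.ε ≤ ‖M.β i + r * M.u (i + 1) - (M.β i + (k + m * I))‖
      rw [add_sub_add_left_eq_sub]
      exact Path_far hM hi (h1 j1).1 (h1 j1).2 k m
    · show M.ε ≤ ‖M.β i + r * M.u (i + 1) - (M.β (i + 1) + (k + m * I))‖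
      rw [← sub_sub, h3]
      exact Path_far hM hi (h2 j2).1 (h2 j2).2 k m

theorem Path_dec (i : ℕ) {ζ : ℂ} {k : ℤ} (hk : M.L (i + 1) (ζ - M.β (i + 1)) = k) :
    ∃ (r : ℝ) (a b : ℤ), |r| ≤ ‖M.lam (i + 1)‖ / 2 ∧
      ζ = M.β i + r * M.u (i + 1) + (a + b * I) := by
  have h1 := eq_coord hM (i + 1) (ζ - M.β (i + 1))
  rw [hk] at h1
  generalize M.tm (i + 1) (ζ - M.β (i + 1)) = t at h1
  have e3 := lam_eq hM (i + 1)
  have e4 : M.lam (i + 1) = M.p (i + 1) + M.q (i + 1) * I := rfl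
  refine ⟨(t + 1 / 2 - round (t + 1 / 2)) * ‖M.lam (i + 1)‖,
    round (t + 1 / 2) * M.p (i + 1) + k * M.D (i + 1),
    round (t + 1 / 2) * M.q (i + 1) - k * M.C (i + 1), ?_, ?_⟩
  · rw [abs_mul, abs_norm]
    have := mul_le_mul_of_nonneg_right (abs_sub_round (t + 1 / 2)) (norm_nonneg (M.lam (i + 1)))
    linarith
  · rw [β_succ] at h1
    generalize round (t + 1 / 2) = n
    push_cast at h1 ⊢
    linear_combination h1 + ((t : ℂ) + 1 / 2 - n) * e3 + (n : ℂ) * e4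

theorem ends_K : M.Ends M.edK := by
  refine ⟨fun j => ?_, fun j h1 h2 => ?_, fun j h1 h2 => ?_⟩
  · have := continuous_dir (M := M) j
    unfold edK
    fun_prop
  · rw [edK, hM.start j h1 h2, abs_neg, abs_of_pos (by norm_num)]
    rcases hM.sign j with h | h <;> rw [h] <;> push_cast <;> ring
  · rw [edK, hM.stop j h1 h2, abs_of_pos (by norm_num)]
    rcases hM.sign j with h | h <;> rw [h] <;> push_cast <;> ring

omit hM in
theorem ends_Q : M.Ends M.edQ := by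
  refine ⟨fun j => ?_, fun j _ _ => ?_, fun j _ _ => ?_⟩
  · unfold edQ
    fun_prop
  · rw [edQ, min_eq_left (by norm_num), max_eq_right (by norm_num), abs_neg,
      abs_of_pos (by norm_num)]
    push_cast
    ring
  · rw [edQ, min_eq_right (by norm_num), max_eq_left (by norm_num), abs_of_pos (by norm_num)]
    push_cast
    ring

theorem Path_pth_lev {i : ℕ} (hi : i < M.l) {t : ℝ} (ht : t ∈ Icc (0 : ℝ) 1) :
    M.pth M.edK (2 * i + t) =
      M.β i + (M.ε + t * (‖M.lam (i + 1)‖ / 2 - 2 * M.ε) : ℝ) * M.u (i + 1) := by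
  have e3 := lam_eq hM (i + 1)
  rw [pth_level (ends_K hM) hi ht]
  push_cast
  linear_combination (t : ℂ) / 2 * e3

theorem Path_pth_mem {τ : ℝ} (hτ : τ ∈ Icc (0 : ℝ) (2 * M.l - 1)) :
    (M.pth M.edK τ, M.dep τ) ∈ M.knotUp := by
  have hε := hM.ε_pos
  have hε' := eps_le hM
  rcases pieces hM.one_le hτ with ⟨i, hi, t, ht, rfl⟩ | ⟨j, j1, j2, s, hs, rfl⟩
  · have hN := one_le_norm_lam hM (i + 1)
    have h1 : 0 ≤ t * (‖M.lam (i + 1)‖ / 2 - 2 * M.ε) := mul_nonneg ht.1 (by linarith)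
    have h2 : t * (‖M.lam (i + 1)‖ / 2 - 2 * M.ε) ≤ ‖M.lam (i + 1)‖ / 2 - 2 * M.ε :=
      mul_le_of_le_one_left (by linarith) ht.2
    rw [Path_pth_lev hM hi ht, dep_level hi ht]
    refine Path_lev_mem hM hi (fun _ => ?_) fun _ => ?_
    · rw [abs_of_nonneg (by linarith)]
      constructor <;> linarith
    · rw [abs_of_nonpos (by linarith)]
      constructor <;> linarith
  · rw [pth_band (ends_K hM) j1 j2 hs, dep_band j1 j2 hs]
    exact Or.inr ⟨j, _, β_mem j1 j2, s, M.e j, hs, hM.sign j, rfl⟩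

theorem Path_sub {i : ℕ} (hi : i < M.l) {r : ℝ} (r0 : 0 ≤ r) (r1 : r ≤ ‖M.lam (i + 1)‖ / 2)
    (d1 : 1 ≤ i → M.ε ≤ r) (d2 : i + 1 < M.l → r ≤ ‖M.lam (i + 1)‖ / 2 - M.ε) :
    M.E (M.β i + r * M.u (i + 1), i + 1) ∈
      (fun τ => M.E (M.pth M.edK τ, M.dep τ)) '' Icc 0 (2 * M.l - 1) ∪
      (fun τ => M.E (-M.pth M.edK τ, M.dep τ)) '' Icc 0 (2 * M.l - 1) ∪
      (fun t : ℝ => M.E (t * (M.ε * M.u 1), 1)) '' Icc (-1) 1 ∪
      (fun t : ℝ => M.E (M.β M.l + t * -(M.ε * M.u M.l), M.l)) '' Icc (-1) 1 ∧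
    M.E (-(M.β i + r * M.u (i + 1)), i + 1) ∈
      (fun τ => M.E (M.pth M.edK τ, M.dep τ)) '' Icc 0 (2 * M.l - 1) ∪
      (fun τ => M.E (-M.pth M.edK τ, M.dep τ)) '' Icc 0 (2 * M.l - 1) ∪
      (fun t : ℝ => M.E (t * (M.ε * M.u 1), 1)) '' Icc (-1) 1 ∪
      (fun t : ℝ => M.E (M.β M.l + t * -(M.ε * M.u M.l), M.l)) '' Icc (-1) 1 := by
  have hε := hM.ε_pos
  have hε' := eps_le hM
  have hN := one_le_norm_lam hM (i + 1)
  rcases lt_or_ge r M.ε with h1 | h1
  · obtain rfl : i = 0 := by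
      by_contra h
      exact absurd (d1 (by omega)) (not_le.2 h1)
    obtain ⟨t, rfl⟩ : ∃ t, r = t * M.ε := ⟨r / M.ε, (div_mul_cancel₀ r hε.ne').symm⟩
    have t0 : 0 ≤ t := nonneg_of_mul_nonneg_left r0 hε
    have t1 : t ≤ 1 := by nlinarith
    refine ⟨Or.inl (Or.inr ⟨t, ⟨by linarith, t1⟩, congrArg M.E (Prod.ext ?_ (by simp))⟩),
      Or.inl (Or.inr ⟨-t, ⟨by linarith, by linarith⟩, congrArg M.E (Prod.ext ?_ (by simp))⟩)⟩ <;>
    · rw [β_zero]
      push_cast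
      ring
  rcases lt_or_ge (‖M.lam (i + 1)‖ / 2 - M.ε) r with h2 | h2
  · have hl : M.l = i + 1 := by
      by_contra h
      exact absurd (d2 (by omega)) (not_le.2 h2)
    obtain ⟨t, ht⟩ : ∃ t, ‖M.lam (i + 1)‖ / 2 - r = t * M.ε :=
      ⟨_, (div_mul_cancel₀ _ hε.ne').symm⟩
    have t0 : 0 ≤ t := nonneg_of_mul_nonneg_left (by linarith) hε
    have t1 : t ≤ 1 := by nlinarith
    have e3 := lam_eq hM (i + 1)
    have ht' : ((‖M.lam (i + 1)‖ / 2 - r : ℝ) : ℂ) = (t * M.ε : ℝ) := congrArg _ ht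
    obtain ⟨k, m, h3⟩ := two_β (M := M) (i + 1)
    rw [β_succ] at h3
    push_cast at ht'
    refine ⟨Or.inr ⟨t, ⟨by linarith, t1⟩, congrArg M.E (Prod.ext ?_ (by simp [hl]))⟩,
      Or.inr ⟨-t, ⟨by linarith, by linarith⟩, ?_⟩⟩
    · rw [hl, β_succ]
      linear_combination e3 / 2 + M.u (i + 1) * ht'
    · rw [← Path_E_add _ _ k m]
      refine congrArg M.E (Prod.ext ?_ (by simp [hl]))
      rw [hl, β_succ]
      push_cast
      linear_combination h3 - e3 / 2 - M.u (i + 1) * ht'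
  · have h3 : 0 < ‖M.lam (i + 1)‖ / 2 - 2 * M.ε := by linarith
    obtain ⟨t, ht⟩ : ∃ t, r - M.ε = t * (‖M.lam (i + 1)‖ / 2 - 2 * M.ε) :=
      ⟨_, (div_mul_cancel₀ _ h3.ne').symm⟩
    have t0 : 0 ≤ t := nonneg_of_mul_nonneg_left (by linarith) h3
    have t1 : t ≤ 1 := le_of_mul_le_mul_right (by linarith) h3
    have hi' : (i : ℝ) + 1 ≤ M.l := by exact_mod_cast hi
    have i0 : (0 : ℝ) ≤ i := Nat.cast_nonneg i
    have hτ : 2 * (i : ℝ) + t ∈ Icc (0 : ℝ) (2 * M.l - 1) := ⟨by linarith, by linarith⟩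
    have h4 := Path_pth_lev hM hi ⟨t0, t1⟩
    rw [← ht, add_sub_cancel] at h4
    refine ⟨Or.inl (Or.inl (Or.inl ⟨_, hτ, ?_⟩)), Or.inl (Or.inl (Or.inr ⟨_, hτ, ?_⟩))⟩ <;>
    · beta_reduce
      rw [h4, dep_level hi ⟨t0, t1⟩]

theorem knot_eq : M.knot =
    (fun τ => M.E (M.pth M.edK τ, M.dep τ)) '' Icc 0 (2 * M.l - 1) ∪
    (fun τ => M.E (-M.pth M.edK τ, M.dep τ)) '' Icc 0 (2 * M.l - 1) ∪
    (fun t : ℝ => M.E (t * (M.ε * M.u 1), 1)) '' Icc (-1) 1 ∪
    (fun t : ℝ => M.E (M.β M.l + t * -(M.ε * M.u M.l), M.l)) '' Icc (-1) 1 := by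
  have hε := hM.ε_pos
  have hε' := eps_le hM
  refine Subset.antisymm ?_ (union_subset (union_subset (union_subset ?_ ?_) ?_) ?_)
  · rintro _ ⟨⟨ζ, ρ⟩, ⟨i, i1, i2, hρ, ⟨k, hk⟩, hd⟩ | ⟨j, β, hβ, s, σ, hs, hσ, hx⟩, rfl⟩
    · obtain ⟨i, rfl⟩ : ∃ n, i = n + 1 := ⟨i - 1, by omega⟩
      have hρ' : ρ = i + 1 := by exact_mod_cast hρ
      subst hρ'
      obtain ⟨r, a, b, hr, rfl⟩ := Path_dec hM i hk
      have hN : ∀ x : ℝ, ‖(x : ℂ) * M.u (i + 1)‖ = |x| := fun x => by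
        rw [norm_mul, norm_u hM, mul_one, norm_real, Real.norm_eq_abs]
      have d1 : 1 ≤ i → M.ε ≤ |r| := fun h => by
        have := hd (M.β i + (a + b * I)) (Or.inl ⟨h, i2, a, b, rfl⟩)
        rwa [show M.β i + r * M.u (i + 1) + (a + b * I) - (M.β i + (a + b * I)) =
          r * M.u (i + 1) by ring, hN] at this
      have d2 : i + 1 < M.l → |r| ≤ ‖M.lam (i + 1)‖ / 2 - M.ε := fun h => by
        have e1 := hd (M.β (i + 1) + (a + b * I)) (Or.inr ⟨i1, h, a, b, rfl⟩)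
        have e2 := hd (M.β (i + 1) + ((a - M.p (i + 1) : ℤ) + (b - M.q (i + 1) : ℤ) * I))
          (Or.inr ⟨i1, h, _, _, rfl⟩)
        have e3 := lam_eq hM (i + 1)
        have e4 : M.lam (i + 1) = M.p (i + 1) + M.q (i + 1) * I := rfl
        rw [show M.β i + r * M.u (i + 1) + (a + b * I) - (M.β (i + 1) + (a + b * I)) =
          (r - ‖M.lam (i + 1)‖ / 2 : ℝ) * M.u (i + 1) by
            rw [β_succ]; push_cast; linear_combination -e3 / 2, hN] at e1
        rw [show M.β i + r * M.u (i + 1) + (a + b * I) -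
          (M.β (i + 1) + ((a - M.p (i + 1) : ℤ) + (b - M.q (i + 1) : ℤ) * I)) =
          (r + ‖M.lam (i + 1)‖ / 2 : ℝ) * M.u (i + 1) by
            rw [β_succ]; push_cast; linear_combination e3 / 2 - e4, hN] at e2
        obtain ⟨r0, r1⟩ := abs_le.1 hr
        rw [abs_of_nonpos (by linarith)] at e1
        rw [abs_of_nonneg (by linarith)] at e2
        exact abs_le.2 ⟨by linarith, by linarith⟩
      have h1 := Path_sub hM i2 (abs_nonneg r) hr d1 d2
      rw [Path_E_add]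
      rcases le_total 0 r with h | h
      · rw [abs_of_nonneg h] at h1
        exact h1.1
      · obtain ⟨k', m', h2⟩ := two_β (M := M) i
        rw [abs_of_nonpos h] at h1
        rw [show M.β i + r * M.u (i + 1) = -(M.β i + (-r : ℝ) * M.u (i + 1)) + (k' + m' * I) by
          push_cast; linear_combination h2, Path_E_add]
        exact h1.2
    · obtain ⟨j1, j2, a, b, rfl⟩ := hβ
      obtain ⟨s0, s1⟩ := abs_le.1 hs
      have j1' : (1 : ℝ) ≤ j := by exact_mod_cast j1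
      have j2' : (j : ℝ) + 1 ≤ M.l := by exact_mod_cast j2
      have hτ : 2 * (j : ℝ) - 1 / 2 + s ∈ Icc (0 : ℝ) (2 * M.l - 1) := ⟨by linarith, by linarith⟩
      have hσ' : σ = M.e j ∨ σ = -M.e j := by
        rcases hσ with h | h <;> rcases hM.sign j with h' | h' <;> rw [h, h'] <;> norm_num
      rw [hx]
      rcases hσ' with rfl | rfl
      · refine Or.inl (Or.inl (Or.inl ⟨_, hτ, ?_⟩))
        beta_reduce
        rw [pth_band (ends_K hM) j1 j2 hs, dep_band j1 j2 hs, ← Path_E_add _ _ a b, edK,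
          add_right_comm]
      · obtain ⟨k', m', h2⟩ := two_β (M := M) j
        refine Or.inl (Or.inl (Or.inr ⟨_, hτ, ?_⟩))
        beta_reduce
        rw [pth_band (ends_K hM) j1 j2 hs, dep_band j1 j2 hs, ← Path_E_add _ _ (a + k') (b + m'),
          edK]
        refine congrArg (fun z => M.E (z, _)) ?_
        push_cast
        linear_combination -h2
  · rintro _ ⟨τ, hτ, rfl⟩
    exact ⟨_, Path_pth_mem hM hτ, rfl⟩
  · rintro _ ⟨τ, hτ, rfl⟩
    exact ⟨_, Path_neg (Path_pth_mem hM hτ), rfl⟩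
  · rintro _ ⟨t, ⟨t0, t1⟩, rfl⟩
    have hN := one_le_norm_lam hM (0 + 1)
    have h1 := Path_lev_mem hM (i := 0) hM.one_le (r := t * M.ε) (fun h => absurd h (by omega))
      fun _ => by
        rw [abs_of_nonpos (by nlinarith)]
        constructor <;> nlinarith
    refine ⟨_, h1, congrArg M.E (Prod.ext ?_ (by simp))⟩
    rw [β_zero]
    push_cast
    ring
  · rintro _ ⟨t, ⟨t0, t1⟩, rfl⟩
    obtain ⟨i, hi⟩ : ∃ n, M.l = n + 1 := ⟨M.l - 1, by have := hM.one_le; omega⟩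
    have hN := one_le_norm_lam hM (i + 1)
    have h1 := Path_lev_mem hM (i := i) (by omega) (r := ‖M.lam (i + 1)‖ / 2 - t * M.ε)
      (fun _ => by
        rw [abs_of_nonneg (by nlinarith)]
        constructor <;> nlinarith) fun h => absurd h (by omega)
    refine ⟨_, h1, congrArg M.E (Prod.ext ?_ (by simp [hi]))⟩
    have e3 := lam_eq hM (i + 1)
    rw [hi, β_succ]
    push_cast
    linear_combination -e3 / 2

theorem knot_torus (hl : M.l = 1) : M.knot = torusKnot (M.p 1) (M.q 1) := by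
  have h2 : ∀ ζ : ℂ, M.E (ζ, 1) = pt ζ (1 / 2) := fun ζ => by
    rw [E_eq_pt, hl]
    norm_num
  have h3 : M.lam 1 = M.p 1 + M.q 1 * I := rfl
  refine Subset.antisymm ?_ ?_
  · rintro _ ⟨⟨ζ, ρ⟩, ⟨i, i1, i2, hρ, ⟨k, hk⟩, -⟩ | ⟨j, β, hβ, -⟩, rfl⟩
    · obtain rfl : i = 0 + 1 := by omega
      have hρ' : ρ = 1 := by simpa using hρ
      subst hρ'
      obtain ⟨r, a, b, -, rfl⟩ := Path_dec hM 0 hk
      refine ⟨r / ‖M.lam 1‖, ?_⟩
      rw [Path_E_add, h2, β_zero, zero_add, zero_add, u, ← h3]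
      push_cast
      rw [div_mul_eq_mul_div, mul_div_assoc]
    · have := band_range hβ
      omega
  · rintro _ ⟨t, rfl⟩
    refine ⟨(t * M.lam 1, 1), Or.inl ⟨1, le_rfl, hl.ge, by simp, ⟨0, ?_⟩, ?_⟩, h2 _⟩
    · rw [L_sub, L_real_mul, β_succ, β_zero, zero_add, L_half, L_lam, qq_self]
      simp
    · rintro β (hβ | hβ) <;> have := band_range hβ <;> omega

end Lev

end OneOne
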