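import Pool.Agent.Work.MP_d5331a_gt.OO.Lin
import Pool.Agent.Work.MP_d5331a_gt.OO.Red

/-!
One half of a knot in level position as a path. The parameter `τ` runs through `[0, 2 l - 1]`;
the piece `2 i ≤ τ ≤ 2 i + 1` lies on level `i + 1`, the piece `2 j - 1 ≤ τ ≤ 2 j` is an edge of a
band of slab `j`.
-/

set_option autoImplicit false

open Complex Set

namespace OneOne

open Neuwirth

/-- Clamp to the unit interval. -/
noncomputable def cl (x : ℝ) : ℝ := max 0 (min x 1)

namespace Lev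

variable (M : Lev)

/-- The path that uses the edges `ed j` near the bands. -/
noncomputable def pth (ed : ℕ → ℝ → ℂ) (τ : ℝ) : ℂ :=
  M.ε * M.u 1 +
    ∑ i ∈ Finset.range M.l, (cl (τ - 2 * i) : ℂ) * (M.lam (i + 1) / 2 - 2 * M.ε * M.u (i + 1)) +
    ∑ j ∈ Finset.Ico 1 M.l, (ed j (cl (τ - (2 * j - 1)) - 1 / 2) - ed j (-(1 / 2)))

/-- The depth along the path. -/
noncomputable def dep (τ : ℝ) : ℝ := 1 + ∑ j ∈ Finset.Ico 1 M.l, cl (τ - (2 * j - 1))

/-- The edges of the bands of the knot. -/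
noncomputable def edK (j : ℕ) (s : ℝ) : ℂ :=
  ((M.e j * (M.ε / 2 + M.ε * |s|) : ℝ) : ℂ) * M.dir j s

/-- Polygonal edges that move to the right. -/
noncomputable def edQ (j : ℕ) (s : ℝ) : ℂ :=
  ((2 * M.ε * min s 0 : ℝ) : ℂ) * M.u j + ((2 * M.ε * max s 0 : ℝ) : ℂ) * M.u (j + 1) -
    ((M.e j * M.ε * (1 - 2 * |s|) : ℝ) : ℂ) * I

/-- The edges are continuous and have the right end points. -/
structure Ends (ed : ℕ → ℝ → ℂ) : Prop where
  cont : ∀ j, Continuous (ed j)
  start : ∀ j, 1 ≤ j → j < M.l → ed j (-(1 / 2)) = -(M.ε * M.u j)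
  stop : ∀ j, 1 ≤ j → j < M.l → ed j (1 / 2) = M.ε * M.u (j + 1)

/-- The difference of the two strands, on the unit interval. -/
noncomputable def gam (ed : ℕ → ℝ → ℂ) (s : ℝ) : ℂ := 2 * M.pth ed (s * (2 * M.l - 1))

/-- The tent function. -/
noncomputable def tent (x : ℝ) : ℝ := max 0 (1 - 2 * |x|)

/-- A function on level `i` that increases along both halves of the knot. -/
noncomputable def tG (i : ℕ) (ζ : ℂ) : ℝ :=
  max (M.ε / ‖M.lam i‖) (min |M.tm i (ζ - M.β (i - 1)) - round (M.tm i (ζ - M.β (i - 1)))|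
    (1 / 2 - M.ε / ‖M.lam i‖))

/-- The vertical displacement that tilts the levels. -/
noncomputable def tδ (x : ℂ × ℝ) : ℝ :=
  (∑ i ∈ Finset.Icc 1 M.l, tent (x.2 - i) * M.tG i x.1) / 4

/-- The depth along the path after tilting. -/
noncomputable def dep' (τ : ℝ) : ℝ := M.dep τ + M.tδ (M.pth M.edK τ, M.dep τ)

end Lev

end OneOne
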