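import Pool.Agent.Work.MP_d5331a_gt.OO.Sheets

/-!
The two sides of the surface.

Plan. At a point `ζ` at most one bump is non-zero; `hgt 1 ≤ hgt 2 ≤ ⋯ ≤ hgt l`,
`i - 1 / 2 ≤ hgt i ≤ i + 1 / 2`; if `bump j ζ ≥ 1 / 2` then `hgt j = hgt (j + 1) = j + 1 / 2`.
`side_cover`: take the largest `j ≤ l` with `j = 0` or `hgt j ≤ ρ`; then `bump j ≤ 1 / 2`.
`side_inter`: two regions `j < j'` of different parity that contain the point.
-/

set_option autoImplicit false

open Complex Set Filter Topology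

namespace OneOne

open Neuwirth

namespace Lev

variable {M : Lev} (hM : M.Good)
include hM

theorem regions_min (j : ℕ) (ζ : ℂ) : 0 ≤ min (M.bump j ζ) (1 / 2) :=
  le_min (bump_nonneg hM j ζ) (by norm_num)

theorem regions_le (i : ℕ) (ζ : ℂ) : M.hgt i ζ ≤ i + 1 / 2 := by
  have h1 := regions_min hM (i - 1) ζ
  have h2 := min_le_right (M.bump i ζ) (1 / 2)
  unfold hgt
  linarith

theorem regions_ge (i : ℕ) (ζ : ℂ) : i - 1 / 2 ≤ M.hgt i ζ := by
  have h1 := regions_min hM i ζ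
  have h2 := min_le_right (M.bump (i - 1) ζ) (1 / 2)
  unfold hgt
  linarith

theorem regions_succ (i : ℕ) (ζ : ℂ) : M.hgt i ζ ≤ M.hgt (i + 1) ζ := by
  have h1 := regions_le hM i ζ
  have h2 := regions_ge hM (i + 1) ζ
  push_cast at h2
  linarith

theorem regions_top {i : ℕ} {ζ : ℂ} (h : i + 1 / 2 ≤ M.hgt i ζ) : 1 / 2 ≤ M.bump i ζ := by
  have h1 := regions_min hM (i - 1) ζ
  have h2 := min_le_left (M.bump i ζ) (1 / 2)
  unfold hgt at h
  linarith

theorem regions_bot {i : ℕ} {ζ : ℂ} (h : M.hgt (i + 1) ζ ≤ i + 1 / 2) : 1 / 2 ≤ M.bump i ζ := by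
  have h1 := regions_min hM (i + 1) ζ
  have h2 := min_le_left (M.bump i ζ) (1 / 2)
  unfold hgt at h
  rw [Nat.add_sub_cancel] at h
  push_cast at h
  linarith

theorem regions_neck {i : ℕ} {ζ : ℂ} (h : 1 / 2 ≤ M.bump i ζ) :
    i ≠ 0 ∧ i < M.l ∧ M.bump (i + 1) ζ = 0 ∧ M.hgt i ζ = i + 1 / 2 ∧ M.hgt (i + 1) ζ = i + 1 / 2 := by
  have h0 : i ≠ 0 := by
    rintro rfl
    rw [bump_zero] at h
    norm_num at h
  have h1 : ∀ j, i = j + 1 ∨ j = i + 1 → M.bump j ζ = 0 := fun j hj =>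
    (bump_eq_zero_or hM hj ζ).resolve_right (by linarith)
  refine ⟨h0, ?_, h1 _ (by omega), ?_, ?_⟩
  · by_contra h2
    rw [bump_of_le (not_lt.1 h2)] at h
    norm_num at h
  · rw [hgt, h1 (i - 1) (by omega), min_eq_right h]
    norm_num
  · rw [hgt, h1 (i + 1) (by omega), Nat.add_sub_cancel, min_eq_right h]
    push_cast
    norm_num
    ring

theorem regions_sub {c : ℕ} (hc : c < 2) : M.FUp ⊆ M.SideUp c := by
  rintro x ⟨i, h1, h2, h3, h4, h5⟩
  have a1 : (1 : ℝ) ≤ i := by exact_mod_cast h1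
  have a2 : (i : ℝ) ≤ M.l := by exact_mod_cast h2
  refine ⟨by linarith [regions_ge hM i x.1], by linarith [regions_le hM i x.1], ?_⟩
  by_cases hp : i % 2 = c
  · exact ⟨i, h2, hp, h3, Or.inr h5.ge, Or.inr (h5.le.trans (regions_succ hM i x.1))⟩
  · obtain ⟨j, rfl⟩ : ∃ j, i = j + 1 := ⟨i - 1, by omega⟩
    exact ⟨j, by omega, by omega, h4, Or.inr ((regions_succ hM j x.1).trans h5.ge), Or.inr h5.le⟩

theorem regions_two {j j' : ℕ} {x : ℂ × ℝ} (hj : j < j') (hl : j' ≤ M.l) (hp : j % 2 ≠ j' % 2)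
    (h : x ∈ M.Reg j) (h' : x ∈ M.Reg j') : x ∈ M.FUp := by
  have h1 := h.2.2.resolve_left (by omega)
  have h2 := h'.2.1.resolve_left (by omega)
  have h3 := regions_le hM (j + 1) x.1
  have h4 := regions_ge hM j' x.1
  have h5 : j' ≤ j + 2 := by
    push_cast at h3
    have : (j' : ℝ) ≤ j + 2 := by linarith
    exact_mod_cast this
  obtain rfl : j' = j + 1 := by omega
  exact ⟨j + 1, by omega, hl, h'.1, h.1, le_antisymm h1 h2⟩

theorem isClosed_FUp : IsClosed M.FUp := by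
  have h1 : M.FUp = ⋃ i ∈ Set.Icc 1 M.l, M.Sheet i := by
    ext x
    simp only [FUp, mem_ofPred_eq, mem_iUnion, mem_Icc, exists_prop, and_assoc]
  rw [h1]
  exact (Set.finite_Icc 1 M.l).isClosed_biUnion fun i _ =>
    (isClosed_le ((continuous_bump hM i).comp continuous_fst) continuous_const).inter
      ((isClosed_le ((continuous_bump hM (i - 1)).comp continuous_fst) continuous_const).inter
        (isClosed_eq continuous_snd ((continuous_hgt hM i).comp continuous_fst)))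

theorem isClosed_SideUp (c : ℕ) : IsClosed (M.SideUp c) := by
  have h1 : M.SideUp c = {x : ℂ × ℝ | 0 ≤ x.2} ∩ ({x : ℂ × ℝ | x.2 ≤ M.l + 1} ∩
      ⋃ j ∈ {j | j ≤ M.l ∧ j % 2 = c}, M.Reg j) := by
    ext x
    simp only [SideUp, mem_ofPred_eq, mem_iUnion, mem_inter_iff, exists_prop, and_assoc]
  rw [h1]
  refine (isClosed_le continuous_const continuous_snd).inter
    ((isClosed_le continuous_snd continuous_const).inter ?_)
  exact ((Set.finite_Iic M.l).subset fun j hj => hj.1).isClosed_biUnion fun j _ =>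
    (isClosed_le ((continuous_bump hM j).comp continuous_fst) continuous_const).inter
      ((isClosed_const.union
        (isClosed_le ((continuous_hgt hM j).comp continuous_fst) continuous_snd)).inter
        (isClosed_const.union
          (isClosed_le continuous_snd ((continuous_hgt hM (j + 1)).comp continuous_fst))))

theorem SideUp_add (c : ℕ) (x : ℂ × ℝ) (k m : ℤ) :
    x + vec k m ∈ M.SideUp c ↔ x ∈ M.SideUp c := by
  simp only [vec_add, SideUp, Reg, mem_ofPred_eq, bump_add hM, hgt_add hM]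

theorem side_cover {x : ℂ × ℝ} (h0 : 0 ≤ x.2) (h1 : x.2 ≤ M.l + 1) :
    x ∈ M.SideUp 0 ∨ x ∈ M.SideUp 1 := by
  classical
  obtain ⟨j, a1, a2, a3⟩ : ∃ j, j ≤ M.l ∧ (j = 0 ∨ M.hgt j x.1 ≤ x.2) ∧
      (j = M.l ∨ x.2 < M.hgt (j + 1) x.1) := by
    refine ⟨Nat.findGreatest (fun j => j = 0 ∨ M.hgt j x.1 ≤ x.2) M.l, Nat.findGreatest_le _,
      Nat.findGreatest_spec (P := fun j => j = 0 ∨ M.hgt j x.1 ≤ x.2) (Nat.zero_le _) (Or.inl rfl), ?_⟩
    rcases (Nat.findGreatest_le (P := fun j => j = 0 ∨ M.hgt j x.1 ≤ x.2) M.l).eq_or_lt with h | h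
    · exact Or.inl h
    · exact Or.inr (not_le.1 fun h2 => Nat.findGreatest_is_greatest (Nat.lt_succ_self _) h (Or.inr h2))
  have a4 : x ∈ M.Reg j := by
    refine ⟨?_, a2, a3.imp id le_of_lt⟩
    by_contra h
    obtain ⟨b1, b2, -, b3, b4⟩ := regions_neck hM (not_le.1 h).le
    linarith [a2.resolve_left b1, a3.resolve_left b2.ne]
  rcases Nat.mod_two_eq_zero_or_one j with h | h
  · exact Or.inl ⟨h0, h1, j, a1, h, a4⟩
  · exact Or.inr ⟨h0, h1, j, a1, h, a4⟩

theorem side_inter : M.SideUp 0 ∩ M.SideUp 1 = M.FUp := by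
  refine Subset.antisymm ?_ (subset_inter (regions_sub hM (by norm_num)) (regions_sub hM (by norm_num)))
  rintro x ⟨⟨-, -, j, a1, a2, a3⟩, -, -, j', b1, b2, b3⟩
  rcases lt_trichotomy j j' with h | h | h
  · exact regions_two hM h b1 (by omega) a3 b3
  · omega
  · exact regions_two hM h a1 (by omega) b3 a3

theorem FUp_sub_side {c : ℕ} (hc : c < 2) : M.FUp ⊆ M.SideUp c := by
  exact regions_sub hM hc

theorem reg_of_side {c : ℕ} (hc : c < 2) {x : ℂ × ℝ} (hx : x ∈ M.SideUp c) :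
    J c (sh x.2) ≤ M.l ∧ J c (sh x.2) % 2 = c ∧ x ∈ M.Reg (J c (sh x.2)) := by
  obtain ⟨h0, h1, j, a1, a2, a3⟩ := hx
  have b1 : (sh x.2 : ℝ) ≤ x.2 + 1 / 2 := Nat.floor_le (by linarith)
  have b2 : x.2 + 1 / 2 < sh x.2 + 1 := Nat.lt_floor_add_one _
  generalize sh x.2 = s at b1 b2 ⊢
  have b3 : (j : ℝ) ≤ x.2 + 1 / 2 := by
    rcases a3.2.1 with h | h
    · rw [h]
      push_cast
      linarith
    · linarith [regions_ge hM j x.1]
  have b4 : j < s + 1 := by exact_mod_cast b3.trans_lt b2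
  by_cases h : s ≤ j + 1
  · have : J c s = j := by
      unfold J
      split_ifs <;> omega
    rw [this]
    exact ⟨a1, a2, a3⟩
  have b5 : ((j + 2 : ℕ) : ℝ) ≤ s := by exact_mod_cast (by omega : j + 2 ≤ s)
  push_cast at b5
  have b6 : x.2 ≤ M.hgt (j + 1) x.1 := a3.2.2.resolve_left fun h2 => by
    rw [← h2] at h1
    linarith
  obtain ⟨-, c2, c3, c4, c5⟩ := regions_neck hM (regions_top hM (i := j + 1) (ζ := x.1) (by
    push_cast
    linarith))
  push_cast at c4 c5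
  have b7 : s ≤ j + 2 := by
    have : (s : ℝ) ≤ j + 2 := by linarith
    exact_mod_cast this
  have : J c s = j + 1 + 1 := by
    unfold J
    split_ifs <;> omega
  rw [this]
  refine ⟨by omega, by omega, by rw [c3]; norm_num, Or.inr (by linarith), Or.inr ?_⟩
  exact b6.trans ((regions_succ hM _ _).trans (regions_succ hM _ _))

/-- A point of the side `c` at the depth of a neck of the other parity lies in a neck disc. -/
theorem exists_disc {c : ℕ} (hc : c < 2) {x : ℂ × ℝ} (hx : x ∈ M.SideUp c)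
    (h : x.2 + 1 / 2 = sh x.2) (hp : sh x.2 % 2 = c) :
    ∃ j, ∃ β ∈ M.B j, sh x.2 = j + 1 ∧ ‖x.1 - β‖ ≤ M.ε / 2 := by
  obtain ⟨-, -, a3⟩ := reg_of_side hM hc hx
  rw [J, if_pos hp] at a3
  have h0 := hx.1
  generalize sh x.2 = s at h a3 ⊢
  obtain ⟨j, rfl⟩ : ∃ j, s = j + 1 := by
    rcases s with _ | j
    · push_cast at h
      linarith
    · exact ⟨j, rfl⟩
  have a4 := a3.2.1.resolve_left (by omega)
  push_cast at h
  have a5 := regions_bot hM (i := j) (ζ := x.1) (by linarith)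
  obtain ⟨β, b1, b2⟩ := exists_of_bump_ne (M := M) (j := j) (ζ := x.1) (by linarith)
  have he := hM.ε_pos
  refine ⟨j, β, b1, rfl, ?_⟩
  rw [bump_near hM b1 (by linarith), le_max_iff] at a5
  have a6 : ‖x.1 - β‖ / M.ε ≤ 1 / 2 := by linarith [a5.resolve_left (by norm_num)]
  rw [div_le_iff₀ he] at a6
  linarith

theorem side_bot {c : ℕ} {x : ℂ × ℝ} (hx : x ∈ M.SideUp c) (h : x.2 = 0) : c = 0 := by
  obtain ⟨-, -, j, -, a2, a3⟩ := hx
  rcases a3.2.1 with h1 | h1
  · omega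
  · have : (j : ℝ) < 1 := by linarith [regions_ge hM j x.1]
    have : j < 1 := by exact_mod_cast this
    omega

theorem side_top {c : ℕ} {x : ℂ × ℝ} (hx : x ∈ M.SideUp c) (h : x.2 = M.l + 1) :
    c = M.l % 2 := by
  obtain ⟨-, -, j, a1, a2, a3⟩ := hx
  rcases a3.2.2 with h1 | h1
  · rw [← a2, h1]
  · have h2 := regions_le hM (j + 1) x.1
    push_cast at h2
    have : (M.l : ℝ) < j + 1 := by linarith
    have : M.l < j + 1 := by exact_mod_cast this
    rw [← a2, show j = M.l by omega]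

end Lev

end OneOne
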