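import Pool.Agent.Work.MP_d5331a_gt.OO.Bump
import Pool.Agent.Work.MP_d5331a_gt.Sheets

/-!
Sheets, gaps and strips. Port of the file `Sheets` of the parent directory (`vec_add`,
`Nest.sheets_int`, `Nest.sheets_nat`, `Nest.sheets_sh` can be reused).

Plan. Near a band `β` of slab `j` put `r = ‖ζ - β‖`, `s = ρ - j - 1 / 2`, `w = unt j β x`, so that
`ζ - β = w * dir j s` (`unt_mul_dir`). On sheet `j` we have `s ≤ 0`, `bump j = 1 / 2 + s`, and the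
twisted vector is `w * dir j (-(1 / 2)) = -e * w * u j` (`ang_nonpos`, `Good.start`), so
`lin j = ind j β + e * ‖lam j‖ * w.im` (`lin_near`, `L_u_mul`). On sheet `j + 1` we have `s ≥ 0`,
`bump j = 1 / 2 - s`, the twisted vector is `w * dir j (1 / 2) = e * w * u (j + 1)`, so
`lin (j + 1) = ind (j + 1) β - e * ‖lam (j + 1)‖ * w.im`. Both corrections are small
(`norm_lam_small`, `norm_unt`). Bands of different slabs can only be compared when the slabs are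
adjacent; in all uses the depth of the point forces this. In `loc_neck` use `tm_ω_mul`,
`tm_ω_I_pos`, `dir_zero`.
-/

set_option autoImplicit false

open Complex Set Filter Topology

namespace OneOne

open Neuwirth

namespace Lev

variable {M : Lev} (hM : M.Good)
include hM

omit hM in
theorem sheets_iff {i : ℕ} {x : ℂ × ℝ} : x ∈ M.Sheet i ↔ M.bump i x.1 ≤ 1 / 2 ∧
    M.bump (i - 1) x.1 ≤ 1 / 2 ∧ x.2 = i + M.bump i x.1 - M.bump (i - 1) x.1 := by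
  refine and_congr_right fun h1 => and_congr_right fun h2 => ?_
  rw [hgt, min_eq_left h1, min_eq_left h2]

omit hM in
theorem sheets_plain {i : ℕ} {x : ℂ × ℝ} (h : M.bump (i - 1) x.1 = 0) (h' : M.bump i x.1 = 0) :
    x ∈ M.Sheet i ↔ x.2 = i := by
  rw [sheets_iff, h, h']
  norm_num

theorem sheets_near {j : ℕ} {β ζ : ℂ} (hβ : β ∈ M.B j) (h : ‖ζ - β‖ ≤ M.ε) :
    M.bump j ζ = 1 - ‖ζ - β‖ / M.ε ∧ M.bump (j - 1) ζ = 0 ∧ M.bump (j + 1) ζ = 0 := by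
  have h0 := hM.ε_pos
  have h1 := (band_range hβ).1
  have h2 : ‖ζ - β‖ < 2 * M.ε := by linarith
  refine ⟨?_, bump_other hM hβ h2 (Or.inr (by omega)), bump_other hM hβ h2 (Or.inl rfl)⟩
  rw [bump_near hM hβ h2, max_eq_right (sub_nonneg.2 (div_le_one_of_le₀ h h0.le))]

theorem sheets_outer {j : ℕ} {β : ℂ} (hβ : β ∈ M.B j) {x : ℂ × ℝ} (h : ‖x.1 - β‖ ≤ M.ε) :
    x ∈ M.Sheet j ↔ x.2 ≤ j + 1 / 2 ∧ ‖x.1 - β‖ = M.ε / 2 + M.ε * |x.2 - j - 1 / 2| := by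
  obtain ⟨h1, h2, -⟩ := sheets_near hM hβ h
  have h0 := hM.ε_pos
  have e : ‖x.1 - β‖ = M.ε * (‖x.1 - β‖ / M.ε) := by field_simp
  rw [sheets_iff, h1, h2]
  generalize ‖x.1 - β‖ / M.ε = t at e
  rw [e]
  constructor
  · rintro ⟨a1, -, a2⟩
    refine ⟨by linarith, ?_⟩
    rw [abs_of_nonpos (by linarith), a2]
    ring
  · rintro ⟨a1, a2⟩
    rw [abs_of_nonpos (by linarith)] at a2
    have a3 : t = 1 / 2 - (x.2 - j - 1 / 2) := mul_left_cancel₀ h0.ne' (by linarith)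
    exact ⟨by linarith, by norm_num, by linarith⟩

theorem sheets_inner {j : ℕ} {β : ℂ} (hβ : β ∈ M.B j) {x : ℂ × ℝ} (h : ‖x.1 - β‖ ≤ M.ε) :
    x ∈ M.Sheet (j + 1) ↔ j + 1 / 2 ≤ x.2 ∧ ‖x.1 - β‖ = M.ε / 2 + M.ε * |x.2 - j - 1 / 2| := by
  obtain ⟨h1, -, h2⟩ := sheets_near hM hβ h
  have h0 := hM.ε_pos
  have e : ‖x.1 - β‖ = M.ε * (‖x.1 - β‖ / M.ε) := by field_simp
  rw [sheets_iff, Nat.add_sub_cancel, h1, h2]
  generalize ‖x.1 - β‖ / M.ε = t at e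
  rw [e]
  push_cast
  constructor
  · rintro ⟨-, a1, a2⟩
    refine ⟨by linarith, ?_⟩
    rw [abs_of_nonneg (by linarith), a2]
    ring
  · rintro ⟨a1, a2⟩
    rw [abs_of_nonneg (by linarith)] at a2
    have a3 : t = 1 / 2 + (x.2 - j - 1 / 2) := mul_left_cancel₀ h0.ne' (by linarith)
    exact ⟨by norm_num, by linarith, by linarith⟩

omit hM in
theorem sheets_dir {j : ℕ} {s s' θ : ℝ} (h : M.ang j s + θ = M.ang j s') (w : ℂ) :
    w * M.dir j s * exp ((θ : ℂ) * I) = w * M.dir j s' := by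
  rw [dir, dir, ← h, ofReal_add, add_mul, exp_add]
  ring

theorem sheets_small {i : ℕ} (hi : i ≤ M.l) (j : ℕ) {β : ℂ} {x : ℂ × ℝ} (h : ‖x.1 - β‖ ≤ M.ε) :
    |M.e j * ‖M.lam i‖ * (M.unt j β x).im| < 1 := by
  have h1 := abs_im_le_norm (M.unt j β x)
  rw [norm_unt hM] at h1
  have h2 : |M.e j| = 1 := by rcases hM.sign j with e | e <;> simp [e]
  have h3 := mul_le_mul_of_nonneg_left (h1.trans h) (norm_nonneg (M.lam i))
  have h4 := norm_lam_small hM hi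
  rw [abs_mul, abs_mul, h2, one_mul, abs_norm]
  linarith

theorem sheets_band {j : ℕ} {β : ℂ} {s σ : ℝ} {x : ℂ × ℝ} (hσ : σ = 1 ∨ σ = -1)
    (h : x = (β + ((σ * (M.ε / 2 + M.ε * |s|) : ℝ) : ℂ) * M.dir j s, j + 1 / 2 + s)) :
    x.2 - j - 1 / 2 = s ∧ ‖x.1 - β‖ = M.ε / 2 + M.ε * |s| ∧ (M.unt j β x).im = 0 := by
  have h0 := hM.ε_pos
  have h1 : x.2 - j - 1 / 2 = s := by
    rw [h]
    ring
  have h2 : x.1 - β = ((σ * (M.ε / 2 + M.ε * |s|) : ℝ) : ℂ) * M.dir j s := by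
    rw [h]
    exact add_sub_cancel_left _ _
  refine ⟨h1, ?_, ?_⟩
  · rw [h2, norm_mul, norm_dir hM, mul_one, norm_real, Real.norm_eq_abs, abs_mul,
      abs_of_nonneg (a := M.ε / 2 + M.ε * |s|) (by positivity)]
    rcases hσ with rfl | rfl <;> simp
  · rw [unt, h1, h2, mul_assoc, dir_mul_conj hM, mul_one, ofReal_im]

theorem lin_outer {j : ℕ} {β : ℂ} (hβ : β ∈ M.B j) {x : ℂ × ℝ} (h : ‖x.1 - β‖ ≤ M.ε)
    (hx : x ∈ M.Sheet j) :
    M.lin j x.1 = M.ind j β + M.e j * ‖M.lam j‖ * (M.unt j β x).im := by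
  obtain ⟨r1, r2⟩ := band_range hβ
  have h2 := (sheets_near hM hβ h).2.1
  obtain ⟨h3, -, h4⟩ := sheets_iff.1 hx
  rw [h2] at h4
  have e : M.ang j (x.2 - j - 1 / 2) +
      2 * (M.b (j - 1) * M.bump (j - 1) x.1 - M.a j * M.bump j x.1) = M.ang j (-(1 / 2)) := by
    rw [ang_nonpos j (by linarith), ang_nonpos j (by norm_num), h2, h4]
    ring
  rw [lin_near hM hβ (Or.inl rfl) (by linarith [hM.ε_pos]), ← unt_mul_dir hM j β x, sheets_dir e,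
    hM.start j r1 r2, mul_comm (M.unt j β x), mul_assoc, ← ofReal_neg, L_real_mul, L_u_mul hM]
  ring

theorem lin_inner {j : ℕ} {β : ℂ} (hβ : β ∈ M.B j) {x : ℂ × ℝ} (h : ‖x.1 - β‖ ≤ M.ε)
    (hx : x ∈ M.Sheet (j + 1)) :
    M.lin (j + 1) x.1 = M.ind (j + 1) β - M.e j * ‖M.lam (j + 1)‖ * (M.unt j β x).im := by
  obtain ⟨r1, r2⟩ := band_range hβ
  have h2 := (sheets_near hM hβ h).2.2
  obtain ⟨-, h3, h4⟩ := sheets_iff.1 hx
  rw [Nat.add_sub_cancel] at h3 h4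
  rw [h2] at h4
  push_cast at h4
  have e : M.ang j (x.2 - j - 1 / 2) + 2 * (M.b (j + 1 - 1) * M.bump (j + 1 - 1) x.1 -
      M.a (j + 1) * M.bump (j + 1) x.1) = M.ang j (1 / 2) := by
    rw [ang_nonneg j (by linarith), ang_nonneg j (by norm_num), Nat.add_sub_cancel, h2, h4]
    ring
  rw [lin_near hM hβ (Or.inr rfl) (by linarith [hM.ε_pos]), ← unt_mul_dir hM j β x, sheets_dir e,
    hM.stop j r1 r2, mul_comm (M.unt j β x), mul_assoc, L_real_mul, L_u_mul hM]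
  ring

/-- In the open cylinder over the disc of radius `ε` around a band the surface is the tube. -/
theorem mem_FUp_tube {j : ℕ} {β : ℂ} (hβ : β ∈ M.B j) {x : ℂ × ℝ} (h1 : ‖x.1 - β‖ < M.ε)
    (h2 : |x.2 - j - 1 / 2| < 1 / 2) :
    (x ∈ M.FUp ↔ ‖x.1 - β‖ = M.ε / 2 + M.ε * |x.2 - j - 1 / 2|) ∧
    (x ∈ M.knotUp ↔ ‖x.1 - β‖ = M.ε / 2 + M.ε * |x.2 - j - 1 / 2| ∧ (M.unt j β x).im = 0) := by
  have h0 := hM.ε_pos
  obtain ⟨r1, r2⟩ := band_range hβ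
  obtain ⟨r3, r4⟩ := abs_lt.1 h2
  refine ⟨⟨?_, fun h => ?_⟩, ?_, fun h => ?_⟩
  · rintro ⟨i, a1, -, a3⟩
    obtain ⟨b1, b2, b3⟩ := sheets_iff.1 a3
    have b4 := bump_nonneg hM i x.1
    have b5 := bump_nonneg hM (i - 1) x.1
    have b6 : j < i + 1 := by exact_mod_cast (by linarith : (j : ℝ) < i + 1)
    have b7 : i < j + 2 := by exact_mod_cast (by linarith : (i : ℝ) < j + 2)
    rcases (by omega : i = j ∨ i = j + 1) with rfl | rfl
    · exact ((sheets_outer hM hβ h1.le).1 a3).2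
    · exact ((sheets_inner hM hβ h1.le).1 a3).2
  · rcases le_total x.2 (j + 1 / 2) with e | e
    · exact ⟨j, r1, r2.le, (sheets_outer hM hβ h1.le).2 ⟨e, h⟩⟩
    · exact ⟨j + 1, by omega, r2, (sheets_inner hM hβ h1.le).2 ⟨e, h⟩⟩
  · rintro (⟨i, -, -, a3, -⟩ | ⟨j', β', hβ', s, σ, a1, a2, a3⟩)
    · rw [a3] at h2
      exact (Nest.sheets_nat h2).elim
    obtain ⟨b1, b2, b3⟩ := sheets_band hM a2 a3
    obtain ⟨b6, b7⟩ := abs_le.1 a1
    have b4 := norm_sub_le_norm_sub_add_norm_sub β x.1 β'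
    rw [norm_sub_rev β x.1] at b4
    have b5 := mul_le_mul_of_nonneg_left a1 h0.le
    have b8 : j < j' + 1 := by exact_mod_cast (by linarith : (j : ℝ) < j' + 1)
    have b9 : j' < j + 1 := by exact_mod_cast (by linarith : (j' : ℝ) < j + 1)
    obtain ⟨rfl, rfl⟩ := band_unique hM hβ hβ' b8.le b9.le (by linarith)
    rw [b1]
    exact ⟨b2, b3⟩
  · obtain ⟨a1, a2⟩ := h
    have b1 : M.unt j β x = ((M.unt j β x).re : ℂ) := Complex.ext rfl a2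
    have b2 : |(M.unt j β x).re| = M.ε / 2 + M.ε * |x.2 - j - 1 / 2| := by
      rw [← a1, ← Real.norm_eq_abs, ← norm_real, ← b1, norm_unt hM]
    obtain ⟨σ, c1, c2⟩ : ∃ σ : ℝ, (σ = 1 ∨ σ = -1) ∧
        (M.unt j β x).re = σ * (M.ε / 2 + M.ε * |x.2 - j - 1 / 2|) := by
      rcases (abs_eq (by positivity)).1 b2 with e | e
      · exact ⟨1, Or.inl rfl, by rw [e, one_mul]⟩
      · exact ⟨-1, Or.inr rfl, by rw [e, neg_one_mul]⟩
    refine Or.inr ⟨j, β, hβ, x.2 - j - 1 / 2, σ, h2.le, c1, Prod.ext ?_ (by linarith)⟩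
    rw [← c2, ← b1, unt_mul_dir hM]
    exact (add_sub_cancel _ _).symm

theorem mem_knot_iff {i : ℕ} (h1 : 1 ≤ i) (h2 : i ≤ M.l) {x : ℂ × ℝ} (hx : x ∈ M.Sheet i) :
    x ∈ M.knotUp ↔ ∃ k : ℤ, M.lin i x.1 = k := by
  have h0 := hM.ε_pos
  have hn : ∀ i, ‖M.lam i‖ ≠ 0 := fun i => (norm_lam_pos hM i).ne'
  have he : ∀ j, M.e j ≠ 0 := fun j => by rcases hM.sign j with h | h <;> simp [h]
  have ht : ∀ {j : ℕ} {β : ℂ}, ‖x.1 - β‖ < M.ε → ‖x.1 - β‖ = M.ε / 2 + M.ε * |x.2 - j - 1 / 2| →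
      |x.2 - j - 1 / 2| < 1 / 2 := fun h h' => lt_of_mul_lt_mul_left (by linarith) h0.le
  by_cases b1 : M.bump i x.1 = 0
  swap
  · obtain ⟨β, hβ, h⟩ := exists_of_bump_ne b1
    have a1 := ((sheets_outer hM hβ h.le).1 hx).2
    rw [(mem_FUp_tube hM hβ h (ht h a1)).2, lin_outer hM hβ h.le hx,
      Nest.sheets_int (sheets_small hM h2 i h.le), mul_eq_zero, mul_eq_zero]
    simp only [a1, hn, he, true_and, false_or]
  by_cases b2 : M.bump (i - 1) x.1 = 0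
  swap
  · obtain ⟨j, rfl⟩ : ∃ j, i = j + 1 := ⟨i - 1, by omega⟩
    obtain ⟨β, hβ, h⟩ := exists_of_bump_ne b2
    rw [Nat.add_sub_cancel] at hβ
    have a1 := ((sheets_inner hM hβ h.le).1 hx).2
    have a2 := sheets_small hM h2 j h.le
    rw [← abs_neg] at a2
    rw [(mem_FUp_tube hM hβ h (ht h a1)).2, lin_inner hM hβ h.le hx, sub_eq_add_neg (M.ind _ _ : ℝ),
      Nest.sheets_int a2, neg_eq_zero, mul_eq_zero, mul_eq_zero]
    simp only [a1, hn, he, true_and, false_or]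
  have a1 := (sheets_plain b2 b1).1 hx
  have a2 : M.lin i x.1 = M.L i (x.1 - M.β i) := by rw [lin, tw_far b2 b1]
  constructor
  · rintro (⟨i', -, -, a3, a4, -⟩ | ⟨j, β, hβ, s, σ, c1, c2, c3⟩)
    · rw [a1, Nat.cast_inj] at a3
      rw [a2, a3]
      exact a4
    obtain ⟨d2, d3, d1⟩ := sheets_band hM c2 c3
    have d4 := mul_le_mul_of_nonneg_left c1 h0.le
    obtain ⟨c4, c5⟩ := abs_le.1 c1
    have d5 : j ≤ i := by exact_mod_cast (by linarith : (j : ℝ) ≤ i)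
    have d6 : i ≤ j + 1 := by exact_mod_cast (by linarith : (i : ℝ) ≤ j + 1)
    refine ⟨M.ind i β, ?_⟩
    rcases (by omega : i = j ∨ i = j + 1) with rfl | rfl
    · rw [lin_outer hM hβ (by linarith) hx, d1, mul_zero, add_zero]
    · rw [lin_inner hM hβ (by linarith) hx, d1, mul_zero, sub_zero]
  · refine fun h => Or.inl ⟨i, h1, h2, a1, a2 ▸ h, fun β hβ => not_lt.1 fun h3 => ?_⟩
    have h4 := (div_lt_one h0).2 h3
    rcases hβ with hβ | hβ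
    · linarith [(sheets_near hM hβ h3.le).1]
    · linarith [(sheets_near hM hβ h3.le).1]

theorem knot_sub : M.knotUp ⊆ M.FUp := by
  have h0 := hM.ε_pos
  rintro x (⟨i, a1, a2, a3, -, a4⟩ | ⟨j, β, hβ, s, σ, c1, c2, c3⟩)
  · exact ⟨i, a1, a2, (sheets_plain (bump_far fun β h => a4 β (Or.inl h))
      (bump_far fun β h => a4 β (Or.inr h))).2 a3⟩
  obtain ⟨d2, d3, -⟩ := sheets_band hM c2 c3
  have d4 := mul_le_mul_of_nonneg_left c1 h0.le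
  have d5 : ‖x.1 - β‖ ≤ M.ε := by linarith
  rw [← d2] at d3
  obtain ⟨r1, r2⟩ := band_range hβ
  rcases le_total x.2 (j + 1 / 2) with e | e
  · exact ⟨j, r1, r2.le, (sheets_outer hM hβ d5).2 ⟨e, d3⟩⟩
  · exact ⟨j + 1, by omega, r2, (sheets_inner hM hβ d5).2 ⟨e, d3⟩⟩

theorem depth_of_mem {x : ℂ × ℝ} (hx : x ∈ M.FUp) : 1 ≤ x.2 ∧ x.2 ≤ M.l := by
  obtain ⟨i, a1, a2, a3⟩ := hx
  obtain ⟨b1, b2, b3⟩ := sheets_iff.1 a3
  have b4 := bump_nonneg hM i x.1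
  have b5 := bump_nonneg hM (i - 1) x.1
  constructor
  · rcases a1.eq_or_lt with rfl | h
    · rw [bump_zero] at b3
      push_cast at b3
      linarith
    · have h2 : (2 : ℝ) ≤ i := by exact_mod_cast h
      linarith
  · rcases a2.eq_or_lt with rfl | h
    · rw [bump_of_le le_rfl] at b3
      linarith
    · have h2 : (i : ℝ) + 1 ≤ M.l := by exact_mod_cast h
      linarith

theorem mem_sheet_sh {x : ℂ × ℝ} (hx : x ∈ M.FUp) :
    1 ≤ sh x.2 ∧ sh x.2 ≤ M.l ∧ x ∈ M.Sheet (sh x.2) := by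
  obtain ⟨i, a1, a2, a3⟩ := hx
  obtain ⟨b1, b2, b3⟩ := sheets_iff.1 a3
  have b4 := bump_nonneg hM i x.1
  have b5 := bump_nonneg hM (i - 1) x.1
  rcases lt_or_ge (x.2 + 1 / 2) (i + 1) with h | h
  · rw [Nest.sheets_sh (i := i) (by linarith) h]
    exact ⟨a1, a2, a3⟩
  · have c1 : M.bump i x.1 = 1 / 2 := by linarith
    have c2 : M.bump i x.1 ≠ 0 := by
      rw [c1]
      norm_num
    have c3 := (bump_eq_zero_or hM (Or.inl rfl) x.1).resolve_left c2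
    rw [Nest.sheets_sh (i := i + 1) (by push_cast; linarith) (by push_cast; linarith)]
    refine ⟨by omega, not_le.1 fun h2 => c2 (bump_of_le h2 _), sheets_iff.2 ?_⟩
    rw [Nat.add_sub_cancel, c3]
    push_cast
    exact ⟨by norm_num, b1, by linarith⟩

theorem mem_gap {x : ℂ × ℝ} (hx : x ∈ M.YUp) :
    x ∈ M.Gap (sh x.2) ⌊M.lin (sh x.2) x.1⌋ := by
  obtain ⟨a1, a2, a3⟩ := mem_sheet_sh hM hx.1
  exact ⟨a3, lt_of_le_of_ne (Int.floor_le _) fun h => hx.2 ((mem_knot_iff hM a1 a2 a3).2 ⟨_, h.symm⟩),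
    Int.lt_floor_add_one _⟩

theorem gap_sub {i : ℕ} (h1 : 1 ≤ i) (h2 : i ≤ M.l) (a : ℤ) : M.Gap i a ⊆ M.YUp := by
  rintro x ⟨a1, a2, a3⟩
  refine ⟨⟨i, h1, h2, a1⟩, fun h => ?_⟩
  obtain ⟨k, hk⟩ := (mem_knot_iff hM h1 h2 a1).1 h
  rw [hk] at a2 a3
  have b1 : a < k := by exact_mod_cast a2
  have b2 : k < a + 1 := by exact_mod_cast a3
  omega

theorem strip_outer {j : ℕ} {β : ℂ} (hβ : β ∈ M.B j) {σ : ℝ} (hσ : σ = 1 ∨ σ = -1)
    {x : ℂ × ℝ} (hx : x ∈ M.Strip j β σ) (h : x.2 ≤ j + 1 / 2) : x ∈ M.Gap j (M.go j β σ) := by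
  obtain ⟨a1, a2, a3⟩ := hx
  have a4 := mul_le_mul_of_nonneg_left a1.le hM.ε_pos.le
  have a5 : ‖x.1 - β‖ ≤ M.ε := by linarith
  have a6 := (sheets_outer hM hβ a5).2 ⟨h, a2⟩
  have a7 := abs_lt.1 (sheets_small hM (band_range hβ).2.le j a5)
  refine ⟨a6, ?_⟩
  rw [lin_outer hM hβ a5 a6, go]
  have a9 := mul_pos (norm_lam_pos hM j) a3
  generalize (M.unt j β x).im = t at *
  rcases hσ with rfl | rfl <;> rcases hM.sign j with e | e <;> rw [e] at a7 ⊢ <;> norm_num <;>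
    constructor <;> linarith [a7.1, a7.2]

theorem strip_inner {j : ℕ} {β : ℂ} (hβ : β ∈ M.B j) {σ : ℝ} (hσ : σ = 1 ∨ σ = -1)
    {x : ℂ × ℝ} (hx : x ∈ M.Strip j β σ) (h : j + 1 / 2 ≤ x.2) :
    x ∈ M.Gap (j + 1) (M.gi j β σ) := by
  obtain ⟨a1, a2, a3⟩ := hx
  have a4 := mul_le_mul_of_nonneg_left a1.le hM.ε_pos.le
  have a5 : ‖x.1 - β‖ ≤ M.ε := by linarith
  have a6 := (sheets_inner hM hβ a5).2 ⟨h, a2⟩
  have a7 := abs_lt.1 (sheets_small hM (i := j + 1) (band_range hβ).2 j a5)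
  refine ⟨a6, ?_⟩
  rw [lin_inner hM hβ a5 a6, gi]
  have a9 := mul_pos (norm_lam_pos hM (j + 1)) a3
  generalize (M.unt j β x).im = t at *
  rcases hσ with rfl | rfl <;> rcases hM.sign j with e | e <;> rw [e] at a7 ⊢ <;> norm_num <;>
    constructor <;> linarith [a7.1, a7.2]

/-- The middle point of a neck arc. -/
theorem mid_mem_strip (j : ℕ) (β : ℂ) {σ : ℝ} (hσ : σ = 1 ∨ σ = -1) :
    (β + ((σ * (M.ε / 2) : ℝ) : ℂ) * (M.ω j * I), (j : ℝ) + 1 / 2) ∈ M.Strip j β σ := by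
  have h0 := hM.ε_pos
  have e : (j : ℝ) + 1 / 2 - j - 1 / 2 = 0 := by ring
  have e' := dir_mul_conj hM j 0
  refine ⟨?_, ?_, ?_⟩
  · dsimp only
    rw [e]
    norm_num
  · dsimp only
    rw [e, add_sub_cancel_left, norm_mul, norm_mul, norm_I, hM.norm_ω, norm_real, Real.norm_eq_abs,
      abs_mul, abs_of_pos (half_pos h0)]
    rcases hσ with rfl | rfl <;> simp
  · rw [unt]
    dsimp only
    rw [e, add_sub_cancel_left, ← dir_zero, mul_assoc, mul_right_comm, e', one_mul, mul_I_im,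
      ofReal_re]
    rcases hσ with rfl | rfl <;> linarith

/-- A point of the surface of half integral depth lies on a neck. -/
theorem exists_neck {x : ℂ × ℝ} (hx : x ∈ M.FUp) (h : x.2 + 1 / 2 = sh x.2) :
    ∃ j, ∃ β ∈ M.B j, x.2 = j + 1 / 2 ∧ ‖x.1 - β‖ = M.ε / 2 := by
  obtain ⟨a1, -, a3⟩ := mem_sheet_sh hM hx
  obtain ⟨j, hj⟩ : ∃ j, sh x.2 = j + 1 := ⟨sh x.2 - 1, by omega⟩
  rw [hj] at h a3
  obtain ⟨-, b2, b3⟩ := sheets_iff.1 a3
  have b4 := bump_nonneg hM (j + 1) x.1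
  rw [Nat.add_sub_cancel] at b2 b3
  have c1 : M.bump j x.1 = 1 / 2 := by linarith
  obtain ⟨β, hβ, c2⟩ := exists_of_bump_ne (M := M) (j := j) (ζ := x.1) (by rw [c1]; norm_num)
  have c3 := (sheets_near hM hβ c2.le).1
  push_cast at h
  refine ⟨j, β, hβ, by linarith, ?_⟩
  have c4 : ‖x.1 - β‖ / M.ε = 1 / 2 := by linarith
  rw [div_eq_iff hM.ε_pos.ne'] at c4
  linarith

/-- A point of the surface that is not on a neck lies in the open part of its sheet. -/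
theorem plain_of_ne {x : ℂ × ℝ} (hx : x ∈ M.FUp) (h : x.2 + 1 / 2 ≠ sh x.2) :
    M.bump (sh x.2) x.1 < 1 / 2 ∧ M.bump (sh x.2 - 1) x.1 < 1 / 2 ∧
      |x.2 - sh x.2| < 1 / 2 := by
  obtain ⟨a1, -, a3⟩ := mem_sheet_sh hM hx
  obtain ⟨b1, b2, b3⟩ := sheets_iff.1 a3
  have b4 : (sh x.2 : ℝ) < x.2 + 1 / 2 :=
    lt_of_le_of_ne (Nat.floor_le (by linarith [(depth_of_mem hM hx).1])) h.symm
  have b5 : x.2 + 1 / 2 < sh x.2 + 1 := Nat.lt_floor_add_one _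
  have b6 := bump_eq_zero_or hM (j := sh x.2) (j' := sh x.2 - 1) (Or.inr (by omega)) x.1
  refine ⟨?_, ?_, abs_lt.2 ⟨by linarith, by linarith⟩⟩ <;> rcases b6 with e | e <;> linarith

theorem loc_plain {x : ℂ × ℝ} (hx : x ∈ M.YUp) (h : x.2 + 1 / 2 ≠ sh x.2) :
    ∀ᶠ z in 𝓝[M.YUp] x, sh z.2 = sh x.2 ∧ ⌊M.lin (sh x.2) z.1⌋ = ⌊M.lin (sh x.2) x.1⌋ := by
  obtain ⟨-, a2, a3⟩ := mem_gap hM hx
  obtain ⟨a4, a5⟩ := abs_lt.1 (plain_of_ne hM hx.1 h).2.2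
  have c1 : Continuous fun z : ℂ × ℝ => M.lin (sh x.2) z.1 :=
    (continuous_lin hM _).comp continuous_fst
  have c2 : Continuous fun z : ℂ × ℝ => z.2 + 1 / 2 := by fun_prop
  refine Eventually.filter_mono nhdsWithin_le_nhds ?_
  filter_upwards [(c1.tendsto x).eventually (lt_mem_nhds a2), (c1.tendsto x).eventually (gt_mem_nhds a3),
    (c2.tendsto x).eventually (lt_mem_nhds (a := (sh x.2 : ℝ)) (by linarith)),
    (c2.tendsto x).eventually (gt_mem_nhds (a := (sh x.2 : ℝ) + 1) (by linarith))] with z b1 b2 b3 b4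
  exact ⟨Nest.sheets_sh b3.le b4, Int.floor_eq_iff.2 ⟨b1.le, b2⟩⟩

theorem loc_neck {x : ℂ × ℝ} (hx : x ∈ M.YUp) (h : x.2 + 1 / 2 = sh x.2) :
    ∃ j, ∃ β ∈ M.B j, ∃ σ : ℝ, (σ = 1 ∨ σ = -1) ∧ x.2 = j + 1 / 2 ∧ x ∈ M.Strip j β σ ∧
      ∀ᶠ z in 𝓝[M.YUp] x, z ∈ M.Strip j β σ ∧ 0 < σ * M.tm j (z.1 - β) := by
  have h0 := hM.ε_pos
  obtain ⟨j, β, hβ, a1, a2⟩ := exists_neck hM hx.1 h
  have e : x.2 - j - 1 / 2 = 0 := by linarith
  have a3 : ‖x.1 - β‖ < M.ε := by linarith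
  have a4 : |x.2 - j - 1 / 2| < 1 / 2 := by
    rw [e]
    norm_num
  have a5 := mem_FUp_tube hM hβ a3 a4
  have a6 := a5.1.1 hx.1
  have a7 := fun h => hx.2 (a5.2.2 ⟨a6, h⟩)
  obtain ⟨σ, c1, c2⟩ : ∃ σ : ℝ, (σ = 1 ∨ σ = -1) ∧ 0 < σ * (M.unt j β x).im := by
    rcases lt_or_gt_of_ne a7 with h | h
    · exact ⟨-1, Or.inr rfl, by linarith⟩
    · exact ⟨1, Or.inl rfl, by linarith⟩
  have c3 : 0 < σ * M.tm j (x.1 - β) := by
    rw [← unt_mul_dir hM j β x, e, dir_zero, tm_ω_mul hM, ← mul_assoc]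
    exact mul_pos c2 (tm_ω_I_pos hM hβ.1 hβ.2.1)
  refine ⟨j, β, hβ, σ, c1, a1, ⟨a4, a6, c2⟩, ?_⟩
  have k1 : Continuous fun z : ℂ × ℝ => ‖z.1 - β‖ := by fun_prop
  have k2 : Continuous fun z : ℂ × ℝ => |z.2 - j - 1 / 2| := by fun_prop
  have k3 : Continuous fun z : ℂ × ℝ => σ * (M.unt j β z).im :=
    continuous_const.mul (continuous_im.comp (continuous_unt j β))
  have k4 : Continuous fun z : ℂ × ℝ => σ * M.tm j (z.1 - β) :=
    continuous_const.mul ((continuous_tm j).comp (continuous_fst.sub continuous_const))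
  filter_upwards [self_mem_nhdsWithin,
    nhdsWithin_le_nhds ((k1.tendsto x).eventually (gt_mem_nhds a3)),
    nhdsWithin_le_nhds ((k2.tendsto x).eventually (gt_mem_nhds a4)),
    nhdsWithin_le_nhds ((k3.tendsto x).eventually (lt_mem_nhds c2)),
    nhdsWithin_le_nhds ((k4.tendsto x).eventually (lt_mem_nhds c3))] with z b0 b1 b2 b3 b4
  exact ⟨⟨b2, (mem_FUp_tube hM hβ b1 b2).1.1 b0.1, b3⟩, b4⟩

theorem sheets_add (i : ℕ) (x : ℂ × ℝ) (k m : ℤ) : x + vec k m ∈ M.Sheet i ↔ x ∈ M.Sheet i := by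
  rw [vec_add, sheets_iff, sheets_iff, bump_add hM, bump_add hM]

theorem sheets_knot (x : ℂ × ℝ) : x ∈ M.knotUp ↔
    ∃ i, 1 ≤ i ∧ i ≤ M.l ∧ x ∈ M.Sheet i ∧ ∃ k : ℤ, M.lin i x.1 = k := by
  refine ⟨fun h => ?_, fun ⟨i, a1, a2, a3, a4⟩ => (mem_knot_iff hM a1 a2 a3).2 a4⟩
  obtain ⟨i, a1, a2, a3⟩ := knot_sub hM h
  exact ⟨i, a1, a2, a3, (mem_knot_iff hM a1 a2 a3).1 h⟩

theorem FUp_add (x : ℂ × ℝ) (k m : ℤ) : x + vec k m ∈ M.FUp ↔ x ∈ M.FUp := by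
  exact exists_congr fun i => and_congr_right fun _ => and_congr_right fun _ =>
    sheets_add hM i x k m

theorem knotUp_add (x : ℂ × ℝ) (k m : ℤ) : x + vec k m ∈ M.knotUp ↔ x ∈ M.knotUp := by
  rw [sheets_knot hM, sheets_knot hM]
  refine exists_congr fun i => and_congr_right fun _ => and_congr_right fun _ =>
    and_congr (sheets_add hM i x k m) ?_
  rw [vec_add, lin_add hM]
  refine ⟨fun ⟨c, hc⟩ => ⟨c - (M.q i * k - M.p i * m), ?_⟩,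
    fun ⟨c, hc⟩ => ⟨c + (M.q i * k - M.p i * m), ?_⟩⟩
  · rw [Int.cast_sub, ← hc, add_sub_cancel_right]
  · rw [Int.cast_add, hc]

theorem YUp_add (x : ℂ × ℝ) (k m : ℤ) : x + vec k m ∈ M.YUp ↔ x ∈ M.YUp :=
  and_congr (FUp_add hM x k m) (not_congr (knotUp_add hM x k m))

theorem gap_add (i : ℕ) (a : ℤ) (x : ℂ × ℝ) (k m : ℤ) :
    x + vec k m ∈ M.Gap i (a + (M.q i * k - M.p i * m)) ↔ x ∈ M.Gap i a := by
  refine and_congr (sheets_add hM i x k m) ?_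
  rw [vec_add, lin_add hM, Int.cast_add, add_right_comm, add_lt_add_iff_right, add_lt_add_iff_right]

end Lev

end OneOne
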