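import Pool.Agent.Work.MP_d5331a_gt.OO.Bump

/-!
Times and angles of the regions.
-/

set_option autoImplicit false

open Complex Set Filter Topology

namespace OneOne

open Neuwirth

namespace Lev

variable {M : Lev}

theorem ti_mid {r : ℕ} (h1 : 1 ≤ r) (h2 : r < M.l) (ζ : ℂ) : M.ti r ζ = ⌊M.tm r (ζ - M.β r)⌋ :=
  if_pos ⟨h1, h2⟩

theorem ti_end {r : ℕ} (h : ¬ (1 ≤ r ∧ r < M.l)) (ζ : ℂ) : M.ti r ζ = 0 := if_neg h

theorem ph_mid {r : ℕ} (h1 : 1 ≤ r) (h2 : r < M.l) (ζ : ℂ) : M.ph r ζ = M.L r (ζ - M.β r) := by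
  rw [ph, if_neg (by omega), if_neg (by omega)]

theorem phZ_mid {r : ℕ} (h1 : 1 ≤ r) (h2 : r < M.l) (k m : ℤ) :
    M.phZ r k m = M.q r * k - M.p r * m := by
  rw [phZ, if_neg (by omega), if_neg (by omega)]

theorem ti_add (r : ℕ) (ζ : ℂ) (k m : ℤ) :
    M.ti r (ζ + (k + m * I)) = M.ti r ζ + M.tiZ r k m := by
  unfold ti tiZ
  split_ifs
  · rw [add_sub_right_comm, tm_add, tm_vec, Int.floor_add_intCast]
  · rfl

theorem ph_add (r : ℕ) (ζ : ℂ) (k m : ℤ) :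
    M.ph r (ζ + (k + m * I)) = M.ph r ζ + M.phZ r k m := by
  unfold ph phZ
  split_ifs
  · simp
  · simp
  · rw [add_sub_right_comm, L_add, L_vec]

theorem tm_band {r : ℕ} {β : ℂ} (hβ : β ∈ M.B r) : M.tm r (β - M.β r) = M.ti r β := by
  obtain ⟨h1, h2, k, m, rfl⟩ := hβ
  rw [ti_mid h1 h2, add_sub_cancel_left, tm_vec, Int.floor_intCast]

variable (hM : M.Good)
include hM

theorem vec_zero {r : ℕ} (h1 : 1 ≤ r) (h2 : r < M.l) {k m : ℤ} (h : M.phZ r k m = 0)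
    (h' : M.tiZ r k m = 0) : k = 0 ∧ m = 0 := by
  rw [phZ_mid h1 h2] at h
  rw [tiZ, if_pos ⟨h1, h2⟩] at h'
  exact int_zero hM r h' h

theorem ti_other {r j : ℕ} {β ζ : ℂ} (hβ : β ∈ M.B j) (hr : r = j + 1 ∨ j = r + 1)
    (h : ‖ζ - β‖ ≤ 4 * M.ε) : M.ti r ζ = M.ti r β := by
  by_cases h0 : 1 ≤ r ∧ r < M.l
  · obtain ⟨m, hm⟩ := tm_band_adj hM hβ h0.1 h0.2 hr
    have h1 := abs_le.1 (tm_small hM h0.2.le h)
    have h2 : M.tm r (ζ - M.β r) = M.tm r (ζ - β) + M.tm r (β - M.β r) := by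
      rw [← tm_add, sub_add_sub_cancel]
    rw [ti_mid h0.1 h0.2, ti_mid h0.1 h0.2, h2, hm,
      (Int.floor_eq_iff (z := m)).2 ⟨by linarith, by linarith⟩,
      (Int.floor_eq_iff (z := m)).2 ⟨by linarith, by linarith⟩]
  · rw [ti_end h0, ti_end h0]

theorem ti_strip {r j : ℕ} {β ζ : ℂ} {σ : ℝ} (hβ : β ∈ M.B j) (hσ : σ = 1 ∨ σ = -1)
    (h1 : r ≤ j + 1) (h2 : j ≤ r + 1) (h : ‖ζ - β‖ ≤ 4 * M.ε) (h' : 0 < σ * M.tm j (ζ - β)) :
    M.ti r ζ = M.tin r j β σ := by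
  by_cases e : r = j
  · subst e
    obtain ⟨r1, r2⟩ := band_range hβ
    have h3 := abs_le.1 (tm_small hM r2.le h)
    have h4 : M.tm r (ζ - M.β r) = M.tm r (ζ - β) + M.ti r β := by
      rw [← tm_band hβ, ← tm_add, sub_add_sub_cancel]
    rw [ti_mid r1 r2 ζ, h4, tin, Int.floor_eq_iff]
    rcases hσ with rfl | rfl
    · simp only [ne_eq, not_true, and_false, if_false, sub_zero]
      constructor <;> linarith
    · rw [if_pos ⟨rfl, by norm_num⟩]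
      push_cast
      constructor <;> linarith
  · rw [tin, if_neg fun h => e h.1, sub_zero]
    exact ti_other hM hβ (by omega) h

end Lev

end OneOne
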