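import Pool.Agent.Work.MP_d5331a_gt.OO.Regions
import Pool.Agent.Work.MP_d5331a_gt.OO.Tm
import Pool.Agent.Work.MP_d5331a_gt.Side

/-!
The cocycle of a side. Port of the file `Side` of the parent directory.
-/

set_option autoImplicit false

open Complex Set Filter Topology

namespace OneOne

open Neuwirth

namespace Lev

variable {M : Lev} (hM : M.Good)
include hM

omit hM in
theorem Side_Lt_same {c : ℕ} {x z : ℂ × ℝ} (h : M.ch c z = M.ch c x) :
    M.Lt c x z = (M.pot c x)⁻¹ * M.pot c z := if_pos h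

omit hM in
theorem Side_Lt_diff {c : ℕ} {x z : ℂ × ℝ} (h : M.ch c z ≠ M.ch c x)
    (h' : J c (sh z.2) = Nest.Jm c x) : M.Lt c x z = (M.pot c x)⁻¹ * (M.wl c x)⁻¹ * M.pot c z :=
  (if_neg h).trans (if_pos h')

omit hM in
/-- The cocycle identity near a wall. -/
theorem Side_wall {c : ℕ} {St : Set (ℂ × ℝ)} {x : ℂ × ℝ} (hx : x ∈ St) (f : ℂ × ℝ → ℝ)
    (hf : Continuous f) {A B : ℕ × ℤ} (hAB : B ≠ A) (hJ : Nest.Jm c x = B.1)
    (h : ∀ᶠ z in 𝓝[St] x, (f x ≤ f z → M.ch c z = A) ∧ (f z < f x → M.ch c z = B) ∧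
      (f z = f x → M.wl c z = M.wl c x ∧ Nest.Jm c z = Nest.Jm c x)) :
    ∀ᶠ z in 𝓝[St] x, ∀ᶠ w in 𝓝[St] z, M.Lt c x w = M.Lt c x z * M.Lt c z w := by
  have hA : M.ch c x = A := (h.self_of_nhdsWithin hx).1 le_rfl
  have hB : ∀ {w : ℂ × ℝ}, M.ch c w = B → J c (sh w.2) = Nest.Jm c x := fun hw => by
    rw [hJ, ← hw]
    rfl
  filter_upwards [h, eventually_eventually_nhdsWithin.2 h] with z hz hw
  rcases lt_trichotomy (f z) (f x) with h1 | h1 | h1
  · filter_upwards [hw, nhdsWithin_le_nhds (hf.continuousAt.eventually (gt_mem_nhds h1))]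
      with w hw h2
    have e1 := hz.2.1 h1
    have e2 := hw.2.1 h2
    rw [Side_Lt_diff (by rw [e2, hA]; exact hAB) (hB e2),
      Side_Lt_diff (by rw [e1, hA]; exact hAB) (hB e1), Side_Lt_same (e2.trans e1.symm)]
    group
  · have e1 := hz.1 h1.ge
    filter_upwards [hw] with w hw
    rcases le_or_gt (f x) (f w) with h2 | h2
    · have e2 := hw.1 h2
      rw [Side_Lt_same (e2.trans hA.symm), Side_Lt_same (e1.trans hA.symm),
        Side_Lt_same (e2.trans e1.symm)]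
      group
    · have e2 := hw.2.1 h2
      rw [Side_Lt_diff (by rw [e2, hA]; exact hAB) (hB e2), Side_Lt_same (e1.trans hA.symm),
        Side_Lt_diff (by rw [e2, e1]; exact hAB) ((hB e2).trans (hz.2.2 h1).2.symm),
        (hz.2.2 h1).1]
      group
  · filter_upwards [hw, nhdsWithin_le_nhds (hf.continuousAt.eventually (lt_mem_nhds h1))]
      with w hw h2
    have e1 := hz.1 h1.le
    have e2 := hw.1 h2.le
    rw [Side_Lt_same (e2.trans hA.symm), Side_Lt_same (e1.trans hA.symm),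
      Side_Lt_same (e2.trans e1.symm)]
    group

theorem Side_kD_loc {j : ℕ} (h1 : 1 ≤ j) (h2 : j < M.l) {x : ℂ × ℝ} {m : ℤ}
    (ht : M.tm j (x.1 - M.β j) = m) (hb : M.bump j x.1 ≤ 1 / 2) :
    ∀ᶠ z : ℂ × ℝ in 𝓝 x, ⌊M.ph j z.1⌋ = ⌊M.ph j x.1⌋ := by
  have h3 : (⌊M.L j (x.1 - M.β j)⌋ : ℝ) < M.L j (x.1 - M.β j) := by
    refine (Int.floor_le _).lt_of_ne fun h => ?_
    have h4 := eq_coord hM j (x.1 - M.β j)
    rw [ht, ← h] at h4
    have h5 : x.1 ∈ M.B j := ⟨h1, h2, m * M.p j + ⌊M.L j (x.1 - M.β j)⌋ * M.D j,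
      m * M.q j - ⌊M.L j (x.1 - M.β j)⌋ * M.C j, by
        rw [lam] at h4
        push_cast at h4 ⊢
        linear_combination h4⟩
    rw [bump_near hM h5 (by simpa using hM.ε_pos)] at hb
    norm_num at hb
  have c : Continuous fun z : ℂ × ℝ => M.L j (z.1 - M.β j) :=
    (continuous_L j).comp (by fun_prop)
  filter_upwards [Side_near _ c x h3 (Int.lt_floor_add_one _)] with z hz
  rw [ph_mid h1 h2, ph_mid h1 h2, Int.floor_eq_iff.2 ⟨hz.1.le, hz.2⟩]

theorem Side_depth {x : ℂ × ℝ} (hx : x ∈ M.FUp) : 0 < x.2 ∧ x.2 < M.l + 1 :=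
  ⟨by linarith [(depth_of_mem hM hx).1], by linarith [(depth_of_mem hM hx).2]⟩

theorem side_local {c : ℕ} (hc : c < 2) {x : ℂ × ℝ} (hx : x ∈ M.SideUp c) :
    (∀ᶠ z in 𝓝[M.SideUp c] x, M.ch c z = M.ch c x) ∨
    (∃ (r : ℕ) (m : ℤ), Nest.Jm c x = r ∧
      ∀ᶠ z in 𝓝[M.SideUp c] x, (M.tm r x.1 ≤ M.tm r z.1 → M.ch c z = (r, m)) ∧
        (M.tm r z.1 < M.tm r x.1 → M.ch c z = (r, m - 1)) ∧
        (M.tm r z.1 = M.tm r x.1 → M.wl c z = M.wl c x ∧ Nest.Jm c z = Nest.Jm c x)) ∨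
    (∃ j, ∃ β ∈ M.B j, Nest.Jm c x = j - 1 ∧
      ∀ᶠ z in 𝓝[M.SideUp c] x, (x.2 ≤ z.2 → M.ch c z = (j + 1, M.ti (j + 1) β)) ∧
        (z.2 < x.2 → M.ch c z = (j - 1, M.ti (j - 1) β)) ∧
        (z.2 = x.2 → M.wl c z = M.wl c x ∧ Nest.Jm c z = Nest.Jm c x)) := by
  have hε := hM.ε_pos
  by_cases hA : x.2 + 1 / 2 = sh x.2 ∧ sh x.2 % 2 = c
  · obtain ⟨j, β, hβ, hj, hd⟩ := exists_disc hM hc hx hA.1 hA.2
    have h1 := hA.1
    have h2 := hA.2
    rw [hj] at h1 h2
    push_cast at h1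
    have hj1 := (band_range hβ).1
    have hw : ∀ z : ℂ × ℝ, z.2 = x.2 → ‖z.1 - β‖ < M.ε → M.wl c z = M.labE j β := fun z e hz => by
      rw [wl, e, if_pos hA, hj, ctr_near hM hβ (Or.inr rfl) hz, Nat.add_sub_cancel]
    refine Or.inr (Or.inr ⟨j, β, hβ, ?_, ?_⟩)
    · rw [Nest.Jm, if_pos hA, hj]
      rfl
    · refine nhdsWithin_le_nhds ?_
      filter_upwards [Side_near (·.2) continuous_snd x (a := j) (b := j + 1) (by linarith)
        (by linarith), Side_near (fun z => ‖z.1 - β‖) (by fun_prop) x (a := -1) (b := M.ε)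
        (by linarith [norm_nonneg (x.1 - β)]) (by linarith)] with z hz hb
      have h3 : ‖z.1 - β‖ ≤ 4 * M.ε := by linarith [hb.2]
      refine ⟨fun h => ?_, fun h => ?_, fun h => ⟨?_, ?_⟩⟩
      · rw [ch, Side_sh_eq (i := j + 1) (by push_cast; linarith) (by push_cast; linarith [hz.2]),
          Side_J_pos h2, ti_other hM hβ (by omega) h3]
      · rw [ch, Side_sh_eq (i := j) (by linarith [hz.1]) (by linarith), Side_J_neg (by omega),
          ti_other hM hβ (by omega) h3]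
      · rw [hw z h hb.2, hw x rfl (by linarith)]
      · rw [Nest.Jm, Nest.Jm, h]
  have hJ := Side_J_loc hc hx.1 hA
  generalize hr : J c (sh x.2) = r at hJ
  by_cases hm : 1 ≤ r ∧ r < M.l
  swap
  · refine Or.inl (nhdsWithin_le_nhds ?_)
    filter_upwards [hJ] with z e1
    rw [ch, ch, e1, hr, ti_end hm, ti_end hm]
  have ct : Continuous fun z : ℂ × ℝ => M.tm r (z.1 - M.β r) :=
    (continuous_tm r).comp (by fun_prop)
  by_cases hB : ∃ m : ℤ, M.tm r (x.1 - M.β r) = m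
  · obtain ⟨m, ht⟩ := hB
    refine Or.inr (Or.inl ⟨r, m, (if_neg hA).trans hr, ?_⟩)
    filter_upwards [self_mem_nhdsWithin, nhdsWithin_le_nhds hJ,
      nhdsWithin_le_nhds (Side_kD_loc hM hm.1 hm.2 ht (hr ▸ (reg_of_side hM hc hx).2.2.1)),
      nhdsWithin_le_nhds (Side_near _ ct x (a := m - 1 / 4) (b := m + 1 / 4) (by linarith)
        (by linarith))] with z hz e1 e2 e3
    have k1 := tm_sub (M := M) r x.1 (M.β r)
    have k2 := tm_sub (M := M) r z.1 (M.β r)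
    refine ⟨fun h => ?_, fun h => ?_, fun h => ?_⟩
    · rw [ch, e1, ti_mid hm.1 hm.2, Int.floor_eq_iff.2 ⟨by linarith, by linarith [e3.2]⟩]
    · rw [ch, e1, ti_mid hm.1 hm.2, (Int.floor_eq_iff (z := m - 1)).2
        ⟨by push_cast; linarith [e3.1], by push_cast; linarith⟩]
    · have hz' : ¬ (z.2 + 1 / 2 = sh z.2 ∧ sh z.2 % 2 = c) := fun hh => by
        obtain ⟨j, β', hβ', hj, hd⟩ := exists_disc hM hc hz hh.1 hh.2
        rw [Side_J_pos hh.2] at e1
        obtain ⟨n, hn⟩ := tm_band_adj hM hβ' hm.1 hm.2 (Or.inl (by omega))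
        have h3 := abs_le.1 (tm_small hM hm.2.le (ζ := z.1 - β') (by linarith))
        have k3 := tm_sub (M := M) r z.1 β'
        have k4 := tm_sub (M := M) r β' (M.β r)
        have h4 : n < m := by exact_mod_cast (by linarith : (n : ℝ) < m)
        have h5 : m < n + 1 := by exact_mod_cast (by linarith : (m : ℝ) < n + 1)
        omega
      rw [wl, wl, Nest.Jm, Nest.Jm, if_neg hz', if_neg hz', if_neg hA, if_neg hA, e1, hr, e2]
      exact ⟨rfl, rfl⟩
  · refine Or.inl (nhdsWithin_le_nhds ?_)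
    filter_upwards [hJ, Side_near _ ct x ((Int.floor_le _).lt_of_ne fun h => hB ⟨_, h.symm⟩)
      (Int.lt_floor_add_one _)] with z e1 e2
    rw [ch, ch, e1, hr, ti_mid hm.1 hm.2, ti_mid hm.1 hm.2, Int.floor_eq_iff.2 ⟨e2.1.le, e2.2⟩]

theorem Lt_cocy {c : ℕ} (hc : c < 2) : CocyOn (M.SideUp c) (M.Lt c) := by
  refine ⟨fun x => by rw [Side_Lt_same rfl, inv_mul_cancel], fun x hx => ?_⟩
  rcases side_local hM hc hx with h | ⟨r, m, hJ, h⟩ | ⟨j, β, -, hJ, h⟩
  · filter_upwards [h, eventually_eventually_nhdsWithin.2 h] with z e1 hw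
    filter_upwards [hw] with w e2
    rw [Side_Lt_same e2, Side_Lt_same e1, Side_Lt_same (e2.trans e1.symm)]
    group
  · refine Side_wall hx (fun z => M.tm r z.1) ((continuous_tm r).comp continuous_fst)
      (fun e => ?_) hJ h
    have h1 : m - 1 = m := congrArg Prod.snd e
    omega
  · refine Side_wall hx (fun z => z.2) continuous_snd (fun e => ?_) hJ h
    have h1 : j - 1 = j + 1 := congrArg Prod.fst e
    omega

omit hM in
theorem pot_add (c : ℕ) (x : ℂ × ℝ) (k m : ℤ) :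
    M.pot c (x + vec k m) = T (M.phZ (J c (sh x.2)) k m) * M.pot c x := by
  rw [vec_add, pot, pot, ← T_add]
  simp only [ph_add, Int.floor_add_intCast, add_comm]

theorem Lt_add (c : ℕ) (x z : ℂ × ℝ) (k m : ℤ) :
    M.Lt c (x + vec k m) (z + vec k m) = M.Lt c x z := by
  have hch : M.ch c (z + vec k m) = M.ch c (x + vec k m) ↔ M.ch c z = M.ch c x := by
    simp only [vec_add, ch, ti_add, Prod.mk.injEq]
    refine and_congr_right fun e => ?_
    rw [e, add_left_inj]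
  by_cases h : M.ch c z = M.ch c x
  · have e : J c (sh z.2) = J c (sh x.2) := congrArg Prod.fst h
    rw [Side_Lt_same (hch.2 h), Side_Lt_same h, pot_add, pot_add, e]
    group
  have e1 : (z + vec k m).2 = z.2 := by rw [vec_add]
  have e2 : Nest.Jm c (x + vec k m) = Nest.Jm c x := by rw [vec_add]; rfl
  by_cases h' : J c (sh z.2) = Nest.Jm c x
  swap
  · rw [Lt, Lt, if_neg h, if_neg h', if_neg (mt hch.1 h), e1, e2, if_neg h']
  have key : M.wl c (x + vec k m) =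
      T (M.phZ (J c (sh z.2)) k m) * M.wl c x * (T (M.phZ (J c (sh x.2)) k m))⁻¹ := by
    rw [vec_add]
    by_cases hA : x.2 + 1 / 2 = sh x.2 ∧ sh x.2 % 2 = c
    · rw [Nest.Jm, if_pos hA] at h'
      have h1 : sh x.2 ≠ 0 := fun h1 => h (by
        rw [ch, ch, h', Side_J_pos hA.2, h1, ti_end (by omega), ti_end (by omega)])
      rw [wl, wl, if_pos hA, if_pos hA, h', Side_J_pos hA.2]
      simp only [labE, ctr_add hM, ph_add, Int.floor_add_intCast]
      rw [Side_T_conj, show sh x.2 - 1 - 1 = sh x.2 - 2 by omega,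
        show sh x.2 - 1 + 1 = sh x.2 by omega]
    · rw [Nest.Jm, if_neg hA] at h'
      rw [wl, wl, if_neg hA, if_neg hA, h']
      simp only [labD, ph_add, Int.floor_add_intCast]
      rw [Side_T_conj]
  rw [Side_Lt_diff (mt hch.1 h) (by rw [e1, e2, h']), Side_Lt_diff h h', pot_add, pot_add, key]
  group

theorem side_cocy {c : ℕ} (hc : c < 2) : CocyOn (M.side c) (M.nest.down (M.Lt c)) := by
  refine Dt.down_cocy (det M) _ _ (fun x k m hx => (SideUp_add hM c x k m).2 hx)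
    (fun x hx => ⟨hx.1, hx.2.1⟩) (Lt_add hM c) (Lt_cocy hM hc) T T_add ?_ ?_
  · rintro ⟨x, hx, h0⟩ y z y0 y1 z0 z1
    obtain rfl := side_bot hM hx h0
    have e : ∀ {ρ : ℝ}, 0 ≤ ρ → ρ < 1 / 2 → J 0 (sh ρ) = 0 := fun a b => by
      rw [Side_sh_eq (i := 0) (by push_cast; linarith) (by push_cast; linarith)]
      rfl
    rw [Side_Lt_same (by rw [ch, ch, e y0 y1, e z0 z1, ti_end (by omega), ti_end (by omega)]),
      pot, pot, e y0 y1, e z0 z1, ph, ph, if_pos rfl, if_pos rfl]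
    simp [nest]
  · rintro ⟨x, hx, h0⟩ y z y0 y1 z0 z1
    obtain rfl := side_top hM hx h0
    have e : ∀ {ρ : ℝ}, M.l + 1 / 2 < ρ → ρ ≤ M.l + 1 → J (M.l % 2) (sh ρ) = M.l := fun a b => by
      rw [Side_sh_eq (i := M.l + 1) (by push_cast; linarith) (by push_cast; linarith),
        Side_J_neg (by omega), Nat.add_sub_cancel]
    have hl : M.l ≠ 0 := by have := hM.one_le; omega
    rw [Side_Lt_same (by rw [ch, ch, e y0 y1, e z0 z1, ti_end (by omega), ti_end (by omega)]),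
      pot, pot, e y0 y1, e z0 z1, ph, ph, if_neg hl, if_neg hl, if_pos rfl, if_pos rfl]
    simp [nest]

theorem isClosed_side (c : ℕ) : IsClosed (M.side c) := by
  exact (Nest.isCompact_image (fun x k m hx => (SideUp_add hM c x k m).2 hx)
    (fun x hx => ⟨hx.1, hx.2.1⟩) (isClosed_SideUp hM c)).isClosed

theorem side_union : M.side 0 ∪ M.side 1 = univ := by
  refine eq_univ_of_forall fun p => ?_
  rcases side_cover hM (x := M.nest.sec 0 p) (Nest.rho_mem p).1 (Nest.rho_mem p).2 with h | h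
  · exact Or.inl ⟨_, h, Dt.E_sec (det M) 0 p⟩
  · exact Or.inr ⟨_, h, Dt.E_sec (det M) 0 p⟩

theorem side_inter_side : M.side 0 ∩ M.side 1 = M.surf := by
  refine Subset.antisymm ?_ (subset_inter (image_mono (FUp_sub_side hM zero_lt_two))
    (image_mono (FUp_sub_side hM one_lt_two)))
  rintro _ ⟨⟨x, hx, rfl⟩, y, hy, e⟩
  have e2 : y.2 = x.2 := (Nest.rho_E (N := M.nest) hy.1 hy.2.1).symm.trans
    ((congrArg M.nest.rho e).trans (Nest.rho_E (N := M.nest) hx.1 hx.2.1))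
  have h0 : 0 < x.2 := hx.1.lt_of_ne fun h => one_ne_zero (side_bot hM hy (e2.trans h.symm))
  have h1 : x.2 < M.l + 1 := hx.2.1.lt_of_ne fun h =>
    zero_ne_one ((side_top hM hx h).trans (side_top hM hy (e2.trans h)).symm)
  have h2 := (Dt.E_mem_image (det M) (fun x k m hx => (SideUp_add hM 1 x k m).2 hx)
    (fun x hx => ⟨hx.1, hx.2.1⟩) h0 h1).1 ⟨y, hy, e⟩
  exact ⟨x, side_inter hM ▸ ⟨hx, h2⟩, rfl⟩

theorem isCompact_surf : IsCompact M.surf := by
  exact Nest.isCompact_image (fun x k m hx => (FUp_add hM x k m).2 hx)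
    (fun x hx => ⟨(Side_depth hM hx).1.le, (Side_depth hM hx).2.le⟩) (isClosed_FUp hM)

theorem image_YUp : M.E '' M.YUp = M.surf \ M.knot := by
  refine Subset.antisymm ?_ ?_
  · rintro _ ⟨x, hx, rfl⟩
    refine ⟨⟨x, hx.1, rfl⟩, fun h => hx.2 ?_⟩
    exact (Dt.E_mem_image (det M) (fun x k m hx => (knotUp_add hM x k m).2 hx)
      (fun x hx => ⟨(Side_depth hM (knot_sub hM hx)).1.le, (Side_depth hM (knot_sub hM hx)).2.le⟩)
      (Side_depth hM hx.1).1 (Side_depth hM hx.1).2).1 h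
  · rintro _ ⟨⟨x, hx, rfl⟩, h⟩
    exact ⟨x, ⟨hx, fun h' => h ⟨x, h', rfl⟩⟩, rfl⟩

/-- The projection of the surface minus the knot. -/
noncomputable def pr : C(↥M.YUp, ↥(M.surf \ M.knot)) :=
  ⟨fun x => ⟨M.E x, image_YUp hM ▸ mem_image_of_mem _ x.2⟩,
    (Nest.continuous_E.comp continuous_subtype_val).subtype_mk _⟩

theorem pr_surjective : Function.Surjective (pr hM) := by
  rintro ⟨p, hp⟩
  obtain ⟨x, hx, rfl⟩ : p ∈ M.E '' M.YUp := (image_YUp hM).symm ▸ hp
  exact ⟨⟨x, hx⟩, rfl⟩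

/-- Local sections of the projection through every point (`sec` and `sec_add`). -/
theorem pr_sections (y : ↥(M.surf \ M.knot)) : ∃ U ∈ 𝓝 y, ∀ z : ↥M.YUp, pr hM z ∈ U →
    ∃ s : ↥(M.surf \ M.knot) → ↥M.YUp, ContinuousOn s U ∧ s (pr hM z) = z ∧
      ∀ u ∈ U, pr hM (s u) = u := by
  obtain ⟨x, rfl⟩ := pr_surjective hM y
  have hd : ∀ z : ↥M.YUp, 0 < (M.nest.sec x (M.E z)).2 ∧ (M.nest.sec x (M.E z)).2 < M.l + 1 := fun z => by
    have h := Side_depth hM z.2.1
    have e : (M.nest.sec x (M.E z)).2 = z.1.2 := Nest.rho_E h.1.le h.2.le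
    rwa [e]
  have hm : ∀ u : ↥(M.surf \ M.knot), M.nest.sec x u ∈ M.YUp := fun u => by
    obtain ⟨z, rfl⟩ := pr_surjective hM u
    exact (Dt.E_mem_image (det M) (fun x k m hx => (YUp_add hM x k m).2 hx)
      (fun x hx => ⟨(Side_depth hM hx.1).1.le, (Side_depth hM hx.1).2.le⟩) (hd z).1 (hd z).2).1
      ⟨z, z.2, (Dt.E_sec (det M) _ _).symm⟩
  refine ⟨{u | ContinuousAt (M.nest.sec x) u}, continuous_subtype_val.continuousAt.eventually
    (Dt.sec_continuousAt (det M) (Side_depth hM x.2.1).1 (Side_depth hM x.2.1).2), fun z _ => ?_⟩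
  obtain ⟨k, m, e⟩ := Dt.E_eq (det M) (hd z).1 (hd z).2 (Side_depth hM z.2.1).1.le
    (Side_depth hM z.2.1).2.le (Dt.E_sec (det M) _ _)
  refine ⟨fun u => ⟨M.nest.sec x u + vec k m, (YUp_add hM _ k m).2 (hm u)⟩, fun u hu => ?_,
    Subtype.ext e.symm, fun u _ => Subtype.ext ((Nest.E_add _ k m).trans (Dt.E_sec (det M) _ _))⟩
  refine ContinuousAt.continuousWithinAt (Topology.IsInducing.subtypeVal.continuousAt_iff.2 ?_)
  exact (ContinuousAt.comp (f := fun u : ↥(M.surf \ M.knot) => (u : S3)) hu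
    continuous_subtype_val.continuousAt).add continuousAt_const

end Lev

end OneOne
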