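import Pool.Agent.Work.MP_d5331a_gt.Defs

/-!
Knots with one bridge over the standard torus of the 3-sphere, given by a plane path.
-/

set_option autoImplicit false

open Complex Set

namespace OneOne

open Neuwirth

/-- The point of the 3-sphere with angles `im ζ`, `re ζ` (in turns) on the torus of latitude `s`;
`s = 0` and `s = 1` are the two core circles. -/
noncomputable def pt (ζ : ℂ) (s : ℝ) : S3 :=
  ⟨((Real.cos (Real.pi * s / 2) : ℝ) * exp (((2 * Real.pi * ζ.im : ℝ) : ℂ) * I),
    (Real.sin (Real.pi * s / 2) : ℝ) * exp (((2 * Real.pi * ζ.re : ℝ) : ℂ) * I)), by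
    simp only [norm_mul, norm_exp_ofReal_mul_I, mul_one, norm_real, Real.norm_eq_abs, sq_abs]
    exact Real.cos_sq_add_sin_sq _⟩

/-- The knot of the path `γ`: the two strands over `0` and over `γ s` at latitude `s`, closed up
by an arc on each core circle. -/
def knot (γ : ℝ → ℂ) : Set S3 :=
  pt 0 '' Icc 0 1 ∪ (fun s => pt (γ s) s) '' Icc 0 1 ∪
    (fun y : ℝ => pt (y * I) 0) '' Icc 0 (γ 0).im ∪
    (fun x : ℝ => pt x 1) '' Icc (γ 1).re ⌈(γ 1).re⌉

/-- The torus knot of type `(p, q)`. -/
def torusKnot (p q : ℤ) : Set S3 := range fun t : ℝ => pt (t * (p + q * I)) (1 / 2)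

end OneOne
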