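import Pool.Agent.Work.MP_d5331a_gt.A1.Flip
import Pool.Agent.Work.MP_d5331a_gt.A1.Comb
import Mathlib

-- merged part: Pool.Agent.Work.MP_d5331a_gt.A1.Seg
section
/-!
Chains of lattice segments. A segment carries a potential for the gates it crosses; two segments
of a chain are joined by an arc round their common peg.
-/

set_option autoImplicit false

namespace AllOne

/-- A segment from the peg `(x, y)` along the vector `(p, q)`. -/
structure Seg (G : Type) where
  x : ℤ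
  y : ℤ
  p : ℤ
  q : ℤ
  W : ℤ → G

/-- The cell of a sector round a peg of the column `c`. -/
def cel (c σ : ℤ) : ℤ := if Even σ then c else c - 1

/-- The peg from which the gate of level `n` is seen in the vertical direction `δ`. -/
def pg (δ n : ℤ) : ℤ := if δ = 1 then n else n + 1

/-- The cell before the column `c` is crossed in the direction `d`. -/
def cb (c d : ℤ) : ℤ := if d = 1 then c - 1 else c

/-- The cell after the column `c` is crossed in the direction `d`. -/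
def ca (c d : ℤ) : ℤ := if d = 1 then c else c - 1

/-- The condition at a peg: the arc sweeps at least a half turn, or it is a good bounce. -/
def VC (p q p' q' d : ℤ) : Prop := ∃ e : ℤ, (e = 1 ∨ e = -1) ∧ (2 ≤ e * d ∨
  (e * d = 1 ∧ e * (q * p' - p * q') ≤ 0) ∨ (p = p' ∧ q = q') ∨
  ((d = 0 ∨ e * d = 1) ∧ ∃ A B : ℤ, 0 < A * p + B * q ∧ 0 < A * p' + B * q' ∧
    (A * p + B * q = 1 ∨ A * p' + B * q' = 1) ∧
    2 * (A * p + B * q + (A * p' + B * q')) ≤ e * (q * p' - p * q')))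

variable {G : Type} [Group G] (g : ℤ → ℤ → G)

/-- The value after the gate `(c, n)` is crossed in the direction `d`. -/
def cr (c n d : ℤ) (V : G) : G := if d = 1 then V * g c n else V * (g c n)⁻¹

/-- The segment runs inside a channel. -/
def Seg.ok (s : Seg G) : Prop := ∃ lo : ℤ → ℤ, Pot (fun c => g c (lo c)) s.W ∧
  ∀ t : ℝ, 0 < t → t < 1 → ∀ c : ℤ, s.x + t * s.p = c →
    lo c < s.y + t * s.q ∧ s.y + t * s.q < lo c + 1

def Step (s s' : Seg G) : Prop := s'.ok g ∧ s'.x = s.x + s.p ∧ s'.y = s.y + s.q ∧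
  ∃ (A : ℤ → G) (σ σ' : ℤ), Pot (rg g s'.x s'.y) A ∧ (Even σ ↔ s.p ≤ 0) ∧ (Even σ' ↔ 0 ≤ s'.p) ∧
    A σ = s.W (cel s'.x σ) ∧ A σ' = s'.W (cel s'.x σ') ∧ VC s.p s.q s'.p s'.q (σ' - σ)

abbrev Chain : Seg G → Seg G → Prop := Relation.ReflTransGen (Step g)

/-- The chain has arrived at a peg and has turned round it by at least a half turn; it points to
the gate `(c, n)` in the direction `δ`, is about to cross it in the direction `d` and has the
value `V`. -/
def St (s₀ : Seg G) (c n d δ : ℤ) (V : G) : Prop := ∃ s, Chain g s₀ s ∧ s.x + s.p = c ∧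
  s.y + s.q = pg δ n ∧ ∃ (A : ℤ → G) (σ ν : ℤ), Pot (rg g c (pg δ n)) A ∧ (Even σ ↔ s.p ≤ 0) ∧
    A σ = s.W (cel c σ) ∧ (Even ν ↔ d = -1) ∧ A ν = V ∧ ((d = 1 ∧ 1 ≤ -δ * (ν - σ)) ∨
      (d = -1 ∧ (2 ≤ δ * (ν - σ) ∨ (ν = σ + δ ∧ 0 < s.p) ∨ (ν = σ ∧ s.p = 0 ∧ s.q = δ))))

/-- The chain ends on the column next to `c`, after the gate `(c, n)` has been crossed. -/
def ColA (s₀ : Seg G) (c n d : ℤ) (V : G) : Prop := ∃ s, Chain g s₀ s ∧ s.x + s.p = c + d ∧
  2 ≤ d * s.p ∧ n * (d * s.p) < (s.y + s.q) * (d * s.p) - s.q ∧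
    (s.y + s.q) * (d * s.p) - s.q < (n + 1) * (d * s.p) ∧ s.W (ca c d) = V

/-- The segment starts on a row next to the row `1` and crosses this row in the cell `m`. -/
def RowA (s : Seg G) (κ m : ℤ) (Z : ℤ → G) : Prop := s.ok g ∧ s.y = 1 - κ ∧ 2 ≤ κ * s.q ∧
  (m - s.x) * (κ * s.q) < s.p ∧ s.p < (m + 1 - s.x) * (κ * s.q) ∧
    s.W (if 0 ≤ s.p then s.x else s.x - 1) = Z (if 0 ≤ s.p then s.x else s.x - 1)

variable {g}

theorem Seg.ok.coprime {s : Seg G} (h : s.ok g) : IsCoprime s.p s.q := by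
  obtain ⟨lo, -, h⟩ := h
  have key : ∀ (t : ℝ) (a b : ℤ), 0 < t → t < 1 → t * s.p = a → t * s.q = b → False :=
    fun t a b h0 h1 e1 e2 => by
      obtain ⟨h2, h3⟩ := h t h0 h1 (s.x + a) (by rw [e1, Int.cast_add])
      rw [e2] at h2 h3
      have h4 : lo (s.x + a) < s.y + b := by exact_mod_cast h2
      have h5 : s.y + b < lo (s.x + a) + 1 := by exact_mod_cast h3
      omega
  rw [Int.isCoprime_iff_gcd_eq_one]
  by_contra hg
  rcases Nat.eq_zero_or_pos (Int.gcd s.p s.q) with h0 | h0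
  · obtain ⟨e1, e2⟩ := Int.gcd_eq_zero_iff.1 h0
    exact key (1 / 2) 0 0 (by norm_num) (by norm_num) (by simp [e1]) (by simp [e2])
  · obtain ⟨a, ha⟩ := Int.gcd_dvd_left s.p s.q
    obtain ⟨b, hb⟩ := Int.gcd_dvd_right s.p s.q
    have h2 : (2 : ℝ) ≤ (Int.gcd s.p s.q : ℤ) := by exact_mod_cast (by omega : 2 ≤ Int.gcd s.p s.q)
    generalize (Int.gcd s.p s.q : ℤ) = k at ha hb h2
    have h3 : (k : ℝ) ≠ 0 := by linarith only [h2]
    refine key (1 / k) a b (by positivity) ((div_lt_one (by linarith only [h2])).2 (by linarith)) ?_ ?_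
    · rw [ha]; push_cast; field_simp
    · rw [hb]; push_cast; field_simp

theorem Pot.cross {lo : ℤ → ℤ} {W : ℤ → G} (h : Pot (fun c => g c (lo c)) W) (c d : ℤ) :
    W (ca c d) = cr g c (lo c) d (W (cb c d)) := by
  unfold ca cb cr
  split_ifs
  · exact (h c).symm
  · rw [← h c, mul_inv_cancel_right]

theorem rot_cross {c n d δ ν : ℤ} {A : ℤ → G} (hA : Pot (rg g c (pg δ n)) A) (hd : d = 1 ∨ d = -1)
    (hδ : δ = 1 ∨ δ = -1) (hν : Even ν ↔ d = -1) : A (ν + -(d * δ)) = cr g c n d (A ν) := by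
  have h1 := hA ν
  have h2 := hA (ν + 1)
  rw [add_sub_cancel_right] at h2
  rcases hd with rfl | rfl <;> rcases hδ with rfl | rfl <;>
    simp [rg, pg, cr, Int.even_add_one] at hν h1 h2 ⊢ <;> simp only [Int.not_even_iff_odd.2, hν,
      Int.not_odd_iff_even.2, if_true, if_false] at h1 h2
  · rw [← h1, ← sub_eq_add_neg, inv_mul_cancel_right]
  · exact h2.symm
  · exact h2.symm
  · rw [← h1, ← sub_eq_add_neg, mul_inv_cancel_right]

variable {s₀ : Seg G} {c n d δ : ℤ} {V : G}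

theorem St.rot (h : St g s₀ c n d δ V) (hδ : δ = 1 ∨ δ = -1) :
    St g s₀ c (n - δ) (-d) (-δ) (cr g c n d V) := by
  obtain ⟨s, h1, h2, h3, A, σ, ν, h4, h5, h6, h7, rfl, h9⟩ := h
  have hd : d = 1 ∨ d = -1 := h9.imp And.left And.left
  have e : pg (-δ) (n - δ) = pg δ n := by rcases hδ with rfl | rfl <;> simp [pg]
  refine ⟨s, h1, h2, e ▸ h3, A, σ, ν + -(d * δ), e ▸ h4, h5, h6, ?_, rot_cross h4 hd hδ h7, ?_⟩
  · rw [Int.even_iff] at h7 ⊢
    rcases hd with rfl | rfl <;> rcases hδ with rfl | rfl <;> omega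
  · rcases hδ with rfl | rfl <;> rcases hd with rfl | rfl <;> omega

theorem St.run (h : St g s₀ c n d δ V) (hδ : δ = 1 ∨ δ = -1) {s' : Seg G} (ok : s'.ok g)
    (hx : s'.x = c) (hy : s'.y = pg δ n) (hp : 0 < d * s'.p) (hW : s'.W (ca c d) = cr g c n d V) :
    Chain g s₀ s' := by
  obtain ⟨s, h1, h2, h3, A, σ, ν, h4, h5, h6, h7, rfl, h9⟩ := h
  have hd : d = 1 ∨ d = -1 := h9.imp And.left And.left
  have e : Even (ν + -(d * δ)) ↔ d = 1 := by
    rw [Int.even_iff] at h7 ⊢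
    rcases hd with rfl | rfl <;> rcases hδ with rfl | rfl <;> omega
  refine h1.tail ⟨ok, by omega, by omega, A, σ, ν + -(d * δ), hx ▸ hy ▸ h4, h5, ?_, hx ▸ h6, ?_,
    -(d * δ), ?_, ?_⟩
  · rw [e]
    rcases hd with rfl | rfl <;> omega
  · rw [rot_cross h4 hd hδ h7, ← hW, hx, cel, ca]
    simp only [e]
  · rcases hδ with rfl | rfl <;> rcases hd with rfl | rfl <;> simp
  · rcases h9 with ⟨rfl, h9⟩ | ⟨rfl, h9 | ⟨rfl, h9⟩ | ⟨rfl, h9, h10⟩⟩
    · left
      rcases hδ with rfl | rfl <;> omega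
    · left
      rcases hδ with rfl | rfl <;> omega
    · left
      rcases hδ with rfl | rfl <;> omega
    · rw [h9, h10]
      refine Or.inr (Or.inl ?_)
      rcases hδ with rfl | rfl <;> omega

theorem St.vert (h : St g s₀ c n d δ V) (hδ : δ = 1 ∨ δ = -1) {d' : ℤ} (hd' : d' = 1 ∨ d' = -1) :
    St g s₀ c (n + δ) d' δ
      ((if d = 1 then V * g c n else V) * if d' = 1 then (g c n)⁻¹ else 1) := by
  obtain ⟨s, h1, h2, h3, A, σ, ν, h4, h5, h6, h7, rfl, h9⟩ := h
  have hd : d = 1 ∨ d = -1 := h9.imp And.left And.left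
  obtain ⟨W, hW, e1⟩ := exists_pot (fun c => g c n) c (if d = 1 then A ν * g c n else A ν)
  obtain ⟨A', hA', e2⟩ := exists_pot (rg g c (pg δ (n + δ))) 0 (W c)
  have e : pg δ (n + δ) = pg (-δ) n := by rcases hδ with rfl | rfl <;> simp [pg]
  have e0 : Even (if d = 1 then ν + -(d * δ) else ν) := by
    rw [Int.even_iff] at h7 ⊢
    split_ifs <;> rcases hd with rfl | rfl <;> rcases hδ with rfl | rfl <;> omega
  refine ⟨⟨c, pg δ n, 0, δ, W⟩, h1.tail ⟨⟨fun _ => n, hW, fun t t0 t1 _ _ => ?_⟩, h2.symm, h3.symm,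
    A, σ, _, h4, h5, iff_of_true e0 le_rfl, h6, ?_, -(d * δ), ?_, ?_⟩, add_zero c, ?_, A', 0,
    if d' = 1 then -δ else 0, hA', by simp, by simpa [cel] using e2, ?_, ?_, ?_⟩
  · rcases hδ with rfl | rfl <;> simp [pg] <;> constructor <;> linarith only [t0, t1]
  · simp only [cel, e0, if_true, e1]
    split_ifs with h
    · rw [rot_cross h4 hd hδ h7, cr, if_pos h]
    · rfl
  · rcases hδ with rfl | rfl <;> rcases hd with rfl | rfl <;> simp
  · rcases h9 with ⟨rfl, h9⟩ | ⟨rfl, h9 | ⟨rfl, h9⟩ | ⟨rfl, h9, h10⟩⟩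
    · left
      rcases hδ with rfl | rfl <;> simp only [if_true] <;> omega
    · left
      rcases hδ with rfl | rfl <;> simp only [if_neg (show ¬ (-1 : ℤ) = 1 by omega)] <;> omega
    · refine Or.inr (Or.inl ?_)
      rcases hδ with rfl | rfl <;> simp only [if_neg (show ¬ (-1 : ℤ) = 1 by omega)] <;> omega
    · exact Or.inr (Or.inr (Or.inl ⟨h9, h10⟩))
  · rcases hδ with rfl | rfl <;> simp [pg]
  · rcases hδ with rfl | rfl <;> rcases hd' with rfl | rfl <;> simp
  · rw [← e1, ← e2]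
    split_ifs with h
    · have := rot_cross (e ▸ hA') (d := -1) (δ := -δ) (ν := 0) (Or.inr rfl) (by omega) (by simp)
      simpa [cr] using this
    · rw [mul_one]
  · rcases hδ with rfl | rfl <;> rcases hd' with rfl | rfl <;> simp

theorem St.dir (h : St g s₀ c n d δ V) : d = 1 ∨ d = -1 := by
  obtain ⟨s, -, -, -, A, σ, ν, -, -, -, -, -, h9⟩ := h
  exact h9.imp And.left And.left

theorem St.turn (h : St g s₀ c n d δ V) (hδ : δ = 1 ∨ δ = -1) {δ' : ℤ} (hδ' : δ' = 1 ∨ δ' = -1) :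
    St g s₀ c (n + δ') (-d) δ' (cr g c n d V) := by
  rcases (by omega : δ' = δ ∨ δ' = -δ) with rfl | rfl
  · have := h.vert hδ (d' := -d) (by have := h.dir; omega)
    rcases h.dir with rfl | rfl <;> simpa [cr] using this
  · exact h.rot hδ

theorem St.climb (h : St g s₀ c (n + δ) d δ V) (hδ : δ = 1 ∨ δ = -1) {n' : ℤ}
    (hn : 0 < δ * (n' - n)) : St g s₀ c n' d δ V := by
  have key : ∀ k : ℕ, St g s₀ c (n + δ + k * δ) d δ V := fun k => by
    induction k with
    | zero => simpa using h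
    | succ k ih =>
      have := ih.vert hδ h.dir
      rw [show n + δ + (k + 1 : ℕ) * δ = n + δ + k * δ + δ by push_cast; ring]
      rcases h.dir with rfl | rfl <;> simpa using this
  have := key (δ * (n' - n) - 1).toNat
  rwa [show n + δ + (δ * (n' - n) - 1).toNat * δ = n' by rcases hδ with rfl | rfl <;> omega] at this

theorem St.arrive {s : Seg G} (h : Chain g s₀ s) (hd : d = 1 ∨ d = -1) (hδ : δ = 1 ∨ δ = -1)
    (hx : s.x + s.p = c) (hy : s.y + s.q = pg (-δ) n) (hp : 0 < d * s.p) (hW : s.W (cb c d) = V) :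
    St g s₀ c (n + δ) (-d) δ (cr g c n d V) := by
  have e : pg δ (n + δ) = pg (-δ) n := by rcases hδ with rfl | rfl <;> simp [pg]
  obtain ⟨A, hA, e1⟩ := exists_pot (rg g c (pg (-δ) n)) (if d = 1 then 1 else 0) V
  have e2 := rot_cross hA hd (by omega) (ν := if d = 1 then 1 else 0)
    (by rcases hd with rfl | rfl <;> simp)
  refine ⟨s, h, hx, e ▸ hy, A, if d = 1 then 1 else 0, _, e ▸ hA, ?_, ?_, ?_, e1 ▸ e2, ?_⟩
  · rcases hd with rfl | rfl <;> simp <;> omega
  · rw [e1, ← hW]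
    rcases hd with rfl | rfl <;> simp [cel, cb]
  · rcases hd with rfl | rfl <;> rcases hδ with rfl | rfl <;> simp
  · rcases hd with rfl | rfl <;> rcases hδ with rfl | rfl <;> simp <;> omega

theorem step_cross {s s' : Seg G} {lo : ℤ → ℤ} (hW : Pot (fun c => g c (lo c)) s.W) (ok : s'.ok g)
    (e : s'.W = s.W) (hx : s'.x = s.x + s.p) (hy : s'.y = s.y + s.q) (hd : d = 1 ∨ d = -1)
    (hδ : δ = 1 ∨ δ = -1) (hp : 0 < d * s.p) (hp' : 0 < d * s'.p) (hl : s'.y = pg δ (lo s'.x))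
    (h : -(d * δ) * (s.q * s'.p - s.p * s'.q) ≤ 0) : Step g s s' := by
  obtain ⟨A, hA, e1⟩ := exists_pot (rg g s'.x (pg δ (lo s'.x))) (if d = 1 then 1 else 0)
    (s.W (cb s'.x d))
  have e2 := rot_cross hA hd hδ (ν := if d = 1 then 1 else 0)
    (by rcases hd with rfl | rfl <;> simp)
  refine ⟨ok, hx, hy, A, if d = 1 then 1 else 0, (if d = 1 then 1 else 0) + -(d * δ), hl ▸ hA,
    ?_, ?_, ?_, ?_, -(d * δ), ?_, Or.inr (Or.inl ⟨?_, h⟩)⟩
  · rcases hd with rfl | rfl <;> simp <;> omega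
  · rcases hd with rfl | rfl <;> rcases hδ with rfl | rfl <;> simp <;> omega
  · rw [e1]
    rcases hd with rfl | rfl <;> simp [cel, cb]
  · rw [e2, e1, ← hW.cross, e]
    rcases hd with rfl | rfl <;> rcases hδ with rfl | rfl <;> simp [cel, ca]
  · rcases hd with rfl | rfl <;> rcases hδ with rfl | rfl <;> simp
  · rcases hd with rfl | rfl <;> rcases hδ with rfl | rfl <;> simp

theorem ColA.bounce (h : ColA g s₀ c n d V) (hd : d = 1 ∨ d = -1) {n' : ℤ} (hn : n' ≠ n) :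
    ColA g s₀ c n' (-d) (cr g c n' (-d) V) := by
  obtain ⟨s, h1, h2, h3, h4, h5, h6⟩ := h
  obtain ⟨W, hW, e1⟩ := exists_pot (fun c => g c n') (ca c d) V
  obtain ⟨A, hA, e2⟩ := exists_pot (rg g (c + d) (s.y + s.q)) (if d = 1 then 1 else 0) V
  have e3 : cel (c + d) (if d = 1 then 1 else 0) = ca c d := by
    rcases hd with rfl | rfl <;> simp [cel, ca] <;> omega
  refine ⟨⟨c + d, s.y + s.q, -(2 * d), 2 * n' + 1 - 2 * (s.y + s.q), W⟩, h1.tail
    ⟨⟨fun _ => n', hW, fun t t0 t1 c' e => ?_⟩, h2.symm, rfl, A, _, _, hA, ?_, ?_,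
      by rw [e2, e3, h6], by rw [e2, e3]; exact e1.symm, ?_⟩, by dsimp only; ring, ?_, ?_, ?_, ?_⟩
  · have h7 : t = 1 / 2 := by
      have h8 : (c : ℝ) - 1 < c' ∧ (c' : ℝ) < c + 1 := by
        rcases hd with rfl | rfl <;> push_cast at e <;> constructor <;> linarith only [t1, e, t0]
      have h9 : c - 1 < c' := by exact_mod_cast h8.1
      have h10 : c' < c + 1 := by exact_mod_cast h8.2
      obtain rfl : c' = c := by omega
      rcases hd with rfl | rfl <;> push_cast at e <;> linarith only [e]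
    subst h7
    push_cast
    constructor <;> linarith only []
  · rcases hd with rfl | rfl <;> simp <;> omega
  · rcases hd with rfl | rfl <;> simp
  · dsimp only
    generalize s.y + s.q = y at h4 h5
    obtain ⟨P, hP⟩ : ∃ P, s.p = d * P := ⟨d * s.p, by rcases hd with rfl | rfl <;> simp⟩
    have e4 : d * s.p = P := by rcases hd with rfl | rfl <;> simp [hP]
    rw [e4] at h3 h4 h5
    rw [hP, sub_self]
    rcases hn.lt_or_gt with k | k
    · have k1 := mul_le_mul_of_nonneg_right (show n' + 1 ≤ n from k) (show 0 ≤ P by omega)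
      refine ⟨d, hd, Or.inr (Or.inr (Or.inr ⟨Or.inl rfl, d * (y - n' - 1), -1, ?_⟩))⟩
      rcases hd with rfl | rfl <;> refine ⟨by linarith only [h4, k1], by linarith, Or.inr (by ring), by linarith only [h5, h4]⟩
    · have k1 := mul_le_mul_of_nonneg_right (show n + 1 ≤ n' from k) (show 0 ≤ P by omega)
      refine ⟨-d, by omega, Or.inr (Or.inr (Or.inr ⟨Or.inl rfl, d * (n' - y), 1, ?_⟩))⟩
      rcases hd with rfl | rfl <;> refine ⟨by linarith only [h5, k1], by linarith, Or.inr (by ring), by linarith only [h5, h4]⟩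
  · rcases hd with rfl | rfl <;> simp
  · rcases hd with rfl | rfl <;> dsimp only <;> linarith only []
  · rcases hd with rfl | rfl <;> dsimp only <;> linarith
  · dsimp only
    rw [hW.cross, ← e1]
    rcases hd with rfl | rfl <;> simp [ca, cb]

theorem RowA.bounce {s : Seg G} {κ m m' : ℤ} {Z Z' : ℤ → G} (h : RowA g s κ m Z)
    (hκ : κ = 1 ∨ κ = -1) (hZ : Pot (fun c => g c (if κ = 1 then 0 else 1)) Z)
    (hZ' : Pot (fun c => g c (if -κ = 1 then 0 else 1)) Z') (hm : m' ≠ m) (e : Z' m' = Z m') :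
    ∃ s', Step g s' s ∧ RowA g s' (-κ) m' Z' := by
  obtain ⟨h1, h2, h3, h4, h5, h6⟩ := h
  obtain ⟨W, hW, e1⟩ := exists_pot (fun c => g c (if (c ≤ m' ↔ m' < s.x) then
    (if -κ = 1 then 0 else 1) else if κ = 1 then 0 else 1)) m' (Z m')
  obtain ⟨A, hA, e2⟩ := exists_pot (rg g s.x s.y) 0 (Z s.x)
  have e3 : A κ = Z (s.x - 1) := by
    have := rot_cross (n := if κ = 1 then 0 else 1) (δ := κ) (d := -1) (ν := 0) (A := A) (c := s.x)
      (by rcases hκ with rfl | rfl <;> simpa [pg, h2] using hA) (Or.inr rfl) hκ (by simp)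
    rw [e2, ← hZ s.x] at this
    simpa [cr] using this
  have e4 : ∀ σ, σ = 0 ∨ σ = κ → A σ = Z (cel s.x σ) := by
    rintro _ (rfl | rfl)
    · simpa [cel] using e2
    · rcases hκ with rfl | rfl <;> simpa [cel] using e3
  have w1 : ∀ c, (m' < s.x → m' ≤ c) → (s.x ≤ m' → c ≤ m') → W c = Z c := fun c k1 k2 => by
    rcases lt_or_ge m' s.x with k | k
    · exact hW.up hZ e1 (k1 k) fun x x1 _ => by rw [if_neg (by omega)]
    · exact hW.down hZ e1 (k2 k) fun x _ x1 => by rw [if_neg (by omega)]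
  have w2 : ∀ c, (m' < s.x → c ≤ m') → (s.x ≤ m' → m' ≤ c) → W c = Z' c := fun c k1 k2 => by
    rcases lt_or_ge m' s.x with k | k
    · exact hW.down hZ' (e1.trans e.symm) (k1 k) fun x _ x1 => by rw [if_pos (by omega)]
    · exact hW.up hZ' (e1.trans e.symm) (k2 k) fun x x1 _ => by rw [if_pos (by omega)]
  refine ⟨⟨2 * m' + 1 - s.x, 1 + κ, 2 * s.x - 2 * m' - 1, -(2 * κ), W⟩, ⟨h1, by dsimp only; ring,
    by dsimp only; omega, A, if m' < s.x then κ else 0, if 0 ≤ s.p then 0 else κ, hA, ?_, ?_, ?_,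
    ?_, ?_⟩, ⟨_, hW, fun t t0 t1 c e => ?_⟩, by dsimp only; ring, ?_, ?_, ?_, w2 _ ?_ ?_⟩
  · rcases hκ with rfl | rfl <;> split_ifs <;> simp <;> omega
  · rcases hκ with rfl | rfl <;> split_ifs <;> simp <;> omega
  · dsimp only
    rw [e4 _ (by split_ifs <;> simp), w1] <;> rcases hκ with rfl | rfl <;> split_ifs <;>
      simp [cel] <;> omega
  · rw [e4 _ (by split_ifs <;> simp)]
    have : cel s.x (if 0 ≤ s.p then 0 else κ) = if 0 ≤ s.p then s.x else s.x - 1 := by
      rcases hκ with rfl | rfl <;> split_ifs <;> simp [cel]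
    rw [this, h6]
  · dsimp only
    obtain ⟨Q, hQ⟩ : ∃ Q, s.q = κ * Q := ⟨κ * s.q, by rcases hκ with rfl | rfl <;> simp⟩
    have e5 : κ * s.q = Q := by rcases hκ with rfl | rfl <;> simp [hQ]
    rw [e5] at h3 h4 h5
    rw [hQ]
    rcases hm.lt_or_gt with k | k
    · have k1 := mul_le_mul_of_nonneg_right (show m' + 1 ≤ m from k) (show 0 ≤ Q by omega)
      refine ⟨-κ, by omega, Or.inr (Or.inr (Or.inr ⟨?_, 1, κ * (s.x - m' - 1), ?_⟩))⟩
      · have k2 : s.x ≤ m' → 0 ≤ s.p := fun k2 => by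
          linarith only [k1, h3, h4, mul_le_mul_of_nonneg_right k2 (show 0 ≤ Q by omega)]
        rcases hκ with rfl | rfl <;> split_ifs <;> omega
      · rcases hκ with rfl | rfl <;> refine ⟨by linarith only [], by linarith only [h4, k1], Or.inl (by ring), by linarith only [h5, h4]⟩
    · have k1 := mul_le_mul_of_nonneg_right (show m + 1 ≤ m' from k) (show 0 ≤ Q by omega)
      refine ⟨κ, hκ, Or.inr (Or.inr (Or.inr ⟨?_, -1, κ * (m' - s.x), ?_⟩))⟩
      · have k2 : m' < s.x → s.p < 0 := fun k2 => by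
          linarith only [k1, h5, mul_le_mul_of_nonneg_right k2.le (show 0 ≤ Q by omega)]
        rcases hκ with rfl | rfl <;> split_ifs <;> omega
      · rcases hκ with rfl | rfl <;> refine ⟨by linarith only [], by linarith only [h5, k1], Or.inl (by ring), by linarith only [h5, h4]⟩
  · push_cast at e ⊢
    have k0 : (c : ℝ) - m' - 1 / 2 = (t - 1 / 2) * (2 * s.x - 2 * m' - 1) := by linarith only [e]
    have k1 : (c ≤ m' ∧ (c : ℝ) - m' - 1 / 2 < 0) ∨ (¬ c ≤ m' ∧ 0 < (c : ℝ) - m' - 1 / 2) := by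
      rcases le_or_gt c m' with k | k
      · exact Or.inl ⟨k, by linarith only [t0, t1, k, (Int.cast_le (R := ℝ)).2 k]⟩
      · have : (m' : ℝ) + 1 ≤ c := by exact_mod_cast k
        exact Or.inr ⟨k.not_ge, by linarith only [t0, t1, this]⟩
    have k2 : (m' < s.x ∧ (0 : ℝ) < 2 * s.x - 2 * m' - 1) ∨
        (¬ m' < s.x ∧ (2 * s.x - 2 * m' - 1 : ℝ) < 0) := by
      rcases lt_or_ge m' s.x with k | k
      · have : (m' : ℝ) + 1 ≤ s.x := by exact_mod_cast k
        exact Or.inl ⟨k, by linarith only [t0, t1, this]⟩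
      · exact Or.inr ⟨k.not_gt, by linarith only [t0, t1, k, (Int.cast_le (R := ℝ)).2 k]⟩
    rw [k0] at k1
    rcases k1 with ⟨a, a'⟩ | ⟨a, a'⟩ <;> rcases k2 with ⟨b, b'⟩ | ⟨b, b'⟩ <;>
      rcases hκ with rfl | rfl <;> simp [a, b] <;> clear * - a' b' t0 t1 <;> constructor <;> (refine lt_of_not_ge fun h_nl => ?_; linarith only [h_nl, t0, a', t1, b', mul_pos_of_neg_of_neg (Mathlib.Tactic.Linarith.sub_neg_of_lt t0) (Mathlib.Tactic.Linarith.sub_neg_of_lt a'), mul_pos_of_neg_of_neg (Mathlib.Tactic.Linarith.sub_neg_of_lt t1) (Mathlib.Tactic.Linarith.sub_neg_of_lt a'), mul_nonneg_of_nonpos_of_nonpos (le_of_lt (Mathlib.Tactic.Linarith.sub_neg_of_lt b')) (Mathlib.Tactic.Linarith.sub_nonpos_of_le h_nl)])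
  · rcases hκ with rfl | rfl <;> simp
  · rcases hκ with rfl | rfl <;> dsimp only <;> linarith only []
  · rcases hκ with rfl | rfl <;> dsimp only <;> linarith only []
  · dsimp only
    split_ifs <;> omega
  · dsimp only
    split_ifs <;> omega

end AllOne
end

-- merged part: Pool.Agent.Work.MP_d5331a_gt.OO.Lin
section
/-!
Linear algebra of the data.
-/

set_option autoImplicit false

open Complex Set

namespace OneOne

open Neuwirth

namespace Lev

variable {M : Lev}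

theorem det (M : Lev) : Dt.Det M.nest := Or.inr (by simp [nest])

theorem nest_l (M : Lev) : M.nest.l = M.l := rfl

theorem E_eq_pt (x : ℂ × ℝ) : M.E x = pt x.1 (x.2 / (M.l + 1)) := by
  have h : Real.pi * x.2 / (2 * ((M.l : ℝ) + 1)) = Real.pi * (x.2 / (M.l + 1)) / 2 := by
    field_simp
  refine Subtype.ext (Prod.ext ?_ ?_) <;> simp [E, Nest.E, nest, pt, h]

theorem L_add (i : ℕ) (x y : ℂ) : M.L i (x + y) = M.L i x + M.L i y := by
  simp only [L, add_re, add_im]; ring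

theorem L_sub (i : ℕ) (x y : ℂ) : M.L i (x - y) = M.L i x - M.L i y := by
  simp only [L, sub_re, sub_im]; ring

theorem L_neg (i : ℕ) (x : ℂ) : M.L i (-x) = -M.L i x := by
  simp only [L, neg_re, neg_im]; ring

theorem L_zero (i : ℕ) : M.L i 0 = 0 := by simp [L]

theorem L_real_mul (i : ℕ) (t : ℝ) (x : ℂ) : M.L i (t * x) = t * M.L i x := by
  simp only [L, re_ofReal_mul, im_ofReal_mul]; ring

theorem L_half (i : ℕ) (x : ℂ) : M.L i (x / 2) = M.L i x / 2 := by
  simp only [L, div_ofNat_re, div_ofNat_im]; ring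

theorem L_vec (i : ℕ) (k m : ℤ) : M.L i (k + m * I) = ((M.q i * k - M.p i * m : ℤ) : ℝ) := by
  simp [L]

theorem L_lam (r i : ℕ) : M.L r (M.lam i) = M.qq r i := by
  rw [lam, L_vec, qq]

theorem qq_self (i : ℕ) : M.qq i i = 0 := by rw [qq]; ring

theorem tm_add (i : ℕ) (x y : ℂ) : M.tm i (x + y) = M.tm i x + M.tm i y := by
  simp only [tm, add_re, add_im]; ring

theorem tm_sub (i : ℕ) (x y : ℂ) : M.tm i (x - y) = M.tm i x - M.tm i y := by
  simp only [tm, sub_re, sub_im]; ring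

theorem tm_neg (i : ℕ) (x : ℂ) : M.tm i (-x) = -M.tm i x := by
  simp only [tm, neg_re, neg_im]; ring

theorem tm_zero (i : ℕ) : M.tm i 0 = 0 := by simp [tm]

theorem tm_real_mul (i : ℕ) (t : ℝ) (x : ℂ) : M.tm i (t * x) = t * M.tm i x := by
  simp only [tm, re_ofReal_mul, im_ofReal_mul]; ring

theorem tm_half (i : ℕ) (x : ℂ) : M.tm i (x / 2) = M.tm i x / 2 := by
  simp only [tm, div_ofNat_re, div_ofNat_im]; ring

theorem tm_vec (i : ℕ) (k m : ℤ) : M.tm i (k + m * I) = ((M.C i * k + M.D i * m : ℤ) : ℝ) := by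
  simp [tm]

theorem tm_lam (r i : ℕ) : M.tm r (M.lam i) = M.nn r i := by
  rw [lam, tm_vec, nn]

theorem continuous_L (i : ℕ) : Continuous (M.L i) := by unfold L; fun_prop

theorem continuous_tm (i : ℕ) : Continuous (M.tm i) := by unfold tm; fun_prop

theorem continuous_ang (j : ℕ) : Continuous (M.ang j) := by unfold ang; fun_prop

theorem continuous_dir (j : ℕ) : Continuous (M.dir j) := by unfold dir ang; fun_prop

theorem continuous_unt (j : ℕ) (β : ℂ) : Continuous (M.unt j β) := by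
  have := continuous_dir (M := M) j
  unfold unt
  exact (continuous_fst.sub continuous_const).mul (continuous_conj.comp (this.comp (by fun_prop)))

theorem dir_zero (j : ℕ) : M.dir j 0 = M.ω j := by simp [dir, ang]

theorem ang_nonpos (j : ℕ) {s : ℝ} (h : s ≤ 0) : M.ang j s = 2 * M.a j * s := by
  rw [ang, min_eq_left h, max_eq_right h]; ring

theorem ang_nonneg (j : ℕ) {s : ℝ} (h : 0 ≤ s) : M.ang j s = 2 * M.b j * s := by
  rw [ang, min_eq_right h, max_eq_left h]; ring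

theorem β_zero : M.β 0 = 0 := by simp [β]

theorem β_succ (j : ℕ) : M.β (j + 1) = M.β j + M.lam (j + 1) / 2 := by
  rw [β, β, Finset.sum_Icc_succ_top (by omega), add_div]

theorem two_β (j : ℕ) : ∃ k m : ℤ, 2 * M.β j = k + m * I := by
  induction j with
  | zero => exact ⟨0, 0, by simp [β_zero]⟩
  | succ j ih =>
    obtain ⟨k, m, h⟩ := ih
    refine ⟨k + M.p (j + 1), m + M.q (j + 1), ?_⟩
    rw [β_succ, mul_add, h, lam]
    push_cast
    ring

theorem L_eq_im (i : ℕ) (ζ : ℂ) : M.L i ζ = -((starRingEnd ℂ) (M.lam i) * ζ).im := by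
  simp [L, lam]
  ring

theorem abs_L_le (i : ℕ) (ζ : ℂ) : |M.L i ζ| ≤ ((|M.p i| + |M.q i| : ℤ) : ℝ) * ‖ζ‖ := by
  have h1 := abs_re_le_norm ζ
  have h2 := abs_im_le_norm ζ
  have h3 := abs_sub (M.q i * ζ.re) (M.p i * ζ.im)
  rw [abs_mul, abs_mul] at h3
  push_cast
  have h4 := mul_le_mul_of_nonneg_left h1 (abs_nonneg (M.q i : ℝ))
  have h5 := mul_le_mul_of_nonneg_left h2 (abs_nonneg (M.p i : ℝ))
  rw [L]
  linarith only [h3, h4, h5]

theorem abs_tm_le (i : ℕ) (ζ : ℂ) : |M.tm i ζ| ≤ ((|M.C i| + |M.D i| : ℤ) : ℝ) * ‖ζ‖ := by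
  have h1 := abs_re_le_norm ζ
  have h2 := abs_im_le_norm ζ
  have h3 := abs_add_le (M.C i * ζ.re) (M.D i * ζ.im)
  rw [abs_mul, abs_mul] at h3
  push_cast
  have h4 := mul_le_mul_of_nonneg_left h1 (abs_nonneg (M.C i : ℝ))
  have h5 := mul_le_mul_of_nonneg_left h2 (abs_nonneg (M.D i : ℝ))
  rw [tm]
  linarith only [h3, h4, h5]

theorem band_range {j : ℕ} {β : ℂ} (hβ : β ∈ M.B j) : 1 ≤ j ∧ j < M.l := ⟨hβ.1, hβ.2.1⟩

theorem β_mem {j : ℕ} (h1 : 1 ≤ j) (h2 : j < M.l) : M.β j ∈ M.B j := ⟨h1, h2, 0, 0, by simp⟩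

theorem band_add {j : ℕ} {β : ℂ} (k m : ℤ) : β + (k + m * I) ∈ M.B j ↔ β ∈ M.B j := by
  refine and_congr_right fun _ => and_congr_right fun _ => ⟨?_, ?_⟩
  · rintro ⟨k', m', h⟩
    exact ⟨k' - k, m' - m, by push_cast; linear_combination h⟩
  · rintro ⟨k', m', h⟩
    exact ⟨k' + k, m' + m, by push_cast; linear_combination h⟩

theorem band_diff {j : ℕ} {β β' : ℂ} (hβ : β ∈ M.B j) (hβ' : β' ∈ M.B j) :
    ∃ k m : ℤ, β' = β + (k + m * I) := by
  obtain ⟨-, -, k, m, h⟩ := hβ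
  obtain ⟨-, -, k', m', h'⟩ := hβ'
  exact ⟨k' - k, m' - m, by push_cast; linear_combination h' - h⟩

theorem band_neg {j : ℕ} {β : ℂ} (hβ : β ∈ M.B j) : -β ∈ M.B j := by
  obtain ⟨h1, h2, k, m, h⟩ := hβ
  obtain ⟨k', m', h'⟩ := two_β (M := M) j
  exact ⟨h1, h2, -k - k', -m - m', by push_cast; linear_combination -h - h'⟩

variable (hM : M.Good)
include hM

theorem nn_self (i : ℕ) : M.nn i i = 1 := hM.bez i

theorem nn_pos' {r i : ℕ} (h1 : 1 ≤ r) (h2 : r < M.l) (hi : i = r ∨ i = r + 1) : 0 < M.nn r i := by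
  rcases hi with rfl | rfl
  · rw [nn_self hM]; exact one_pos
  · exact hM.nn_pos r h1 h2

theorem L_change (r i : ℕ) (ζ : ℂ) : M.L i ζ = M.nn r i * M.L r ζ - M.qq r i * M.tm r ζ := by
  have h : (M.C r : ℝ) * M.p r + M.D r * M.q r = 1 := by exact_mod_cast hM.bez r
  simp only [L, tm, nn, qq]
  push_cast
  linear_combination (M.p i * ζ.im - M.q i * ζ.re) * h

theorem eq_zero_of_tm_L (r : ℕ) {ζ : ℂ} (h1 : M.tm r ζ = 0) (h2 : M.L r ζ = 0) : ζ = 0 := by
  have h : (M.C r : ℝ) * M.p r + M.D r * M.q r = 1 := by exact_mod_cast hM.bez r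
  simp only [L, tm] at h1 h2
  refine Complex.ext ?_ ?_
  · rw [zero_re]; linear_combination M.p r * h1 + M.D r * h2 - ζ.re * h
  · rw [zero_im]; linear_combination M.q r * h1 - M.C r * h2 - ζ.im * h

/-- Every vector in the coordinates `(tm r, L r)`. -/
theorem eq_coord (r : ℕ) (ζ : ℂ) :
    ζ = (M.tm r ζ : ℝ) * M.lam r + (M.L r ζ : ℝ) * ((M.D r : ℂ) + (-M.C r : ℤ) * I) := by
  have h : (M.C r : ℝ) * M.p r + M.D r * M.q r = 1 := by exact_mod_cast hM.bez r
  refine Complex.ext ?_ ?_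
  · simp [L, tm, lam]; linear_combination (-ζ.re) * h
  · simp [L, tm, lam]; linear_combination (-ζ.im) * h

theorem int_zero (r : ℕ) {k m : ℤ} (h1 : M.C r * k + M.D r * m = 0)
    (h2 : M.q r * k - M.p r * m = 0) : k = 0 ∧ m = 0 :=
  ⟨by linear_combination M.p r * h1 + M.D r * h2 - k * hM.bez r,
    by linear_combination M.q r * h1 - M.C r * h2 - m * hM.bez r⟩

theorem one_le_norm_lam (i : ℕ) : 1 ≤ ‖M.lam i‖ := by
  have h := hM.bez i
  by_cases hp : M.p i = 0
  · have hq : M.q i ≠ 0 := fun hq => by simp [hp, hq] at h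
    have h1 : (1 : ℝ) ≤ |(M.q i : ℝ)| := by exact_mod_cast Int.one_le_abs hq
    exact h1.trans (by simpa [lam] using abs_im_le_norm (M.lam i))
  · have h1 : (1 : ℝ) ≤ |(M.p i : ℝ)| := by exact_mod_cast Int.one_le_abs hp
    exact h1.trans (by simpa [lam] using abs_re_le_norm (M.lam i))

theorem norm_lam_pos (i : ℕ) : 0 < ‖M.lam i‖ := one_pos.trans_le (one_le_norm_lam hM i)

theorem norm_u (i : ℕ) : ‖M.u i‖ = 1 := by
  rw [u, norm_div, norm_real, norm_norm, div_self (norm_lam_pos hM i).ne']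

theorem lam_eq (i : ℕ) : M.lam i = (‖M.lam i‖ : ℝ) * M.u i := by
  have : ((‖M.lam i‖ : ℝ) : ℂ) ≠ 0 := ofReal_ne_zero.2 (norm_lam_pos hM i).ne'
  rw [u]
  field_simp

theorem L_u_mul (i : ℕ) (w : ℂ) : M.L i (M.u i * w) = -(‖M.lam i‖ * w.im) := by
  have h0 : ((‖M.lam i‖ : ℝ) : ℂ) ≠ 0 := ofReal_ne_zero.2 (norm_lam_pos hM i).ne'
  have h : (starRingEnd ℂ) (M.lam i) * (M.u i * w) = (‖M.lam i‖ : ℝ) * w := by
    rw [u, ← mul_assoc, ← mul_div_assoc, conj_mul']
    field_simp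
  rw [L_eq_im, h, im_ofReal_mul]

theorem norm_dir (j : ℕ) (s : ℝ) : ‖M.dir j s‖ = 1 := by
  rw [dir, norm_mul, hM.norm_ω, norm_exp_ofReal_mul_I, mul_one]

theorem dir_mul_conj (j : ℕ) (s : ℝ) : M.dir j s * (starRingEnd ℂ) (M.dir j s) = 1 := by
  rw [mul_conj', norm_dir hM]; simp

theorem norm_unt (j : ℕ) (β : ℂ) (x : ℂ × ℝ) : ‖M.unt j β x‖ = ‖x.1 - β‖ := by
  rw [unt, norm_mul, RCLike.norm_conj, norm_dir hM, mul_one]

theorem unt_mul_dir (j : ℕ) (β : ℂ) (x : ℂ × ℝ) :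
    M.unt j β x * M.dir j (x.2 - j - 1 / 2) = x.1 - β := by
  rw [unt, mul_assoc, mul_comm _ (M.dir _ _), dir_mul_conj hM, mul_one]

theorem eps_le : 128 * M.ε ≤ 1 := by
  have h := hM.bez 0
  have h1 : 1 ≤ |M.p 0| + |M.q 0| := by
    by_contra h1
    have h2 : M.p 0 = 0 := by have := abs_nonneg (M.q 0); exact abs_nonpos_iff.1 (by omega)
    have h3 : M.q 0 = 0 := by have := abs_nonneg (M.p 0); exact abs_nonpos_iff.1 (by omega)
    simp [h2, h3] at h
  have h2 : 1 ≤ |M.C 0| + |M.D 0| := by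
    by_contra h1
    have h2 : M.C 0 = 0 := by have := abs_nonneg (M.D 0); exact abs_nonpos_iff.1 (by omega)
    have h3 : M.D 0 = 0 := by have := abs_nonneg (M.C 0); exact abs_nonpos_iff.1 (by omega)
    simp [h2, h3] at h
  have h3 : (2 : ℝ) ≤ (|M.p 0| + |M.q 0| + |M.C 0| + |M.D 0| : ℤ) := by
    exact_mod_cast (by omega : 2 ≤ |M.p 0| + |M.q 0| + |M.C 0| + |M.D 0|)
  have h4 := hM.small 0 (Nat.zero_le _)
  (refine le_of_not_gt fun h_nl => ?_; linarith only [h_nl, h3, h4, hM.ε_pos, mul_nonneg_of_nonpos_of_nonpos (Mathlib.Tactic.Linarith.sub_nonpos_of_le h3) (le_of_lt (Mathlib.Tactic.Linarith.sub_neg_of_lt h_nl))])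

theorem L_small {i : ℕ} (hi : i ≤ M.l) {ζ : ℂ} (h : ‖ζ‖ ≤ 4 * M.ε) : |M.L i ζ| ≤ 1 / 16 := by
  have h1 := abs_L_le (M := M) i ζ
  have h2 := hM.small i hi
  have h3 : ((|M.p i| + |M.q i| : ℤ) : ℝ) ≤ (|M.p i| + |M.q i| + |M.C i| + |M.D i| : ℤ) := by
    have := abs_nonneg (M.C i); have := abs_nonneg (M.D i)
    exact_mod_cast (by omega)
  have h4 : (0 : ℝ) ≤ (|M.p i| + |M.q i| : ℤ) := by positivity
  have h5 := mul_le_mul_of_nonneg_left h h4
  linarith only [h1, h2, h5, h3, hM, hM.ε_pos, mul_nonneg_of_nonpos_of_nonpos (Mathlib.Tactic.Linarith.sub_nonpos_of_le h3) (le_of_lt (Mathlib.Tactic.Linarith.sub_neg_of_lt hM.ε_pos))]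

theorem tm_small {i : ℕ} (hi : i ≤ M.l) {ζ : ℂ} (h : ‖ζ‖ ≤ 4 * M.ε) : |M.tm i ζ| ≤ 1 / 16 := by
  have h1 := abs_tm_le (M := M) i ζ
  have h2 := hM.small i hi
  have h3 : ((|M.C i| + |M.D i| : ℤ) : ℝ) ≤ (|M.p i| + |M.q i| + |M.C i| + |M.D i| : ℤ) := by
    have := abs_nonneg (M.p i); have := abs_nonneg (M.q i)
    exact_mod_cast (by omega)
  have h4 : (0 : ℝ) ≤ (|M.C i| + |M.D i| : ℤ) := by positivity
  have h5 := mul_le_mul_of_nonneg_left h h4
  linarith only [h1, h2, h5, h3, hM, hM.ε_pos, mul_nonneg_of_nonpos_of_nonpos (Mathlib.Tactic.Linarith.sub_nonpos_of_le h3) (le_of_lt (Mathlib.Tactic.Linarith.sub_neg_of_lt hM.ε_pos))]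

theorem norm_lam_small {i : ℕ} (hi : i ≤ M.l) : 64 * M.ε * ‖M.lam i‖ ≤ 1 := by
  have h1 : ‖M.lam i‖ ≤ (|M.p i| + |M.q i| + |M.C i| + |M.D i| : ℤ) := by
    have h2 := norm_le_abs_re_add_abs_im (M.lam i)
    have h3 := abs_nonneg (M.C i : ℝ)
    have h4 := abs_nonneg (M.D i : ℝ)
    simp only [lam, add_re, add_im, intCast_re, intCast_im, mul_re, mul_im, I_re, I_im, mul_zero,
      mul_one, sub_zero, add_zero, zero_add] at h2
    push_cast
    rw [lam]
    linarith only [h3, h4, h2]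
  exact (mul_le_mul_of_nonneg_left h1 (by linarith [hM.ε_pos])).trans (hM.small i hi)

omit hM in
theorem Lin_sin {e x : ℝ} (he : e = 1 ∨ e = -1) (h0 : 0 < e * x) (h1 : e * x < Real.pi) :
    0 < e * Real.sin x := by
  have h := Real.sin_pos_of_pos_of_lt_pi h0 h1
  rcases he with rfl | rfl
  · simpa using h
  · simpa using h

/-- The lower half of a band stays to the right of the direction of the lower level. -/
theorem L_dir_outer {j : ℕ} (h1 : 1 ≤ j) (h2 : j < M.l) {s : ℝ} (hs : -(1 / 2) < s) (hs' : s ≤ 0) :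
    0 < M.L j (M.dir j s) := by
  obtain ⟨a1, a2⟩ := hM.a_mem j h1 h2
  have h3 : M.dir j s = M.dir j (-(1 / 2)) * exp (((M.a j * (1 + 2 * s) : ℝ) : ℂ) * I) := by
    rw [dir, dir, mul_assoc, ← exp_add, ← add_mul, ← ofReal_add, ang_nonpos j hs',
      ang_nonpos j (by norm_num)]
    congr 4
    ring
  rw [h3, hM.start j h1 h2, mul_assoc, ← ofReal_neg, L_real_mul, L_u_mul hM, exp_ofReal_mul_I_im]
  have h4 := Lin_sin (hM.sign j) (x := M.a j * (1 + 2 * s)) (by linarith only [hs, a1, mul_pos_of_neg_of_neg (Mathlib.Tactic.Linarith.sub_neg_of_lt hs) (Mathlib.Tactic.Linarith.sub_neg_of_lt a1)]) (by linarith only [a2, hs', a1, mul_nonneg_of_nonpos_of_nonpos (Mathlib.Tactic.Linarith.sub_nonpos_of_le hs') (le_of_lt (Mathlib.Tactic.Linarith.sub_neg_of_lt a1))])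
  linarith only [h4, hM, norm_lam_pos hM j, mul_pos_of_neg_of_neg (Mathlib.Tactic.Linarith.sub_neg_of_lt h4) (Mathlib.Tactic.Linarith.sub_neg_of_lt (norm_lam_pos hM j))]

/-- The upper half of a band stays to the right of the direction of the upper level. -/
theorem L_dir_inner {j : ℕ} (h1 : 1 ≤ j) (h2 : j < M.l) {s : ℝ} (hs : 0 ≤ s) (hs' : s < 1 / 2) :
    0 < M.L (j + 1) (M.dir j s) := by
  obtain ⟨a1, a2⟩ := hM.b_mem j h1 h2
  have h3 : M.dir j s = M.dir j (1 / 2) * exp (((-(M.b j * (1 - 2 * s)) : ℝ) : ℂ) * I) := by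
    rw [dir, dir, mul_assoc, ← exp_add, ← add_mul, ← ofReal_add, ang_nonneg j hs,
      ang_nonneg j (by norm_num)]
    congr 4
    ring
  rw [h3, hM.stop j h1 h2, mul_assoc, L_real_mul, L_u_mul hM, exp_ofReal_mul_I_im, Real.sin_neg]
  have h4 := Lin_sin (hM.sign j) (x := M.b j * (1 - 2 * s)) (by linarith only [hs', a1, mul_pos_of_neg_of_neg (Mathlib.Tactic.Linarith.sub_neg_of_lt hs') (Mathlib.Tactic.Linarith.sub_neg_of_lt a1)]) (by linarith only [a2, hs, a1, mul_nonneg_of_nonpos_of_nonpos (Mathlib.Tactic.Linarith.sub_nonpos_of_le hs) (le_of_lt (Mathlib.Tactic.Linarith.sub_neg_of_lt a1))])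
  linarith only [hM, h4, mul_pos (norm_lam_pos hM (j + 1)) h4]

theorem L_ω_pos {j : ℕ} (h1 : 1 ≤ j) (h2 : j < M.l) : 0 < M.L j (M.ω j) := by
  simpa [dir_zero] using L_dir_outer hM h1 h2 (s := 0) (by norm_num) le_rfl

theorem tm_ω_mul (j : ℕ) (w : ℂ) : M.tm j (w * M.ω j) = w.im * M.tm j (M.ω j * I) := by
  have h := hM.tm_ω j
  simp only [tm, mul_re, mul_im, I_re, I_im] at h ⊢
  linear_combination w.re * h

theorem tm_ω_I_pos {j : ℕ} (h1 : 1 ≤ j) (h2 : j < M.l) : 0 < M.tm j (M.ω j * I) := by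
  have h3 := L_ω_pos hM h1 h2
  have h4 := eq_coord hM j (M.ω j)
  rw [hM.tm_ω, ofReal_zero, zero_mul, zero_add] at h4
  have h5 : (M.C j : ℝ) * M.p j + M.D j * M.q j = 1 := by exact_mod_cast hM.bez j
  have h6 : 0 < (M.C j : ℝ) ^ 2 + (M.D j : ℝ) ^ 2 := by
    by_contra h6
    have h7 : (M.C j : ℝ) = 0 := by nlinarith [sq_nonneg (M.C j : ℝ), sq_nonneg (M.D j : ℝ)]
    have h8 : (M.D j : ℝ) = 0 := by nlinarith [sq_nonneg (M.C j : ℝ), sq_nonneg (M.D j : ℝ)]
    simp [h7, h8] at h5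
  rw [h4, mul_assoc, tm_real_mul]
  refine mul_pos h3 ?_
  simp [tm]
  linarith only [h6]

end Lev

end OneOne
end

-- merged part: Pool.Agent.Work.MP_d5331a_gt.OO.Data
section
/-!
Construction of the data of a level position.

Plan. Replace `p i, q i` by `1, 0` and `e j` by `1` outside the ranges. For each `j` take a Bezout
pair `(C₀, D₀)`; the pairs `(C₀ + k * q j, D₀ - k * p j)` change `nn = C * p (j + 1) + D * q (j + 1)`
by `k * qq`, `qq = q j * p (j + 1) - p j * q (j + 1)`, and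
`p (j + 1) = nn * p j + qq * D`, `q (j + 1) = nn * q j - qq * C`, so `nn` and `qq` are coprime. If
`qq = 0` then `nn = ±1` and `nn * p j = p (j + 1) > 0`. If `qq ≠ 0` is even then `nn` is odd for all
`k`; if it is odd fix the parity by `k ∈ {0, 1}`; then add a multiple of `2 * qq * qq` to make `nn`
positive. `ω j = μ / ‖μ‖` with `μ = D - C * I`; `a j = arg (-e * ω * conj (u j))`,
`b j = arg (e * u (j + 1) * conj ω)`. Both arguments are unit vectors whose imaginary part times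
`e` is positive (`L j μ = 1`, `L (j + 1) μ = nn > 0`, `L i ζ = -im (conj (lam i) * ζ)`), so
`e * arg ∈ (0, π)` (`Complex.arg_nonneg_iff`, `arg_lt_pi_iff`, `arg_neg_iff`, `neg_pi_lt_arg`) and
`exp (arg * I)` is the vector itself (`norm_mul_exp_arg_mul_I`).
`ε = 1 / (64 * ∑ i ∈ range (n + 1), (|p i| + |q i| + |C i| + |D i|))`.
The lemmas of `Lin` that need `Good` cannot be used before `Good` is proved; reprove what is needed
from the Bezout identity.
-/

set_option autoImplicit false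

open Complex

namespace OneOne

theorem Data_bez {p q p' q' : ℤ} (hp : 0 < p) (hp' : 0 < p') (hc : IsCoprime p q)
    (hc' : IsCoprime p' q') : ∃ C D : ℤ, C * p + D * q = 1 ∧ 0 < C * p' + D * q' ∧
      Odd (C * p' + D * q') := by
  obtain ⟨C, D, h⟩ := hc
  obtain ⟨C', D', h'⟩ := hc'
  obtain ⟨N, hN⟩ : ∃ N, N = C * p' + D * q' := ⟨_, rfl⟩
  obtain ⟨Q, hQ⟩ : ∃ Q, Q = q * p' - p * q' := ⟨_, rfl⟩
  have h1 : p' = N * p + Q * D := by rw [hN, hQ]; linear_combination (-p') * h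
  have h2 : q' = N * q - Q * C := by rw [hN, hQ]; linear_combination (-q') * h
  have h3 : ¬ (Even N ∧ Even Q) := by
    rintro ⟨⟨a, ha⟩, ⟨b, hb⟩⟩
    have h4 : 2 * (C' * (a * p + b * D) + D' * (a * q - b * C)) = 1 := by
      rw [← h', h1, h2, ha, hb]; ring
    omega
  have key : ∀ k : ℤ, 0 < N + k * Q → Odd (N + k * Q) → ∃ C D : ℤ, C * p + D * q = 1 ∧
      0 < C * p' + D * q' ∧ Odd (C * p' + D * q') := fun k h4 h5 => by
    have h6 : (C + k * q) * p' + (D - k * p) * q' = N + k * Q := by rw [hN, hQ]; ring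
    exact ⟨C + k * q, D - k * p, by linear_combination h, h6 ▸ h4, h6 ▸ h5⟩
  by_cases h0 : Q = 0
  · have h4 : Odd N := Int.not_even_iff_odd.1 fun h4 => h3 ⟨h4, h0 ▸ Even.zero⟩
    refine key 0 ?_ (by simpa using h4)
    rw [h0, zero_mul, add_zero] at h1
    rw [zero_mul, add_zero]
    exact (mul_pos_iff_of_pos_right hp).1 (h1 ▸ hp')
  · obtain ⟨k, hk⟩ : ∃ k : ℤ, Odd (N + k * Q) := by
      rcases Int.even_or_odd N with h4 | h4
      · have h5 : Odd Q := Int.not_even_iff_odd.1 fun h5 => h3 ⟨h4, h5⟩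
        exact ⟨1, by rw [one_mul]; exact h4.add_odd h5⟩
      · exact ⟨0, by simpa using h4⟩
    have h5 : 1 ≤ Q * Q := by
      have := mul_self_pos.2 h0
      omega
    have h6 : N + (k + 2 * (|N + k * Q| + 1) * Q) * Q =
        N + k * Q + 2 * ((|N + k * Q| + 1) * (Q * Q)) := by ring
    refine key (k + 2 * (|N + k * Q| + 1) * Q) ?_ ?_
    · rw [h6]
      have h7 := neg_abs_le (N + k * Q)
      have h8 := abs_nonneg (N + k * Q)
      have h9 := mul_le_mul_of_nonneg_left h5 (by linarith only [h8] : 0 ≤ |N + k * Q| + 1)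
      linarith
    · rw [h6]
      exact hk.add_even (even_two_mul _)

theorem Data_ang {e : ℝ} (he : e = 1 ∨ e = -1) {z : ℂ} (hz : ‖z‖ = 1) (h : 0 < z.im) :
    ∃ a : ℝ, (0 < e * a ∧ e * a < Real.pi) ∧ exp ((a : ℂ) * I) = e * z := by
  have h1 : exp ((arg z : ℂ) * I) = z := by
    have := norm_mul_exp_arg_mul_I z
    rwa [hz, ofReal_one, one_mul] at this
  have h2 : 0 < arg z := by
    refine lt_of_le_of_ne (arg_nonneg_iff.2 h.le) fun h0 => h.ne' ?_
    exact (arg_eq_zero_iff.1 h0.symm).2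
  have h3 : arg z < Real.pi := arg_lt_pi_iff.2 (Or.inr h.ne')
  rcases he with rfl | rfl
  · exact ⟨arg z, ⟨by linarith, by linarith⟩, by rw [h1, ofReal_one, one_mul]⟩
  · refine ⟨arg z - Real.pi, ⟨by linarith, by linarith⟩, ?_⟩
    rw [ofReal_sub, sub_mul, exp_sub, h1, exp_pi_mul_I]
    push_cast
    ring

theorem Data_norm {v : ℂ} (hv : v ≠ 0) : ‖v / (‖v‖ : ℝ)‖ = 1 := by
  rw [norm_div, norm_real, norm_norm, div_self (norm_ne_zero_iff.2 hv)]

theorem Data_im {v w : ℂ} (hv : v ≠ 0) (hw : w ≠ 0) (h : 0 < (v * (starRingEnd ℂ) w).im) :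
    0 < (v / (‖v‖ : ℝ) * (starRingEnd ℂ) (w / (‖w‖ : ℝ))).im := by
  have h1 : v / (‖v‖ : ℝ) * (starRingEnd ℂ) (w / (‖w‖ : ℝ)) =
      (v * (starRingEnd ℂ) w) / ((‖v‖ * ‖w‖ : ℝ) : ℂ) := by
    rw [map_div₀, conj_ofReal, ofReal_mul, div_mul_div_comm]
  rw [h1, div_ofReal_im]
  exact div_pos h (mul_pos (norm_pos_iff.2 hv) (norm_pos_iff.2 hw))

theorem Data_ne {a b c d : ℤ} (h : c * a + d * b = 1) : (a : ℂ) + b * I ≠ 0 := by
  intro h0
  have h1 : a = 0 := by simpa using congrArg re h0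
  have h2 : b = 0 := by simpa using congrArg im h0
  simp [h1, h2] at h

theorem Data_core {n : ℕ} (hn : 1 ≤ n) (p q : ℕ → ℤ) (e : ℕ → ℝ) (hp : ∀ i, 0 < p i)
    (hc : ∀ i, IsCoprime (p i) (q i)) (he : ∀ j, e j = 1 ∨ e j = -1)
    (ht : ∀ j, 1 ≤ j → j < n → e j * ((q j * p (j + 1) - p j * q (j + 1) : ℤ) : ℝ) ≤ 0) :
    ∃ M : Lev, M.Good ∧ M.l = n ∧ M.p = p ∧ M.q = q ∧ M.e = e := by
  choose C D h1 h2 h3 using fun j => Data_bez (hp j) (hp (j + 1)) (hc j) (hc (j + 1))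
  obtain ⟨lam, hlam⟩ : ∃ lam : ℕ → ℂ, lam = fun i => (p i : ℂ) + q i * I := ⟨_, rfl⟩
  obtain ⟨μ, hμ⟩ : ∃ μ : ℕ → ℂ, μ = fun i => (D i : ℂ) + (-C i : ℤ) * I := ⟨_, rfl⟩
  have hl0 : ∀ i, lam i ≠ 0 := fun i => by rw [hlam]; exact Data_ne (h1 i)
  have hm0 : ∀ i, μ i ≠ 0 := fun i => by
    rw [hμ]; exact Data_ne (c := q i) (d := -p i) (by linear_combination h1 i)
  have ha : ∀ j, 0 < (-(μ j / (‖μ j‖ : ℝ) * (starRingEnd ℂ) (lam j / (‖lam j‖ : ℝ)))).im := by
    intro j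
    have h4 := Data_im (neg_ne_zero.2 (hm0 j)) (hl0 j) (by
      have h5 : (C j : ℝ) * p j + D j * q j = 1 := by exact_mod_cast h1 j
      rw [hμ, hlam]
      simp
      linarith)
    rwa [norm_neg, neg_div, neg_mul] at h4
  have hb : ∀ j, 0 < (lam (j + 1) / (‖lam (j + 1)‖ : ℝ) *
      (starRingEnd ℂ) (μ j / (‖μ j‖ : ℝ))).im := fun j => Data_im (hl0 _) (hm0 j) (by
    have h5 : (0 : ℝ) < C j * p (j + 1) + D j * q (j + 1) := by exact_mod_cast h2 j
    rw [hμ, hlam]
    simp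
    linarith)
  choose a ha1 ha2 using fun j => Data_ang (he j) (by
    rw [norm_neg, norm_mul, RCLike.norm_conj, Data_norm (hm0 j), Data_norm (hl0 j), mul_one])
    (ha j)
  choose b hb1 hb2 using fun j => Data_ang (he j) (by
    rw [norm_mul, RCLike.norm_conj, Data_norm (hm0 j), Data_norm (hl0 _), mul_one]) (hb j)
  obtain ⟨T, hT⟩ : ∃ T : ℤ, T = ∑ i ∈ Finset.range (n + 1), (|p i| + |q i| + |C i| + |D i|) :=
    ⟨_, rfl⟩
  have hT1 : ∀ i, i ≤ n → |p i| + |q i| + |C i| + |D i| ≤ T := fun i hi => by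
    rw [hT]
    exact Finset.single_le_sum (f := fun i => |p i| + |q i| + |C i| + |D i|)
      (fun i _ => by positivity) (Finset.mem_range.2 (Nat.lt_succ_of_le hi))
  have hT0 : (0 : ℝ) < T := by
    have h4 := hT1 0 (Nat.zero_le _)
    have h5 := abs_pos.2 (hp 0).ne'
    have h6 : 0 < |p 0| + |q 0| + |C 0| + |D 0| := by positivity
    exact_mod_cast h6.trans_le h4
  have hω : ∀ j, μ j / (‖μ j‖ : ℝ) * (starRingEnd ℂ) (μ j / (‖μ j‖ : ℝ)) = 1 := fun j => by
    rw [mul_conj', Data_norm (hm0 j)]; simp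
  have hu : ∀ j, lam j / (‖lam j‖ : ℝ) * (starRingEnd ℂ) (lam j / (‖lam j‖ : ℝ)) = 1 := fun j => by
    rw [mul_conj', Data_norm (hl0 j)]; simp
  refine ⟨⟨n, p, q, C, D, e, fun j => μ j / (‖μ j‖ : ℝ), a, b, 1 / (64 * T)⟩,
    ⟨hn, h1, fun j _ _ => h2 j, fun j _ _ => h3 j, he, fun j => Data_norm (hm0 j), fun j => ?_,
      fun j _ _ => ?_, fun j _ _ => ?_, fun j _ _ => ha1 j, fun j _ _ => hb1 j, ht,
      by positivity, fun i hi => ?_⟩, rfl, rfl, rfl, rfl⟩
  · show (C j : ℝ) * (μ j / (‖μ j‖ : ℝ)).re + D j * (μ j / (‖μ j‖ : ℝ)).im = 0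
    rw [div_ofReal_re, div_ofReal_im]
    have h4 : (μ j).re = D j := by rw [hμ]; simp
    have h5 : (μ j).im = -C j := by rw [hμ]; simp
    rw [h4, h5]
    ring
  · rw [Lev.dir, Lev.ang_nonpos _ (by norm_num)]
    show μ j / (‖μ j‖ : ℝ) * exp (((2 * a j * -(1 / 2) : ℝ) : ℂ) * I) =
      -(e j : ℂ) * (((p j : ℂ) + q j * I) / (‖(p j : ℂ) + q j * I‖ : ℝ))
    have h4 : ((2 * a j * -(1 / 2) : ℝ) : ℂ) * I = -((a j : ℂ) * I) := by push_cast; ring
    have h5 : (p j : ℂ) + q j * I = lam j := by rw [hlam]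
    have h6 : (e j : ℂ) * e j = 1 := by rcases he j with h | h <;> simp [h]
    rw [h4, h5, exp_neg, mul_inv_eq_iff_eq_mul₀ (exp_ne_zero _), ha2]
    linear_combination (-(μ j / (‖μ j‖ : ℝ)) * (lam j / (‖lam j‖ : ℝ) *
      (starRingEnd ℂ) (lam j / (‖lam j‖ : ℝ)))) * h6 - (μ j / (‖μ j‖ : ℝ)) * hu j
  · rw [Lev.dir, Lev.ang_nonneg _ (by norm_num)]
    show μ j / (‖μ j‖ : ℝ) * exp (((2 * b j * (1 / 2) : ℝ) : ℂ) * I) =
      (e j : ℂ) * (((p (j + 1) : ℂ) + q (j + 1) * I) / (‖(p (j + 1) : ℂ) + q (j + 1) * I‖ : ℝ))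
    have h4 : ((2 * b j * (1 / 2) : ℝ) : ℂ) * I = (b j : ℂ) * I := by push_cast; ring
    have h5 : (p (j + 1) : ℂ) + q (j + 1) * I = lam (j + 1) := by rw [hlam]
    rw [h4, h5, hb2]
    linear_combination (e j * (lam (j + 1) / (‖lam (j + 1)‖ : ℝ))) * hω j
  · show 64 * (1 / (64 * (T : ℝ))) * ((|p i| + |q i| + |C i| + |D i| : ℤ) : ℝ) ≤ 1
    have h4 : ((|p i| + |q i| + |C i| + |D i| : ℤ) : ℝ) ≤ T := by exact_mod_cast hT1 i hi
    have h5 : 64 * (1 / (64 * (T : ℝ))) = 1 / T := by field_simp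
    rw [h5, one_div, inv_mul_le_iff₀ hT0, mul_one]
    exact h4

theorem exists_lev {n : ℕ} (hn : 1 ≤ n) (p q e : ℕ → ℤ) (hp : ∀ i, 1 ≤ i → i ≤ n → 0 < p i)
    (hc : ∀ i, 1 ≤ i → i ≤ n → IsCoprime (p i) (q i))
    (he : ∀ j, 1 ≤ j → j < n → e j = 1 ∨ e j = -1)
    (ht : ∀ j, 1 ≤ j → j < n → e j * (q j * p (j + 1) - p j * q (j + 1)) ≤ 0) :
    ∃ M : Lev, M.Good ∧ M.l = n ∧ (∀ i, 1 ≤ i → i ≤ n → M.p i = p i ∧ M.q i = q i) ∧
      ∀ j, 1 ≤ j → j < n → M.e j = e j := by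
  obtain ⟨M, h1, h2, h3, h4, h5⟩ := Data_core hn (fun i => if 1 ≤ i ∧ i ≤ n then p i else 1)
    (fun i => if 1 ≤ i ∧ i ≤ n then q i else 0) (fun j => if 1 ≤ j ∧ j < n then e j else 1)
    (fun i => by
      split_ifs with h
      · exact hp i h.1 h.2
      · exact one_pos)
    (fun i => by
      split_ifs with h
      · exact hc i h.1 h.2
      · exact isCoprime_one_left)
    (fun j => by
      split_ifs with h
      · rcases he j h.1 h.2 with h0 | h0 <;> simp [h0]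
      · exact Or.inl rfl)
    (fun j h1 h2 => by
      have h3 : 1 ≤ j ∧ j ≤ n := ⟨h1, h2.le⟩
      have h4 : 1 ≤ j + 1 ∧ j + 1 ≤ n := ⟨by omega, h2⟩
      rw [if_pos h3, if_pos h3, if_pos h4, if_pos h4, if_pos ⟨h1, h2⟩]
      exact_mod_cast ht j h1 h2)
  refine ⟨M, h1, h2, fun i h6 h7 => ?_, fun j h6 h7 => ?_⟩
  · rw [h3, h4]
    exact ⟨if_pos ⟨h6, h7⟩, if_pos ⟨h6, h7⟩⟩
  · rw [h5]
    exact if_pos ⟨h6, h7⟩

end OneOne
end

-- merged part: Pool.Agent.Work.MP_d5331a_gt.A1.Data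
section
/-!
The data of a level position that belong to a chain of segments.
-/

set_option autoImplicit false

open Complex Set

namespace AllOne

open OneOne

/-- The unit vector in the direction `(p, q)`. -/
noncomputable def un (p q : ℤ) : ℂ := ((p : ℂ) + q * I) / (‖(p : ℂ) + q * I‖ : ℝ)

/-- `ψ` is an angle of the direction `v` in the sector `σ`. -/
def Sec (v : ℂ) (σ : ℤ) (ψ : ℝ) : Prop :=
  -I * exp (ψ * I) = v ∧ σ * Real.pi ≤ ψ ∧ ψ ≤ (σ + 1) * Real.pi ∧
    (¬ Even σ → σ * Real.pi < ψ ∧ ψ < (σ + 1) * Real.pi) ∧ hh 1 (ψ / Real.pi) = σ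

theorem exists_sec {v : ℂ} (hv : ‖v‖ = 1) {σ : ℤ} (h : Even σ ↔ 0 ≤ v.re) : ∃ ψ, Sec v σ ψ := by
  have hp := Real.pi_pos
  obtain ⟨s, s1, s2, s3⟩ : ∃ s : ℝ, exp (σ * Real.pi * I) = s ∧ (Even σ → s = 1) ∧
      (¬ Even σ → s = -1) := by
    refine ⟨(-1) ^ σ, ?_, fun k => k.neg_one_zpow, fun k => (Int.not_even_iff_odd.1 k).neg_one_zpow⟩
    rw [mul_assoc, exp_int_mul, exp_pi_mul_I]
    push_cast
    rfl
  have s4 : s = 1 ∨ s = -1 := (em (Even σ)).imp s2 s3
  have h1 : ‖s * (I * v)‖ = 1 := by rcases s4 with rfl | rfl <;> simp [hv]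
  have h2 : (s * (I * v)).im = s * v.re := by simp
  have h3 : exp (arg (s * (I * v)) * I) = s * (I * v) := by
    have := norm_mul_exp_arg_mul_I (s * (I * v))
    rwa [h1, ofReal_one, one_mul] at this
  have h4 : ¬ Even σ → 0 < (s * (I * v)).im := fun k => by
    rw [h2, s3 k]
    linarith [not_le.1 (mt h.2 k)]
  have h5 : 0 ≤ arg (s * (I * v)) := arg_nonneg_iff.2 (by
    by_cases k : Even σ
    · rw [h2, s2 k, one_mul]
      exact h.1 k
    · exact (h4 k).le)
  have h6 := arg_le_pi (s * (I * v))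
  have h7 : ¬ Even σ → 0 < arg (s * (I * v)) ∧ arg (s * (I * v)) < Real.pi := fun k =>
    ⟨h5.lt_of_ne fun e => (h4 k).ne' (arg_eq_zero_iff.1 e.symm).2, arg_lt_pi_iff.2 (Or.inr (h4 k).ne')⟩
  generalize arg (s * (I * v)) = t at h3 h5 h6 h7
  refine ⟨σ * Real.pi + t, ?_, by linarith, by linarith,
    fun k => ⟨by linarith [(h7 k).1], by linarith [(h7 k).2]⟩, ?_⟩
  · push_cast
    rw [add_mul, exp_add, s1, h3]
    rcases s4 with rfl | rfl <;> push_cast <;> linear_combination (-v) * I_mul_I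
  · rcases h5.eq_or_lt with rfl | k
    · rw [add_zero, mul_div_cancel_right₀ _ hp.ne', hh_one_int, if_pos]
      by_contra k
      exact (h7 k).1.false
    rcases h6.eq_or_lt with rfl | k'
    · have e : Even σ := by
        by_contra k
        exact (h7 k).2.false
      rw [show (σ * Real.pi + Real.pi) / Real.pi = (σ + 1 : ℤ) by push_cast; field_simp, hh_one_int,
        if_neg (by simpa [Int.even_add_one] using e), add_sub_cancel_right]
    · exact hh_mem 1 ((lt_div_iff₀ hp).2 (by linarith)) ((div_lt_iff₀ hp).2 (by linarith))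

theorem un_norm {p q : ℤ} (h : IsCoprime p q) : ‖un p q‖ = 1 := by
  obtain ⟨a, b, h⟩ := h
  exact Data_norm (Data_ne h)

theorem un_im {p q p' q' : ℤ} (h : IsCoprime p q) (h' : IsCoprime p' q') :
    ∃ r : ℝ, 0 < r ∧ (un p' q' * (starRingEnd ℂ) (un p q)).im = r * (p * q' - q * p' : ℤ) := by
  obtain ⟨a, b, h⟩ := h
  obtain ⟨a', b', h'⟩ := h'
  refine ⟨(‖(p' : ℂ) + q' * I‖ * ‖(p : ℂ) + q * I‖)⁻¹, inv_pos.2 (mul_pos
    (norm_pos_iff.2 (Data_ne h')) (norm_pos_iff.2 (Data_ne h))), ?_⟩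
  rw [un, un, map_div₀, conj_ofReal, div_mul_div_comm, ← ofReal_mul, div_ofReal_im, div_eq_inv_mul]
  congr 1
  simp
  ring

theorem un_re {p q : ℤ} (h : IsCoprime p q) : ∃ r : ℝ, 0 < r ∧ (un p q).re = r * p := by
  obtain ⟨a, b, h⟩ := h
  refine ⟨‖(p : ℂ) + q * I‖⁻¹, inv_pos.2 (norm_pos_iff.2 (Data_ne h)), ?_⟩
  rw [un, div_ofReal_re, div_eq_inv_mul]
  simp

/-- The data of a band between the directions `(p, q)` and `(p', q')` that turns by `θ`. -/
structure Vx (p q p' q' : ℤ) (θ e a b : ℝ) (A B : ℤ) (k : ℕ) (ω : ℂ) : Prop where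
  start : ω * exp (-(a * I)) = -e * un p q
  stop : ω * exp (b * I) = e * un p' q'
  sum : a + b = θ
  tm : A * ω.re + B * ω.im = 0
  n1 : 0 < A * p + B * q
  n2 : 0 < (-1) ^ k * (A * p' + B * q')
  one : A * p + B * q = 1 ∨ (-1) ^ k * (A * p' + B * q') = 1
  ha : 0 < e * a ∧ e * a < Real.pi
  hb : k * Real.pi < e * b ∧ e * b < (k + 1) * Real.pi
  taut : 1 ≤ k ∨ e * (q * p' - p * q' : ℤ) ≤ 0 ∨
    2 * (A * p + B * q + (-1) ^ k * (A * p' + B * q') : ℤ) ≤ e * (q * p' - p * q' : ℤ)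

theorem sin_sign {e : ℝ} (he : e = 1 ∨ e = -1) (x : ℝ) : Real.sin (e * x) = e * Real.sin x := by
  rcases he with rfl | rfl <;> simp

theorem vertex_aux {p q p' q' A B : ℤ} (hc : IsCoprime p q) (hc' : IsCoprime p' q') {θ e r : ℝ}
    (he : e = 1 ∨ e = -1) (hθ : exp (θ * I) = -(un p' q' * (starRingEnd ℂ) (un p q))) (hr : 0 < r)
    (hs : Real.sin θ = r * (q * p' - p * q' : ℤ)) (hAB : IsCoprime B (-A)) (n1 : 0 < A * p + B * q)
    (n2 : A * p' + B * q' ≠ 0) (h : (Real.pi ≤ e * θ ∧ A * p + B * q = 1) ∨ (0 < e * θ ∧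
      e * θ < Real.pi ∧ 0 < A * p' + B * q' ∧ (A * p + B * q = 1 ∨ A * p' + B * q' = 1) ∧
      2 * (A * p + B * q + (A * p' + B * q') : ℤ) ≤ e * (q * p' - p * q' : ℤ))) :
    ∃ (a b : ℝ) (k : ℕ), Vx p q p' q' θ e a b A B k (un B (-A)) := by
  have hp := Real.pi_pos
  have e2 : (e : ℂ) * e = 1 := by rcases he with rfl | rfl <;> simp
  have e3 : e * e = 1 := by exact_mod_cast e2
  have m : ∀ {z : ℂ}, ‖z‖ = 1 → z * (starRingEnd ℂ) z = 1 := fun h => by rw [mul_conj', h]; simp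
  have m1 := m (un_norm hc)
  have m2 := m (un_norm hAB)
  obtain ⟨r1, k1, k2⟩ := un_im hc hAB
  obtain ⟨r2, k3, k4⟩ := un_im hAB hc'
  obtain ⟨a, a1, a2⟩ := Data_ang he (z := -(un B (-A) * (starRingEnd ℂ) (un p q))) (by
    rw [norm_neg, norm_mul, RCLike.norm_conj, un_norm hc, un_norm hAB, mul_one]) (by
    rw [neg_im, k2, ← mul_neg]
    exact mul_pos k1 (by exact_mod_cast (by linarith only [n1] : 0 < -(p * -A - q * B))))
  have b1 : exp ((θ - a : ℝ) * I) = e * (un p' q' * (starRingEnd ℂ) (un B (-A))) := by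
    rw [ofReal_sub, sub_mul, exp_sub, div_eq_iff (exp_ne_zero _), hθ, a2]
    linear_combination (un p' q' * (starRingEnd ℂ) (un p q)) * ((un B (-A) *
      (starRingEnd ℂ) (un B (-A))) * e2 + m2)
  have b2 : Real.sin (e * (θ - a)) = r2 * (A * p' + B * q' : ℤ) := by
    rw [sin_sign he, ← exp_ofReal_mul_I_im, b1, im_ofReal_mul, ← mul_assoc, e3, one_mul, k4]
    congr 2
    ring
  have b3 : 0 < e * (θ - a) := by
    rcases h with h | h
    · linarith [h.1, a1.2]
    · by_contra k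
      have := Real.sin_nonpos_of_nonpos_of_neg_pi_le (not_lt.1 k) (by linarith [h.1, a1.2])
      rw [b2] at this
      exact (mul_pos k3 (by exact_mod_cast h.2.2.1)).not_ge this
  obtain ⟨k, c1, c2⟩ : ∃ k : ℕ, k * Real.pi ≤ e * (θ - a) ∧ e * (θ - a) < (k + 1) * Real.pi :=
    ⟨_, (le_div_iff₀ hp).1 (Nat.floor_le (div_pos b3 hp).le),
      (div_lt_iff₀ hp).1 (Nat.lt_floor_add_one _)⟩
  have c3 : k * Real.pi < e * (θ - a) := c1.lt_of_ne fun e => by
    rw [← e, Real.sin_nat_mul_pi] at b2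
    exact mul_ne_zero k3.ne' (by exact_mod_cast n2) b2.symm
  have c4 := Real.sin_pos_of_pos_of_lt_pi (x := e * (θ - a) - k * Real.pi) (by linarith) (by linarith)
  rw [Real.sin_sub_nat_mul_pi, b2, mul_left_comm, mul_pos_iff_of_pos_left k3] at c4
  have c5 : e * θ < Real.pi → k = 0 := fun h => by
    by_contra k0
    have : (1 : ℝ) ≤ k := by exact_mod_cast Nat.one_le_iff_ne_zero.2 k0
    linarith only [a1, c3, h, hp, this, a1.1, mul_nonneg_of_nonpos_of_nonpos (le_of_lt (Mathlib.Tactic.Linarith.sub_neg_of_lt hp)) (Mathlib.Tactic.Linarith.sub_nonpos_of_le this)]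
  refine ⟨a, θ - a, k, ?_, ?_, by ring, ?_, n1, by exact_mod_cast c4, ?_, a1, ⟨c3, c2⟩, ?_⟩
  · rw [exp_neg, mul_inv_eq_iff_eq_mul₀ (exp_ne_zero _), a2]
    linear_combination (-(un B (-A)) * (un p q * (starRingEnd ℂ) (un p q))) * e2 - un B (-A) * m1
  · rw [b1]
    linear_combination (e * un p' q') * m2
  · rw [un, div_ofReal_re, div_ofReal_im]
    simp
    ring
  · rcases h with h | h
    · exact Or.inl h.2
    · simpa [c5 h.2.1] using h.2.2.2.1
  · rcases h with h | h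
    · rcases Nat.eq_zero_or_pos k with rfl | k0
      · refine Or.inr (Or.inl ?_)
        have := Real.sin_nonpos_of_nonpos_of_neg_pi_le (x := e * θ - 2 * Real.pi)
          (by push_cast at c2; linarith only [a1, c2, a1.2]) (by linarith [h.1])
        rw [Real.sin_sub_two_pi, sin_sign he, hs, mul_left_comm] at this
        exact nonpos_of_mul_nonpos_right this hr
      · exact Or.inl k0
    · exact Or.inr (Or.inr (by simpa [c5 h.2.1] using h.2.2.2.2))

theorem vertex {p q p' q' σ σ' : ℤ} (hc : IsCoprime p q) (hc' : IsCoprime p' q') {ψ ψ' : ℝ}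
    (h : Sec (-un p q) σ ψ) (h' : Sec (un p' q') σ' ψ') (hv : VC p q p' q' (σ' - σ)) :
    ∃ (e a b : ℝ) (A B : ℤ) (k : ℕ) (ω : ℂ), (e = 1 ∨ e = -1) ∧ ‖ω‖ = 1 ∧
      Vx p q p' q' (ψ' - ψ) e a b A B k ω := by
  have hp := Real.pi_pos
  obtain ⟨h1, h2, h3, h4, -⟩ := h
  obtain ⟨k1, k2, k3, k4, -⟩ := h'
  have m1 : un p q * (starRingEnd ℂ) (un p q) = 1 := by rw [mul_conj', un_norm hc]; simp
  have hθ : exp ((ψ' - ψ : ℝ) * I) = -(un p' q' * (starRingEnd ℂ) (un p q)) := by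
    rw [ofReal_sub, sub_mul, exp_sub, div_eq_iff (exp_ne_zero _)]
    linear_combination I * k1 + I * un p' q' * (starRingEnd ℂ) (un p q) * h1 - I * un p' q' * m1 +
      (exp (ψ' * I) + un p' q' * (starRingEnd ℂ) (un p q) * exp (ψ * I)) * I_mul_I
  obtain ⟨r, hr, hs⟩ := un_im hc hc'
  have hs : Real.sin (ψ' - ψ) = r * (q * p' - p * q' : ℤ) := by
    rw [← exp_ofReal_mul_I_im, hθ, neg_im, hs]
    push_cast
    ring
  have key : ∀ e : ℝ, (e = 1 ∨ e = -1) → Real.pi ≤ e * (ψ' - ψ) →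
      ∃ (e a b : ℝ) (A B : ℤ) (k : ℕ) (ω : ℂ), (e = 1 ∨ e = -1) ∧ ‖ω‖ = 1 ∧
        Vx p q p' q' (ψ' - ψ) e a b A B k ω := fun e he h => by
    obtain ⟨A, B, e1, e2⟩ : ∃ A B : ℤ, A * p + B * q = 1 ∧ A * p' + B * q' ≠ 0 := by
      obtain ⟨C, D, e⟩ := hc
      by_cases k : C * p' + D * q' = 0
      · refine ⟨C + q, D - p, by linear_combination e, fun k' => ?_⟩
        obtain ⟨C', D', e'⟩ := hc'
        have e1 : p' = 0 := by linear_combination (p - D) * k + D * k' - p' * e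
        have e2 : q' = 0 := by linear_combination (q + C) * k - C * k' - q' * e
        simp [e1, e2] at e'
      · exact ⟨C, D, e, k⟩
    have e3 : IsCoprime B (-A) := ⟨q, -p, by linear_combination e1⟩
    obtain ⟨a, b, k, h⟩ := vertex_aux hc hc' he hθ hr hs e3 (by omega) e2 (Or.inl ⟨h, e1⟩)
    exact ⟨e, a, b, A, B, k, _, he, un_norm e3, h⟩
  obtain ⟨e, he, hv⟩ := hv
  have he' : (e : ℝ) = 1 ∨ (e : ℝ) = -1 := by exact_mod_cast he
  have one : e * (σ' - σ) = 1 → 0 < e * (ψ' - ψ) ∧ e * (ψ' - ψ) < 2 * Real.pi := fun k => by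
    have k5 : ¬ Even σ ∨ ¬ Even σ' := by
      rw [Int.even_iff, Int.even_iff]
      rcases he with rfl | rfl <;> omega
    have k6 : (σ' : ℝ) = σ + e := by
      rcases he with rfl | rfl <;> exact_mod_cast (by omega)
    rw [k6] at k2 k3 k4
    rcases he with rfl | rfl <;> rcases k5 with k5 | k5 <;> push_cast at k2 k3 k4 ⊢
    · constructor <;> linarith only [k2, h4, k5, k3, (h4 k5).1, (h4 k5).2]
    · constructor <;> linarith only [h3, k4, k5, h2, (k4 k5).1, (k4 k5).2]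
    · constructor <;> linarith only [k3, h4, k5, k2, (h4 k5).1, (h4 k5).2]
    · constructor <;> linarith only [h2, k4, k5, h3, (k4 k5).1, (k4 k5).2]
  rcases hv with k | ⟨k, k'⟩ | ⟨rfl, rfl⟩ | ⟨k, A, B, n1, n2, n3, n4⟩
  · refine key e he' ?_
    have k5 : (2 : ℝ) ≤ e * (σ' - σ) := by exact_mod_cast k
    rcases he with rfl | rfl <;> push_cast at k5 ⊢ <;> linarith only [h3, k2, hp, k5, h2, k3, mul_nonneg_of_nonpos_of_nonpos (le_of_lt (Mathlib.Tactic.Linarith.sub_neg_of_lt hp)) (Mathlib.Tactic.Linarith.sub_nonpos_of_le k5)]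
  · refine key e he' (not_lt.1 fun k5 => ?_)
    have := Real.sin_pos_of_pos_of_lt_pi (one k).1 k5
    rw [sin_sign he', hs, mul_left_comm, mul_pos_iff_of_pos_left hr] at this
    exact this.not_ge (by exact_mod_cast k')
  · have k5 : Real.cos (ψ' - ψ) = -1 := by rw [← exp_ofReal_mul_I_re, hθ, m1]; simp
    by_contra k6
    have k7 : |ψ' - ψ| < Real.pi := abs_lt.2 ⟨not_le.1 fun k => k6 (key (-1) (Or.inr rfl) (by linarith)),
      not_le.1 fun k => k6 (key 1 (Or.inl rfl) (by linarith))⟩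
    have := Real.cos_lt_cos_of_nonneg_of_le_pi (abs_nonneg _) le_rfl k7
    rw [Real.cos_abs, Real.cos_pi, k5] at this
    exact this.false
  · have e3 : IsCoprime B (-A) := by
      rcases n3 with e | e
      exacts [⟨q, -p, by linear_combination e⟩, ⟨q', -p', by linear_combination e⟩]
    have k5 : 0 < Real.sin (e * (ψ' - ψ)) := by
      rw [sin_sign he', hs, mul_left_comm]
      exact mul_pos hr (by exact_mod_cast (by omega : 0 < e * (q * p' - p * q')))
    have k6 : -Real.pi ≤ e * (ψ' - ψ) ∧ e * (ψ' - ψ) ≤ 2 * Real.pi := by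
      rcases k with k | k
      · rw [show σ' = σ by omega] at k2 k3
        rcases he with rfl | rfl <;> push_cast <;> constructor <;> linarith only [h3, k2, hp, h2, k3]
      · exact ⟨by linarith [(one k).1], (one k).2.le⟩
    obtain ⟨a, b, k, h⟩ := vertex_aux hc hc' he' hθ hr hs e3 n1 n2.ne' (Or.inr ⟨not_le.1 fun k =>
      (Real.sin_nonpos_of_nonpos_of_neg_pi_le k k6.1).not_gt k5, not_le.1 fun k => by
        have := Real.sin_nonpos_of_nonpos_of_neg_pi_le (x := e * (ψ' - ψ) - 2 * Real.pi)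
          (by linarith [k6.2]) (by linarith)
        rw [Real.sin_sub_two_pi] at this
        exact this.not_gt k5, n2, n3, by exact_mod_cast n4⟩)
    exact ⟨e, a, b, A, B, k, _, he', un_norm e3, h⟩

end AllOne
end

-- merged part: Pool.Agent.Work.MP_d5331a_gt.OO.TautA
section
/-!
Taut strings in a channel.

`exists_Tt`: a fixed point (Knaster-Tarski) of the monotone map that moves each value to the point
of the channel nearest to the mean of its two neighbours.
`Tt.le`: maximum principle. Suppose `d = f' - f` is positive somewhere on `[a', w]`; take the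
smallest point `c` where the maximum is attained; `a' < c < w` because `d a' ≤ 0`, `d w ≤ 0`. There
`f' c > f c ≥ lo c` and `f c < f' c ≤ lo c + 1`, so `2 * d c ≤ d (c - 1) + d (c + 1) < 2 * d c`.
`Tt.mono`: if `f (c + 1) < f c` then `c + 1 < w` or `b < f c ≤ lo (w - 1) + 1`, impossible; going
left, `f c > f (c + 1) ≥ lo (c + 1) ≥ lo c` gives convexity at `c`, so `f c < f (c - 1)`; finally
`f (a + 1) < f a = 0`, against `0 ≤ lo (a + 1)`.
-/

set_option autoImplicit false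

namespace OneOne

/-- `f` is a taut string from `(a, 0)` to `(w, b)`. -/
structure Tt (lo : ℤ → ℤ) (a w b : ℤ) (f : ℤ → ℝ) : Prop where
  left : f a = 0
  right : f w = b
  mem : ∀ c, a < c → c < w → lo c ≤ f c ∧ f c ≤ lo c + 1
  conv : ∀ c, a < c → c < w → lo c < f c → 2 * f c ≤ f (c - 1) + f (c + 1)
  conc : ∀ c, a < c → c < w → f c < lo c + 1 → f (c - 1) + f (c + 1) ≤ 2 * f c

/-- the string given by positions `g` inside the channel -/
noncomputable def tautAF (lo : ℤ → ℤ) (a w b : ℤ) (g : ℤ → Set.Icc (0 : ℝ) 1) (c : ℤ) : ℝ :=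
  if c ≤ a then 0 else if w ≤ c then b else lo c + g c

/-- replace each value by the nearest point of the channel to the mean of its neighbours -/
noncomputable def tautAT (lo : ℤ → ℤ) (a w b : ℤ) :
    (ℤ → Set.Icc (0 : ℝ) 1) →o (ℤ → Set.Icc (0 : ℝ) 1) where
  toFun g c := Set.projIcc 0 1 zero_le_one
    ((tautAF lo a w b g (c - 1) + tautAF lo a w b g (c + 1)) / 2 - lo c)
  monotone' g g' h c := by
    have k : ∀ x, tautAF lo a w b g x ≤ tautAF lo a w b g' x := fun x => by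
      have : (g x : ℝ) ≤ g' x := h x
      unfold tautAF
      split_ifs <;> linarith
    refine Set.monotone_projIcc zero_le_one ?_
    linarith [k (c - 1), k (c + 1)]

theorem exists_Tt (lo : ℤ → ℤ) {a w : ℤ} (h : a < w) (b : ℤ) : ∃ f, Tt lo a w b f := by
  have : Fact ((0 : ℝ) ≤ 1) := ⟨zero_le_one⟩
  obtain ⟨g, hg⟩ : ∃ g, tautAT lo a w b g = g := ⟨_, (tautAT lo a w b).map_lfp⟩
  have e : ∀ c, a < c → c < w → tautAF lo a w b g c = lo c + max 0 (min 1
      ((tautAF lo a w b g (c - 1) + tautAF lo a w b g (c + 1)) / 2 - lo c)) := by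
    intro c h1 h2
    rw [tautAF, if_neg h1.not_ge, if_neg h2.not_ge, ← congrFun hg c]
    rfl
  refine ⟨tautAF lo a w b g, if_pos le_rfl, by rw [tautAF, if_neg h.not_ge, if_pos le_rfl],
    fun c h1 h2 => ?_, fun c h1 h2 h3 => ?_, fun c h1 h2 h3 => ?_⟩
  · rw [tautAF, if_neg h1.not_ge, if_neg h2.not_ge]
    constructor <;> linarith only [(g c).2.1, (g c).2.2]
  · have := e c h1 h2
    generalize tautAF lo a w b g = f at *
    rw [max_def, min_def] at this
    split_ifs at this <;> linarith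
  · have := e c h1 h2
    generalize tautAF lo a w b g = f at *
    rw [max_def, min_def] at this
    split_ifs at this <;> linarith

/-- Comparison: starting further right and ending lower gives a lower string. -/
theorem Tt.le {lo : ℤ → ℤ} {a a' w b b' : ℤ} {f f' : ℤ → ℝ} (h : Tt lo a w b f)
    (h' : Tt lo a' w b' f') (ha : a ≤ a') (hw : a' < w) (h0 : 0 ≤ lo a') (hb : b' ≤ b) :
    ∀ c, a' ≤ c → c ≤ w → f' c ≤ f c := by
  obtain ⟨m, hm, hmax⟩ := (Finset.Icc a' w).exists_max_image (fun c => f' c - f c)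
    ⟨a', by simp [hw.le]⟩
  simp only [Finset.mem_Icc] at hm hmax
  have ha' : f' a' - f a' ≤ 0 := by
    rw [h'.left]
    rcases ha.eq_or_lt with e | e
    · rw [← e, h.left, sub_zero]
    · have h1 := (h.mem a' e hw).1
      have h2 : (0 : ℝ) ≤ lo a' := by exact_mod_cast h0
      linarith
  by_contra hc
  push Not at hc
  obtain ⟨c, h1, h2, h3⟩ := hc
  have hpos : 0 < f' m - f m := by linarith only [h3, hmax, h1, h2, hmax c ⟨h1, h2⟩]
  have key : ∀ x, a' ≤ x → x ≤ w → f' x - f x < f' m - f m := by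
    intro x hx
    induction x, hx using Int.leInduction with
    | base => exact fun _ => by linarith
    | succ x hx ih =>
      intro hxw
      have ih := ih (by omega)
      rcases hxw.eq_or_lt with e | e
      · have : (b' : ℝ) ≤ b := by exact_mod_cast hb
        rw [e, h.right, h'.right]
        linarith only [hpos, this]
      · by_contra hn
        have k1 := hmax (x + 1 + 1) ⟨by omega, by omega⟩
        have k2 := h.mem (x + 1) (by omega) e
        have k3 := h'.mem (x + 1) (by omega) e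
        have k4 := h.conc (x + 1) (by omega) e (by linarith only [hpos, hn, k3, k3.2])
        have k5 := h'.conv (x + 1) (by omega) e (by linarith [k2.1])
        rw [add_sub_cancel_right] at k4 k5
        linarith only [ih, hn, k1, k4, k5]
  exact (key m hm.1 hm.2).false

theorem Tt.mono {lo : ℤ → ℤ} (hm : Monotone lo) {a w b : ℤ} {f : ℤ → ℝ} (h : Tt lo a w b f)
    (h0 : 0 ≤ lo a) (hb : lo (w - 1) < b) : ∀ c, a ≤ c → c < w → f c ≤ f (c + 1) := by
  have hb' : (lo (w - 1) : ℝ) + 1 ≤ b := by exact_mod_cast hb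
  have hl : ∀ c, (lo c : ℝ) ≤ lo (c + 1) := fun c => by exact_mod_cast hm (by omega : c ≤ c + 1)
  have h0' : (0 : ℝ) ≤ lo a := by exact_mod_cast h0
  intro c hc
  induction c, hc using Int.leInduction with
  | base =>
    intro hw
    rw [h.left]
    rcases (show a + 1 ≤ w from hw).eq_or_lt with e | e
    · rw [e, h.right]
      rw [← e, add_sub_cancel_right] at hb'
      linarith
    · linarith only [h0', h, e, hl, (h.mem (a + 1) (by omega) e).1, hl a]
  | succ c hc ih =>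
    intro hw
    have ih := ih (by omega)
    have k := h.mem (c + 1) (by omega) hw
    rcases (show c + 1 + 1 ≤ w from hw).eq_or_lt with e | e
    · rw [e, h.right]
      rw [← e, add_sub_cancel_right] at hb'
      linarith [k.2]
    · by_contra hn
      have k1 := (h.mem (c + 1 + 1) (by omega) e).1
      have k2 := h.conv (c + 1) (by omega) hw (by linarith only [hn, k1, hl, hl (c + 1)])
      rw [add_sub_cancel_right] at k2
      linarith

end OneOne
end

-- merged part: Pool.Agent.Work.MP_d5331a_gt.OO.TautB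
section
/-!
Choice of the end points of the string.

Plan. Let `t = lo (w - 1) ≥ 1` and `m` the largest column with `lo m = 0`; `m + 1 < w`. For `a ≤ m`
and `b > t` let `F a b` be the taut string (`exists_Tt`; unique on `[a, w]` by `Tt.le`, monotone
by `Tt.mono`). Statuses: `U a b : 1 ≤ F a b m`, `D a b : F a b (m + 1) ≤ 1`,
`D' a b : F a b (w - 1) ≤ t`, `U' a b : t + 1 ≤ F a b (w - 1)`.
(1) For `c ≤ m` with `0 < F c < 1` the string is straight. If `F c = 0` for some `a < c ≤ m` then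
concavity at `c, c + 1, …, m` gives `F (m + 1) ≤ 0 < lo (m + 1)`; so this does not happen.
(2) Not both `U a b` and `D (a + 1) b` (for `a < m`). Let `f = F a b`, `g = F (a + 1) b`. If also
`g m = 1` then the slope of `g` on `[m, m + 1]` is `0`, convexity going left gives `g (a + 1) ≥ 1`
(and `a + 1 = m` gives `g m = 0`). So `g` is straight from `(a + 1, 0)` to `(m + 1, 1)`, of slope
`1 / (m - a)`, and concave at `m + 1`. The string `f` is convex on `(a, m]` (it is positive there)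
with `f a = 0`, `f m = 1`, so its slope on `[m, m + 1]` is at least `1 / (m - a)`. Then
`d = f - g` has `d (m + 1) > 0`, and `f (c + 1) - f c ≥ 1 / (m - a) ≥ g (c + 1) - g c` for all
`c ≥ m + 1` by induction (where `d > 0`, `f` is convex and `g` is concave); so `d w > 0`, absurd.
(3) There is `a ≤ m` with `¬ D a b`: if `D a b` then the slope of `F a b` on `[m, m + 1]` is at most
`1 / (m + 1 - a)` (straight if `F m < 1`, and `0` if `F m = 1`); by concavity the slopes stay at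
most this value as long as `F < 2 ≤ lo + 1`; for `a = m - (w - m)` we get `F w < 2 ≤ b`, absurd.
So `a₀ = m - (w - m)` works for every `b > t`.
(4) Not both `D' a b` and `U' a (b + 1)`, for `b ≥ t` where `D' a t` is replaced by the direct
argument: symmetric to (2), `d = F a (b + 1) - F a b` has `d (w - 1) = 1` and does not decrease going
left, against `d a = 0`. For the smallest value `b = t + 1`: `U' a (t + 1)` gives slope `0` on
`[w - 1, w]`; convexity going left (`F c = t + 1 > lo c`) gives `F a ≥ t + 1`, absurd.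
(5) `¬ D' a (2 * t + 1)`: concavity at `w - 1` would give `t - F (w - 2) ≥ t + 1` with
`F (w - 2) ≥ 0`.
(6) `φ b` is the largest `a ∈ [a₀, m]` with `¬ D a b`, `ψ a` is the smallest `b ∈ [t + 1, 2 t + 1]`
with `¬ D' a b`. Both are monotone (`Tt.le`), so `ψ ∘ φ` has a fixed point `b` in the finite
interval (take the largest `b` with `b ≤ ψ (φ b)`). With `a = φ b` none of the four statuses holds
(`U m b` is false because `F m b m = 0`).
-/

set_option autoImplicit false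

namespace OneOne

theorem TautB_cv {f : ℤ → ℝ} {p q : ℤ} (hpq : p ≤ q)
    (h : ∀ c, p < c → c ≤ q → 2 * f c ≤ f (c - 1) + f (c + 1)) :
    f q - f p ≤ (q - p) * (f (q + 1) - f q) := by
  induction q, hpq using Int.leInduction with
  | base => simp
  | succ q hq ih =>
    have h1 := ih fun c a b => h c a (by omega)
    have h2 := h (q + 1) (by omega) le_rfl
    have h3 : (0 : ℝ) ≤ q + 1 - p := by
      have : (p : ℝ) ≤ q := by exact_mod_cast hq
      linarith only [this]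
    rw [add_sub_cancel_right] at h2
    have h4 := mul_le_mul_of_nonneg_left (show f (q + 1) - f q ≤ f (q + 1 + 1) - f (q + 1) by
      linarith) h3
    push_cast
    linarith

theorem TautB_up {d : ℤ → ℝ} {p q : ℤ} (hpq : p < q)
    (h : ∀ c, p < c → c < q → 0 < d c → 2 * d c ≤ d (c - 1) + d (c + 1)) (h0 : 0 < d p)
    (h1 : d p ≤ d (p + 1)) : 0 < d q := by
  have key : ∀ c, p ≤ c → c < q → 0 < d c ∧ d c ≤ d (c + 1) := by
    intro c hc
    induction c, hc using Int.leInduction with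
    | base => exact fun _ => ⟨h0, h1⟩
    | succ c hc ih =>
      intro hq
      obtain ⟨k1, k2⟩ := ih (by omega)
      have := h (c + 1) (by omega) hq (by linarith)
      rw [add_sub_cancel_right] at this
      exact ⟨by linarith, by linarith⟩
  obtain ⟨k1, k2⟩ := key (q - 1) (by omega) (by omega)
  rw [sub_add_cancel] at k2
  linarith

theorem TautB_down {d : ℤ → ℝ} {p q : ℤ} (hpq : p < q)
    (h : ∀ c, p < c → c < q → 0 < d c → 2 * d c ≤ d (c - 1) + d (c + 1)) (h0 : 0 < d q)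
    (h1 : d q ≤ d (q - 1)) : 0 < d p := by
  have := TautB_up (d := fun c => d (-c)) (p := -q) (q := -p) (by omega) (fun c a b k => by
    have := h (-c) (by omega) (by omega) k
    rw [show -(c - 1) = -c + 1 by ring, show -(c + 1) = -c - 1 by ring]
    linarith) (by rwa [neg_neg]) (by rwa [neg_neg, show -(-q + 1) = q - 1 by ring])
  rwa [neg_neg] at this

variable {lo : ℤ → ℤ} {a a' w b b' m : ℤ} {f g : ℤ → ℝ}

theorem TautB_sub (hf : Tt lo a w b f) (hg : Tt lo a' w b' g) {c : ℤ} (h : a < c) (h' : a' < c)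
    (hw : c < w) (k : 0 < f c - g c) :
    2 * (f c - g c) ≤ f (c - 1) - g (c - 1) + (f (c + 1) - g (c + 1)) := by
  have k1 := hf.conv c h hw (by linarith [(hg.mem c h' hw).1])
  have k2 := hg.conc c h' hw (by linarith [(hf.mem c h hw).2])
  linarith

theorem TautB_nonneg (h0 : ∀ c, 0 ≤ lo c) (hf : Tt lo a w b f) {c : ℤ} (h : a ≤ c) (hw : c < w) :
    0 ≤ f c := by
  rcases h.eq_or_lt with rfl | h
  · exact hf.left.ge
  · exact le_trans (by exact_mod_cast h0 c) (hf.mem c h hw).1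

theorem TautB_pos (h0 : ∀ c, 0 ≤ lo c) (h2 : 1 ≤ lo (m + 1)) (hw : m + 1 < w) (hf : Tt lo a w b f) :
    ∀ c ≤ m + 1, a < c → 0 < f c := by
  intro c hc
  induction c, hc using Int.leInductionDown with
  | base =>
    intro h
    have k1 := (hf.mem _ h hw).1
    have k2 : (1 : ℝ) ≤ lo (m + 1) := by exact_mod_cast h2
    linarith
  | pred c hc ih =>
    intro h
    by_contra k
    have k1 : (0 : ℝ) ≤ lo (c - 1) := by exact_mod_cast h0 _
    have k2 := hf.conc (c - 1) h (by omega) (by linarith [not_lt.1 k])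
    have k3 := TautB_nonneg h0 hf (c := c - 1 - 1) (by omega) (by omega)
    rw [sub_add_cancel] at k2
    linarith only [k, k2, k3, ih, h, ih (by omega), not_lt.1 k]

theorem TautB_le (hm : Monotone lo) (h0 : ∀ c, 0 ≤ lo c) (hf : Tt lo a w b f) (hb : lo (w - 1) < b)
    {c c' : ℤ} (h : a ≤ c) (h' : c ≤ c') (hw : c' ≤ w) : f c ≤ f c' := by
  induction c', h' using Int.leInduction with
  | base => exact le_rfl
  | succ c' hc ih => exact (ih (by omega)).trans (hf.mono hm (h0 a) hb c' (by omega) (by omega))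

/-- the last slope in the bottom row, from below -/
theorem TautB_U (h0 : ∀ c, 0 ≤ lo c) (h1 : ∀ c ≤ m, lo c = 0) (h2 : 1 ≤ lo (m + 1))
    (hw : m + 1 < w) (hf : Tt lo a w b f) (ha : a ≤ m) : f m ≤ (m - a) * (f (m + 1) - f m) := by
  have := TautB_cv ha fun c k1 k2 => hf.conv c k1 (by omega) (by
    rw [h1 c k2, Int.cast_zero]
    exact TautB_pos h0 h2 hw hf c (by omega) k1)
  rwa [hf.left, sub_zero] at this

/-- the last slope in the bottom row, from above -/
theorem TautB_D (hm : Monotone lo) (h0 : ∀ c, 0 ≤ lo c) (h1 : ∀ c ≤ m, lo c = 0)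
    (h2 : 1 ≤ lo (m + 1)) (hw : m + 1 < w) (hf : Tt lo a w b f) (hb : lo (w - 1) < b) (ha : a ≤ m)
    (hD : f (m + 1) ≤ 1) : f m < 1 ∧ (m + 1 - a) * (f (m + 1) - f m) ≤ 1 := by
  have k1 : f m < 1 := by
    by_contra k
    have k2 : (a : ℝ) ≤ m := by exact_mod_cast ha
    have k3 := mul_nonneg (sub_nonneg.2 k2) (sub_nonneg.2 (hD.trans (not_lt.1 k)))
    linarith only [k, k3, h0, h1, h2, hw, hf, ha, TautB_U h0 h1 h2 hw hf ha, not_lt.1 k]
  have := TautB_cv (f := fun c => -f c) ha fun c k2 k3 => by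
    have := hf.conc c k2 (by omega) (by
      rw [h1 c k3, Int.cast_zero, zero_add]
      exact (TautB_le hm h0 hf hb k2.le k3 (by omega)).trans_lt k1)
    linarith
  rw [hf.left] at this
  exact ⟨k1, by linarith⟩

theorem TautB_two (hm : Monotone lo) (h0 : ∀ c, 0 ≤ lo c) (h1 : ∀ c ≤ m, lo c = 0)
    (h2 : 1 ≤ lo (m + 1)) (hw : m + 1 < w) (hf : Tt lo a w b f) (hg : Tt lo (a + 1) w b g)
    (hb : lo (w - 1) < b) (ha : a < m) (hD : g (m + 1) ≤ 1) : f m < 1 := by
  by_contra k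
  obtain ⟨k1, k2⟩ := TautB_D hm h0 h1 h2 hw hg hb ha hD
  have k3 := TautB_U h0 h1 h2 hw hf ha.le
  have k4 : (0 : ℝ) < m - a := sub_pos.2 (by exact_mod_cast ha)
  push_cast at k2
  have k5 : g (m + 1) - g m ≤ f (m + 1) - f m :=
    le_of_mul_le_mul_left (by linarith only [k, k3, k2, not_lt.1 k]) k4
  have := TautB_up (d := fun c => f c - g c) (p := m) (q := w) (by omega)
    (fun c a1 a2 => TautB_sub hf hg (by omega) (by omega) a2) (by linarith [not_lt.1 k])
    (by linarith)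
  rw [hf.right, hg.right, sub_self] at this
  exact lt_irrefl _ this

theorem TautB_three (hm : Monotone lo) (h0 : ∀ c, 0 ≤ lo c) (h1 : ∀ c ≤ m, lo c = 0)
    (h2 : 1 ≤ lo (m + 1)) (hw : m + 1 < w) (hf : Tt lo (2 * m + 1 - w) w b f)
    (hb : lo (w - 1) < b) : 1 < f (m + 1) := by
  by_contra k
  obtain ⟨k1, k2⟩ := TautB_D hm h0 h1 h2 hw hf hb (by omega) (not_lt.1 k)
  have k3 : (0 : ℝ) < w - m := sub_pos.2 (by exact_mod_cast (by omega : m < w))
  have k4 : (2 : ℝ) ≤ b := by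
    have := hm (show m + 1 ≤ w - 1 by omega)
    exact_mod_cast (by omega : 2 ≤ b)
  push_cast at k2
  have := TautB_up (d := fun c => (w - m) + (c - m) - (w - m) * f c) (p := m) (q := w) (by omega)
    (fun c a1 a2 a3 => by
      have b1 : (1 : ℝ) ≤ lo c := by exact_mod_cast h2.trans (hm a1)
      have b2 : (c : ℝ) < w := by exact_mod_cast a2
      have b3 : f c < 2 := lt_of_mul_lt_mul_left (by linarith only [a3, b2]) k3.le
      have b4 := mul_le_mul_of_nonneg_left (hf.conc c (by omega) a2 (by linarith)) k3.le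
      push_cast
      linarith)
    (by linarith only [k3, k1, mul_pos k3 (sub_pos.2 k1)]) (by push_cast; linarith)
  rw [hf.right] at this
  linarith [mul_le_mul_of_nonneg_left k4 k3.le]

theorem TautB_four (hf : Tt lo a w b f) (hg : Tt lo a w (b - 1) g) (ha : a < w)
    (hD : g (w - 1) ≤ lo (w - 1)) : f (w - 1) < lo (w - 1) + 1 := by
  by_contra k
  have e : f w - g w = 1 := by
    rw [hf.right, hg.right]
    push_cast
    ring
  have := TautB_down (d := fun c => f c - g c) ha (fun c a1 a2 => TautB_sub hf hg a1 a1 a2)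
    (by linarith only [e]) (by linarith [not_lt.1 k])
  rw [hf.left, hg.left, sub_self] at this
  exact lt_irrefl _ this

theorem TautB_four' (hm : Monotone lo) (h0 : ∀ c, 0 ≤ lo c) (hf : Tt lo a w (lo (w - 1) + 1) f)
    (ha : a < w) : f (w - 1) < lo (w - 1) + 1 := by
  by_contra k
  have e := hf.right
  have k1 : (0 : ℝ) ≤ lo (w - 1) := by exact_mod_cast h0 _
  push_cast at e
  have := TautB_down (d := fun c => f c - lo (w - 1)) ha (fun c a1 a2 a3 => by
    have b1 : (lo c : ℝ) ≤ lo (w - 1) := by exact_mod_cast hm (by omega)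
    linarith only [hf, a1, a2, a3, b1, hf.conv c a1 a2 (by linarith)]) (by linarith) (by linarith [not_lt.1 k])
  rw [hf.left] at this
  linarith

theorem TautB_five (h0 : ∀ c, 0 ≤ lo c) (hf : Tt lo a w (2 * lo (w - 1) + 1) f) (ha : a + 1 < w) :
    lo (w - 1) < f (w - 1) := by
  by_contra k
  have k1 := hf.conc (w - 1) (by omega) (by omega) (by linarith [not_lt.1 k])
  have k2 := TautB_nonneg h0 hf (c := w - 1 - 1) (by omega) (by omega)
  rw [sub_add_cancel, hf.right] at k1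
  push_cast at k1
  linarith only [k, k2, k1, not_lt.1 k]

theorem exists_good {lo : ℤ → ℤ} (hm : Monotone lo) {A : ℤ} (hA : ∀ c ≤ A, lo c = 0) {w : ℤ}
    (ht : 1 ≤ lo (w - 1)) : ∃ (a b m : ℤ) (f : ℤ → ℝ), Tt lo a w b f ∧ a ≤ m ∧ m + 1 < w ∧
      lo m = 0 ∧ lo (w - 1) < b ∧ (∀ c, a < c → c ≤ m → 0 < f c ∧ f c < 1) ∧ 1 < f (m + 1) ∧
      lo (w - 1) < f (w - 1) ∧ f (w - 1) < lo (w - 1) + 1 := by
  have h0 : ∀ c, 0 ≤ lo c := fun c => (hA (min c A) (min_le_right _ _)).ge.trans (hm (min_le_left _ _))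
  obtain ⟨m, m1, m2⟩ := Int.exists_greatest_of_bdd (P := fun c => lo c = 0)
    ⟨w - 2, fun c hc => by
      by_contra k
      have := hm (show w - 1 ≤ c by omega)
      omega⟩ ⟨A, hA A le_rfl⟩
  have h1 : ∀ c ≤ m, lo c = 0 := fun c hc => le_antisymm (m1 ▸ hm hc) (h0 c)
  have h2 : 1 ≤ lo (m + 1) := by
    have k1 := h0 (m + 1)
    have k2 := m2 (m + 1)
    omega
  have hw : m + 1 < w := by
    by_contra k
    have := h1 (w - 1) (by omega)
    omega
  have ex : ∀ a b, ∃ f, a ≤ m → Tt lo a w b f := fun a b => by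
    by_cases k : a ≤ m
    · exact (exists_Tt lo (by omega) b).imp fun _ h _ => h
    · exact ⟨0, fun h => absurd h k⟩
  choose F hF using ex
  obtain ⟨_, ⟨a, b, rfl, a1, b1, b2, s1, s2⟩, hmax⟩ := Int.exists_greatest_of_bdd
    (P := fun n => ∃ a b, a + b = n ∧ a ≤ m ∧ lo (w - 1) < b ∧ b ≤ 2 * lo (w - 1) + 1 ∧
      1 < F a b (m + 1) ∧ (b = lo (w - 1) + 1 ∨ F a (b - 1) (w - 1) ≤ lo (w - 1)))
    ⟨m + (2 * lo (w - 1) + 1), fun n ⟨a, b, e, k1, _, k2, _⟩ => by omega⟩
    ⟨_, 2 * m + 1 - w, lo (w - 1) + 1, rfl, by omega, by omega, by omega,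
      TautB_three hm h0 h1 h2 hw (hF _ _ (by omega)) (by omega), Or.inl rfl⟩
  refine ⟨a, b, m, F a b, hF a b a1, a1, hw, m1, b1, fun c c1 c2 => ⟨TautB_pos h0 h2 hw (hF a b a1) c
    (by omega) c1, ?_⟩, s1, ?_, ?_⟩
  · refine (TautB_le hm h0 (hF a b a1) b1 c1.le c2 (by omega)).trans_lt
      (TautB_two hm h0 h1 h2 hw (hF a b a1) (hF (a + 1) b (by omega)) b1 (by omega) (not_lt.1 fun k => ?_))
    have := hmax _ ⟨a + 1, b, rfl, by omega, b1, b2, k, s2.imp_right fun k' => le_trans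
      ((hF a _ a1).le (hF (a + 1) _ (by omega)) (by omega) (by omega) (h0 _) le_rfl _ (by omega)
        (by omega)) k'⟩
    omega
  · by_contra k
    have k1 : b ≠ 2 * lo (w - 1) + 1 := fun e =>
      k (TautB_five (a := a) h0 (by rw [← e]; exact hF a b a1) (by omega))
    have := hmax _ ⟨a, b + 1, rfl, a1, by omega, by omega, s1.trans_le
      ((hF a _ a1).le (hF a b a1) le_rfl (by omega) (h0 _) (by omega) _ (by omega) (by omega)),
      Or.inr (by rw [add_sub_cancel_right]; exact not_lt.1 k)⟩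
    omega
  · rcases s2 with k | k
    · exact TautB_four' (a := a) hm h0 (by rw [← k]; exact hF a b a1) (by omega)
    · exact TautB_four (hF a b a1) (hF a _ a1) (by omega) k

end OneOne
end
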