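import Pool.Agent.Work.MP_d5331a_gt.OO.Path

/-!
The tilt.

Plan. `x ↦ |x - round x|` is the distance to `ℤ` (`abs_sub_round_eq_min`, `round_le`); it is
1-Lipschitz, even and 1-periodic; `0 ≤ tG ≤ 1 / 2` because `ε / ‖lam i‖ ≤ 1 / 128`. `tδ_neg`:
`tm i (-ζ - β) = -tm i (ζ - β) - tm i (2 * β)` with `2 * β` in the lattice (`two_β`, `tm_vec`).
`tδ_strict`: `ρ ↦ ∑ tent (ρ - i) * g i` with `0 ≤ g i ≤ 1 / 2` is 1-Lipschitz because the supports of
the tents are disjoint; a cheap way: strict monotonicity on each interval `[n - 1 / 2, n + 1 / 2]`,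
where only the term `i = n` survives, then `StrictMonoOn.union` or induction; or prove
`∑ i, |tent (ρ' - i) - tent (ρ - i)| ≤ 4 * |ρ' - ρ|` (at most two terms for each of the points; the
factor `1 / 4 * 1 / 2 * 4 < 1` still suffices).
`dep'_level`: only the term `i + 1` survives, `tm (i + 1) (u (i + 1)) = 1 / ‖lam (i + 1)‖`
(`lam_eq`, `tm_lam`, `nn_self`), and the value lies in `[ε / ‖lam‖, 1 / 2 - ε / ‖lam‖]`.
`dep'_band`: only the terms `j`, `j + 1` survive; `s ↦ edK j s` is `8 ε`-Lipschitz on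
`[-1 / 2, 1 / 2]` (`|a j|, |b j| < π`, `Real.norm_exp_I_mul_ofReal_sub_one_le` or
`Real.abs_sin_sub_sin_le`), `tm i` is `(|C i| + |D i|)`-Lipschitz (`abs_tm_le`, `Good.small`), so
`tG i ∘ path` is `1 / 8`-Lipschitz and the perturbation has Lipschitz constant
`≤ (2 * (2 * 1 / 2 + 1 / 8)) / 4 < 1`.
`dep'_strict`: glue the pieces (`pieces`, or induction with `StrictMonoOn.union`).
-/

set_option autoImplicit false

open Complex Set

namespace OneOne

open Neuwirth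

/-- Distance to the integers. -/
noncomputable def tiltDz (x : ℝ) : ℝ := |x - round x|

theorem tiltDz_le (x : ℝ) (z : ℤ) : tiltDz x ≤ |x - z| := round_le x z

theorem tiltDz_lip' (x y : ℝ) : tiltDz x - tiltDz y ≤ |x - y| := by
  have h1 := tiltDz_le x (round y)
  have h2 := abs_add_le (x - y) (y - round y)
  rw [sub_add_sub_cancel] at h2
  rw [tiltDz, tiltDz] at *
  linarith

theorem tiltDz_lip (x y : ℝ) : |tiltDz x - tiltDz y| ≤ |x - y| := by
  have h1 := tiltDz_lip' x y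
  have h2 := tiltDz_lip' y x
  rw [abs_sub_comm y x] at h2
  exact abs_sub_le_iff.2 ⟨h1, h2⟩

theorem tiltDz_cont : Continuous tiltDz :=
  LipschitzWith.continuous (K := 1) (LipschitzWith.of_dist_le_mul fun x y => by
    simpa [Real.dist_eq] using tiltDz_lip x y)

theorem tiltDz_add (x : ℝ) (z : ℤ) : tiltDz (x + z) = tiltDz x := by
  rw [tiltDz, tiltDz, round_add_intCast]
  push_cast
  congr 1
  ring

theorem tiltDz_neg' (x : ℝ) : tiltDz (-x) ≤ tiltDz x := by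
  have h := tiltDz_le (-x) (-round x)
  refine h.trans (le_of_eq ?_)
  rw [tiltDz, ← abs_neg (x - round x)]
  push_cast
  congr 1
  ring

theorem tiltDz_neg (x : ℝ) : tiltDz (-x) = tiltDz x :=
  le_antisymm (tiltDz_neg' x) (by simpa using tiltDz_neg' (-x))

theorem tiltDz_eq {x : ℝ} (h0 : 0 ≤ x) (h1 : x ≤ 1 / 2) : tiltDz x = x := by
  refine le_antisymm (by simpa [abs_of_nonneg h0] using tiltDz_le x 0) ?_
  rw [tiltDz]
  rcases le_or_gt (round x) 0 with h | h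
  · have h2 : ((round x : ℤ) : ℝ) ≤ 0 := by exact_mod_cast h
    linarith [le_abs_self (x - round x)]
  · have h2 : (1 : ℝ) ≤ ((round x : ℤ) : ℝ) := by exact_mod_cast h
    linarith [neg_abs_le (x - round x)]

theorem tilt_two (s : Finset ℕ) (f : ℕ → ℝ) {B : ℝ} (hB : 0 ≤ B) (a b : ℕ)
    (h0 : ∀ i ∈ s, i ≠ a → i ≠ b → f i = 0) (h1 : ∀ i ∈ s, f i ≤ B) : ∑ i ∈ s, f i ≤ 2 * B := by
  classical
  have h2 : ∑ i ∈ s, f i = ∑ i ∈ s ∩ {a, b}, f i := by
    refine (Finset.sum_subset Finset.inter_subset_left fun i hi hi' => ?_).symm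
    simp only [Finset.mem_inter, Finset.mem_insert, Finset.mem_singleton, not_and, not_or] at hi'
    exact h0 i hi (hi' hi).1 (hi' hi).2
  have h3 : (s ∩ {a, b}).card ≤ 2 :=
    (Finset.card_le_card Finset.inter_subset_right).trans Finset.card_le_two
  have h4 := Finset.sum_le_card_nsmul (s ∩ {a, b}) f B fun i hi =>
    h1 i (Finset.mem_inter.1 hi).1
  have h5 : ((s ∩ {a, b}).card : ℝ) ≤ 2 := by exact_mod_cast h3
  rw [h2]
  rw [nsmul_eq_mul] at h4
  exact h4.trans (mul_le_mul_of_nonneg_right h5 hB)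

theorem tilt_glue {f : ℝ → ℝ} {a b c : ℝ} (hab : a ≤ b) (hbc : b ≤ c)
    (h1 : StrictMonoOn f (Icc a b)) (h2 : StrictMonoOn f (Icc b c)) :
    StrictMonoOn f (Icc a c) := by
  rw [← Icc_union_Icc_eq_Icc hab hbc]
  exact h1.union h2 (isGreatest_Icc hab) (isLeast_Icc hbc)

theorem tilt_exp (x y : ℝ) : ‖exp ((x : ℂ) * I) - exp ((y : ℂ) * I)‖ ≤ |x - y| := by
  have h : exp ((x : ℂ) * I) - exp ((y : ℂ) * I) =
      exp ((y : ℂ) * I) * (exp (I * ((x - y : ℝ) : ℂ)) - 1) := by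
    rw [mul_sub, ← exp_add, mul_one]
    congr 2
    push_cast
    ring
  rw [h, norm_mul, norm_exp_ofReal_mul_I, one_mul]
  exact Real.norm_eq_abs (x - y) ▸ Real.norm_exp_I_mul_ofReal_sub_one_le

namespace Lev

theorem tilt_tent_nonneg (x : ℝ) : 0 ≤ tent x := le_max_left _ _

theorem tilt_tent_le (x : ℝ) : tent x ≤ 1 :=
  max_le zero_le_one (by linarith [abs_nonneg x])

theorem tilt_tent_zero {x : ℝ} (h : 1 / 2 ≤ |x|) : tent x = 0 := max_eq_left (by linarith)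

theorem tilt_tent_lip (x y : ℝ) : |tent x - tent y| ≤ 2 * |x - y| := by
  have h1 := abs_max_sub_max_le_max (0 : ℝ) (1 - 2 * |x|) 0 (1 - 2 * |y|)
  refine h1.trans (max_le (by simp) ?_)
  have h2 := abs_abs_sub_abs_le_abs_sub x y
  have h3 : 1 - 2 * |x| - (1 - 2 * |y|) = -2 * (|x| - |y|) := by ring
  rw [h3, abs_mul]
  norm_num
  exact h2

theorem tilt_tent_ne {ρ : ℝ} {i : ℕ} (h : i ≠ ⌊ρ + 1 / 2⌋₊) : tent (ρ - i) = 0 := by
  refine tilt_tent_zero (not_lt.1 fun h1 => h ?_)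
  obtain ⟨h2, h3⟩ := abs_lt.1 h1
  have h4 : (0 : ℝ) ≤ i := Nat.cast_nonneg i
  exact ((Nat.floor_eq_iff (by linarith)).2 ⟨by linarith, by linarith⟩).symm

theorem tilt_tG (M : Lev) (i : ℕ) (ζ : ℂ) : M.tG i ζ =
    max (M.ε / ‖M.lam i‖) (min (tiltDz (M.tm i (ζ - M.β (i - 1)))) (1 / 2 - M.ε / ‖M.lam i‖)) :=
  rfl

theorem tilt_tG_lip (M : Lev) (i : ℕ) (ζ ζ' : ℂ) :
    |M.tG i ζ - M.tG i ζ'| ≤ |M.tm i (ζ - ζ')| := by
  rw [tilt_tG, tilt_tG]
  refine (abs_max_sub_max_le_max _ _ _ _).trans (max_le (by simp) ?_)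
  refine (abs_min_sub_min_le_max _ _ _ _).trans (max_le ?_ (by simp))
  refine (tiltDz_lip _ _).trans (le_of_eq ?_)
  rw [← tm_sub, sub_sub_sub_cancel_right]

theorem tilt_level (M : Lev) {i : ℕ} (h1 : 1 ≤ i) (h2 : i ≤ M.l) (ζ : ℂ) :
    M.tδ (ζ, i) = M.tG i ζ / 4 := by
  rw [tδ, Finset.sum_eq_single i]
  · simp [tent]
  · intro j _ hj
    rw [tilt_tent_ne, zero_mul]
    intro h
    refine hj (h.trans ((Nat.floor_eq_iff (by positivity)).2 ⟨by simp, by norm_num⟩))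
  · intro h
    exact absurd (Finset.mem_Icc.2 ⟨h1, h2⟩) h

variable {M : Lev} (hM : M.Good)
include hM

theorem tilt_eta (i : ℕ) : 0 < M.ε / ‖M.lam i‖ ∧ M.ε / ‖M.lam i‖ ≤ 1 / 128 := by
  refine ⟨div_pos hM.ε_pos (norm_lam_pos hM i), ?_⟩
  have h := div_le_self hM.ε_pos.le (one_le_norm_lam hM i)
  linarith [eps_le hM]

theorem tilt_tG_mem (i : ℕ) (ζ : ℂ) : 0 ≤ M.tG i ζ ∧ M.tG i ζ ≤ 1 / 2 := by
  obtain ⟨h1, h2⟩ := tilt_eta hM i
  exact ⟨h1.le.trans (le_max_left _ _),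
    max_le (by linarith) ((min_le_right _ _).trans (by linarith))⟩

theorem tilt_tm_u (i : ℕ) : M.tm i (M.ε * M.u i) = M.ε / ‖M.lam i‖ := by
  have h1 := tm_lam (M := M) i i
  rw [nn_self hM, lam_eq hM i, tm_real_mul] at h1
  have h2 := norm_lam_pos hM i
  rw [tm_real_mul, eq_div_iff h2.ne']
  push_cast at h1
  linear_combination M.ε * h1

theorem tilt_tm_half (i : ℕ) : M.tm i (M.lam i / 2) = 1 / 2 := by
  rw [tm_half, tm_lam, nn_self hM]
  norm_num

theorem tilt_lip {ζ ζ' : ℂ} {ρ ρ' G : ℝ} (hG : 0 ≤ G)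
    (h : ∀ i, i ≤ M.l → |M.tm i (ζ - ζ')| ≤ G) :
    M.tδ (ζ, ρ) - M.tδ (ζ', ρ') ≤ (|ρ - ρ'| + G) / 2 := by
  have key : ∑ i ∈ Finset.Icc 1 M.l,
      (tent (ρ - i) * M.tG i ζ - tent (ρ' - i) * M.tG i ζ') ≤ 2 * (|ρ - ρ'| + G) := by
    refine tilt_two _ _ (by positivity) ⌊ρ + 1 / 2⌋₊ ⌊ρ' + 1 / 2⌋₊ ?_ ?_
    · intro i _ h1 h2
      rw [tilt_tent_ne h1, tilt_tent_ne h2]
      ring
    · intro i hi
      have h1 := (le_abs_self _).trans (tilt_tent_lip (ρ - i) (ρ' - i))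
      rw [sub_sub_sub_cancel_right] at h1
      have h2 := (le_abs_self _).trans
        ((tilt_tG_lip M i ζ ζ').trans (h i (Finset.mem_Icc.1 hi).2))
      obtain ⟨h3, h4⟩ := tilt_tG_mem hM i ζ
      have h5 := tilt_tent_nonneg (ρ' - i)
      have h6 := tilt_tent_le (ρ' - i)
      have h7 : (tent (ρ - i) - tent (ρ' - i)) * M.tG i ζ ≤ 2 * |ρ - ρ'| * (1 / 2) :=
        (mul_le_mul_of_nonneg_right h1 h3).trans
          (mul_le_mul_of_nonneg_left h4 (by positivity))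
      have h8 : tent (ρ' - i) * (M.tG i ζ - M.tG i ζ') ≤ 1 * G :=
        (mul_le_mul_of_nonneg_left h2 h5).trans (mul_le_mul_of_nonneg_right h6 hG)
      linarith
  rw [Finset.sum_sub_distrib] at key
  simp only [tδ]
  linarith

theorem tilt_edK {j : ℕ} (h1 : 1 ≤ j) (h2 : j < M.l) {s s' : ℝ} (hs' : |s'| ≤ 1 / 2) :
    ‖M.edK j s - M.edK j s'‖ ≤ 17 * M.ε * |s - s'| := by
  have he : |M.e j| = 1 := by rcases hM.sign j with h | h <;> simp [h]
  have ha : |M.a j| ≤ 4 := by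
    obtain ⟨a1, a2⟩ := hM.a_mem j h1 h2
    have h3 : |M.e j * M.a j| = |M.a j| := by rw [abs_mul, he, one_mul]
    rw [← h3, abs_of_pos a1]
    linarith [Real.pi_le_four]
  have hb : |M.b j| ≤ 4 := by
    obtain ⟨a1, a2⟩ := hM.b_mem j h1 h2
    have h3 : |M.e j * M.b j| = |M.b j| := by rw [abs_mul, he, one_mul]
    rw [← h3, abs_of_pos a1]
    linarith [Real.pi_le_four]
  have hang : |M.ang j s - M.ang j s'| ≤ 16 * |s - s'| := by
    have e1 : |min s 0 - min s' 0| ≤ |s - s'| :=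
      (abs_min_sub_min_le_max _ _ _ _).trans (max_le le_rfl (by simp))
    have e2 : |max s 0 - max s' 0| ≤ |s - s'| :=
      (abs_max_sub_max_le_max _ _ _ _).trans (max_le le_rfl (by simp))
    have e3 : M.ang j s - M.ang j s' =
        2 * (M.a j * (min s 0 - min s' 0) + M.b j * (max s 0 - max s' 0)) := by
      rw [ang, ang]; ring
    have e4 := abs_add_le (M.a j * (min s 0 - min s' 0)) (M.b j * (max s 0 - max s' 0))
    rw [abs_mul, abs_mul] at e4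
    have e5 := mul_le_mul ha e1 (abs_nonneg _) (by norm_num)
    have e6 := mul_le_mul hb e2 (abs_nonneg _) (by norm_num)
    rw [e3, abs_mul, abs_two]
    linarith
  have hdir : ‖M.dir j s - M.dir j s'‖ ≤ 16 * |s - s'| := by
    rw [dir, dir, ← mul_sub, norm_mul, hM.norm_ω, one_mul]
    exact (tilt_exp _ _).trans hang
  have e0 : M.edK j s - M.edK j s' =
      ((M.e j * (M.ε * (|s| - |s'|)) : ℝ) : ℂ) * M.dir j s +
        ((M.e j * (M.ε / 2 + M.ε * |s'|) : ℝ) : ℂ) * (M.dir j s - M.dir j s') := by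
    rw [edK, edK]
    push_cast
    ring
  have hε := hM.ε_pos
  have e1 : ‖((M.e j * (M.ε * (|s| - |s'|)) : ℝ) : ℂ) * M.dir j s‖ ≤ M.ε * |s - s'| := by
    rw [norm_mul, norm_dir hM, mul_one, norm_real, Real.norm_eq_abs, abs_mul, he, one_mul, abs_mul,
      abs_of_pos hε]
    exact mul_le_mul_of_nonneg_left (abs_abs_sub_abs_le_abs_sub s s') hε.le
  have e2 : ‖((M.e j * (M.ε / 2 + M.ε * |s'|) : ℝ) : ℂ) * (M.dir j s - M.dir j s')‖ ≤
      M.ε * (16 * |s - s'|) := by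
    rw [norm_mul, norm_real, Real.norm_eq_abs, abs_mul, he, one_mul, abs_of_pos (by positivity)]
    refine mul_le_mul ?_ hdir (norm_nonneg _) hε.le
    have := mul_le_mul_of_nonneg_left hs' hε.le
    linarith
  rw [e0]
  refine (norm_add_le _ _).trans ?_
  linarith

omit hM in
theorem continuous_tδ : Continuous M.tδ := by
  have h1 : ∀ i, Continuous (M.tG i) := fun i =>
    continuous_const.max ((tiltDz_cont.comp ((continuous_tm i).comp
      (continuous_id.sub continuous_const))).min continuous_const)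
  have h2 : Continuous tent := by unfold tent; fun_prop
  unfold tδ
  refine (continuous_finsetSum _ fun i _ => ?_).div_const _
  exact (h2.comp (continuous_snd.sub continuous_const)).mul ((h1 i).comp continuous_fst)

omit hM in
theorem tδ_add (ζ : ℂ) (ρ : ℝ) (k m : ℤ) : M.tδ (ζ + (k + m * I), ρ) = M.tδ (ζ, ρ) := by
  have h : ∀ i, M.tG i (ζ + (k + m * I)) = M.tG i ζ := fun i => by
    rw [tilt_tG, tilt_tG, add_sub_right_comm, tm_add, tm_vec, tiltDz_add]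
  simp only [tδ, h]

omit hM in
theorem tδ_neg (ζ : ℂ) (ρ : ℝ) : M.tδ (-ζ, ρ) = M.tδ (ζ, ρ) := by
  have h : ∀ i, M.tG i (-ζ) = M.tG i ζ := fun i => by
    obtain ⟨k, m, hk⟩ := two_β (M := M) (i - 1)
    have h1 : -ζ - M.β (i - 1) = -(ζ - M.β (i - 1) + (k + m * I)) := by
      linear_combination -hk
    rw [tilt_tG, tilt_tG, h1, tm_neg, tiltDz_neg, tm_add, tm_vec, tiltDz_add]
  simp only [tδ, h]

omit hM in
theorem tδ_out (ζ : ℂ) {ρ : ℝ} (h : ρ ≤ 1 / 2 ∨ M.l + 1 / 2 ≤ ρ) : M.tδ (ζ, ρ) = 0 := by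
  rw [tδ, Finset.sum_eq_zero, zero_div]
  intro i hi
  obtain ⟨h1, h2⟩ := Finset.mem_Icc.1 hi
  have h3 : (1 : ℝ) ≤ i := by exact_mod_cast h1
  have h4 : (i : ℝ) ≤ M.l := by exact_mod_cast h2
  rw [tilt_tent_zero, zero_mul]
  rcases h with h | h
  · linarith [neg_abs_le (ρ - i)]
  · linarith [le_abs_self (ρ - i)]

theorem tδ_strict (ζ : ℂ) : StrictMono fun ρ => ρ + M.tδ (ζ, ρ) := by
  intro ρ ρ' h
  have h1 := tilt_lip hM (ζ := ζ) (ζ' := ζ) (ρ := ρ) (ρ' := ρ') le_rfl fun i _ => by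
    rw [sub_self, tm_zero, abs_zero]
  rw [abs_of_neg (sub_neg.2 h)] at h1
  change ρ + M.tδ (ζ, ρ) < ρ' + M.tδ (ζ, ρ')
  linarith

theorem tδ_bot {t : ℝ} (ht : t ∈ Icc (-1 : ℝ) 1) :
    M.tδ (t * (M.ε * M.u 1), 1) = M.ε / ‖M.lam 1‖ / 4 := by
  have h := tilt_level M le_rfl hM.one_le (t * (M.ε * M.u 1))
  rw [Nat.cast_one] at h
  obtain ⟨h1, h2⟩ := tilt_eta hM 1
  rw [h, tilt_tG, Nat.sub_self, β_zero, sub_zero, tm_real_mul, tilt_tm_u hM, max_eq_left]
  refine (min_le_left _ _).trans ((tiltDz_le _ 0).trans ?_)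
  rw [Int.cast_zero, sub_zero, abs_mul, abs_of_pos h1]
  exact mul_le_of_le_one_left h1.le (abs_le.2 ht)

theorem tδ_top {t : ℝ} (ht : t ∈ Icc (-1 : ℝ) 1) :
    M.tδ (M.β M.l + t * -(M.ε * M.u M.l), M.l) = (1 / 2 - M.ε / ‖M.lam M.l‖) / 4 := by
  obtain ⟨h1, h2⟩ := tilt_eta hM M.l
  have h3 : M.β M.l + t * -(M.ε * M.u M.l) - M.β (M.l - 1) =
      M.lam M.l / 2 + t * -(M.ε * M.u M.l) := by
    have h4 := β_succ (M := M) (M.l - 1)
    rw [Nat.sub_add_cancel hM.one_le] at h4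
    linear_combination h4
  have h5 := tiltDz_lip' (1 / 2) (1 / 2 + t * -(M.ε / ‖M.lam M.l‖))
  have h6 : |1 / 2 - (1 / 2 + t * -(M.ε / ‖M.lam M.l‖))| ≤ M.ε / ‖M.lam M.l‖ := by
    rw [sub_add_cancel_left, abs_neg, abs_mul, abs_neg, abs_of_pos h1]
    exact mul_le_of_le_one_left h1.le (abs_le.2 ht)
  rw [tiltDz_eq (by norm_num) le_rfl] at h5
  rw [tilt_level M hM.one_le le_rfl, tilt_tG, h3, tm_add, tm_real_mul, tm_neg, tilt_tm_u hM,
    tilt_tm_half hM, min_eq_right (by linarith), max_eq_right (by linarith)]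

theorem dep'_level {i : ℕ} (hi : i < M.l) {t : ℝ} (ht : t ∈ Icc (0 : ℝ) 1) :
    M.dep' (2 * i + t) = i + 1 +
      (M.ε / ‖M.lam (i + 1)‖ + t * (1 / 2 - 2 * (M.ε / ‖M.lam (i + 1)‖))) / 4 := by
  obtain ⟨h1, h2⟩ := tilt_eta hM (i + 1)
  have h := tilt_level M (i := i + 1) (by omega) hi (M.pth M.edK (2 * i + t))
  rw [Nat.cast_add, Nat.cast_one] at h
  have h3 : M.pth M.edK (2 * i + t) - M.β (i + 1 - 1) = M.ε * M.u (i + 1) +
      t * (M.lam (i + 1) / 2 - (2 : ℝ) * (M.ε * M.u (i + 1))) := by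
    rw [pth_level (ends_K hM) hi ht, Nat.add_sub_cancel]
    push_cast
    ring
  have h4 : 0 ≤ t * (1 / 2 - 2 * (M.ε / ‖M.lam (i + 1)‖)) := mul_nonneg ht.1 (by linarith)
  have h5 : t * (1 / 2 - 2 * (M.ε / ‖M.lam (i + 1)‖)) ≤ 1 / 2 - 2 * (M.ε / ‖M.lam (i + 1)‖) :=
    mul_le_of_le_one_left (by linarith) ht.2
  rw [dep', dep_level hi ht, h, tilt_tG, h3, tm_add, tm_real_mul (i + 1) t, tm_sub,
    tm_real_mul (i + 1) 2, tilt_tm_u hM, tilt_tm_half hM, tiltDz_eq (by linarith) (by linarith),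
    min_eq_left (by linarith), max_eq_right (by linarith)]

theorem dep'_band {j : ℕ} (h1 : 1 ≤ j) (h2 : j < M.l) :
    StrictMonoOn M.dep' (Icc (2 * j - 1) (2 * j)) := by
  intro τ hτ τ' hτ' h
  obtain ⟨s, rfl⟩ : ∃ s : ℝ, τ = 2 * j - 1 / 2 + s := ⟨τ - (2 * j - 1 / 2), by ring⟩
  obtain ⟨s', rfl⟩ : ∃ s : ℝ, τ' = 2 * j - 1 / 2 + s := ⟨τ' - (2 * j - 1 / 2), by ring⟩
  have hs : |s| ≤ 1 / 2 := abs_le.2 ⟨by linarith [hτ.1], by linarith [hτ.2]⟩
  have hs' : |s'| ≤ 1 / 2 := abs_le.2 ⟨by linarith [hτ'.1], by linarith [hτ'.2]⟩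
  have hlt : s - s' < 0 := by linarith
  have h3 := tilt_edK hM h1 h2 (s := s) hs'
  rw [abs_of_neg hlt] at h3
  have h4 := tilt_lip hM (ζ := M.β j + M.edK j s) (ζ' := M.β j + M.edK j s')
    (ρ := j + 1 / 2 + s) (ρ' := j + 1 / 2 + s') (G := -(s - s') / 2) (by linarith) fun i hi => by
      rw [add_sub_add_left_eq_sub]
      have e1 := abs_tm_le (M := M) i (M.edK j s - M.edK j s')
      have e2 := hM.small i hi
      have e3 : ((|M.C i| + |M.D i| : ℤ) : ℝ) ≤ (|M.p i| + |M.q i| + |M.C i| + |M.D i| : ℤ) := by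
        have := abs_nonneg (M.p i); have := abs_nonneg (M.q i)
        exact_mod_cast (by omega)
      have e4 : (0 : ℝ) ≤ (|M.C i| + |M.D i| : ℤ) := by positivity
      have e5 := mul_le_mul_of_nonneg_left h3 e4
      have e6 : 64 * M.ε * ((|M.C i| + |M.D i| : ℤ) : ℝ) ≤ 1 :=
        (mul_le_mul_of_nonneg_left e3 (by linarith [hM.ε_pos])).trans e2
      have e7 := mul_le_mul_of_nonneg_right e6 (neg_pos.2 hlt).le
      linarith
  rw [add_sub_add_left_eq_sub, abs_of_neg hlt] at h4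
  rw [dep', dep', dep_band h1 h2 hs, dep_band h1 h2 hs', pth_band (ends_K hM) h1 h2 hs,
    pth_band (ends_K hM) h1 h2 hs']
  linarith

theorem tilt_level_strict {i : ℕ} (hi : i < M.l) :
    StrictMonoOn M.dep' (Icc (2 * i) (2 * i + 1)) := by
  intro τ hτ τ' hτ' h
  obtain ⟨t, rfl⟩ : ∃ s : ℝ, τ = 2 * i + s := ⟨τ - 2 * i, by ring⟩
  obtain ⟨t', rfl⟩ : ∃ s : ℝ, τ' = 2 * i + s := ⟨τ' - 2 * i, by ring⟩
  obtain ⟨h1, h2⟩ := tilt_eta hM (i + 1)
  rw [dep'_level hM hi ⟨by linarith [hτ.1], by linarith [hτ.2]⟩,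
    dep'_level hM hi ⟨by linarith [hτ'.1], by linarith [hτ'.2]⟩]
  have h3 := mul_lt_mul_of_pos_right (show t < t' by linarith)
    (show 0 < 1 / 2 - 2 * (M.ε / ‖M.lam (i + 1)‖) by linarith)
  linarith

theorem dep'_strict : StrictMonoOn M.dep' (Icc 0 (2 * M.l - 1)) := by
  have key : ∀ i : ℕ, i < M.l → StrictMonoOn M.dep' (Icc 0 (2 * i + 1)) := by
    intro i
    induction i with
    | zero => intro h; simpa using tilt_level_strict hM h
    | succ i ih =>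
      intro h
      have h0 : (0 : ℝ) ≤ i := Nat.cast_nonneg i
      have h1 := dep'_band hM (j := i + 1) (by omega) h
      have h2 : (2 * ((i + 1 : ℕ) : ℝ) - 1) = 2 * i + 1 := by push_cast; ring
      rw [h2] at h1
      refine tilt_glue (by positivity) (by linarith) ?_ (tilt_level_strict hM h)
      exact tilt_glue (by positivity) (by push_cast; linarith) (ih (by omega)) h1
  have h := key (M.l - 1) (by have := hM.one_le; omega)
  have h2 : (2 * ((M.l - 1 : ℕ) : ℝ) + 1) = 2 * M.l - 1 := by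
    rw [Nat.cast_sub hM.one_le]; push_cast; ring
  rwa [h2] at h

theorem continuous_dep' : Continuous M.dep' :=
  continuous_dep.add (continuous_tδ.comp ((continuous_pth (ends_K hM)).prodMk continuous_dep))

end Lev

end OneOne
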